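import Pool.Agent.H685R2.Poly.Raw
import Pool.Agent.H685R2.Poly.Eq

/-!
Definitions for exact uniform sampling of simplicial spanning trees.

Part 1: the mathematical objects and the machine model of the main theorem.
Part 2: the algorithm, as functions on lists.
-/

set_option autoImplicit false

noncomputable section

namespace Pool.Agent.H330ST

open Pool.Agent.H685R2.Poly

/-! ## Part 1: complexes, spanning trees, probabilistic machines -/

/-- `F` is a finite simplicial complex: a finite family of nonempty finite sets of vertices that
is closed under nonempty subsets. -/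
def IsComplex (F : Finset (Finset ℕ)) : Prop :=
  ∀ s ∈ F, s.Nonempty ∧ ∀ t ⊆ s, t.Nonempty → t ∈ F

/-- The dimension of `F` is `d`: the largest faces have `d + 1` vertices. -/
def HasDim (F : Finset (Finset ℕ)) (d : ℕ) : Prop :=
  (∃ s ∈ F, s.card = d + 1) ∧ ∀ s ∈ F, s.card ≤ d + 1

/-- the faces of dimension `k` -/
def kFaces (F : Finset (Finset ℕ)) (k : ℕ) : Finset (Finset ℕ) := F.filter (fun s => s.card = k + 1)

/-- The column of the boundary matrix `∂_d` of `F` at the `d`-face `s`; its rows are the
`(d-1)`-faces `t`. The entry is `(-1)^i` if `t` is `s` without its `i`-th vertex (in increasing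
order, the first vertex has number `0`), and `0` if `t` is not contained in `s`. -/
def col (F : Finset (Finset ℕ)) (d : ℕ) (s : Finset ℕ) : {t // t ∈ kFaces F (d - 1)} → ℚ :=
  fun t => ∑ v ∈ s, if s.erase v = t.1 then (-1) ^ (s.filter (fun u => u < v)).card else 0

/-- `T` is a `d`-dimensional spanning tree of `F`: it contains all faces of dimension less than
`d`, and the columns of `∂_d` at the `d`-faces of `T` form a basis of the column space of `∂_d`. -/
def IsSpanningTree (F : Finset (Finset ℕ)) (d : ℕ) (T : Finset (Finset ℕ)) : Prop :=
  T ⊆ F ∧ (∀ s ∈ F, s.card ≤ d → s ∈ T) ∧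
  LinearIndependent ℚ (fun s : {s // s ∈ kFaces T d} => col F d s.1) ∧
  Submodule.span ℚ (Set.range fun s : {s // s ∈ kFaces T d} => col F d s.1) =
    Submodule.span ℚ (Set.range fun s : {s // s ∈ kFaces F d} => col F d s.1)

/-- The list `l` is the list of all faces of `F` (in any order, without repetitions): each face is
written as the increasing list of its vertices, and the vertices are named by numbers smaller than
the number of faces. -/
def Lists (l : List (List ℕ)) (F : Finset (Finset ℕ)) : Prop :=
  l.Nodup ∧ (∀ f ∈ l, f.Pairwise (· < ·)) ∧ (∀ s : Finset ℕ, s ∈ F ↔ ∃ f ∈ l, f.toFinset = s) ∧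
    ∀ f ∈ l, ∀ v ∈ f, v < l.length

/-- bit string of a number (unary): `k` times `true, false`, then `false` -/
def encNat : ℕ → List Bool
  | 0 => [false]
  | k + 1 => true :: false :: encNat k

/-- bit string of a face: for each vertex a `true` and the string of the vertex, then `false` -/
def encFace : List ℕ → List Bool
  | [] => [false]
  | v :: f => true :: (encNat v ++ encFace f)

/-- bit string of a list of faces: for each face a `true` and the string of the face, then
`false` -/
def encFaces : List (List ℕ) → List Bool
  | [] => [false]
  | f :: l => true :: (encFace f ++ encFaces l)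

/-- Probabilistic Turing machines with finitely many stacks of bits (in the programming language
`Turing.TM2` of Mathlib): a finite set `K` of stacks, a finite set `Λ` of labels and a finite set
`σ` of internal states. The stack `io` contains the input at the start and the output at the end;
the stack `coins` is the random tape. -/
structure CoinTM where
  /-- the stacks -/
  K : Type
  /-- the labels -/
  Λ : Type
  /-- the internal states -/
  σ : Type
  [decK : DecidableEq K]
  [finK : Finite K]
  [finΛ : Finite Λ]
  [finσ : Finite σ]
  /-- stack with the input and the output -/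
  io : K
  /-- random tape -/
  coins : K
  io_ne : io ≠ coins
  /-- first label -/
  main : Λ
  /-- first internal state -/
  start : σ
  /-- the program -/
  prog : Λ → Turing.TM2.Stmt (fun _ : K => Bool) Λ σ

/-- initial configuration with input `x` and random bits `ρ` -/
def CoinTM.init (M : CoinTM) (x ρ : List Bool) :
    Turing.TM2.Cfg (fun _ : M.K => Bool) M.Λ M.σ :=
  have := M.decK
  ⟨some M.main, M.start, fun k => if k = M.io then x else if k = M.coins then ρ else []⟩

/-- The machine halts after exactly `t` steps and outputs `y`, if the input is `x` and the random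
tape contains the finite string `ρ`. -/
def CoinTM.HaltsOn (M : CoinTM) (x ρ : List Bool) (t : ℕ) (y : List Bool) : Prop :=
  have := M.decK
  ∃ c, (flip bind (Turing.TM2.step M.prog))^[t] (some (M.init x ρ)) = some c ∧ c.l = none ∧
    c.stk M.io = y

/-- The machine halts after exactly `t` steps and outputs `y`, if the input is `x` and the random
tape contains the infinite sequence `ω`: this is what happens for all sufficiently long finite
beginnings of `ω`. -/
def CoinTM.Halts (M : CoinTM) (x : List Bool) (ω : ℕ → Bool) (t : ℕ) (y : List Bool) : Prop :=
  ∃ L₀, ∀ L ≥ L₀, M.HaltsOn x ((List.range L).map ω) t y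

/-- the uniform distribution on `{false, true}` -/
def fair : MeasureTheory.Measure Bool := (PMF.uniformOfFintype Bool).toMeasure

instance : MeasureTheory.IsProbabilityMeasure fair := by unfold fair; infer_instance

/-- the distribution of an infinite sequence of independent fair coin flips -/
def coinMeasure : MeasureTheory.Measure (ℕ → Bool) :=
  MeasureTheory.Measure.infinitePi (fun _ : ℕ => fair)

instance : MeasureTheory.IsProbabilityMeasure coinMeasure := by
  unfold coinMeasure; infer_instance

/-! ## Part 2: the algorithm -/

/-! ### the exchange walk on masks -/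

/-- value of a bit string (most significant bit first), capped at `k` -/
def capVal (k : ℕ) (bs : List Bool) : ℕ :=
  bs.foldl (fun v b => min (2 * v + (if b = true then 1 else 0)) k) 0

/-- move the element at `i` to `j` -/
def exch (x : List Bool) (i j : ℕ) : List Bool := (x.set i false).set j true

/-- one step of the walk: the `2 * a` bits `bs` name two positions `i`, `j`; exchange them if
possible -/
def stp (ind : List Bool → Bool) (a : ℕ) (x bs : List Bool) : List Bool :=
  if (x.getD (capVal x.length (bs.take a)) false && (!(x.getD (capVal x.length (bs.drop a)) true) &&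
      ind (exch x (capVal x.length (bs.take a)) (capVal x.length (bs.drop a))))) = true then
    exch x (capVal x.length (bs.take a)) (capVal x.length (bs.drop a))
  else x

/-- state: mask and remaining coins -/
def runStep (ind : List Bool → Bool) (a : ℕ) (s : List Bool × List Bool) :
    List Bool × List Bool :=
  (stp ind a s.1 (s.2.take (2 * a)), s.2.drop (2 * a))

/-- `t` steps of the walk from the mask `x` with coins `w` -/
def run (ind : List Bool → Bool) (a t : ℕ) (x w : List Bool) : List Bool :=
  ((runStep ind a)^[t] (x, w)).1

/-- a maximal independent mask -/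
def greedy (ind : List Bool → Bool) (k : ℕ) : List Bool :=
  (List.range k).foldl (fun x j => if ind (x.set j true) = true then x.set j true else x)
    (List.replicate k false)

/-- number of elements of a mask -/
def cntT (x : List Bool) : ℕ := (x.filter (fun b => b)).length

/-! ### binary numbers (least significant bit first) -/

/-- value of a bit string -/
def val (a : List Bool) : ℕ := a.foldr (fun b v => (if b = true then 1 else 0) + 2 * v) 0

/-- one digit of the addition; state: carry, digits so far (reversed) -/
def addStep (a b : List Bool) (s : Bool × List Bool) (i : ℕ) : Bool × List Bool :=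
  (((a.getD i false && b.getD i false) || (a.getD i false && s.1)) || (b.getD i false && s.1),
    xor (xor (a.getD i false) (b.getD i false)) s.1 :: s.2)

/-- addition modulo `2 ^ L` -/
def bAdd (L : ℕ) (a b : List Bool) : List Bool :=
  ((List.range L).foldl (addStep a b) (false, [])).2.reverse

/-- one digit of the subtraction; state: borrow, digits so far (reversed) -/
def subStep (a b : List Bool) (s : Bool × List Bool) (i : ℕ) : Bool × List Bool :=
  (((!(a.getD i false) && b.getD i false) || (!(a.getD i false) && s.1)) || (b.getD i false && s.1),
    xor (xor (a.getD i false) (b.getD i false)) s.1 :: s.2)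

/-- subtraction modulo `2 ^ L` -/
def bSub (L : ℕ) (a b : List Bool) : List Bool :=
  ((List.range L).foldl (subStep a b) (false, [])).2.reverse

/-- comparison of the lowest `L` digits -/
def bLt (L : ℕ) (a b : List Bool) : Bool :=
  ((List.range L).foldl (subStep a b) (false, [])).1

def zeroB (L : ℕ) : List Bool := List.replicate L false

def oneB (L : ℕ) : List Bool := true :: List.replicate (L - 1) false

/-! ### dynamic programming over all masks -/

/-- all masks of length `k`, if `2 ^ k ≤ c` -/
def allMasks (c : ℕ) : ℕ → List (List Bool)
  | 0 => [[]]
  | k + 1 => ((allMasks c k).map (fun x => false :: x) ++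
      (allMasks c k).map (fun x => true :: x)).take c

def lookup (tb : List (List Bool × List Bool)) (x : List Bool) : List Bool :=
  ((tb.filter (fun p => decide (p.1 = x))).map (fun p => p.2)).headD []

def dpInit (L : ℕ) (x0 : List Bool) (ms : List (List Bool)) : List (List Bool × List Bool) :=
  ms.map (fun x => (x, if decide (x = x0) = true then oneB L else zeroB L))

def dpStep (ind : List Bool → Bool) (a L : ℕ) (bss : List (List Bool))
    (tb : List (List Bool × List Bool)) : List (List Bool × List Bool) :=
  tb.map (fun p => (p.1, bss.foldl (fun s bs => bAdd L s (lookup tb (stp ind a p.1 bs)))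
    (zeroB L)))

/-- table of the numbers of coin strings that lead from `x` to `x0` in `t` steps -/
def dpTab (ind : List Bool → Bool) (a L : ℕ) (bss : List (List Bool)) (t : ℕ) (x0 : List Bool)
    (ms : List (List Bool)) : List (List Bool × List Bool) :=
  (dpStep ind a L bss)^[t] (dpInit L x0 ms)

/-- largest entry of the table over the masks in `bs` -/
def maxB (L : ℕ) (tb : List (List Bool × List Bool)) (bs : List (List Bool)) : List Bool :=
  bs.foldl (fun s x => if bLt L s (lookup tb x) = true then lookup tb x else s) (zeroB L)

/-- weight `2 ^ (m - 1) * (cm - c x)` -/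
def wtB (m L : ℕ) (tb : List (List Bool × List Bool)) (cm : List Bool) (x : List Bool) :
    List Bool :=
  List.replicate (m - 1) false ++ bSub L cm (lookup tb x)

/-- selection of an element of `bs` by the number `U`, according to the weights -/
def selStep (m L : ℕ) (tb : List (List Bool × List Bool)) (cm : List Bool)
    (s : List Bool × List (List Bool)) (x : List Bool) : List Bool × List (List Bool) :=
  if s.2.isEmpty = true then
    (if bLt L s.1 (wtB m L tb cm x) = true then (s.1, [x])
      else (bSub L s.1 (wtB m L tb cm x), []))
  else s

def sel (m L : ℕ) (tb : List (List Bool × List Bool)) (cm : List Bool) (bs : List (List Bool))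
    (U : List Bool) : List (List Bool) :=
  (bs.foldl (selStep m L tb cm) (U, [])).2

/-- the masks of the bases, if `2 ^ x0.length ≤ c` and `x0` is the mask of a basis -/
def basisMasks (ind : List Bool → Bool) (c : ℕ) (x0 : List Bool) : List (List Bool) :=
  (allMasks c x0.length).filter (fun x => ind x && decide (cntT x = cntT x0))

/-- number of binary digits used -/
def digits (a t m : ℕ) : ℕ := m + 2 * a * t + 1

/-- the correction -/
def slowOut (ind : List Bool → Bool) (a t m : ℕ) (x0 : List Bool) (c : ℕ) (U : List Bool) :
    List (List Bool) :=
  sel m (digits a t m)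
    (dpTab ind a (digits a t m) (allMasks c (2 * a)) t x0 (allMasks c x0.length))
    (maxB (digits a t m)
      (dpTab ind a (digits a t m) (allMasks c (2 * a)) t x0 (allMasks c x0.length))
      (basisMasks ind c x0))
    (basisMasks ind c x0) U

/-- the usual case -/
def fastOut (ind : List Bool → Bool) (a t m : ℕ) (x0 w : List Bool) : List (List Bool) :=
  if w.headD false = true then [run ind a t x0 (w.drop m)] else []

/-- the correction is used if the first `m` coins are `false` -/
def slowFlag (m : ℕ) (w : List Bool) : Bool := (w.take m).all (fun b => !b)

/-- output of a block of `m + 2 * a * t` coins: `[]` (failure) or `[x]` -/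
def blockOut (ind : List Bool → Bool) (a t m : ℕ) (x0 : List Bool) (c : ℕ) (w : List Bool) :
    List (List Bool) :=
  if slowFlag m w = true then slowOut ind a t m x0 c (w.drop m) else fastOut ind a t m x0 w

/-! ### the independence test -/

/-- number of vertices of the largest faces -/
def dimP (l : List (List ℕ)) : ℕ := l.foldl (fun m f => max m f.length) 0

/-- the faces of dimension `d` -/
def topF (l : List (List ℕ)) : List (List ℕ) := l.filter (fun f => decide (f.length = dimP l))

/-- the faces of dimension `d - 1` -/
def subF (l : List (List ℕ)) : List (List ℕ) := l.filter (fun f => decide (f.length + 1 = dimP l))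

/-- residue; `0` if `p = 0` -/
def md (n p : ℕ) : ℕ := if decide (p = 0) = true then 0 else n % p

/-- entry modulo `p` of the boundary matrix at row `g`, column `f` -/
def entryP (p : ℕ) (g f : List ℕ) : ℕ :=
  (List.range f.length).foldl (fun s i => if decide (f.eraseIdx i = g) = true then
    (if decide (md i 2 = 0) = true then 1 else p - 1) else s) 0

/-- column modulo `p` -/
def colP (p : ℕ) (rows : List (List ℕ)) (f : List ℕ) : List ℕ := rows.map (fun g => entryP p g f)

/-- the elements of `E` selected by the mask `x` -/
def selC (E : List (List ℕ)) (x : List Bool) : List (List ℕ) :=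
  ((List.range E.length).filter (fun i => x.getD i false)).map (fun i => E.getD i [])

/-- eliminate the entry `b.1` of `v` with the vector `b.2`, modulo `p` -/
def reduce1 (p : ℕ) (v : List ℕ) (b : ℕ × List ℕ) : List ℕ :=
  (List.range v.length).map (fun i =>
    md (b.2.getD b.1 0 * v.getD i 0 + (p - v.getD b.1 0) * b.2.getD i 0) p)

def reduceAll (p : ℕ) (bs : List (ℕ × List ℕ)) (v : List ℕ) : List ℕ := bs.foldl (reduce1 p) v

/-- positions of the nonzero entries -/
def nzs (v : List ℕ) : List ℕ := (List.range v.length).filter (fun i => !(decide (v.getD i 0 = 0)))

/-- state: independent so far, echelon basis (pivot, vector) -/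
def elimStep (p : ℕ) (s : Bool × List (ℕ × List ℕ)) (v : List ℕ) : Bool × List (ℕ × List ℕ) :=
  if (nzs (reduceAll p s.2 v)).isEmpty = true then (false, s.2)
  else (s.1, s.2 ++ [((nzs (reduceAll p s.2 v)).headD 0, reduceAll p s.2 v)])

/-- the vectors are linearly independent modulo the prime `p` -/
def indepP (p : ℕ) (cols : List (List ℕ)) : Bool := (cols.foldl (elimStep p) (true, [])).1

def isPrimeB (p : ℕ) : Bool :=
  decide (2 ≤ p) && (List.range p).all (fun d => (List.range p).all (fun e =>
    !(decide (d * e = p))))

/-- bound for the primes -/
def pBound (n : ℕ) : ℕ := ((n + 2) * (n + 2) * (n + 2)) * ((n + 2) * (n + 2) * (n + 2))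

/-- independence over `ℚ` of the columns selected by `x` -/
def indQ (l : List (List ℕ)) (x : List Bool) : Bool :=
  (List.range (pBound l.length)).any (fun p => isPrimeB p &&
    indepP p ((selC (topF l) x).map (fun f => colP p (subF l) f)))

/-! ### parameters and output -/

/-- number of faces of dimension `d` -/
def kP (l : List (List ℕ)) : ℕ := (topF l).length

/-- `(a, 2 ^ a)` with `1 ≤ a` and `k ≤ 2 ^ a ≤ 2 * k` -/
def szc (k : ℕ) : ℕ × ℕ :=
  (List.range k).foldl (fun s _ => if decide (s.2 < k) = true then (s.1 + 1, 2 * s.2) else s) (1, 2)

def aP (l : List (List ℕ)) : ℕ := (szc (kP l)).1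

/-- number of steps of the walk -/
def tP (l : List (List ℕ)) (m : ℕ) : ℕ :=
  ((szc (kP l)).2 * (szc (kP l)).2) * (kP l + m)

/-- number of coins of a block -/
def MP (l : List (List ℕ)) (m : ℕ) : ℕ := m + 2 * aP l * tP l m

def x0P (l : List (List ℕ)) : List Bool := greedy (indQ l) (kP l)

/-- the list of the faces of the spanning tree given by the mask `x` -/
def outF (l : List (List ℕ)) (x : List Bool) : List (List ℕ) :=
  l.filter (fun f => decide (f.length < dimP l) ||
    (selC (topF l) x).any (fun g => decide (g = f)))

/-- block function of the sampler, with parameter `K` -/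
def blkF (K : ℕ) (q : List (List ℕ) × List Bool) : List (List (List ℕ)) :=
  (blockOut (indQ q.1) (aP q.1) (tP q.1 (K * q.1.length)) (K * q.1.length) (x0P q.1)
    (2 ^ (kP q.1 + 2 * aP q.1)) q.2).map (fun x => outF q.1 x)

/-! ### general notions for the proofs -/

/-- functions computable by structured programs, with a time bound -/
def TF {α β : Type} [DEnc α] [DEnc β] (f : α → β) (T : α → ℕ) : Prop :=
  ∃ c : Cmd, ∀ (a : α) (x s1 s2 s3 : List Bool),
    Ev c ⟨(denc a).enc ++ x, s1, s2, s3⟩ ⟨(denc (f a)).enc ++ x, s1, s2, s3⟩ (T a)

open Classical in
/-- number of bit strings of length `M` with the property `P` -/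
def cntW (M : ℕ) (P : List Bool → Prop) : ℕ :=
  (Finset.univ.filter (fun v : Fin M → Bool => P (List.ofFn v))).card

/-- the support of a mask -/
def supp (x : List Bool) : Finset ℕ := (Finset.range x.length).filter (fun i => x.getD i false = true)

/-- `ind` decides linear independence of subfamilies of a family of `k` vectors over `ℚ` -/
def LinOracle (ind : List Bool → Bool) (k : ℕ) : Prop :=
  ∃ (W : Type) (_ : AddCommGroup W) (_ : Module ℚ W) (v : ℕ → W), ∀ x : List Bool, x.length = k →
    (ind x = true ↔ LinearIndependent ℚ (fun i : {i // i ∈ supp x} => v i.1))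

/-- `x` is the mask of a basis -/
def IsBas (ind : List Bool → Bool) (k r : ℕ) (x : List Bool) : Prop :=
  x.length = k ∧ ind x = true ∧ cntT x = r

end Pool.Agent.H330ST
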