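import Pool.Agent.H330ST.Spec
set_option autoImplicit false
noncomputable section
namespace Pool.Agent.H330ST.JL1
open Pool.Agent.H685R2.Poly
open scoped ENNReal

namespace L1

/-- the vector of a list -/
def vec (p R : ℕ) (v : List ℕ) : Fin R → ZMod p := fun j => ((v.getD j 0 : ℕ) : ZMod p)

/-- reduced lists -/
def Good (p R : ℕ) (v : List ℕ) : Prop := v.length = R ∧ ∀ i, v.getD i 0 < p

/-- span of the vectors of the basis -/
def spn (p R : ℕ) (bs : List (ℕ × List ℕ)) : Submodule (ZMod p) (Fin R → ZMod p) :=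
  Submodule.span (ZMod p) {x | ∃ b ∈ bs, x = vec p R b.2}

/-- echelon condition -/
def Inv (p R : ℕ) (bs : List (ℕ × List ℕ)) : Prop :=
  (∀ b ∈ bs, Good p R b.2 ∧ b.1 < R ∧ b.2.getD b.1 0 ≠ 0) ∧
  bs.Pairwise (fun b b' => b'.2.getD b.1 0 = 0)

theorem md_eq {n p : ℕ} (hp : 0 < p) : md n p = n % p := by
  unfold md
  rw [if_neg]
  simp
  omega

theorem natz {p a : ℕ} [Fact p.Prime] (h : a < p) : ((a : ℕ) : ZMod p) = 0 ↔ a = 0 := by
  rw [ZMod.natCast_eq_zero_iff]
  constructor
  · intro hd
    exact Nat.eq_zero_of_dvd_of_lt hd h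
  · rintro rfl
    exact dvd_zero _

theorem getD_reduce1 {p : ℕ} (hp : 0 < p) (v : List ℕ) (b : ℕ × List ℕ) (i : ℕ)
    (hi : i < v.length) :
    (reduce1 p v b).getD i 0 =
      (b.2.getD b.1 0 * v.getD i 0 + (p - v.getD b.1 0) * b.2.getD i 0) % p := by
  unfold reduce1
  rw [List.getD_eq_getElem?_getD, List.getElem?_map, List.getElem?_range hi]
  simp [md_eq hp]

theorem length_reduce1 (p : ℕ) (v : List ℕ) (b : ℕ × List ℕ) :
    (reduce1 p v b).length = v.length := by
  unfold reduce1
  simp

theorem good_reduce1 {p R : ℕ} (hp : 0 < p) {v : List ℕ} (hv : Good p R v) (b : ℕ × List ℕ) :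
    Good p R (reduce1 p v b) := by
  refine ⟨by rw [length_reduce1]; exact hv.1, ?_⟩
  intro i
  by_cases hi : i < v.length
  · rw [getD_reduce1 hp v b i hi]
    exact Nat.mod_lt _ hp
  · rw [List.getD_eq_default]
    · exact hp
    · rw [length_reduce1]; omega

theorem cast_reduce1 {p R : ℕ} [Fact p.Prime] {v : List ℕ} (hv : Good p R v) (b : ℕ × List ℕ)
    (i : ℕ) (hi : i < R) :
    (((reduce1 p v b).getD i 0 : ℕ) : ZMod p) =
      ((b.2.getD b.1 0 : ℕ) : ZMod p) * ((v.getD i 0 : ℕ) : ZMod p) -
        ((v.getD b.1 0 : ℕ) : ZMod p) * ((b.2.getD i 0 : ℕ) : ZMod p) := by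
  have hp : 0 < p := (Fact.out : p.Prime).pos
  rw [getD_reduce1 hp v b i (by rw [hv.1]; exact hi), ZMod.natCast_mod]
  have h1 : v.getD b.1 0 ≤ p := (hv.2 b.1).le
  push_cast [Nat.cast_sub h1]
  rw [ZMod.natCast_self]
  ring

theorem vec_reduce1 {p R : ℕ} [Fact p.Prime] {v : List ℕ} (hv : Good p R v) (b : ℕ × List ℕ) :
    vec p R (reduce1 p v b) =
      ((b.2.getD b.1 0 : ℕ) : ZMod p) • vec p R v - ((v.getD b.1 0 : ℕ) : ZMod p) • vec p R b.2 := by
  funext j
  simp only [vec, Pi.sub_apply, Pi.smul_apply, smul_eq_mul]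
  exact cast_reduce1 hv b j j.2

theorem spn_mono {p R : ℕ} {bs bs' : List (ℕ × List ℕ)} (h : ∀ b ∈ bs, b ∈ bs') :
    spn p R bs ≤ spn p R bs' := by
  apply Submodule.span_mono
  rintro x ⟨b, hb, rfl⟩
  exact ⟨b, h b hb, rfl⟩

theorem reduceAll_append (p : ℕ) (bs : List (ℕ × List ℕ)) (b : ℕ × List ℕ) (v : List ℕ) :
    reduceAll p (bs ++ [b]) v = reduce1 p (reduceAll p bs v) b := by
  unfold reduceAll
  rw [List.foldl_append]
  rfl

theorem inv_append {p R : ℕ} {bs : List (ℕ × List ℕ)} {b : ℕ × List ℕ} :
    Inv p R (bs ++ [b]) ↔ Inv p R bs ∧ (Good p R b.2 ∧ b.1 < R ∧ b.2.getD b.1 0 ≠ 0) ∧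
      ∀ c ∈ bs, b.2.getD c.1 0 = 0 := by
  unfold Inv
  rw [List.pairwise_append]
  constructor
  · rintro ⟨h1, h2, -, h3⟩
    exact ⟨⟨fun c hc => h1 c (by simp [hc]), h2⟩, h1 b (by simp), fun c hc => h3 c hc b (by simp)⟩
  · rintro ⟨⟨h1, h2⟩, h3, h4⟩
    refine ⟨?_, h2, by simp, ?_⟩
    · intro c hc
      rcases List.mem_append.mp hc with hc | hc
      · exact h1 c hc
      · rw [List.mem_singleton] at hc
        rw [hc]; exact h3
    · intro c hc d hd
      rw [List.mem_singleton] at hd
      rw [hd]; exact h4 c hc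

theorem reduceAll_spec {p R : ℕ} [Fact p.Prime] {v : List ℕ} (hv : Good p R v) :
    ∀ bs : List (ℕ × List ℕ), Inv p R bs → Good p R (reduceAll p bs v) ∧
      (∀ b ∈ bs, (reduceAll p bs v).getD b.1 0 = 0) ∧
      ∃ c : ZMod p, c ≠ 0 ∧ vec p R (reduceAll p bs v) - c • vec p R v ∈ spn p R bs := by
  intro bs
  induction bs using List.reverseRecOn with
  | nil =>
    intro _
    refine ⟨hv, by simp, 1, one_ne_zero, ?_⟩
    simp [reduceAll]
  | append_singleton bs b ih =>
    intro hI
    have hp : 0 < p := (Fact.out : p.Prime).pos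
    obtain ⟨h1, ⟨h2, h3, h4⟩, h5⟩ := inv_append.mp hI
    obtain ⟨g, z, c, hc, hs⟩ := ih h1
    rw [reduceAll_append]
    set w := reduceAll p bs v with hw
    have gw := good_reduce1 hp g b
    have hb0 : ((b.2.getD b.1 0 : ℕ) : ZMod p) ≠ 0 := by
      intro h
      exact h4 ((natz (h2.2 b.1)).mp h)
    refine ⟨gw, ?_, ((b.2.getD b.1 0 : ℕ) : ZMod p) * c, mul_ne_zero hb0 hc, ?_⟩
    · intro d hd
      have hdR : d.1 < R := by
        rcases List.mem_append.mp hd with hd | hd
        · exact (h1.1 d hd).2.1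
        · rw [List.mem_singleton] at hd
          rw [hd]; exact h3
      apply (natz (gw.2 d.1)).mp
      rw [cast_reduce1 g b d.1 hdR]
      rcases List.mem_append.mp hd with hd | hd
      · rw [z d hd, h5 d hd]
        simp
      · rw [List.mem_singleton] at hd
        rw [hd]
        ring
    · rw [vec_reduce1 g b]
      have h6 : vec p R b.2 ∈ spn p R (bs ++ [b]) :=
        Submodule.subset_span ⟨b, by simp, rfl⟩
      have h7 := spn_mono (p := p) (R := R) (bs := bs) (bs' := bs ++ [b])
        (fun c hc => by simp [hc]) hs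
      have h8 := Submodule.sub_mem _ (Submodule.smul_mem _ ((b.2.getD b.1 0 : ℕ) : ZMod p) h7)
        (Submodule.smul_mem _ ((w.getD b.1 0 : ℕ) : ZMod p) h6)
      convert h8 using 1
      rw [smul_sub, smul_smul]
      abel

theorem zero_of_pivots {p R : ℕ} [Fact p.Prime] :
    ∀ bs : List (ℕ × List ℕ), Inv p R bs → ∀ u ∈ spn p R bs,
      (∀ b ∈ bs, ∀ h : b.1 < R, u ⟨b.1, h⟩ = 0) → u = 0 := by
  intro bs
  induction bs using List.reverseRecOn with
  | nil =>
    intro _ u hu _
    have : spn p R [] = ⊥ := by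
      unfold spn
      rw [Submodule.span_eq_bot]
      rintro x ⟨b, hb, -⟩
      simp at hb
    rw [this] at hu
    exact (Submodule.mem_bot _).mp hu
  | append_singleton bs b ih =>
    intro hI u hu hz
    obtain ⟨h1, ⟨h2, h3, h4⟩, h5⟩ := inv_append.mp hI
    have hb0 : ((b.2.getD b.1 0 : ℕ) : ZMod p) ≠ 0 := by
      intro h
      exact h4 ((natz (h2.2 b.1)).mp h)
    have hset : {x | ∃ c ∈ bs ++ [b], x = vec p R c.2} =
        insert (vec p R b.2) {x | ∃ c ∈ bs, x = vec p R c.2} := by
      ext x
      simp only [Set.mem_ofPred_eq, List.mem_append, List.mem_singleton, Set.mem_insert_iff]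
      constructor
      · rintro ⟨c, hc | hc, rfl⟩
        · exact Or.inr ⟨c, hc, rfl⟩
        · left; rw [hc]
      · rintro (h | ⟨c, hc, rfl⟩)
        · exact ⟨b, Or.inr rfl, h⟩
        · exact ⟨c, Or.inl hc, rfl⟩
    unfold spn at hu
    rw [hset, Submodule.mem_span_insert] at hu
    obtain ⟨a, z, hzs, rfl⟩ := hu
    have hz0 : z = 0 := by
      apply ih h1 z hzs
      intro c hc hcR
      have h6 := hz c (by simp [hc]) hcR
      have h7 : vec p R b.2 ⟨c.1, hcR⟩ = 0 := by
        simp only [vec]
        rw [h5 c hc]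
        simp
      simp only [Pi.add_apply, Pi.smul_apply, smul_eq_mul, h7, mul_zero, zero_add] at h6
      exact h6
    have h8 := hz b (by simp) h3
    rw [hz0] at h8 ⊢
    simp only [Pi.add_apply, Pi.smul_apply, smul_eq_mul, add_zero, Pi.zero_apply, vec] at h8
    rcases mul_eq_zero.mp h8 with h9 | h9
    · rw [h9]; simp
    · exact absurd h9 hb0

theorem nzs_nil {p R : ℕ} [Fact p.Prime] {w : List ℕ} (hw : Good p R w) :
    nzs w = [] ↔ vec p R w = 0 := by
  unfold nzs
  rw [List.filter_eq_nil_iff]
  constructor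
  · intro h
    funext j
    have h1 := h j (by rw [List.mem_range, hw.1]; exact j.2)
    simp only [vec, Pi.zero_apply]
    rw [natz (hw.2 j)]
    simpa using h1
  · intro h i hi
    rw [List.mem_range, hw.1] at hi
    have h1 := congrFun h ⟨i, hi⟩
    simp only [vec, Pi.zero_apply] at h1
    rw [natz (hw.2 i)] at h1
    simp only [h1]
    simp

theorem nil_iff {p R : ℕ} [Fact p.Prime] {v : List ℕ} (hv : Good p R v)
    {bs : List (ℕ × List ℕ)} (hI : Inv p R bs) :
    nzs (reduceAll p bs v) = [] ↔ vec p R v ∈ spn p R bs := by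
  obtain ⟨g, z, c, hc, hs⟩ := reduceAll_spec hv bs hI
  rw [nzs_nil g]
  constructor
  · intro h
    rw [h, zero_sub] at hs
    have h1 := Submodule.smul_mem _ (-c⁻¹) hs
    rw [smul_neg, neg_smul, neg_neg, smul_smul, inv_mul_cancel₀ hc, one_smul] at h1
    exact h1
  · intro h
    apply zero_of_pivots bs hI
    · have h1 := Submodule.add_mem _ hs (Submodule.smul_mem _ c h)
      rwa [sub_add_cancel] at h1
    · intro b hb hbR
      simp only [vec]
      rw [z b hb]
      simp

theorem head_spec {p R : ℕ} {w : List ℕ} (hw : Good p R w) (h : nzs w ≠ []) :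
    (nzs w).headD 0 < R ∧ w.getD ((nzs w).headD 0) 0 ≠ 0 := by
  have h1 : (nzs w).headD 0 ∈ nzs w := by
    cases hn : nzs w with
    | nil => exact absurd hn h
    | cons a l => simp
  generalize (nzs w).headD 0 = k at h1 ⊢
  unfold nzs at h1
  rw [List.mem_filter, List.mem_range, hw.1] at h1
  refine ⟨h1.1, ?_⟩
  have := h1.2
  simpa using this

/-- independence of a list of vectors -/
def LI {p R : ℕ} (L : List (Fin R → ZMod p)) : Prop :=
  LinearIndependent (ZMod p) (fun i : Fin L.length => L.get i)

theorem LI_append {p R : ℕ} [Fact p.Prime] (L : List (Fin R → ZMod p)) (x : Fin R → ZMod p) :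
    LI (L ++ [x]) ↔ LI L ∧ x ∉ Submodule.span (ZMod p) {y | y ∈ L} := by
  unfold LI
  have h := linearIndependent_finSnoc (K := ZMod p) (v := fun i : Fin L.length => L.get i) (x := x)
  have hr : Set.range (fun i : Fin L.length => L.get i) = {y | y ∈ L} := by
    ext y
    simp only [Set.mem_range, Set.mem_ofPred_eq]
    rw [List.mem_iff_get]
  rw [hr] at h
  rw [← h]
  have hl : (L ++ [x]).length = L.length + 1 := by simp
  rw [← linearIndependent_equiv (finCongr hl.symm)]
  have : (fun i : Fin (L ++ [x]).length => (L ++ [x]).get i) ∘ (finCongr hl.symm) =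
      Fin.snoc (fun i : Fin L.length => L.get i) x := by
    funext i
    refine Fin.lastCases ?_ (fun j => ?_) i
    · rw [Fin.snoc_last]
      simp
    · rw [Fin.snoc_castSucc]
      simp [List.getElem_append]
  rw [this]

theorem fold_spec {p R : ℕ} [Fact p.Prime] :
    ∀ cs : List (List ℕ), (∀ v ∈ cs, Good p R v) →
      Inv p R (cs.foldl (elimStep p) (true, [])).2 ∧
      spn p R (cs.foldl (elimStep p) (true, [])).2 =
        Submodule.span (ZMod p) {y | y ∈ cs.map (vec p R)} ∧
      ((cs.foldl (elimStep p) (true, [])).1 = true ↔ LI (cs.map (vec p R))) := by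
  intro cs
  induction cs using List.reverseRecOn with
  | nil =>
    intro _
    refine ⟨⟨by simp, by simp⟩, ?_, ?_⟩
    · unfold spn
      congr 1
      ext x
      simp
    · simp only [List.foldl_nil, List.map_nil, true_iff]
      unfold LI
      have : IsEmpty (Fin ([] : List (Fin R → ZMod p)).length) := by
        simp only [List.length_nil]
        infer_instance
      exact linearIndependent_empty_type
  | append_singleton cs v ih =>
    intro hg
    obtain ⟨hI, hS, hF⟩ := ih (fun u hu => hg u (by simp [hu]))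
    have hv : Good p R v := hg v (by simp)
    rw [List.foldl_append, List.foldl_cons, List.foldl_nil]
    set s := cs.foldl (elimStep p) (true, []) with hs
    have hmap : (cs ++ [v]).map (vec p R) = cs.map (vec p R) ++ [vec p R v] := by simp
    rw [hmap]
    have hset : {y | y ∈ cs.map (vec p R) ++ [vec p R v]} =
        insert (vec p R v) {y | y ∈ cs.map (vec p R)} := by
      ext x
      simp only [Set.mem_ofPred_eq, List.mem_append, List.mem_singleton, Set.mem_insert_iff]
      tauto
    rw [LI_append, ← hS]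
    rw [hset, Submodule.span_insert, ← hS]
    have key := nil_iff hv hI
    unfold elimStep
    by_cases hn : nzs (reduceAll p s.2 v) = []
    · rw [if_pos (by rw [hn]; rfl)]
      have hm := key.mp hn
      refine ⟨hI, ?_, ?_⟩
      · show spn p R s.2 = _
        symm
        rw [sup_eq_right, Submodule.span_singleton_le_iff_mem]
        exact hm
      · simp only [Bool.false_eq_true, false_iff, not_and, not_not]
        intro _
        exact hm
    · have hne : ¬ (nzs (reduceAll p s.2 v)).isEmpty = true := by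
        rw [List.isEmpty_iff]; exact hn
      rw [if_neg hne]
      obtain ⟨g, z, c, hc, hsp⟩ := reduceAll_spec hv s.2 hI
      obtain ⟨hh1, hh2⟩ := head_spec g hn
      refine ⟨?_, ?_, ?_⟩
      · exact inv_append.mpr ⟨hI, ⟨g, hh1, hh2⟩, fun b hb => z b hb⟩
      · have hset2 : {x | ∃ b ∈ s.2 ++ [((nzs (reduceAll p s.2 v)).headD 0, reduceAll p s.2 v)],
            x = vec p R b.2} =
            insert (vec p R (reduceAll p s.2 v)) {x | ∃ b ∈ s.2, x = vec p R b.2} := by
          ext x
          simp only [Set.mem_ofPred_eq, List.mem_append, List.mem_singleton, Set.mem_insert_iff]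
          constructor
          · rintro ⟨b, hb | hb, rfl⟩
            · exact Or.inr ⟨b, hb, rfl⟩
            · left; rw [hb]
          · rintro (h | ⟨b, hb, rfl⟩)
            · exact ⟨_, Or.inr rfl, h⟩
            · exact ⟨b, Or.inl hb, rfl⟩
        show spn p R (s.2 ++ [((nzs (reduceAll p s.2 v)).headD 0, reduceAll p s.2 v)]) = _
        have e1 : spn p R (s.2 ++ [((nzs (reduceAll p s.2 v)).headD 0, reduceAll p s.2 v)]) =
            Submodule.span (ZMod p) {vec p R (reduceAll p s.2 v)} ⊔ spn p R s.2 := by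
          conv_lhs => unfold spn
          rw [hset2, Submodule.span_insert]
          rfl
        rw [e1]
        apply le_antisymm
        · apply sup_le _ le_sup_right
          rw [Submodule.span_singleton_le_iff_mem]
          have h1 : vec p R (reduceAll p s.2 v) = c • vec p R v +
              (vec p R (reduceAll p s.2 v) - c • vec p R v) := by abel
          rw [h1]
          exact Submodule.add_mem_sup
            (Submodule.smul_mem _ _ (Submodule.mem_span_singleton_self _)) hsp
        · apply sup_le _ le_sup_right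
          rw [Submodule.span_singleton_le_iff_mem]
          have h1 : vec p R v = c⁻¹ • vec p R (reduceAll p s.2 v) +
              (-c⁻¹) • (vec p R (reduceAll p s.2 v) - c • vec p R v) := by
            rw [smul_sub, smul_smul, neg_mul, inv_mul_cancel₀ hc]
            simp
          rw [h1]
          exact Submodule.add_mem_sup
            (Submodule.smul_mem _ _ (Submodule.mem_span_singleton_self _))
            (Submodule.smul_mem _ _ hsp)
      · show s.1 = true ↔ _
        rw [hF]
        constructor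
        · intro h
          exact ⟨h, fun hm => hn (key.mpr hm)⟩
        · intro h
          exact h.1

end L1

/-- TARGET -/
theorem sElim : SElim := by
  intro p cols R hp hc
  have : Fact p.Prime := ⟨hp⟩
  have hg : ∀ v ∈ cols, L1.Good p R v := by
    intro v hv
    obtain ⟨h1, h2⟩ := hc v hv
    refine ⟨h1, ?_⟩
    intro i
    by_cases hi : i < v.length
    · rw [List.getD_eq_getElem v 0 hi]
      exact h2 _ (List.getElem_mem hi)
    · rw [List.getD_eq_default]
      · exact hp.pos
      · omega
  have h := (L1.fold_spec (p := p) (R := R) cols hg).2.2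
  unfold indepP
  rw [h]
  unfold L1.LI
  have hl : (cols.map (L1.vec p R)).length = cols.length := by simp
  rw [← linearIndependent_equiv (finCongr hl.symm)]
  have : (fun i : Fin (cols.map (L1.vec p R)).length => (cols.map (L1.vec p R)).get i) ∘
      (finCongr hl.symm) =
      (fun (i : Fin cols.length) (j : Fin R) => (((cols.get i).getD j 0 : ℕ) : ZMod p)) := by
    funext i j
    simp [L1.vec]
  rw [this]

end Pool.Agent.H330ST.JL1
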