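import Pool.Agent.H330ST.Spec
set_option autoImplicit false
noncomputable section
namespace Pool.Agent.H330ST.JL2
open Pool.Agent.H685R2.Poly
open scoped ENNReal
/-- TARGET -/
theorem sPrB : SPrB := by
  intro p
  unfold isPrimeB
  simp only [Bool.and_eq_true, decide_eq_true_eq, List.all_eq_true, List.mem_range, Bool.not_eq_true',
    decide_eq_false_iff_not]
  constructor
  · rintro ⟨h2, h⟩
    rw [Nat.prime_def]
    refine ⟨h2, fun m hm => ?_⟩
    obtain ⟨k, hk⟩ := hm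
    by_contra hc
    push Not at hc
    have hmp : m ∣ p := ⟨k, hk⟩
    have hkp : k ∣ p := ⟨m, by rw [hk]; ring⟩
    have hml := Nat.le_of_dvd (by omega) hmp
    have hkl := Nat.le_of_dvd (by omega) hkp
    have hk1 : k ≠ p := by
      intro hkp'
      apply hc.1
      have h3 : m * p = 1 * p := by
        rw [one_mul]
        rw [hkp'] at hk
        exact hk.symm
      exact Nat.eq_of_mul_eq_mul_right (by omega) h3
    exact h m (lt_of_le_of_ne hml hc.2) k (lt_of_le_of_ne hkl hk1) hk.symm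
  · intro hp
    refine ⟨hp.two_le, fun d hd e he hde => ?_⟩
    rcases (Nat.prime_def.mp hp).2 d ⟨e, hde.symm⟩ with h | h
    · rw [h, one_mul] at hde
      omega
    · omega

lemma l2_num (n : ℕ) : (n : ℝ) * Real.log n < (Nat.primeCounting (pBound n - 1) : ℝ) * Real.log 2 := by
  have hlog2 : (0.6931 : ℝ) < Real.log 2 := by
    have := Real.log_two_gt_d9
    linarith
  have hn0 : (0 : ℝ) ≤ n := Nat.cast_nonneg n
  have hp : pBound n = (n + 2) ^ 6 := by
    unfold pBound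
    ring
  have hp64 : 64 ≤ pBound n := by
    rw [hp]
    calc 64 = 2 ^ 6 := by norm_num
      _ ≤ (n + 2) ^ 6 := Nat.pow_le_pow_left (by omega) 6
  set N := pBound n - 1 with hN
  have hN1 : N + 1 = pBound n := by omega
  have hNR : (N : ℝ) + 1 = ((n : ℝ) + 2) ^ 6 := by
    have : ((N + 1 : ℕ) : ℝ) = ((pBound n : ℕ) : ℝ) := by rw [hN1]
    rw [hp] at this
    push_cast at this
    exact this
  have hN63 : (63 : ℝ) ≤ N := by
    have : 63 ≤ N := by omega
    exact_mod_cast this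
  have h1 := Chebyshev.pi_ge N
  have hlogx : Real.log ((n : ℝ) + 2) ≤ n + 1 := by
    have := Real.log_le_sub_one_of_pos (show (0 : ℝ) < (n : ℝ) + 2 by positivity)
    linarith
  have hlogN1 : Real.log ((N : ℝ) + 1) ≤ 6 * ((n : ℝ) + 1) := by
    rw [hNR, Real.log_pow]
    push_cast
    linarith
  have hlogN0 : 0 < Real.log (N : ℝ) := Real.log_pos (by linarith)
  have hlogN : Real.log (N : ℝ) ≤ 6 * ((n : ℝ) + 1) :=
    (Real.log_le_log (by linarith) (by linarith)).trans hlogN1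
  rw [div_le_iff₀ hlogN0] at h1
  have hpi0 : (0 : ℝ) ≤ (Nat.primeCounting N : ℝ) := Nat.cast_nonneg _
  have h2 : (N : ℝ) * Real.log 2 - Real.log ((N : ℝ) + 1) ≤ (Nat.primeCounting N : ℝ) * (6 * ((n : ℝ) + 1)) :=
    h1.trans (mul_le_mul_of_nonneg_left hlogN hpi0)
  have hnl : (n : ℝ) * Real.log n ≤ (n : ℝ) ^ 2 := by
    rcases Nat.eq_zero_or_pos n with h | h
    · subst h
      simp
    · have hn1 : (0 : ℝ) < n := by exact_mod_cast h
      have := Real.log_le_sub_one_of_pos hn1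
      nlinarith
  set P : ℝ := (Nat.primeCounting N : ℝ) with hP
  have h3 : (N : ℝ) * 0.6931 - 6 * ((n : ℝ) + 1) ≤ P * (6 * ((n : ℝ) + 1)) := by
    have : (N : ℝ) * 0.6931 ≤ (N : ℝ) * Real.log 2 := mul_le_mul_of_nonneg_left hlog2.le (by linarith)
    linarith
  have h4 : (N : ℝ) = ((n : ℝ) + 2) ^ 6 - 1 := by linarith
  have h5 : 6 * ((n : ℝ) + 1) * (1 + 1.45 * (n : ℝ) ^ 2) < (N : ℝ) * 0.6931 := by
    rw [h4]
    have e : ((n : ℝ) + 2) ^ 6 - 1 = ((n : ℝ) + 1) * (((n : ℝ) + 2) ^ 5 + (n + 2) ^ 4 + (n + 2) ^ 3 + (n + 2) ^ 2 +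
      (n + 2) + 1) := by ring
    have e2 : 6 * (1 + 1.45 * (n : ℝ) ^ 2) < (((n : ℝ) + 2) ^ 5 + (n + 2) ^ 4 + (n + 2) ^ 3 + (n + 2) ^ 2 +
      (n + 2) + 1) * 0.6931 := by
      have e3 : ((n : ℝ) + 2) ^ 5 + (n + 2) ^ 4 + (n + 2) ^ 3 + (n + 2) ^ 2 + (n + 2) + 1 =
        63 + (n : ℝ) ^ 5 + 11 * n ^ 4 + 49 * n ^ 3 + 111 * n ^ 2 + 129 * n := by ring
      rw [e3]
      have p5 : 0 ≤ (n : ℝ) ^ 5 := by positivity
      have p4 : 0 ≤ (n : ℝ) ^ 4 := by positivity
      have p3 : 0 ≤ (n : ℝ) ^ 3 := by positivity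
      have p2 : 0 ≤ (n : ℝ) ^ 2 := by positivity
      nlinarith
    rw [e]
    have p : (0 : ℝ) < (n : ℝ) + 1 := by positivity
    calc 6 * ((n : ℝ) + 1) * (1 + 1.45 * (n : ℝ) ^ 2) = ((n : ℝ) + 1) * (6 * (1 + 1.45 * (n : ℝ) ^ 2)) := by ring
      _ < ((n : ℝ) + 1) * ((((n : ℝ) + 2) ^ 5 + (n + 2) ^ 4 + (n + 2) ^ 3 + (n + 2) ^ 2 +
      (n + 2) + 1) * 0.6931) := mul_lt_mul_of_pos_left e2 p
      _ = _ := by ring
  have h6 : 1.45 * (n : ℝ) ^ 2 < P := by
    have p : (0 : ℝ) < 6 * ((n : ℝ) + 1) := by positivity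
    have : (1.45 * (n : ℝ) ^ 2) * (6 * ((n : ℝ) + 1)) < P * (6 * ((n : ℝ) + 1)) := by
      nlinarith
    exact lt_of_mul_lt_mul_right this p.le
  have h7 : (n : ℝ) ^ 2 ≤ (1.45 * (n : ℝ) ^ 2) * 0.6931 := by nlinarith [sq_nonneg (n : ℝ)]
  have hP0 : 0 < P := lt_of_le_of_lt (by positivity) h6
  calc (n : ℝ) * Real.log n ≤ (n : ℝ) ^ 2 := hnl
    _ ≤ (1.45 * (n : ℝ) ^ 2) * 0.6931 := h7
    _ ≤ P * 0.6931 := by nlinarith
    _ < P * Real.log 2 := by nlinarith

/-- TARGET -/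
theorem sPrime : SPrime := by
  intro n D hD hDn
  by_contra hc
  push Not at hc
  have hpB : 64 ≤ pBound n := by
    have hp : pBound n = (n + 2) ^ 6 := by
      unfold pBound
      ring
    rw [hp]
    calc 64 = 2 ^ 6 := by norm_num
      _ ≤ (n + 2) ^ 6 := Nat.pow_le_pow_left (by omega) 6
  set S := (Finset.range (pBound n)).filter Nat.Prime with hS
  have hcard : S.card = Nat.primeCounting (pBound n - 1) := by
    rw [Nat.primeCounting, Nat.primeCounting', Nat.count_eq_card_filter_range]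
    congr 2
  have hdvd : ∏ p ∈ S, p ∣ D.natAbs := by
    apply Finset.prod_primes_dvd
    · intro p hp
      rw [hS, Finset.mem_filter] at hp
      exact hp.2.prime
    · intro p hp
      rw [hS, Finset.mem_filter, Finset.mem_range] at hp
      have := hc p hp.1 hp.2
      exact Int.natCast_dvd.mp this
  have hle : ∏ p ∈ S, p ≤ D.natAbs := Nat.le_of_dvd (Int.natAbs_pos.mpr hD) hdvd
  have h2 : 2 ^ S.card ≤ ∏ p ∈ S, p := by
    rw [← Finset.prod_const]
    apply Finset.prod_le_prod'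
    intro p hp
    rw [hS, Finset.mem_filter] at hp
    exact hp.2.two_le
  have hDn' : D.natAbs ≤ n ^ n := by
    have : ((D.natAbs : ℕ) : ℤ) ≤ ((n ^ n : ℕ) : ℤ) := by
      rw [Int.natCast_natAbs]
      push_cast
      exact hDn
    exact_mod_cast this
  have h3 : 2 ^ S.card ≤ n ^ n := h2.trans (hle.trans hDn')
  have h4 : (2 : ℝ) ^ S.card ≤ (n : ℝ) ^ n := by exact_mod_cast h3
  have h5 := Real.log_le_log (by positivity) h4
  rw [Real.log_pow, Real.log_pow, hcard] at h5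
  exact absurd (lt_of_lt_of_le (l2_num n) h5) (lt_irrefl _)
end Pool.Agent.H330ST.JL2
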