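import Pool.Agent.H330ST.Spec
set_option autoImplicit false
noncomputable section
namespace Pool.Agent.H330ST.JL3
open Pool.Agent.H685R2.Poly
open scoped ENNReal

/-- all integer relations are divisible by all powers of `p` -/
theorem l3_rel {s R : ℕ} (C : Fin s → Fin R → ℤ) (p : ℕ) (hp : p.Prime)
    (hli : LinearIndependent (ZMod p) (fun i j => (C i j : ZMod p))) (N : ℕ) :
    ∀ g : Fin s → ℤ, (∀ j, ∑ i, g i * C i j = 0) → ∀ i, (p : ℤ) ^ N ∣ g i := by
  have : Fact p.Prime := ⟨hp⟩
  induction N with
  | zero => intro g _ i; simp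
  | succ N ih =>
    intro g hg
    have h1 : ∀ i, (p : ℤ) ∣ g i := by
      rw [Fintype.linearIndependent_iff] at hli
      have := hli (fun i => (g i : ZMod p)) (by
        funext j
        have h2 := congrArg (fun z : ℤ => (z : ZMod p)) (hg j)
        simpa [Finset.sum_apply] using h2)
      intro i
      exact (ZMod.intCast_zmod_eq_zero_iff_dvd _ _).1 (this i)
    choose g' hg' using h1
    have h3 : ∀ j, ∑ i, g' i * C i j = 0 := by
      intro j
      have h4 : (p : ℤ) * ∑ i, g' i * C i j = 0 := by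
        rw [Finset.mul_sum, ← hg j]
        refine Finset.sum_congr rfl fun i _ => ?_
        rw [hg' i]; ring
      rcases mul_eq_zero.1 h4 with h | h
      · exact absurd h (by exact_mod_cast hp.ne_zero)
      · exact h
    intro i
    rw [hg' i, pow_succ, mul_comm ((p : ℤ) ^ N)]
    exact mul_dvd_mul_left _ (ih g' h3 i)

theorem l3_back {s R : ℕ} (C : Fin s → Fin R → ℤ) (p : ℕ) (hp : p.Prime)
    (hli : LinearIndependent (ZMod p) (fun i j => (C i j : ZMod p))) :
    LinearIndependent ℚ (fun i j => (C i j : ℚ)) := by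
  have hz : LinearIndependent ℤ (fun i j => (C i j : ℚ)) := by
    rw [Fintype.linearIndependent_iff]
    intro g hg i
    have h1 : ∀ j, ∑ i, g i * C i j = 0 := by
      intro j
      have h2 := congrFun hg j
      simp only [Finset.sum_apply, zsmul_eq_mul, Pi.zero_apply, Pi.mul_apply, Pi.intCast_apply] at h2
      exact_mod_cast h2
    by_contra hne
    have h3 := l3_rel C p hp hli (g i).natAbs g h1 i
    have h4 := Int.le_of_dvd (abs_pos.2 hne) ((dvd_abs _ _).2 h3)
    have h5 : (g i).natAbs < p ^ (g i).natAbs := Nat.lt_pow_self hp.one_lt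
    have h6 : ((g i).natAbs : ℤ) < (p : ℤ) ^ (g i).natAbs := by exact_mod_cast h5
    rw [Int.natCast_natAbs] at h6
    have h7 : ((p : ℤ) ^ (g i).natAbs) ≤ |g i| := h4
    exact absurd h6 (not_lt.2 h7)
  exact (LinearIndependent.iff_fractionRing ℤ ℚ).1 hz

theorem l3_minor {s R : ℕ} (C : Fin s → Fin R → ℤ)
    (hli : LinearIndependent ℚ (fun i j => (C i j : ℚ))) :
    ∃ f : Fin s → Fin R, (Matrix.of (fun i k => C i (f k)) : Matrix (Fin s) (Fin s) ℤ).det ≠ 0 := by
  let A : Matrix (Fin s) (Fin R) ℚ := Matrix.of (fun i j => (C i j : ℚ))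
  have hr : A.rank = s := by
    have := LinearIndependent.rank_matrix (M := A) hli
    simpa using this
  obtain ⟨κ, a, ha, hsp, hl⟩ := exists_linearIndependent' ℚ A.col
  have : Finite κ := Finite.of_injective a ha
  have : Fintype κ := Fintype.ofFinite κ
  have hc : Fintype.card κ = s := by
    rw [← hr, Matrix.rank_eq_finrank_span_cols, ← hsp]
    exact (finrank_span_eq_card hl).symm
  let e : Fin s ≃ κ := (finCongr hc.symm).trans (Fintype.equivFin κ).symm
  refine ⟨fun k => a (e k), ?_⟩
  have h2 : LinearIndependent ℚ (A.col ∘ a ∘ e) := by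
    rw [← Function.comp_assoc]
    exact hl.comp e e.injective
  have h3 : LinearIndependent ℚ (A.submatrix id (a ∘ e)).col := h2
  rw [Matrix.linearIndependent_cols_iff_isUnit, Matrix.isUnit_iff_isUnit_det] at h3
  intro h4
  apply h3.ne_zero
  have h5 : A.submatrix id (a ∘ e) =
      (Matrix.of (fun i k => C i (a (e k))) : Matrix (Fin s) (Fin s) ℤ).map (Int.castRingHom ℚ) := by
    ext i j; simp [A]
  rw [h5, ← RingHom.mapMatrix_apply, ← RingHom.map_det, h4, map_zero]

/-- TARGET -/
theorem sRat (h : SPrime) : SRat := by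
  intro n s R C hs hC
  constructor
  · intro hli
    obtain ⟨f, hf⟩ := l3_minor C hli
    have hb : |(Matrix.of (fun i k => C i (f k)) : Matrix (Fin s) (Fin s) ℤ).det| ≤ (n : ℤ) ^ n := by
      have h1 := Matrix.det_le (A := (Matrix.of (fun i k => C i (f k)) : Matrix (Fin s) (Fin s) ℤ))
        (abv := (AbsoluteValue.abs : AbsoluteValue ℤ ℤ)) (x := 1) (fun i j => hC i (f j))
      simp only [AbsoluteValue.abs_apply, Fintype.card_fin, one_pow, nsmul_eq_mul, mul_one] at h1
      refine h1.trans ?_
      have h2 : s.factorial ≤ n ^ n := (Nat.factorial_le hs).trans (Nat.factorial_le_pow n)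
      exact_mod_cast h2
    obtain ⟨p, hpb, hp, hnd⟩ := h n _ hf hb
    have : Fact p.Prime := ⟨hp⟩
    refine ⟨p, hpb, hp, ?_⟩
    have h5 : ((Matrix.of (fun i k => C i (f k)) : Matrix (Fin s) (Fin s) ℤ).map
        (Int.castRingHom (ZMod p))).det ≠ 0 := by
      rw [← RingHom.mapMatrix_apply, ← RingHom.map_det]
      intro h6
      exact hnd ((ZMod.intCast_zmod_eq_zero_iff_dvd _ _).1 h6)
    have h6 := Matrix.linearIndependent_rows_of_det_ne_zero h5
    rw [Fintype.linearIndependent_iff] at h6 ⊢
    intro g hg i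
    refine h6 g ?_ i
    funext k
    have := congrFun hg (f k)
    simpa [Finset.sum_apply] using this
  · rintro ⟨p, -, hp, hli⟩
    exact l3_back C p hp hli

end Pool.Agent.H330ST.JL3
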