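import Pool.Agent.H330ST.Spec
set_option autoImplicit false
noncomputable section
namespace Pool.Agent.H330ST.JL4
open Pool.Agent.H685R2.Poly
open scoped ENNReal

/-! The independence test is correct. -/

/-- integer entry of the boundary matrix -/
def l4_entryZ (g f : List ℕ) : ℤ :=
  (List.range f.length).foldl (fun s i => if decide (f.eraseIdx i = g) = true then
    (if decide (md i 2 = 0) = true then 1 else -1) else s) 0

theorem l4_foldl_map {α β : Type} (φ : α → β) (L : List ℕ) (c : ℕ → Bool) (a : ℕ → α) (s : α) :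
    φ (L.foldl (fun s i => if c i = true then a i else s) s) =
      L.foldl (fun s i => if c i = true then φ (a i) else s) (φ s) := by
  induction L generalizing s with
  | nil => rfl
  | cons i L ih =>
      rw [List.foldl_cons, List.foldl_cons, ih]
      cases c i <;> rfl

theorem l4_foldl_pred {α : Type} (Q : α → Prop) (L : List ℕ) (c : ℕ → Bool) (a : ℕ → α) (s : α)
    (hs : Q s) (ha : ∀ i, Q (a i)) : Q (L.foldl (fun s i => if c i = true then a i else s) s) := by
  induction L generalizing s with
  | nil => exact hs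
  | cons i L ih =>
      rw [List.foldl_cons]
      apply ih
      split_ifs
      · exact ha i
      · exact hs

theorem l4_foldl_sum (c : ℕ → Bool) (a : ℕ → ℤ) (n : ℕ)
    (h : ∀ i < n, ∀ j < n, c i = true → c j = true → i = j) :
    (List.range n).foldl (fun s i => if c i = true then a i else s) 0 =
      ∑ i ∈ Finset.range n, if c i = true then a i else 0 := by
  induction n with
  | zero => simp
  | succ n ih =>
      rw [List.range_succ, List.foldl_append, Finset.sum_range_succ]
      simp only [List.foldl_cons, List.foldl_nil]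
      have ih' := ih (fun i hi j hj => h i (by omega) j (by omega))
      by_cases hc : c n = true
      · rw [if_pos hc, if_pos hc]
        have h0 : ∑ i ∈ Finset.range n, (if c i = true then a i else 0) = 0 := by
          apply Finset.sum_eq_zero
          intro i hi
          rw [Finset.mem_range] at hi
          rw [if_neg]
          intro hci
          have := h i (by omega) n (by omega) hci hc
          omega
        rw [h0, zero_add]
      · rw [if_neg hc, if_neg hc, ih', add_zero]

theorem l4_abs (g f : List ℕ) : |l4_entryZ g f| ≤ 1 := by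
  unfold l4_entryZ
  refine l4_foldl_pred (fun z : ℤ => |z| ≤ 1) _ (fun i => decide (f.eraseIdx i = g)) _ _
    (by simp) ?_
  intro i
  split_ifs <;> simp

theorem l4_lt (p : ℕ) (hp : 2 ≤ p) (g f : List ℕ) : entryP p g f < p := by
  unfold entryP
  refine l4_foldl_pred (fun z : ℕ => z < p) _ (fun i => decide (f.eraseIdx i = g)) _ _
    (by omega) ?_
  intro i
  split_ifs <;> omega

theorem l4_cast (p : ℕ) (hp : 2 ≤ p) (g f : List ℕ) :
    ((entryP p g f : ℕ) : ZMod p) = ((l4_entryZ g f : ℤ) : ZMod p) := by
  unfold entryP l4_entryZ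
  rw [l4_foldl_map (fun z : ℕ => (z : ZMod p)) _ (fun i => decide (f.eraseIdx i = g)) _ _,
    l4_foldl_map (fun z : ℤ => (z : ZMod p)) _ (fun i => decide (f.eraseIdx i = g)) _ _]
  have h1 : ∀ i : ℕ, (((if decide (md i 2 = 0) = true then 1 else p - 1 : ℕ) : ℕ) : ZMod p) =
      (((if decide (md i 2 = 0) = true then 1 else -1 : ℤ) : ℤ) : ZMod p) := by
    intro i
    split_ifs
    · simp
    · rw [Nat.cast_sub (by omega)]
      simp
  have h2 : ((0 : ℕ) : ZMod p) = ((0 : ℤ) : ZMod p) := by simp
  simp only [h1, h2]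

/-! ### increasing lists -/

theorem l4_toFinset_inj {f g : List ℕ} (hf : f.Pairwise (· < ·)) (hg : g.Pairwise (· < ·))
    (h : f.toFinset = g.toFinset) : f = g := by
  have hp : f.Perm g := by
    rw [List.perm_ext_iff_of_nodup (hf.imp (fun h => h.ne)) (hg.imp (fun h => h.ne))]
    intro a
    rw [← List.mem_toFinset, ← List.mem_toFinset, h]
  exact hp.eq_of_pairwise (fun a b _ _ h1 h2 => absurd h1 (lt_asymm h2)) hf hg

theorem l4_nodup {f : List ℕ} (hf : f.Pairwise (· < ·)) : f.Nodup := hf.imp (fun h => h.ne)

theorem l4_card {f : List ℕ} (hf : f.Pairwise (· < ·)) : f.toFinset.card = f.length :=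
  List.toFinset_card_of_nodup (l4_nodup hf)

theorem l4_eraseIdx {f : List ℕ} (hf : f.Pairwise (· < ·)) (i : ℕ) (hi : i < f.length) :
    (f.eraseIdx i).toFinset = f.toFinset.erase f[i] := by
  have h1 : f.eraseIdx i = f.erase f[i] := by
    rw [(l4_nodup hf).erase_getElem i hi]
  rw [h1]
  ext a
  rw [List.mem_toFinset, (l4_nodup hf).mem_erase_iff, Finset.mem_erase, List.mem_toFinset]

theorem l4_smaller {f : List ℕ} (hf : f.Pairwise (· < ·)) (i : ℕ) (hi : i < f.length) :
    (f.toFinset.filter (fun u => u < f[i])).card = i := by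
  have h0 : ∀ (a b : ℕ) (ha : a < f.length) (hb : b < f.length), a < b → f[a] < f[b] := by
    intro a b ha hb hab
    exact List.pairwise_iff_getElem.1 hf a b ha hb hab
  have h1 : f.toFinset.filter (fun u => u < f[i]) =
      (Finset.range i).attach.image (fun j => f[j.1]'(by
        have := Finset.mem_range.1 j.2; omega)) := by
    ext u
    simp only [Finset.mem_filter, List.mem_toFinset, Finset.mem_image, Finset.mem_attach,
      true_and, Subtype.exists, Finset.mem_range]
    constructor
    · rintro ⟨hu, hlt⟩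
      obtain ⟨j, hj, rfl⟩ := List.mem_iff_getElem.1 hu
      refine ⟨j, ?_, rfl⟩
      by_contra hji
      rcases Nat.eq_or_lt_of_not_lt hji with h | h
      · subst h
        exact lt_irrefl _ hlt
      · exact lt_asymm hlt (h0 i j hi hj h)
    · rintro ⟨j, hj, rfl⟩
      exact ⟨List.getElem_mem _, h0 j i (by omega) hi hj⟩
  rw [h1, Finset.card_image_of_injective, Finset.card_attach, Finset.card_range]
  intro a b hab
  have ha := Finset.mem_range.1 a.2
  have hb := Finset.mem_range.1 b.2
  have := (l4_nodup hf).getElem_inj_iff.1 hab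
  exact Subtype.ext this

theorem l4_sign (i : ℕ) : (if decide (md i 2 = 0) = true then (1 : ℤ) else -1) = (-1) ^ i := by
  unfold md
  simp only [OfNat.ofNat_ne_zero, decide_false, Bool.false_eq_true, if_false,
    decide_eq_true_eq]
  rcases Nat.even_or_odd i with h | h
  · rw [if_pos (Nat.even_iff.1 h), h.neg_one_pow]
  · rw [if_neg (by rw [Nat.odd_iff.1 h]; omega), h.neg_one_pow]

/-- the entries of the boundary matrix -/
theorem l4_entry {f g : List ℕ} (hf : f.Pairwise (· < ·)) (hg : g.Pairwise (· < ·)) :
    ((l4_entryZ g f : ℤ) : ℚ) = ∑ v ∈ f.toFinset, if f.toFinset.erase v = g.toFinset then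
      (-1 : ℚ) ^ (f.toFinset.filter (fun u => u < v)).card else 0 := by
  have hiff : ∀ (i : ℕ) (hi : i < f.length),
      f.eraseIdx i = g ↔ f.toFinset.erase f[i] = g.toFinset := by
    intro i hi
    rw [← l4_eraseIdx hf i hi]
    constructor
    · intro h; rw [h]
    · intro h
      exact l4_toFinset_inj (hf.sublist (List.eraseIdx_sublist f i)) hg h
  have huniq : ∀ i < f.length, ∀ j < f.length, decide (f.eraseIdx i = g) = true →
      decide (f.eraseIdx j = g) = true → i = j := by
    intro i hi j hj h1 h2
    rw [decide_eq_true_eq, hiff i hi] at h1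
    rw [decide_eq_true_eq, hiff j hj] at h2
    by_contra hne
    have h3 : f[i] ≠ f[j] := fun h => hne ((l4_nodup hf).getElem_inj_iff.1 h)
    have h4 : f[i] ∈ f.toFinset.erase f[j] :=
      Finset.mem_erase.2 ⟨h3, List.mem_toFinset.2 (List.getElem_mem _)⟩
    rw [h2, ← h1] at h4
    exact (Finset.notMem_erase _ _) h4
  unfold l4_entryZ
  rw [l4_foldl_sum (fun i => decide (f.eraseIdx i = g)) _ _ huniq, Int.cast_sum]
  have hsum : ∑ v ∈ f.toFinset, (if f.toFinset.erase v = g.toFinset then
      (-1 : ℚ) ^ (f.toFinset.filter (fun u => u < v)).card else 0) =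
      ∑ i : Fin f.length, (if f.toFinset.erase (f[i.1]) = g.toFinset then
        (-1 : ℚ) ^ (f.toFinset.filter (fun u => u < f[i.1])).card else 0) := by
    symm
    refine Finset.sum_bij (fun i _ => f[i.1]) ?_ ?_ ?_ ?_
    · intro i _
      exact List.mem_toFinset.2 (List.getElem_mem _)
    · intro i _ j _ h
      exact Fin.ext ((l4_nodup hf).getElem_inj_iff.1 h)
    · intro v hv
      obtain ⟨j, hj, rfl⟩ := List.mem_iff_getElem.1 (List.mem_toFinset.1 hv)
      exact ⟨⟨j, hj⟩, Finset.mem_univ _, rfl⟩
    · intro i _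
      rfl
  rw [hsum, ← Fin.sum_univ_eq_sum_range
    (fun i => (((if decide (f.eraseIdx i = g) = true then
      (if decide (md i 2 = 0) = true then (1 : ℤ) else -1) else 0 : ℤ)) : ℚ))]
  refine Finset.sum_congr rfl fun i _ => ?_
  rw [l4_sign, l4_smaller hf i.1 i.2]
  by_cases h : f.eraseIdx i.1 = g
  · rw [if_pos (by rw [decide_eq_true_eq]; exact h), if_pos ((hiff i.1 i.2).1 h)]
    push_cast
    rfl
  · rw [if_neg (by rw [decide_eq_true_eq]; exact h), if_neg (fun h' => h ((hiff i.1 i.2).2 h'))]
    simp

/-! ### the largest length -/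

theorem l4_le_dimP (l : List (List ℕ)) (f : List ℕ) (hf : f ∈ l) : f.length ≤ dimP l := by
  unfold dimP
  have h : ∀ (l : List (List ℕ)) (m : ℕ), m ≤ l.foldl (fun m f => max m f.length) m ∧
      ∀ f ∈ l, f.length ≤ l.foldl (fun m f => max m f.length) m := by
    intro l
    induction l with
    | nil => intro m; simp
    | cons a l ih =>
        intro m
        rw [List.foldl_cons]
        obtain ⟨h1, h2⟩ := ih (max m a.length)
        refine ⟨le_trans (le_max_left _ _) h1, ?_⟩
        intro f hf
        rcases List.mem_cons.1 hf with rfl | hf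
        · exact le_trans (le_max_right _ _) h1
        · exact h2 f hf
  exact (h l 0).2 f hf

theorem l4_dimP_le (l : List (List ℕ)) (N : ℕ) (h : ∀ f ∈ l, f.length ≤ N) : dimP l ≤ N := by
  unfold dimP
  have h' : ∀ (l : List (List ℕ)) (m : ℕ), m ≤ N → (∀ f ∈ l, f.length ≤ N) →
      l.foldl (fun m f => max m f.length) m ≤ N := by
    intro l
    induction l with
    | nil => intro m hm _; exact hm
    | cons a l ih =>
        intro m hm hl
        rw [List.foldl_cons]
        exact ih _ (max_le hm (hl a List.mem_cons_self))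
          (fun f hf => hl f (List.mem_cons_of_mem _ hf))
  exact h' l 0 (Nat.zero_le _) h

theorem l4_dimP {F : Finset (Finset ℕ)} {d : ℕ} {l : List (List ℕ)} (hd : HasDim F d)
    (hl : Lists l F) : dimP l = d + 1 := by
  obtain ⟨hnd, hpw, hmem, _⟩ := hl
  obtain ⟨⟨s, hs, hsc⟩, hle⟩ := hd
  apply le_antisymm
  · apply l4_dimP_le
    intro f hf
    rw [← l4_card (hpw f hf)]
    exact hle _ ((hmem _).2 ⟨f, hf, rfl⟩)
  · obtain ⟨f, hf, hfs⟩ := (hmem s).1 hs
    rw [← hsc, ← hfs, l4_card (hpw f hf)]
    exact l4_le_dimP l f hf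

theorem l4_mem_subF {F : Finset (Finset ℕ)} {d : ℕ} {l : List (List ℕ)} (hd1 : 1 ≤ d)
    (hd : HasDim F d) (hl : Lists l F) (g : List ℕ) (hg : g ∈ subF l) :
    g.Pairwise (· < ·) ∧ g.toFinset ∈ kFaces F (d - 1) := by
  unfold subF at hg
  rw [List.mem_filter, l4_dimP hd hl, decide_eq_true_eq] at hg
  obtain ⟨hnd, hpw, hmem, _⟩ := hl
  refine ⟨hpw g hg.1, ?_⟩
  unfold kFaces
  rw [Finset.mem_filter, l4_card (hpw g hg.1)]
  exact ⟨(hmem _).2 ⟨g, hg.1, rfl⟩, by omega⟩

/-- the rows -/
theorem l4_rowEquiv {F : Finset (Finset ℕ)} {d : ℕ} {l : List (List ℕ)} (hd1 : 1 ≤ d)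
    (hd : HasDim F d) (hl : Lists l F) :
    ∃ e : Fin (subF l).length ≃ {t // t ∈ kFaces F (d - 1)},
      ∀ j, (e j).1 = ((subF l).get j).toFinset := by
  have hsub := l4_mem_subF hd1 hd hl
  refine ⟨Equiv.ofBijective (fun j => ⟨((subF l).get j).toFinset,
    (hsub _ (List.get_mem _ _)).2⟩) ⟨?_, ?_⟩, fun j => rfl⟩
  · intro i j hij
    have h1 : ((subF l).get i).toFinset = ((subF l).get j).toFinset := congrArg Subtype.val hij
    have h2 := l4_toFinset_inj (hsub _ (List.get_mem _ _)).1 (hsub _ (List.get_mem _ _)).1 h1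
    have hnd : (subF l).Nodup := hl.1.filter _
    exact (List.nodup_iff_injective_get.1 hnd) h2
  · rintro ⟨t, ht⟩
    have ht' := ht
    unfold kFaces at ht'
    rw [Finset.mem_filter] at ht'
    obtain ⟨f, hf, hft⟩ := (hl.2.2.1 t).1 ht'.1
    have hlen : f.length = d := by
      rw [← l4_card (hl.2.1 f hf), hft]
      omega
    have hfs : f ∈ subF l := by
      unfold subF
      rw [List.mem_filter, l4_dimP hd hl, decide_eq_true_eq]
      exact ⟨hf, by omega⟩
    obtain ⟨j, hj⟩ := List.get_of_mem hfs
    refine ⟨j, ?_⟩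
    apply Subtype.ext
    change ((subF l).get j).toFinset = t
    rw [hj, hft]

/-- the selected columns -/
theorem l4_colEquiv (E : List (List ℕ)) (x : List Bool) (hx : x.length = E.length) :
    ∃ e : Fin (selC E x).length ≃ {i // i ∈ supp x},
      ∀ k, (selC E x).get k = E.getD (e k).1 [] := by
  set idx : List ℕ := (List.range E.length).filter (fun i => x.getD i false) with hidx
  have hsel : selC E x = idx.map (fun i => E.getD i []) := rfl
  have hlen : (selC E x).length = idx.length := by rw [hsel, List.length_map]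
  have hmem : ∀ i, i ∈ idx ↔ i ∈ supp x := by
    intro i
    rw [hidx, List.mem_filter, List.mem_range]
    unfold supp
    rw [Finset.mem_filter, Finset.mem_range, hx]
  have hnd : idx.Nodup := (List.nodup_range).filter _
  refine ⟨Equiv.ofBijective (fun k => ⟨idx.get (Fin.cast hlen k),
    (hmem _).1 (List.get_mem _ _)⟩) ⟨?_, ?_⟩, ?_⟩
  · intro a b hab
    have h1 : idx.get (Fin.cast hlen a) = idx.get (Fin.cast hlen b) := congrArg Subtype.val hab
    have h2 := (List.nodup_iff_injective_get.1 hnd) h1
    exact Fin.ext (by simpa using congrArg Fin.val h2)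
  · rintro ⟨i, hi⟩
    obtain ⟨k, hk⟩ := List.get_of_mem ((hmem i).2 hi)
    refine ⟨Fin.cast hlen.symm k, ?_⟩
    apply Subtype.ext
    change idx.get (Fin.cast hlen (Fin.cast hlen.symm k)) = i
    simpa using hk
  · intro k
    change (selC E x).get k = E.getD (idx.get (Fin.cast hlen k)) []
    simp only [hsel, List.get_eq_getElem, List.getElem_map, Fin.val_cast]

theorem l4_selC_mem (E : List (List ℕ)) (x : List Bool) (f : List ℕ) (hf : f ∈ selC E x) :
    f ∈ E := by
  unfold selC at hf
  rw [List.mem_map] at hf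
  obtain ⟨i, hi, rfl⟩ := hf
  rw [List.mem_filter, List.mem_range] at hi
  rw [List.getD_eq_getElem _ _ hi.1]
  exact List.getElem_mem _

theorem l4_selC_length (E : List (List ℕ)) (x : List Bool) : (selC E x).length ≤ E.length := by
  unfold selC
  rw [List.length_map]
  refine (List.length_filter_le _ _).trans ?_
  rw [List.length_range]

/-- TARGET -/
theorem sInd (h1 : SElim) (h2 : SRat) (h3 : SPrB) : SInd := by
  intro F d l hF hd1 hd hl x hx
  have hx' : x.length = (topF l).length := hx
  obtain ⟨eR, heR⟩ := l4_rowEquiv hd1 hd hl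
  obtain ⟨eC, heC⟩ := l4_colEquiv (topF l) x hx'
  have hsel : ∀ k : Fin (selC (topF l) x).length,
      ((selC (topF l) x).get k).Pairwise (· < ·) := by
    intro k
    have h4 := l4_selC_mem (topF l) x _ (List.get_mem (selC (topF l) x) k)
    unfold topF at h4
    exact hl.2.1 _ (List.mem_filter.1 h4).1
  set C : Fin (selC (topF l) x).length → Fin (subF l).length → ℤ :=
    fun i j => l4_entryZ ((subF l).get j) ((selC (topF l) x).get i) with hC
  -- over the rationals
  have hQ : LinearIndependent ℚ (fun i j => (C i j : ℚ)) ↔ LinearIndependent ℚ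
      (fun i : {i // i ∈ supp x} => col F d (((topF l).getD i.1 []).toFinset)) := by
    rw [← linearIndependent_equiv eC]
    have e : (fun i j => (C i j : ℚ)) = (LinearEquiv.funCongrLeft ℚ ℚ eR).toLinearMap ∘
        ((fun i : {i // i ∈ supp x} => col F d (((topF l).getD i.1 []).toFinset)) ∘ eC) := by
      funext i j
      simp only [Function.comp_apply, LinearEquiv.coe_coe, LinearEquiv.funCongrLeft_apply,
        LinearMap.funLeft_apply]
      rw [hC]
      simp only
      rw [l4_entry (hsel i) (l4_mem_subF hd1 hd hl _ (List.get_mem _ _)).1]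
      unfold col
      rw [← heC i, heR j]
    rw [e]
    exact LinearMap.linearIndependent_iff _ (LinearEquiv.ker _)
  -- modulo a prime
  have hP : ∀ p : ℕ, p.Prime → (indepP p ((selC (topF l) x).map (fun f => colP p (subF l) f)) =
      true ↔ LinearIndependent (ZMod p) (fun i j => (C i j : ZMod p))) := by
    intro p hp
    have hlen : ((selC (topF l) x).map (fun f => colP p (subF l) f)).length =
        (selC (topF l) x).length := List.length_map _
    rw [h1 p _ (subF l).length hp ?_]
    · rw [← linearIndependent_equiv (finCongr hlen)]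
      have e : (fun (i : Fin ((selC (topF l) x).map (fun f => colP p (subF l) f)).length)
          (j : Fin (subF l).length) =>
          (((((selC (topF l) x).map (fun f => colP p (subF l) f)).get i).getD j 0 : ℕ) :
            ZMod p)) = (fun i j => (C i j : ZMod p)) ∘ (finCongr hlen) := by
        funext i j
        simp only [Function.comp_apply]
        rw [hC]
        simp only
        rw [← l4_cast p hp.two_le]
        congr 1
        rw [List.get_eq_getElem, List.getElem_map]
        unfold colP
        rw [List.getD_eq_getElem _ _ (by rw [List.length_map]; exact j.2), List.getElem_map]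
        rfl
      rw [e]
    · intro v hv
      rw [List.mem_map] at hv
      obtain ⟨f, _, rfl⟩ := hv
      unfold colP
      refine ⟨List.length_map _, ?_⟩
      intro a ha
      rw [List.mem_map] at ha
      obtain ⟨g, _, rfl⟩ := ha
      exact l4_lt p hp.two_le g f
  -- conclusion
  have hs : (selC (topF l) x).length ≤ l.length := by
    refine (l4_selC_length _ _).trans ?_
    unfold topF
    exact List.length_filter_le _ _
  rw [← hQ, h2 l.length _ _ C hs (fun i j => l4_abs _ _)]
  unfold indQ
  rw [List.any_eq_true]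
  constructor
  · rintro ⟨p, hp, hpp⟩
    rw [List.mem_range] at hp
    rw [Bool.and_eq_true] at hpp
    have hpr := (h3 p).1 hpp.1
    exact ⟨p, hp, hpr, (hP p hpr).1 hpp.2⟩
  · rintro ⟨p, hp, hpr, hli⟩
    refine ⟨p, List.mem_range.2 hp, ?_⟩
    rw [Bool.and_eq_true]
    exact ⟨(h3 p).2 hpr, (hP p hpr).2 hli⟩

end Pool.Agent.H330ST.JL4
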