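import Pool.Agent.H330ST.Spec
set_option autoImplicit false
noncomputable section
namespace Pool.Agent.H330ST.JL5
open Pool.Agent.H685R2.Poly
open scoped ENNReal

theorem l5_cnt (x : List Bool) : cntT x = (supp x).card := by
  unfold supp
  rw [Finset.card_filter]
  induction x with
  | nil => simp [cntT]
  | cons b x ih =>
    rw [List.length_cons, Finset.sum_range_succ']
    simp only [List.getD_cons_succ, List.getD_cons_zero]
    rw [← ih]
    cases b <;> simp [cntT]

theorem l5_mem_supp {x : List Bool} {i : ℕ} : i ∈ supp x ↔ i < x.length ∧ x.getD i false = true := by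
  simp [supp]

/-- the face with number `i` -/
def l5_e (l : List (List ℕ)) (i : ℕ) : Finset ℕ := ((topF l).getD i []).toFinset

theorem l5_foldl_max (l : List (List ℕ)) (a : ℕ) :
    a ≤ l.foldl (fun m f => max m f.length) a ∧
    (∀ f ∈ l, f.length ≤ l.foldl (fun m f => max m f.length) a) ∧
    (l.foldl (fun m f => max m f.length) a = a ∨
      ∃ f ∈ l, f.length = l.foldl (fun m f => max m f.length) a) := by
  induction l generalizing a with
  | nil => simp
  | cons g l ih =>
    obtain ⟨h1, h2, h3⟩ := ih (max a g.length)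
    simp only [List.foldl_cons]
    refine ⟨le_trans (le_max_left _ _) h1, ?_, ?_⟩
    · intro f hf
      rcases List.mem_cons.mp hf with rfl | hf
      · exact le_trans (le_max_right _ _) h1
      · exact h2 f hf
    · rcases h3 with h3 | ⟨f, hf, h3⟩
      · rcases le_total a g.length with h | h
        · right
          exact ⟨g, List.mem_cons_self, by rw [h3, max_eq_right h]⟩
        · left
          rw [h3, max_eq_left h]
      · right
        exact ⟨f, List.mem_cons_of_mem _ hf, h3⟩

theorem l5_card {f : List ℕ} (h : f.Pairwise (· < ·)) : f.toFinset.card = f.length :=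
  List.toFinset_card_of_nodup (h.imp (fun h => ne_of_lt h))

theorem l5_inj {f g : List ℕ} (hf : f.Pairwise (· < ·)) (hg : g.Pairwise (· < ·))
    (h : f.toFinset = g.toFinset) : f = g := by
  have h1 : f.Perm g := List.perm_of_nodup_nodup_toFinset_eq (hf.imp (fun h => ne_of_lt h))
    (hg.imp (fun h => ne_of_lt h)) h
  exact List.Perm.eq_of_pairwise (fun a b _ _ h1 h2 => absurd h1 (not_lt.mpr h2.le)) hf hg h1

theorem l5_dimP {F : Finset (Finset ℕ)} {d : ℕ} {l : List (List ℕ)} (hd : HasDim F d)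
    (hl : Lists l F) : dimP l = d + 1 := by
  obtain ⟨⟨s, hs, hsc⟩, hle⟩ := hd
  obtain ⟨hnd, hpw, hmem, _⟩ := hl
  obtain ⟨h1, h2, h3⟩ := l5_foldl_max l 0
  unfold dimP
  apply le_antisymm
  · rcases h3 with h3 | ⟨f, hf, h3⟩
    · omega
    · rw [← h3, ← l5_card (hpw f hf)]
      exact hle _ ((hmem _).mpr ⟨f, hf, rfl⟩)
  · obtain ⟨f, hf, hfs⟩ := (hmem s).mp hs
    have := h2 f hf
    rw [← l5_card (hpw f hf), hfs, hsc] at this
    exact this

theorem l5_mem_top {F : Finset (Finset ℕ)} {d : ℕ} {l : List (List ℕ)} (hd : HasDim F d)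
    (hl : Lists l F) (f : List ℕ) : f ∈ topF l ↔ f ∈ l ∧ f.length = d + 1 := by
  unfold topF
  rw [List.mem_filter, l5_dimP hd hl]
  simp

theorem l5_get_mem {l : List (List ℕ)} {i : ℕ} (hi : i < kP l) : (topF l).getD i [] ∈ topF l := by
  unfold kP at hi
  rw [List.getD_eq_getElem _ _ hi]
  exact List.getElem_mem hi

theorem l5_e_inj {F : Finset (Finset ℕ)} {d : ℕ} {l : List (List ℕ)} (hd : HasDim F d)
    (hl : Lists l F) {i j : ℕ} (hi : i < kP l) (hj : j < kP l) (h : l5_e l i = l5_e l j) :
    i = j := by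
  have hi1 := (l5_mem_top hd hl _).mp (l5_get_mem hi)
  have hj1 := (l5_mem_top hd hl _).mp (l5_get_mem hj)
  have h1 := l5_inj (hl.2.1 _ hi1.1) (hl.2.1 _ hj1.1) h
  have hnd : (topF l).Nodup := by
    unfold topF
    exact hl.1.filter _
  unfold kP at hi hj
  rw [List.getD_eq_getElem _ _ hi, List.getD_eq_getElem _ _ hj] at h1
  exact (List.Nodup.getElem_inj_iff hnd).mp h1

theorem l5_e_mem {F : Finset (Finset ℕ)} {d : ℕ} {l : List (List ℕ)} (hd : HasDim F d)
    (hl : Lists l F) {i : ℕ} (hi : i < kP l) : l5_e l i ∈ F ∧ (l5_e l i).card = d + 1 := by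
  have hi1 := (l5_mem_top hd hl _).mp (l5_get_mem hi)
  refine ⟨(hl.2.2.1 _).mpr ⟨_, hi1.1, rfl⟩, ?_⟩
  unfold l5_e
  rw [l5_card (hl.2.1 _ hi1.1), hi1.2]

theorem l5_e_surj {F : Finset (Finset ℕ)} {d : ℕ} {l : List (List ℕ)} (hd : HasDim F d)
    (hl : Lists l F) {s : Finset ℕ} (hs : s ∈ F) (hc : s.card = d + 1) :
    ∃ i < kP l, l5_e l i = s := by
  obtain ⟨f, hf, hfs⟩ := (hl.2.2.1 s).mp hs
  have h1 : f ∈ topF l := (l5_mem_top hd hl f).mpr ⟨hf, by rw [← l5_card (hl.2.1 f hf), hfs, hc]⟩
  obtain ⟨i, hi, hif⟩ := List.getElem_of_mem h1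
  refine ⟨i, hi, ?_⟩
  unfold l5_e
  rw [List.getD_eq_getElem _ _ hi, hif, hfs]

/-- the tree of a mask -/
def l5_T (F : Finset (Finset ℕ)) (d : ℕ) (l : List (List ℕ)) (x : List Bool) :
    Finset (Finset ℕ) := F.filter (fun s => s.card ≤ d) ∪ (supp x).image (l5_e l)

theorem l5_kT {F : Finset (Finset ℕ)} {d : ℕ} {l : List (List ℕ)} (hd : HasDim F d)
    (hl : Lists l F) {x : List Bool} (hx : x.length = kP l) :
    kFaces (l5_T F d l x) d = (supp x).image (l5_e l) := by
  ext s
  simp only [kFaces, l5_T, Finset.mem_filter, Finset.mem_union, Finset.mem_image]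
  constructor
  · rintro ⟨⟨_, h⟩ | h, hc⟩
    · omega
    · exact h
  · rintro ⟨i, hi, rfl⟩
    refine ⟨Or.inr ⟨i, hi, rfl⟩, (l5_e_mem hd hl ?_).2⟩
    rw [← hx]
    exact (l5_mem_supp.mp hi).1

theorem l5_supp_ext {x y : List Bool} (h : x.length = y.length) (hs : supp x = supp y) :
    x = y := by
  apply List.ext_getElem h
  intro i hi hj
  have h1 : i ∈ supp x ↔ i ∈ supp y := by rw [hs]
  rw [l5_mem_supp, l5_mem_supp, List.getD_eq_getElem _ _ hi, List.getD_eq_getElem _ _ hj] at h1
  have h2 : x[i] = true ↔ y[i] = true := by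
    constructor
    · intro h
      exact (h1.mp ⟨hi, h⟩).2
    · intro h
      exact (h1.mpr ⟨hj, h⟩).2
  exact Bool.eq_iff_iff.mpr h2

theorem l5_li_iff {W : Type} [AddCommGroup W] [Module ℚ W] (v : Finset ℕ → W) (e : ℕ → Finset ℕ)
    (S : Finset ℕ) (he : Set.InjOn e S) :
    LinearIndependent ℚ (fun i : {i // i ∈ S} => v (e i.1)) ↔
      LinearIndependent ℚ (fun s : {s // s ∈ S.image e} => v s.1) := by
  have hb : Function.Bijective (fun i : {i // i ∈ S} =>
      (⟨e i.1, Finset.mem_image_of_mem e i.2⟩ : {s // s ∈ S.image e})) := by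
    constructor
    · rintro ⟨i, hi⟩ ⟨j, hj⟩ hij
      simp only [Subtype.mk.injEq] at hij
      exact Subtype.ext (he hi hj hij)
    · rintro ⟨s, hs⟩
      obtain ⟨i, hi, rfl⟩ := Finset.mem_image.mp hs
      exact ⟨⟨i, hi⟩, rfl⟩
  exact linearIndependent_equiv (Equiv.ofBijective _ hb)
    (f := fun s : {s // s ∈ S.image e} => v s.1)

theorem l5_range {W : Type} (v : Finset ℕ → W) (e : ℕ → Finset ℕ) (S : Finset ℕ) :
    Set.range (fun s : {s // s ∈ S.image e} => v s.1) =
      Set.range (fun i : {i // i ∈ S} => v (e i.1)) := by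
  ext w
  constructor
  · rintro ⟨⟨s, hs⟩, rfl⟩
    obtain ⟨i, hi, rfl⟩ := Finset.mem_image.mp hs
    exact ⟨⟨i, hi⟩, rfl⟩
  · rintro ⟨⟨i, hi⟩, rfl⟩
    exact ⟨⟨e i, Finset.mem_image_of_mem e hi⟩, rfl⟩

theorem l5_supp_set {x : List Bool} {j : ℕ} (hj : j < x.length) :
    supp (x.set j true) = insert j (supp x) := by
  ext i
  rw [Finset.mem_insert, l5_mem_supp, l5_mem_supp, List.length_set]
  constructor
  · rintro ⟨hi, h⟩
    rw [List.getD_eq_getElem _ _ (by rw [List.length_set]; exact hi), List.getElem_set] at h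
    split_ifs at h with hji
    · left
      exact hji.symm
    · right
      exact ⟨hi, by rw [List.getD_eq_getElem _ _ hi]; exact h⟩
  · rintro (rfl | ⟨hi, h⟩)
    · refine ⟨hj, ?_⟩
      rw [List.getD_eq_getElem _ _ (by rw [List.length_set]; exact hj), List.getElem_set]
      simp
    · refine ⟨hi, ?_⟩
      rw [List.getD_eq_getElem _ _ (by rw [List.length_set]; exact hi), List.getElem_set]
      rw [List.getD_eq_getElem _ _ hi] at h
      simp [h]

theorem l5_span_of_max {W : Type} [AddCommGroup W] [Module ℚ W] (v : ℕ → W) (S : Finset ℕ) (j : ℕ)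
    (hj : j ∉ S) (hS : LinearIndependent ℚ (fun i : {i // i ∈ S} => v i.1))
    (hj2 : ¬ LinearIndependent ℚ (fun i : {i // i ∈ insert j S} => v i.1)) :
    v j ∈ Submodule.span ℚ (Set.range (fun i : {i // i ∈ S} => v i.1)) := by
  by_contra hn
  apply hj2
  have h1 : LinearIndepOn ℚ v (S : Set ℕ) := hS
  have h2 : LinearIndepOn ℚ v (insert j (S : Set ℕ)) := by
    rw [linearIndepOn_insert (by simpa using hj)]
    refine ⟨h1, ?_⟩
    intro h
    apply hn
    have hr : Set.range (fun i : {i // i ∈ S} => v i.1) = v '' (S : Set ℕ) := by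
      ext w
      constructor
      · rintro ⟨⟨i, hi⟩, rfl⟩
        exact ⟨i, hi, rfl⟩
      · rintro ⟨i, hi, rfl⟩
        exact ⟨⟨i, hi⟩, rfl⟩
    rw [hr]
    exact h
  have h3 : LinearIndepOn ℚ v ((insert j S : Finset ℕ) : Set ℕ) := by
    rw [Finset.coe_insert]
    exact h2
  exact h3

/-- TARGET -/
theorem sTree (h1 : SInd) (h2 : SGr) : STree := by
  intro F d l hF hd1 hd hl
  have hind := h1 F d l hF hd1 hd hl
  have hor : LinOracle (indQ l) (kP l) :=
    ⟨_, inferInstance, inferInstance, fun i => col F d (l5_e l i), hind⟩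
  obtain ⟨hg1, hg2⟩ := h2 (indQ l) (kP l) hor
  have hr : cntT (greedy (indQ l) (kP l)) = cntT (x0P l) := rfl
  rw [hr] at hg1 hg2
  have hinj : ∀ x : List Bool, x.length = kP l → Set.InjOn (l5_e l) (supp x : Set ℕ) := by
    intro x hx i hi j hj hij
    have hi' := (l5_mem_supp.mp (Finset.mem_coe.mp hi)).1
    have hj' := (l5_mem_supp.mp (Finset.mem_coe.mp hj)).1
    rw [hx] at hi' hj'
    exact l5_e_inj hd hl hi' hj' hij
  have hli : ∀ x : List Bool, x.length = kP l → (indQ l x = true ↔
      LinearIndependent ℚ (fun s : {s // s ∈ kFaces (l5_T F d l x) d} => col F d s.1)) := by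
    intro x hx
    rw [hind x hx, l5_kT hd hl hx]
    exact l5_li_iff (fun s => col F d s) (l5_e l) (supp x) (hinj x hx)
  have hspan : ∀ x : List Bool, IsBas (indQ l) (kP l) (cntT (x0P l)) x →
      Submodule.span ℚ (Set.range fun s : {s // s ∈ kFaces (l5_T F d l x) d} => col F d s.1) =
      Submodule.span ℚ (Set.range fun s : {s // s ∈ kFaces F d} => col F d s.1) := by
    intro x hx
    obtain ⟨hx1, hx2, hx3⟩ := hx
    apply le_antisymm
    · apply Submodule.span_mono
      rintro w ⟨⟨s, hs⟩, rfl⟩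
      rw [l5_kT hd hl hx1] at hs
      obtain ⟨i, hi, rfl⟩ := Finset.mem_image.mp hs
      have hi' := (l5_mem_supp.mp hi).1
      rw [hx1] at hi'
      have := l5_e_mem hd hl hi'
      exact ⟨⟨l5_e l i, Finset.mem_filter.mpr this⟩, rfl⟩
    · rw [Submodule.span_le]
      rintro w ⟨⟨s, hs⟩, rfl⟩
      obtain ⟨hsF, hsc⟩ := Finset.mem_filter.mp hs
      obtain ⟨j, hj, rfl⟩ := l5_e_surj hd hl hsF hsc
      rw [l5_kT hd hl hx1, l5_range (fun s => col F d s) (l5_e l) (supp x)]
      by_cases hjx : j ∈ supp x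
      · exact Submodule.subset_span ⟨⟨j, hjx⟩, rfl⟩
      · apply l5_span_of_max (fun i => col F d (l5_e l i)) (supp x) j hjx ((hind x hx1).mp hx2)
        intro hcon
        have hjl : j < x.length := by rw [hx1]; exact hj
        have hlen : (x.set j true).length = kP l := by rw [List.length_set, hx1]
        have hi2 : indQ l (x.set j true) = true := by
          rw [hind _ hlen, l5_supp_set hjl]
          exact hcon
        have := hg2 _ hlen hi2
        rw [l5_cnt, l5_supp_set hjl, Finset.card_insert_of_notMem hjx, ← l5_cnt, hx3] at this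
        omega
  refine ⟨l5_T F d l, ?_, ?_, ?_⟩
  · intro x hx
    have hx0 := hx
    obtain ⟨hx1, hx2, hx3⟩ := hx
    refine ⟨⟨?_, ?_, (hli x hx1).mp hx2, hspan x hx0⟩, ?_⟩
    · intro s hs
      rcases Finset.mem_union.mp hs with hs | hs
      · exact (Finset.mem_filter.mp hs).1
      · obtain ⟨i, hi, rfl⟩ := Finset.mem_image.mp hs
        have hi' := (l5_mem_supp.mp hi).1
        rw [hx1] at hi'
        exact (l5_e_mem hd hl hi').1
    · intro s hs hc
      exact Finset.mem_union_left _ (Finset.mem_filter.mpr ⟨hs, hc⟩)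
    · unfold outF
      apply List.filter_congr
      intro f hf
      have hfF : f.toFinset ∈ F := (hl.2.2.1 _).mpr ⟨f, hf, rfl⟩
      have hfc := l5_card (hl.2.1 f hf)
      rw [Bool.eq_iff_iff]
      simp only [Bool.or_eq_true, decide_eq_true_eq, List.any_eq_true, l5_T, Finset.mem_union,
        Finset.mem_filter, Finset.mem_image]
      rw [l5_dimP hd hl, hfc]
      constructor
      · rintro (h | ⟨g, hg, rfl⟩)
        · exact Or.inl ⟨hfF, by omega⟩
        · right
          unfold selC at hg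
          obtain ⟨i, hi, rfl⟩ := List.mem_map.mp hg
          obtain ⟨hi1, hi2⟩ := List.mem_filter.mp hi
          rw [List.mem_range] at hi1
          exact ⟨i, l5_mem_supp.mpr ⟨by rw [hx1]; exact hi1, hi2⟩, rfl⟩
      · rintro (⟨_, h⟩ | ⟨i, hi, hif⟩)
        · left
          omega
        · right
          have hi' := l5_mem_supp.mp hi
          have hik : i < kP l := by rw [← hx1]; exact hi'.1
          refine ⟨(topF l).getD i [], ?_, ?_⟩
          · unfold selC
            apply List.mem_map.mpr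
            refine ⟨i, List.mem_filter.mpr ⟨List.mem_range.mpr hik, hi'.2⟩, rfl⟩
          · have hi1 := (l5_mem_top hd hl _).mp (l5_get_mem hik)
            exact l5_inj (hl.2.1 _ hi1.1) (hl.2.1 _ hf) hif
  · intro x y hx hy hxy
    have hxl := hx.1
    have hyl := hy.1
    apply l5_supp_ext (by rw [hxl, hyl])
    have h3 : (supp x).image (l5_e l) = (supp y).image (l5_e l) := by
      rw [← l5_kT hd hl hxl, ← l5_kT hd hl hyl, hxy]
    ext i
    constructor
    · intro hi
      have h4 : l5_e l i ∈ (supp y).image (l5_e l) := by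
        rw [← h3]
        exact Finset.mem_image_of_mem _ hi
      obtain ⟨j, hj, hji⟩ := Finset.mem_image.mp h4
      have hi' := (l5_mem_supp.mp hi).1
      have hj' := (l5_mem_supp.mp hj).1
      rw [hxl] at hi'
      rw [hyl] at hj'
      rw [← l5_e_inj hd hl hj' hi' hji]
      exact hj
    · intro hi
      have h4 : l5_e l i ∈ (supp x).image (l5_e l) := by
        rw [h3]
        exact Finset.mem_image_of_mem _ hi
      obtain ⟨j, hj, hji⟩ := Finset.mem_image.mp h4
      have hi' := (l5_mem_supp.mp hi).1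
      have hj' := (l5_mem_supp.mp hj).1
      rw [hyl] at hi'
      rw [hxl] at hj'
      rw [← l5_e_inj hd hl hj' hi' hji]
      exact hj
  · intro U hU
    obtain ⟨hU1, hU2, hU3, hU4⟩ := hU
    have hxl : ((List.range (kP l)).map (fun i => decide (l5_e l i ∈ U))).length = kP l := by
      simp
    generalize hxdef : (List.range (kP l)).map (fun i => decide (l5_e l i ∈ U)) = x at hxl
    have hmem : ∀ i, i ∈ supp x ↔ i < kP l ∧ l5_e l i ∈ U := by
      intro i
      rw [l5_mem_supp, hxl]
      constructor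
      · rintro ⟨hi, h⟩
        refine ⟨hi, ?_⟩
        rw [← hxdef, List.getD_eq_getElem _ _ (by simpa using hi)] at h
        simpa using h
      · rintro ⟨hi, h⟩
        refine ⟨hi, ?_⟩
        rw [← hxdef, List.getD_eq_getElem _ _ (by simpa using hi)]
        simpa using h
    have hTU : l5_T F d l x = U := by
      ext s
      simp only [l5_T, Finset.mem_union, Finset.mem_filter, Finset.mem_image]
      constructor
      · rintro (⟨hs, hc⟩ | ⟨i, hi, rfl⟩)
        · exact hU2 s hs hc
        · exact ((hmem i).mp hi).2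
      · intro hs
        have hsF := hU1 hs
        by_cases hc : s.card ≤ d
        · exact Or.inl ⟨hsF, hc⟩
        · right
          have hc2 := hd.2 s hsF
          obtain ⟨i, hi, rfl⟩ := l5_e_surj hd hl hsF (by omega)
          exact ⟨i, (hmem i).mpr ⟨hi, hs⟩, rfl⟩
    have hix : indQ l x = true := by
      rw [hli x hxl, hTU]
      exact hU3
    refine ⟨x, ⟨hxl, hix, ?_⟩, hTU⟩
    have hle := hg2 x hxl hix
    have hg0 := (hli _ hg1.1).mp hg1.2.1
    have hgs := hspan _ hg1
    have e1 := finrank_span_eq_card hU3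
    have e2 := finrank_span_eq_card hg0
    rw [hU4] at e1
    rw [hgs] at e2
    have e3 := e1.symm.trans e2
    rw [Fintype.card_coe, Fintype.card_coe, ← hTU, l5_kT hd hl hxl, l5_kT hd hl hg1.1,
      Finset.card_image_of_injOn (hinj _ hxl), Finset.card_image_of_injOn (hinj _ hg1.1),
      ← l5_cnt, ← l5_cnt] at e3
    exact e3
end Pool.Agent.H330ST.JL5
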