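import Pool.Agent.H330ST.Spec
set_option autoImplicit false
noncomputable section
namespace Pool.Agent.H330ST.JL6
open Pool.Agent.H685R2.Poly
open scoped ENNReal

lemma l6_inv (k n : ℕ) :
    let s := (List.range n).foldl (fun (s : ℕ × ℕ) _ => if decide (s.2 < k) = true then (s.1 + 1, 2 * s.2) else s) (1, 2)
    s.2 = 2 ^ s.1 ∧ 1 ≤ s.1 ∧ (k ≤ s.2 ∨ n + 1 ≤ s.1) ∧ s.2 ≤ 2 * k + 2 := by
  induction n with
  | zero => simp
  | succ n ih =>
    rw [List.range_succ, List.foldl_append]
    simp only [List.foldl_cons, List.foldl_nil]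
    obtain ⟨h1, h2, h3, h4⟩ := ih
    set s := (List.range n).foldl (fun (s : ℕ × ℕ) _ => if decide (s.2 < k) = true then (s.1 + 1, 2 * s.2) else s) (1, 2)
      with hs
    by_cases h : s.2 < k
    · simp only [h, decide_true, if_true]
      refine ⟨?_, by omega, ?_, by omega⟩
      · rw [h1, pow_succ]; ring
      · rcases h3 with h3 | h3
        · omega
        · right; omega
    · simp only [h, decide_false, Bool.false_eq_true, if_false]
      exact ⟨h1, h2, Or.inl (by omega), h4⟩

/-- TARGET -/
theorem sParam : SParam := by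
  intro l
  obtain ⟨h1, h2, h3, h4⟩ := l6_inv (kP l) (kP l)
  have e1 : (szc (kP l)).2 = 2 ^ aP l := h1
  have e2 : 1 ≤ aP l := h2
  have e3 : kP l ≤ (szc (kP l)).2 ∨ kP l + 1 ≤ aP l := h3
  have e4 : (szc (kP l)).2 ≤ 2 * kP l + 2 := h4
  refine ⟨e2, ?_, ?_, e1, by rw [← e1]; exact e4⟩
  · rcases e3 with h | h
    · rw [← e1]; exact h
    · exact (by omega : kP l ≤ aP l).trans Nat.lt_two_pow_self.le
  · intro m
    unfold tP
    rw [e1, show (4 : ℕ) = 2 * 2 from rfl, mul_pow]

lemma l6_nat (n : ℕ) : (natD n).enc = encNat n := by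
  induction n with
  | zero => rfl
  | succ n ih =>
    simp [natD, D.enc, encNat, ih]

lemma l6_face (f : List ℕ) : (listD f).enc = encFace f := by
  induction f with
  | nil => rfl
  | cons v f ih =>
    have : (denc v).enc = encNat v := l6_nat v
    simp [listD, D.enc, encFace, ih, this]

/-- TARGET -/
theorem sEnc : SEnc := by
  intro l
  show (listD l).enc = encFaces l
  induction l with
  | nil => rfl
  | cons f l ih =>
    have : (denc f).enc = encFace f := l6_face f
    simp [listD, D.enc, encFaces, ih, this]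

end Pool.Agent.H330ST.JL6
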