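import Pool.Agent.H330ST.Spec
set_option autoImplicit false
noncomputable section
namespace Pool.Agent.H330ST.JM1
open Pool.Agent.H685R2.Poly
open scoped ENNReal

/-- TARGET -/
theorem tfOps : STFops := by
  refine ⟨?_, ?_, ?_⟩
  · intro α β _ _ f hf
    obtain ⟨c, p, h⟩ := hf
    exact ⟨p, c, h⟩
  · intro α β γ _ _ _ g f Tg Tf hg hf
    obtain ⟨cf, hf⟩ := hf
    obtain ⟨cg, hg⟩ := hg
    exact ⟨.seq cf cg, fun a x s1 s2 s3 => (hf a x s1 s2 s3).seq (hg (f a) x s1 s2 s3)⟩
  · intro α β _ _ c f g Tf Tg hc hf hg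
    obtain ⟨cc, pc, hc⟩ := hc
    obtain ⟨cf, hf⟩ := hf
    obtain ⟨cg, hg⟩ := hg
    refine ⟨(23 * Polynomial.X + 14) + pc + 5, .seq dup (.seq cc (.br .r0 .skip (.seq (.pop .r0) cg)
      (.seq (.pop .r0) (.seq (.pop .r0) (.seq (.pop .r0) cf))))), fun a x s1 s2 s3 => ?_⟩
    have h1 := dup_ev (denc a) x s1 s2 s3
    have h2 := hc a ((denc a).enc ++ x) s1 s2 s3
    simp only [Polynomial.eval_add, Polynomial.eval_mul, Polynomial.eval_X, Polynomial.eval_ofNat]
    by_cases h : c a = true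
    · rw [h] at h2
      rw [if_pos h, if_pos h]
      have h3 := hf a x s1 s2 s3
      refine (h1.seq (h2.seq (Ev.brt rfl ((Ev.pop _ _).seq ((Ev.pop _ _).seq
        ((Ev.pop _ _).seq h3)))))).weak ?_
      unfold dsize
      omega
    · rw [if_neg h, if_neg h]
      rw [Bool.not_eq_true] at h
      rw [h] at h2
      have h3 := hg a x s1 s2 s3
      refine (h1.seq (h2.seq (Ev.brf rfl ((Ev.pop _ _).seq h3)))).weak ?_
      unfold dsize
      omega

theorem m1_dsize_rep (n : ℕ) : dsize (List.replicate n ()) = 2 * n + 1 := by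
  induction n with
  | zero => rfl
  | succ n ih =>
      rw [List.replicate_succ, dsize_cons, ih]
      change 1 + (2 * n + 1) + 1 = _
      ring

/-- the body of the loop for the doublings -/
def m1_body (c : Cmd) : Cmd :=
  .seq (.pop .r0) (.seq (.pop .r0) (.seq swap (.seq c swap)))

theorem m1_loop (cd : Cmd) (pd : Polynomial ℕ)
    (hd : ∀ (a : List Unit) (x s1 s2 s3 : List Bool),
      Ev cd ⟨(denc a).enc ++ x, s1, s2, s3⟩ ⟨(denc (a ++ a)).enc ++ x, s1, s2, s3⟩
        (pd.eval (dsize a))) (K : ℕ) (y s1 s2 s3 : List Bool) :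
    ∀ k j : ℕ, j + k = K →
      Ev (.wh .r0 (m1_body cd))
        ⟨(denc k).enc ++ ((denc (List.replicate (2 ^ j) ())).enc ++ y), s1, s2, s3⟩
        ⟨(denc (0 : ℕ)).enc ++ ((denc (List.replicate (2 ^ K) ())).enc ++ y), s1, s2, s3⟩
        (k * (4 + 2 * (11 * (2 * K + 1) + 11 * (2 * 2 ^ K + 1) + 14) + pd.eval (2 * 2 ^ K + 1)) + 1) := by
  intro k
  induction k with
  | zero =>
      intro j hj
      have e : j = K := by omega
      subst e
      refine Ev.weak (Ev.whn ?_) (by omega)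
      simp [St.get, denc, natD, D.enc]
  | succ k ih =>
      intro j hj
      have h1 := ih (j + 1) (by omega)
      have e0 : (denc (k + 1)).enc = true :: false :: (denc k).enc := by
        simp [denc, natD, D.enc]
      have e1 : List.replicate (2 ^ j) () ++ List.replicate (2 ^ j) () =
          List.replicate (2 ^ (j + 1)) () := by
        rw [← List.replicate_add, pow_succ]
        congr 1
        ring
      have h2 := swap_ev (denc k) (denc (List.replicate (2 ^ j) ())) y s1 s2 s3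
      have h3 := hd (List.replicate (2 ^ j) ()) ((denc k).enc ++ y) s1 s2 s3
      rw [e1] at h3
      have h4 := swap_ev (denc (List.replicate (2 ^ (j + 1)) ())) (denc k) y s1 s2 s3
      rw [e0]
      refine (Ev.wht rfl ((Ev.pop _ _).seq ((Ev.pop _ _).seq (h2.seq (h3.seq h4)))) h1).weak ?_
      have a1 : (denc k).size = 2 * k + 1 := dsize_nat k
      have a2 : (denc (List.replicate (2 ^ j) ())).size = 2 * 2 ^ j + 1 := m1_dsize_rep _
      have a3 : (denc (List.replicate (2 ^ (j + 1)) ())).size = 2 * 2 ^ (j + 1) + 1 :=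
        m1_dsize_rep _
      have a4 : dsize (List.replicate (2 ^ j) ()) = 2 * 2 ^ j + 1 := m1_dsize_rep _
      have b1 : 2 ^ j ≤ 2 ^ K := Nat.pow_le_pow_right (by norm_num) (by omega)
      have b2 : 2 ^ (j + 1) ≤ 2 ^ K := Nat.pow_le_pow_right (by norm_num) (by omega)
      have b3 : pd.eval (2 * 2 ^ j + 1) ≤ pd.eval (2 * 2 ^ K + 1) := eval_mono pd (by omega)
      rw [a1, a2, a3, a4, add_mul, one_mul]
      omega

/-- TARGET -/
theorem tfPad (h : STFops) : SPad := by
  intro β γ _ _ f κ hf hκ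
  obtain ⟨cf, pf, hf⟩ := hf
  obtain ⟨ck, pk, hk⟩ := hκ
  have hdbl : PF (fun a : List Unit => a ++ a) := PF.append PF.id' PF.id'
  obtain ⟨cd, pd, hd⟩ := hdbl
  refine ⟨(23 * Polynomial.X + 14) + pk + 4 + (33 + 11 * (2 * Polynomial.X + 1) + 14) +
    (Polynomial.X * (4 + 2 * (11 * (2 * Polynomial.X + 1) + 11 * (2 * Polynomial.X + 1) + 14) +
      pd.comp (2 * Polynomial.X + 1)) + 1) + 1 +
    (11 * (2 * Polynomial.X + 1) + 11 * Polynomial.X + 14) + 1 +
    pf.comp (2 * Polynomial.X + 2),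
    .seq dup (.seq ck (.seq (pushes (denc [()]).enc) (.seq swap (.seq (.wh .r0 (m1_body cd))
      (.seq (.pop .r0) (.seq swap (.seq (.push .r0 true) cf))))))), fun b x s1 s2 s3 => ?_⟩
  set K := κ b with hK
  set U := List.replicate (2 ^ K) () with hU
  have h1 := dup_ev (denc b) x s1 s2 s3
  have h2 := hk b ((denc b).enc ++ x) s1 s2 s3
  have h3 := pushes_ev (denc [()]).enc ((denc K).enc ++ ((denc b).enc ++ x)) s1 s2 s3
  have h4 := swap_ev (denc [()]) (denc K) ((denc b).enc ++ x) s1 s2 s3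
  have h5 := m1_loop cd pd hd K ((denc b).enc ++ x) s1 s2 s3 K 0 (by omega)
  have e1 : List.replicate (2 ^ 0) () = [()] := rfl
  rw [e1, ← hU] at h5
  have h6 := Ev.pop .r0 ⟨(denc (0 : ℕ)).enc ++ ((denc U).enc ++ ((denc b).enc ++ x)), s1, s2, s3⟩
  have h7 := swap_ev (denc U) (denc b) x s1 s2 s3
  have h8 := Ev.push .r0 true ⟨(denc b).enc ++ ((denc U).enc ++ x), s1, s2, s3⟩
  have h9 := hf (b, U) x s1 s2 s3
  have e : (denc (b, U)).enc ++ x = true :: ((denc b).enc ++ ((denc U).enc ++ x)) := by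
    simp [denc, D.enc]
  rw [e] at h9
  refine (h1.seq (h2.seq (h3.seq (h4.seq (h5.seq (h6.seq (h7.seq (h8.seq h9)))))))).weak ?_
  have a1 : (denc K).size = 2 * K + 1 := dsize_nat K
  have a2 : (denc U).size = 2 * 2 ^ K + 1 := m1_dsize_rep _
  have a3 : dsize (b, U) = dsize b + (2 * 2 ^ K + 1) + 1 := by
    rw [dsize_pair]
    have := m1_dsize_rep (2 ^ K)
    change dsize b + dsize U + 1 = _
    rw [hU, this]
  have a4 : (denc [()]).enc.length = 3 := rfl
  have a5 : (denc [()]).size = 3 := rfl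
  have a6 : (denc b).size = dsize b := rfl
  have b0 : K < 2 ^ K := Nat.lt_two_pow_self
  set N := dsize b + 2 ^ K with hN
  have c1 : pk.eval (dsize b) ≤ pk.eval N := eval_mono pk (by omega)
  have c2 : pf.eval (dsize (b, U)) ≤ pf.eval (2 * N + 2) := eval_mono pf (by omega)
  have c3 : pd.eval (2 * 2 ^ K + 1) ≤ pd.eval (2 * N + 1) := eval_mono pd (by omega)
  have c4 : K * (4 + 2 * (11 * (2 * K + 1) + 11 * (2 * 2 ^ K + 1) + 14) +
      pd.eval (2 * 2 ^ K + 1)) ≤
      N * (4 + 2 * (11 * (2 * N + 1) + 11 * (2 * N + 1) + 14) + pd.eval (2 * N + 1)) :=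
    Nat.mul_le_mul (by omega) (by omega)
  change _ ≤ Polynomial.eval N _
  simp only [Polynomial.eval_add, Polynomial.eval_mul, Polynomial.eval_X, Polynomial.eval_one,
    Polynomial.eval_ofNat, Polynomial.eval_comp]
  rw [a1, a2, a4, a5, a6]
  omega

end Pool.Agent.H330ST.JM1
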