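import Pool.Agent.H330ST.Defs
import Pool.Agent.Helper870.DTChain

/-!
Statements of the parts of the proof.
-/

set_option autoImplicit false

noncomputable section

namespace Pool.Agent.H330ST

open Pool.Agent.H685R2.Poly
open Pool.Agent.Helper870.DT (upS QQ Wt)
open scoped ENNReal

/-! ### polynomial-time computability -/

def SCap : Prop := ∀ {γ : Type} [DEnc γ] {k : γ → ℕ} {b : γ → List Bool}, PF k → PF b →
  PF (fun c => capVal (k c) (b c))

def SStp : Prop := ∀ {γ : Type} [DEnc γ] {ind : γ × List Bool → Bool} {a : γ → ℕ}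
  {x b : γ → List Bool}, PF ind → PF a → PF x → PF b →
  PF (fun c => stp (fun y => ind (c, y)) (a c) (x c) (b c))

def SRun : Prop := ∀ {γ : Type} [DEnc γ] {ind : γ × List Bool → Bool} {a t : γ → ℕ}
  {x w : γ → List Bool}, PF ind → PF a → PF t → PF x → PF w →
  PF (fun c => run (fun y => ind (c, y)) (a c) (t c) (x c) (w c))

def SGreedy : Prop := ∀ {γ : Type} [DEnc γ] {ind : γ × List Bool → Bool} {k : γ → ℕ},
  PF ind → PF k → PF (fun c => greedy (fun y => ind (c, y)) (k c))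

def SArith : Prop := ∀ {γ : Type} [DEnc γ] {L : γ → ℕ} {a b : γ → List Bool}, PF L → PF a → PF b →
  PF (fun c => bAdd (L c) (a c) (b c)) ∧ PF (fun c => bSub (L c) (a c) (b c)) ∧
  PF (fun c => bLt (L c) (a c) (b c)) ∧ PF (fun c => zeroB (L c)) ∧ PF (fun c => oneB (L c))

def SMasks : Prop := ∀ {γ : Type} [DEnc γ] {c k : γ → ℕ}, PF c → PF k →
  PF (fun g => allMasks (c g) (k g))

def SLookup : Prop := ∀ {γ : Type} [DEnc γ] {tb : γ → List (List Bool × List Bool)}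
  {x : γ → List Bool}, PF tb → PF x → PF (fun c => lookup (tb c) (x c))

def SDp : Prop := ∀ {γ : Type} [DEnc γ] {ind : γ × List Bool → Bool} {a L t : γ → ℕ}
  {bss ms : γ → List (List Bool)} {x0 : γ → List Bool}, PF ind → PF a → PF L → PF t → PF bss →
  PF ms → PF x0 →
  PF (fun c => dpTab (fun y => ind (c, y)) (a c) (L c) (bss c) (t c) (x0 c) (ms c))

def SSel : Prop := ∀ {γ : Type} [DEnc γ] {m L : γ → ℕ} {tb : γ → List (List Bool × List Bool)}
  {cm U : γ → List Bool} {bs : γ → List (List Bool)}, PF m → PF L → PF tb → PF cm → PF bs → PF U →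
  PF (fun c => sel (m c) (L c) (tb c) (cm c) (bs c) (U c)) ∧
  PF (fun c => maxB (L c) (tb c) (bs c))

def SSlow : Prop := ∀ {γ : Type} [DEnc γ] {ind : γ × List Bool → Bool} {a t m cc : γ → ℕ}
  {x0 U : γ → List Bool}, PF ind → PF a → PF t → PF m → PF cc → PF x0 → PF U →
  PF (fun c => slowOut (fun y => ind (c, y)) (a c) (t c) (m c) (x0 c) (cc c) (U c))

def SFast : Prop := ∀ {γ : Type} [DEnc γ] {ind : γ × List Bool → Bool} {a t m : γ → ℕ}
  {x0 w : γ → List Bool}, PF ind → PF a → PF t → PF m → PF x0 → PF w →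
  PF (fun c => fastOut (fun y => ind (c, y)) (a c) (t c) (m c) (x0 c) (w c)) ∧
  PF (fun c => slowFlag (m c) (w c))

def SMd : Prop := ∀ {γ : Type} [DEnc γ] {n p : γ → ℕ}, PF n → PF p → PF (fun c => md (n c) (p c))

def SFaces : Prop := ∀ {γ : Type} [DEnc γ] {l : γ → List (List ℕ)}, PF l →
  PF (fun c => dimP (l c)) ∧ PF (fun c => topF (l c)) ∧ PF (fun c => subF (l c)) ∧
  PF (fun c => kP (l c)) ∧ PF (fun c => (szc (kP (l c))).1) ∧ PF (fun c => (szc (kP (l c))).2)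

def SSelC : Prop := ∀ {γ : Type} [DEnc γ] {l E : γ → List (List ℕ)} {x : γ → List Bool},
  PF l → PF E → PF x → PF (fun c => selC (E c) (x c)) ∧ PF (fun c => outF (l c) (x c))

def SColP : Prop := ∀ {γ : Type} [DEnc γ] {p : γ → ℕ} {rows : γ → List (List ℕ)} {f : γ → List ℕ},
  PF p → PF rows → PF f → PF (fun c => colP (p c) (rows c) (f c))

def SElimPF : Prop := ∀ {γ : Type} [DEnc γ] {p : γ → ℕ} {cols : γ → List (List ℕ)},
  PF p → PF cols → PF (fun c => indepP (p c) (cols c)) ∧ PF (fun c => isPrimeB (p c))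

def SIndQ : Prop := PF (fun q : List (List ℕ) × List Bool => indQ q.1 q.2)

/-- the function of the correction, with padding -/
def slowPad (q : (List (List ℕ) × (ℕ × List Bool)) × List Unit) : List (List (List ℕ)) :=
  (slowOut (indQ q.1.1) (aP q.1.1) (tP q.1.1 q.1.2.1) q.1.2.1 (x0P q.1.1) q.2.length
    (q.1.2.2.drop q.1.2.1)).map (fun x => outF q.1.1 x)

/-- the usual function -/
def fastFn (q : List (List ℕ) × (ℕ × List Bool)) : List (List (List ℕ)) :=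
  (fastOut (indQ q.1) (aP q.1) (tP q.1 q.2.1) q.2.1 (x0P q.1) q.2.2).map (fun x => outF q.1 x)

def SProgs : Prop := PF slowPad ∧ PF fastFn ∧
  PF (fun q : List (List ℕ) × (ℕ × List Bool) => slowFlag q.2.1 q.2.2) ∧
  PF (fun q : List (List ℕ) × (ℕ × List Bool) => kP q.1 + 2 * aP q.1) ∧
  PF (fun q : List (List ℕ) × ℕ => MP q.1 q.2)

/-! ### timed programs and machines -/

def SPad : Prop := ∀ {β γ : Type} [DEnc β] [DEnc γ] (f : β × List Unit → γ) (κ : β → ℕ), PF f →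
  PF κ → ∃ p : Polynomial ℕ, TF (fun b => f (b, List.replicate (2 ^ κ b) ()))
    (fun b => p.eval (dsize b + 2 ^ κ b))

def STFops : Prop :=
  (∀ {α β : Type} [DEnc α] [DEnc β] {f : α → β}, PF f → ∃ p : Polynomial ℕ,
    TF f (fun a => p.eval (dsize a))) ∧
  (∀ {α β γ : Type} [DEnc α] [DEnc β] [DEnc γ] {g : β → γ} {f : α → β} {Tg : β → ℕ} {Tf : α → ℕ},
    TF g Tg → TF f Tf → TF (fun a => g (f a)) (fun a => Tf a + Tg (f a))) ∧
  (∀ {α β : Type} [DEnc α] [DEnc β] {c : α → Bool} {f g : α → β} {Tf Tg : α → ℕ}, PF c →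
    TF f Tf → TF g Tg → ∃ p : Polynomial ℕ, TF (fun a => if c a = true then f a else g a)
      (fun a => p.eval (dsize a) + if c a = true then Tf a else Tg a))

/-- average time of a block; the exponent `K` is chosen after the degree of the time bound of the
correction is known -/
def SAvg : Prop := ∃ (K : ℕ) (T : List (List ℕ) × List Bool → ℕ) (P : Polynomial ℕ), 1 ≤ K ∧
  TF (blkF K) T ∧ ∀ l : List (List ℕ), (∀ f ∈ l, f.length ≤ l.length ∧ ∀ v ∈ f, v < l.length) →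
    ∑ v : Fin (MP l (K * l.length)) → Bool, T (l, List.ofFn v) ≤
      2 ^ MP l (K * l.length) * P.eval l.length

def SLoop : Prop := ∀ {α β : Type} [DEnc α] [DEnc β] (M : α → ℕ) (blk : α × List Bool → List β)
  (T : α × List Bool → ℕ), PF M → TF blk T → ∃ (c : Cmd) (q : Polynomial ℕ),
  ∀ (a : α) (ws : List (List Bool)) (w : List Bool) (y : β) (s3 : List Bool),
    (∀ v ∈ ws, v.length = M a ∧ blk (a, v) = []) → w.length = M a → blk (a, w) = [y] →
    Ev c ⟨(denc a).enc, [], [], ws.flatten ++ (w ++ s3)⟩ ⟨(denc y).enc, [], [], s3⟩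
      (((ws ++ [w]).map (fun v => 100 * T (a, v) + q.eval (dsize a))).sum)

def SMachine : Prop := ∀ c : Cmd, ∃ M : CoinTM, ∀ (x y : List Bool) (ω : ℕ → Bool) (t L₀ : ℕ),
  (∀ L ≥ L₀, ∃ ρ, Ev c ⟨x, [], [], (List.range L).map ω⟩ ⟨y, [], [], ρ⟩ t) →
  ∃ t' ≤ t + 1, M.Halts x ω t' y

def SMeas : Prop := ∀ (M : CoinTM) (x : List Bool),
  (∀ (t : ℕ) (y : List Bool), MeasurableSet {ω | M.Halts x ω t y}) ∧
  ∀ (ω : ℕ → Bool) (t t' : ℕ) (y y' : List Bool), M.Halts x ω t y → M.Halts x ω t' y' →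
    t = t' ∧ y = y'

/-- the `i`-th block of `k` coins -/
def blkω (k : ℕ) (ω : ℕ → Bool) (i : ℕ) : Fin k → Bool := fun j => ω (i * k + j)

open Classical in
def SProb : Prop := ∀ (k : ℕ) (ok : (Fin k → Bool) → Prop),
  2 ^ k ≤ 2 * (Finset.univ.filter (fun v => ok v)).card →
  (∀ᵐ ω ∂coinMeasure, ∃ i, ok (blkω k ω i)) ∧
  (∀ P : (Fin k → Bool) → Prop, (∀ v, P v → ok v) →
    coinMeasure {ω | ∃ i, (∀ j < i, ¬ ok (blkω k ω j)) ∧ P (blkω k ω i)} =
      ((Finset.univ.filter (fun v => P v)).card : ℝ≥0∞) /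
        ((Finset.univ.filter (fun v => ok v)).card : ℝ≥0∞)) ∧
  (∀ cost : (Fin k → Bool) → ℕ,
    ∫⁻ ω, (∑' i, if (∀ j < i, ¬ ok (blkω k ω j)) then (cost (blkω k ω i) : ℝ≥0∞) else 0)
      ∂coinMeasure ≤ 2 * (∑ v, (cost v : ℝ≥0∞)) / 2 ^ k)

/-! ### values of the binary arithmetic and of the tables -/

def VArith : Prop := ∀ (L : ℕ) (a b : List Bool),
  ((bAdd L a b).length = L ∧ val (bAdd L a b) = (val a + val b) % 2 ^ L) ∧
  ((bSub L a b).length = L ∧ (val b % 2 ^ L ≤ val a % 2 ^ L →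
    val (bSub L a b) = val a % 2 ^ L - val b % 2 ^ L)) ∧
  (bLt L a b = decide (val a % 2 ^ L < val b % 2 ^ L)) ∧
  (val a < 2 ^ a.length) ∧ (∀ j, val (List.replicate j false ++ a) = 2 ^ j * val a) ∧
  (val (zeroB L) = 0 ∧ (zeroB L).length = L) ∧
  (1 ≤ L → val (oneB L) = 1 ∧ (oneB L).length = L)

/-- every number below `2 ^ B` is the value of exactly one string of length `B` -/
def VBij : Prop := ∀ (B : ℕ) (P : ℕ → Prop), (∀ n, P n → n < 2 ^ B) →
  cntW B (fun w => P (val w)) = Set.ncard {n | P n}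

def VMasks : Prop := ∀ c k : ℕ, 2 ^ k ≤ c → (allMasks c k).Nodup ∧
  ∀ x : List Bool, x ∈ allMasks c k ↔ x.length = k

/-- splitting a string into a first and a second part -/
def VSplit : Prop := ∀ (A B : ℕ) (P : List Bool → Prop),
  cntW (A + B) P = ∑ u : Fin A → Bool, cntW B (fun v => P (List.ofFn u ++ v))

def VDp : Prop := ∀ (ind : List Bool → Bool) (a t L c : ℕ) (x0 : List Bool), 2 * a * t < L →
  2 ^ (2 * a) ≤ c → 2 ^ x0.length ≤ c → ∀ x : List Bool, x.length = x0.length →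
  (lookup (dpTab ind a L (allMasks c (2 * a)) t x0 (allMasks c x0.length)) x).length = L ∧
  val (lookup (dpTab ind a L (allMasks c (2 * a)) t x0 (allMasks c x0.length)) x) =
    cntW (2 * a * t) (fun w => run ind a t x w = x0)

def VSel : Prop := ∀ (m L B : ℕ) (tb : List (List Bool × List Bool)) (cm : List Bool)
  (bs : List (List Bool)), bs.Nodup → B < L → cm.length = L →
  (∀ x ∈ bs, (lookup tb x).length = L ∧ val (lookup tb x) ≤ val cm) →
  (bs.map (fun x => 2 ^ (m - 1) * (val cm - val (lookup tb x)))).sum ≤ 2 ^ B →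
  (∀ x ∈ bs, cntW B (fun U => sel m L tb cm bs U = [x]) =
    2 ^ (m - 1) * (val cm - val (lookup tb x))) ∧
  ∀ U, sel m L tb cm bs U = [] ∨ ∃ x ∈ bs, sel m L tb cm bs U = [x]

def VMax : Prop := ∀ (L : ℕ) (tb : List (List Bool × List Bool)) (bs : List (List Bool)),
  (∀ x ∈ bs, (lookup tb x).length = L) →
  (maxB L tb bs).length = L ∧ (∀ x ∈ bs, val (lookup tb x) ≤ val (maxB L tb bs)) ∧
  (bs ≠ [] → ∃ x ∈ bs, val (maxB L tb bs) = val (lookup tb x))

/-! ### the walk -/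

def VStep : Prop := ∀ (ind : List Bool → Bool) (k r a : ℕ), k ≤ 2 ^ a →
  (∀ x b, IsBas ind k r x → IsBas ind k r (stp ind a x b)) ∧
  (∀ x y, IsBas ind k r x → IsBas ind k r y → x ≠ y →
    cntW (2 * a) (fun b => stp ind a x b = y) =
      if (supp x ∩ supp y).card + 1 = r then 1 else 0) ∧
  (∀ x, IsBas ind k r x → 2 ^ (2 * a) ≤ 2 * cntW (2 * a) (fun b => stp ind a x b = x))

/-- recursions for the numbers of coin strings (last step and first step) -/
def VRec : Prop := ∀ (ind : List Bool → Bool) (a t : ℕ) (x y : List Bool),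
  cntW (2 * a * (t + 1)) (fun w => run ind a (t + 1) x w = y) =
    ∑ u : Fin (2 * a) → Bool, cntW (2 * a * t)
      (fun w => run ind a t (stp ind a x (List.ofFn u)) w = y) ∧
  cntW (2 * a * (t + 1)) (fun w => run ind a (t + 1) x w = y) =
    ∑ u : Fin (2 * a) → Bool, cntW (2 * a * t)
      (fun w => stp ind a (run ind a t x w) (List.ofFn u) = y)

/-- reversibility -/
def VRev : Prop := ∀ (ind : List Bool → Bool) (k r a t : ℕ) (x y : List Bool), k ≤ 2 ^ a →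
  IsBas ind k r x → IsBas ind k r y →
  cntW (2 * a * t) (fun w => run ind a t x w = y) =
    cntW (2 * a * t) (fun w => run ind a t y w = x)

/-- exchange property of a family of sets -/
def Exch (F : Finset (Finset ℕ)) : Prop :=
  ∀ A ∈ F, ∀ B ∈ F, ∀ a ∈ A \ B, ∃ b ∈ B \ A, insert b (A.erase a) ∈ F

def SExch : Prop := ∀ (ind : List Bool → Bool) (k r : ℕ), LinOracle ind k →
  (∀ y : List Bool, y.length = k → ind y = true → cntT y ≤ r) →
  ∀ x y, IsBas ind k r x → IsBas ind k r y → ∀ i ∈ supp x \ supp y, ∃ j ∈ supp y \ supp x,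
    IsBas ind k r (exch x i j)

def SGr : Prop := ∀ (ind : List Bool → Bool) (k : ℕ), LinOracle ind k →
  IsBas ind k (cntT (greedy ind k)) (greedy ind k) ∧
  ∀ y : List Bool, y.length = k → ind y = true → cntT y ≤ cntT (greedy ind k)

def SQQ : Prop := ∀ (F : Finset (Finset ℕ)) (V : Finset ℕ) (l : ℕ),
  (∀ A ∈ F, A ⊆ V ∧ A.card = l) → Exch F → ∀ S : Finset ℕ, S.card + 2 ≤ l → QQ F V S

def SGap : Prop := ∀ (F : Finset (Finset ℕ)) (V : Finset ℕ) (l : ℕ),
  (∀ A ∈ F, A ⊆ V ∧ A.card = l) → (∀ S : Finset ℕ, S.card + 2 ≤ l → QQ F V S) →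
  ∀ f : Finset ℕ → ℝ, (F.card : ℝ) * ∑ A ∈ F, f A ^ 2 - (∑ A ∈ F, f A) ^ 2 ≤
    (F.card : ℝ) / 4 * ∑ A ∈ F, ∑ B ∈ F, if (A ∩ B).card + 1 = l then (f A - f B) ^ 2 else 0

def SMix : Prop := ∀ {X : Type} [Fintype X] [DecidableEq X] (A : X → X → ℕ) (q : ℕ), 4 ≤ q →
  (∀ x y, A x y = A y x) → (∀ x, ∑ y, A x y = q) → (∀ x, q ≤ 2 * A x x) →
  (∀ f : X → ℝ, (Fintype.card X : ℝ) * ∑ x, f x ^ 2 - (∑ x, f x) ^ 2 ≤
    (Fintype.card X : ℝ) / 4 * ∑ x, ∑ y, (A x y : ℝ) * (f x - f y) ^ 2) →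
  ∀ (x0 : X) (c : ℕ → X → ℕ), (∀ x, c 0 x = if x = x0 then 1 else 0) →
  (∀ t x, c (t + 1) x = ∑ y, c t y * A y x) →
  ∀ k m t : ℕ, Fintype.card X ≤ 2 ^ k → q * (k + m) ≤ t → ∀ x,
    2 ^ m * (Fintype.card X * c t x) ≤ q ^ t * (2 ^ m + 1)

def VMix : Prop := ∀ (ind : List Bool → Bool) (k r a t m : ℕ) (x0 : List Bool),
  LinOracle ind k → (∀ y : List Bool, y.length = k → ind y = true → cntT y ≤ r) →
  IsBas ind k r x0 → 1 ≤ a → k ≤ 2 ^ a → t = 4 ^ a * (k + m) → ∀ x, IsBas ind k r x →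
  2 ^ m * (cntW k (fun y => IsBas ind k r y) *
    cntW (2 * a * t) (fun w => run ind a t x0 w = x)) ≤ 2 ^ (2 * a * t) * (2 ^ m + 1)

def SBlock : Prop := ∀ (ind : List Bool → Bool) (k a t m c : ℕ), LinOracle ind k → 1 ≤ m →
  1 ≤ a → k ≤ 2 ^ a → t = 4 ^ a * (k + m) → 2 ^ (k + 2 * a) ≤ c →
  ∃ q : ℕ, 0 < q ∧
  (∀ x, IsBas ind k (cntT (greedy ind k)) x →
    cntW (m + 2 * a * t) (fun w => blockOut ind a t m (greedy ind k) c w = [x]) = q) ∧
  (∀ w, blockOut ind a t m (greedy ind k) c w = [] ∨ ∃ x,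
    IsBas ind k (cntT (greedy ind k)) x ∧ blockOut ind a t m (greedy ind k) c w = [x]) ∧
  2 ^ (m + 2 * a * t) ≤ 2 * cntW (m + 2 * a * t)
    (fun w => blockOut ind a t m (greedy ind k) c w ≠ [])

/-! ### linear algebra -/

def SElim : Prop := ∀ (p : ℕ) (cols : List (List ℕ)) (R : ℕ), p.Prime →
  (∀ v ∈ cols, v.length = R ∧ ∀ e ∈ v, e < p) →
  (indepP p cols = true ↔ LinearIndependent (ZMod p)
    (fun (i : Fin cols.length) (j : Fin R) => (((cols.get i).getD j 0 : ℕ) : ZMod p)))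

def SPrB : Prop := ∀ p : ℕ, isPrimeB p = true ↔ p.Prime

def SPrime : Prop := ∀ (n : ℕ) (D : ℤ), D ≠ 0 → |D| ≤ (n : ℤ) ^ n →
  ∃ p < pBound n, p.Prime ∧ ¬ (p : ℤ) ∣ D

def SRat : Prop := ∀ (n s R : ℕ) (C : Fin s → Fin R → ℤ), s ≤ n → (∀ i j, |C i j| ≤ 1) →
  (LinearIndependent ℚ (fun i j => (C i j : ℚ)) ↔
    ∃ p < pBound n, p.Prime ∧ LinearIndependent (ZMod p) (fun i j => (C i j : ZMod p)))

def SInd : Prop := ∀ (F : Finset (Finset ℕ)) (d : ℕ) (l : List (List ℕ)), IsComplex F → 1 ≤ d →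
  HasDim F d → Lists l F → ∀ x : List Bool, x.length = kP l →
  (indQ l x = true ↔ LinearIndependent ℚ
    (fun i : {i // i ∈ supp x} => col F d (((topF l).getD i.1 []).toFinset)))

def STree : Prop := ∀ (F : Finset (Finset ℕ)) (d : ℕ) (l : List (List ℕ)), IsComplex F → 1 ≤ d →
  HasDim F d → Lists l F → ∃ T : List Bool → Finset (Finset ℕ),
  (∀ x, IsBas (indQ l) (kP l) (cntT (x0P l)) x → IsSpanningTree F d (T x) ∧
    outF l x = l.filter (fun f => decide (f.toFinset ∈ T x))) ∧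
  (∀ x y, IsBas (indQ l) (kP l) (cntT (x0P l)) x → IsBas (indQ l) (kP l) (cntT (x0P l)) y →
    T x = T y → x = y) ∧
  (∀ U, IsSpanningTree F d U → ∃ x, IsBas (indQ l) (kP l) (cntT (x0P l)) x ∧ T x = U)

def SParam : Prop := ∀ l : List (List ℕ), 1 ≤ aP l ∧ kP l ≤ 2 ^ aP l ∧
  (∀ m, tP l m = 4 ^ aP l * (kP l + m)) ∧ (szc (kP l)).2 = 2 ^ aP l ∧ 2 ^ aP l ≤ 2 * kP l + 2

def SEnc : Prop := ∀ l : List (List ℕ), (denc l).enc = encFaces l

/-! ### main theorem -/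

def SMain : Prop := ∃ (M : CoinTM) (p : Polynomial ℕ),
  ∀ (F : Finset (Finset ℕ)) (d : ℕ) (l : List (List ℕ)), IsComplex F → 1 ≤ d → HasDim F d →
    Lists l F →
    ∃ (time : (ℕ → Bool) → ℕ) (tree : (ℕ → Bool) → Finset (Finset ℕ)),
      Measurable time ∧ (∀ T, MeasurableSet {ω | tree ω = T}) ∧
      (∀ᵐ ω ∂coinMeasure, IsSpanningTree F d (tree ω) ∧ M.Halts (encFaces l) ω (time ω)
        (encFaces (l.filter (fun f => decide (f.toFinset ∈ tree ω))))) ∧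
      (∀ T, IsSpanningTree F d T →
        coinMeasure {ω | tree ω = T} = 1 / (Set.ncard {T | IsSpanningTree F d T} : ℝ≥0∞)) ∧
      ∫⁻ ω, (time ω : ℝ≥0∞) ∂coinMeasure ≤ ((p.eval F.card : ℕ) : ℝ≥0∞)

end Pool.Agent.H330ST
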