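/- A program on the four stacks that repeats a block until its output is not empty. -/
import Pool.Agent.H330ST.Spec
set_option autoImplicit false
noncomputable section
namespace Pool.Agent.H330ST.JM2
open Pool.Agent.H685R2.Poly
open scoped ENNReal

/-- move one coin from `r3` to `r1` -/
def m2_coin : Cmd :=
  .seq (.pop .r0) (.seq (.pop .r0) (.br .r3 .skip
    (.seq (.pop .r3) (.seq (.push .r1 false) (.push .r1 true)))
    (.seq (.pop .r3) (.seq (.push .r1 true) (.push .r1 true)))))

theorem m2_coins (v : List Bool) : ∀ (x s1 s2 s3 : List Bool),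
    Ev (.wh .r0 m2_coin) ⟨(denc v.length).enc ++ x, s1, s2, v ++ s3⟩
      ⟨false :: x, rev2 v s1, s2, s3⟩ (7 * v.length + 1) := by
  induction v with
  | nil =>
      intro x s1 s2 s3
      exact Ev.weak (Ev.whn (by simp [St.get, denc, natD, D.enc])) (by simp)
  | cons b v ih =>
      intro x s1 s2 s3
      have e : (denc (b :: v).length).enc ++ x = true :: false :: ((denc v.length).enc ++ x) := by
        simp [denc, natD, D.enc]
      rw [e, rev2_cons]
      cases b with
      | false =>
          exact Ev.weak (Ev.wht rfl ((Ev.pop _ _).seq ((Ev.pop _ _).seq (Ev.brf rfl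
            ((Ev.pop _ _).seq ((Ev.push _ _ _).seq (Ev.push _ _ _))))))
            (ih x (true :: false :: s1) s2 s3)) (by simp; omega)
      | true =>
          exact Ev.weak (Ev.wht rfl ((Ev.pop _ _).seq ((Ev.pop _ _).seq (Ev.brt rfl
            ((Ev.pop _ _).seq ((Ev.push _ _ _).seq (Ev.push _ _ _))))))
            (ih x (true :: true :: s1) s2 s3)) (by simp; omega)

theorem m2_in_loop (l : List Bool) : ∀ (y x s1 s2 s3 : List Bool),
    Ev (.wh .r1 inBody2) ⟨(denc y).enc ++ x, rev2 l (false :: s1), s2, s3⟩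
      ⟨(denc (l ++ y)).enc ++ x, false :: s1, s2, s3⟩ (8 * l.length + 1) := by
  induction l using List.reverseRecOn with
  | nil => intro y x s1 s2 s3; exact Ev.whn (by simp [St.get, rev2])
  | append_singleton l b ih =>
      intro y x s1 s2 s3
      rw [rev2_concat]
      have h := ih (b :: y) x s1 s2 s3
      have e : l ++ b :: y = l ++ [b] ++ y := by simp
      rw [e] at h
      cases b with
      | false =>
          exact Ev.weak (Ev.wht rfl ((Ev.pop _ _).seq (Ev.brf rfl
            ((Ev.pop _ _).seq ((Ev.push _ _ _).seq (Ev.push _ _ _))))) h) (by simp; omega)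
      | true =>
          exact Ev.weak (Ev.wht rfl ((Ev.pop _ _).seq (Ev.brt rfl
            ((Ev.pop _ _).seq ((Ev.push _ _ _).seq ((Ev.push _ _ _).seq ((Ev.push _ _ _).seq
              (Ev.push _ _ _))))))) h) (by simp; omega)

/-- prepare the argument of the block -/
def m2_prep (cM : Cmd) : Cmd :=
  .seq dup (.seq dup (.seq cM (.seq (.push .r1 false) (.seq (.wh .r0 m2_coin)
    (.seq (.wh .r1 inBody2) (.seq (.pop .r1) (.seq swap (.push .r0 true))))))))

theorem m2_prep_ev {α : Type} [DEnc α] (M : α → ℕ) (cM : Cmd) (pM : Polynomial ℕ)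
    (hM : ∀ (a : α) (x s1 s2 s3 : List Bool),
      Ev cM ⟨(denc a).enc ++ x, s1, s2, s3⟩ ⟨(denc (M a)).enc ++ x, s1, s2, s3⟩
        (pM.eval (dsize a)))
    (a : α) (v x s1 s2 s3 : List Bool) (hv : v.length = M a) :
    Ev (m2_prep cM) ⟨(denc a).enc ++ x, s1, s2, v ++ s3⟩
      ⟨(denc (a, v)).enc ++ ((denc a).enc ++ x), s1, s2, s3⟩
      (57 * dsize a + pM.eval (dsize a) + 59 * v.length + 70) := by
  have h1 := dup_ev (denc a) x s1 s2 (v ++ s3)
  have h2 := dup_ev (denc a) ((denc a).enc ++ x) s1 s2 (v ++ s3)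
  have h3 := hM a ((denc a).enc ++ ((denc a).enc ++ x)) s1 s2 (v ++ s3)
  rw [← hv] at h3
  have h4 := Ev.push .r1 false
    ⟨(denc v.length).enc ++ ((denc a).enc ++ ((denc a).enc ++ x)), s1, s2, v ++ s3⟩
  have h5 := m2_coins v ((denc a).enc ++ ((denc a).enc ++ x)) (false :: s1) s2 s3
  have h6 := m2_in_loop v [] ((denc a).enc ++ ((denc a).enc ++ x)) s1 s2 s3
  have e6 : (denc ([] : List Bool)).enc ++ ((denc a).enc ++ ((denc a).enc ++ x)) =
      false :: ((denc a).enc ++ ((denc a).enc ++ x)) := by
    simp [denc, listD, D.enc]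
  rw [e6, List.append_nil] at h6
  have h7 := Ev.pop .r1
    ⟨(denc v).enc ++ ((denc a).enc ++ ((denc a).enc ++ x)), false :: s1, s2, s3⟩
  have h8 := swap_ev (denc v) (denc a) ((denc a).enc ++ x) s1 s2 s3
  have h9 := Ev.push .r0 true
    ⟨(denc a).enc ++ ((denc v).enc ++ ((denc a).enc ++ x)), s1, s2, s3⟩
  have e9 : (denc (a, v)).enc ++ ((denc a).enc ++ x) =
      true :: ((denc a).enc ++ ((denc v).enc ++ ((denc a).enc ++ x))) := by
    simp [denc, D.enc]
  rw [e9]
  refine (h1.seq (h2.seq (h3.seq (h4.seq (h5.seq (h6.seq (h7.seq (h8.seq h9)))))))).weak ?_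
  have h10 := dsize_bools v
  unfold dsize at *
  omega

/-- success: keep the output, remove the input, and end the loop -/
def m2_done : Cmd :=
  .seq (.pop .r0) (.seq mv01 (.seq (.pop .r0) (.seq drop (.seq bk10 (.pop .r1)))))

theorem m2_done_ev {α β : Type} [DEnc α] [DEnc β] (a : α) (y : β) (s3 : List Bool) :
    Ev m2_done ⟨(denc [y]).enc ++ ((denc a).enc ++ []), [true], [], s3⟩
      ⟨(denc y).enc, [], [], s3⟩ (11 * dsize y + 9 * dsize a + 17) := by
  have e : (denc [y]).enc ++ ((denc a).enc ++ []) =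
      true :: ((denc y).enc ++ (false :: ((denc a).enc ++ []))) := by
    simp [denc, listD, D.enc]
  rw [e]
  have h1 := Ev.pop .r0 ⟨true :: ((denc y).enc ++ (false :: ((denc a).enc ++ []))), [true], [], s3⟩
  have h2 := mv01_ev (denc y) (false :: ((denc a).enc ++ [])) [true] [] s3
  have h3 := Ev.pop .r0 ⟨false :: ((denc a).enc ++ []), rev2 (denc y).enc (false :: [true]), [], s3⟩
  have h4 := drop_ev (denc a) [] (rev2 (denc y).enc (false :: [true])) [] s3
  have h5 := bk10_ev (denc y).enc [] [true] [] s3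
  rw [D.length_enc, List.append_nil] at h5
  have h6 := Ev.pop .r1 ⟨(denc y).enc, [true], [], s3⟩
  refine (h1.seq (h2.seq (h3.seq (h4.seq (h5.seq h6))))).weak ?_
  unfold dsize
  omega

/-- one round -/
def m2_body (cM cB : Cmd) : Cmd :=
  .seq (m2_prep cM) (.seq cB (.br .r0 .skip (.pop .r0) m2_done))

/-- TARGET -/
theorem loopT : SLoop := by
  intro α β _ _ M blk T hM hB
  obtain ⟨rM, hrM⟩ := hM.size
  obtain ⟨cM, pM, hM⟩ := hM
  obtain ⟨cB, hB⟩ := hB
  refine ⟨.seq (.push .r1 true) (.wh .r1 (m2_body cM cB)),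
    pM + 100 * Polynomial.X + 200 * rM + 200, ?_⟩
  intro a ws w y s3 hws hw hy
  have hq : (pM + 100 * Polynomial.X + 200 * rM + 200).eval (dsize a) =
      pM.eval (dsize a) + 100 * dsize a + 200 * rM.eval (dsize a) + 200 := by
    simp only [Polynomial.eval_add, Polynomial.eval_mul, Polynomial.eval_X,
      Polynomial.eval_ofNat]
  have hMa : M a ≤ rM.eval (dsize a) := by
    have h1 := hrM a
    rw [dsize_nat] at h1
    omega
  have hloop : ∀ ws : List (List Bool), (∀ v ∈ ws, v.length = M a ∧ blk (a, v) = []) →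
      Ev (.wh .r1 (m2_body cM cB)) ⟨(denc a).enc ++ [], [true], [], ws.flatten ++ (w ++ s3)⟩
        ⟨(denc y).enc, [], [], s3⟩
        ((ws.map (fun v => 100 * T (a, v) + (pM.eval (dsize a) + 100 * dsize a +
          200 * rM.eval (dsize a) + 200))).sum +
        (100 * T (a, w) + (pM.eval (dsize a) + 100 * dsize a +
          200 * rM.eval (dsize a) + 199))) := by
    intro ws
    induction ws with
    | nil =>
        intro _
        have h1 := m2_prep_ev M cM pM hM a w [] [true] [] s3 hw
        have h2 := hB (a, w) ((denc a).enc ++ []) [true] [] s3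
        have h3 := h2.tot_le
        rw [hy] at h2 h3
        have h4 := m2_done_ev a y s3
        have h5 : Ev (.br .r0 .skip (.pop .r0) m2_done)
            ⟨(denc [y]).enc ++ ((denc a).enc ++ []), [true], [], s3⟩
            ⟨(denc y).enc, [], [], s3⟩ _ := Ev.brt rfl h4
        have h6 : Ev (.wh .r1 (m2_body cM cB)) ⟨(denc y).enc, [], [], s3⟩
            ⟨(denc y).enc, [], [], s3⟩ 1 := Ev.whn (by simp [St.get])
        refine (Ev.wht rfl (h1.seq (h2.seq h5)) h6).weak ?_
        have h7 := dsize_bools w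
        simp only [St.tot, List.length_append, D.length_enc, List.length_nil] at h3
        have h8 : (denc [y]).size = dsize y + 1 + 1 := rfl
        have h9 : (denc (a, w)).size = dsize a + dsize w + 1 := rfl
        rw [h8, h9] at h3
        simp only [List.map_nil, List.sum_nil]
        omega
    | cons v ws ih =>
        intro hws
        obtain ⟨hv, hbv⟩ := hws v List.mem_cons_self
        have h0 := ih (fun u hu => hws u (List.mem_cons_of_mem _ hu))
        have h1 := m2_prep_ev M cM pM hM a v [] [true] [] (ws.flatten ++ (w ++ s3)) hv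
        have h2 := hB (a, v) ((denc a).enc ++ []) [true] [] (ws.flatten ++ (w ++ s3))
        rw [hbv] at h2
        have h5 : Ev (.br .r0 .skip (.pop .r0) m2_done)
            ⟨(denc ([] : List β)).enc ++ ((denc a).enc ++ []), [true], [],
              ws.flatten ++ (w ++ s3)⟩
            ⟨(denc a).enc ++ [], [true], [], ws.flatten ++ (w ++ s3)⟩ _ :=
          Ev.brf rfl (Ev.pop _ _)
        have e : (v :: ws).flatten ++ (w ++ s3) = v ++ (ws.flatten ++ (w ++ s3)) := by simp
        rw [e]
        refine (Ev.wht rfl (h1.seq (h2.seq h5)) h0).weak ?_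
        rw [List.map_cons, List.sum_cons]
        omega
  have h1 := hloop ws hws
  rw [List.append_nil] at h1
  have h2 := Ev.push .r1 true ⟨(denc a).enc, [], [], ws.flatten ++ (w ++ s3)⟩
  refine (h2.seq h1).weak ?_
  rw [List.map_append, List.sum_append, List.map_singleton, List.sum_singleton, hq]
  omega

end Pool.Agent.H330ST.JM2
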