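import Pool.Agent.H330ST.Spec
set_option autoImplicit false
noncomputable section
namespace Pool.Agent.H330ST.JM3
open Pool.Agent.H685R2.Poly
open scoped ENNReal

section m3
variable {K Λ σ : Type} [DecidableEq K]

/-- parallel stacks: they agree outside `c0`, and on `c0` the top `k` elements agree -/
def m3_Par (c0 : K) (k : ℕ) (S S' : K → List Bool) : Prop :=
  (∀ r, r ≠ c0 → S r = S' r) ∧ ∃ u a b : List Bool, k ≤ u.length ∧ S c0 = u ++ a ∧ S' c0 = u ++ b

/-- parallel configurations -/
def m3_CPar (c0 : K) (k : ℕ) (c c' : Turing.TM2.Cfg (fun _ : K => Bool) Λ σ) : Prop :=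
  c.l = c'.l ∧ c.var = c'.var ∧ m3_Par c0 k c.stk c'.stk

omit [DecidableEq K] in
theorem m3_Par.mono {c0 : K} {k k' : ℕ} {S S' : K → List Bool} (h : m3_Par c0 k S S')
    (hk : k' ≤ k) : m3_Par c0 k' S S' := by
  obtain ⟨h1, u, a, b, h2, h3, h4⟩ := h
  exact ⟨h1, u, a, b, hk.trans h2, h3, h4⟩

theorem m3_Par.push {c0 : K} {k : ℕ} {S S' : K → List Bool} (h : m3_Par c0 k S S') (r : K)
    (x : Bool) : m3_Par c0 k (Function.update S r (x :: S r)) (Function.update S' r (x :: S' r)) := by
  obtain ⟨h1, u, a, b, h2, h3, h4⟩ := h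
  by_cases hr : r = c0
  · subst hr
    refine ⟨fun r' hr' => ?_, x :: u, a, b, ?_, ?_, ?_⟩
    · rw [Function.update_of_ne hr', Function.update_of_ne hr', h1 r' hr']
    · simp only [List.length_cons]; omega
    · rw [Function.update_self, h3]; rfl
    · rw [Function.update_self, h4]; rfl
  · refine ⟨fun r' hr' => ?_, u, a, b, h2, ?_, ?_⟩
    · by_cases hrr : r' = r
      · subst hrr
        rw [Function.update_self, Function.update_self, h1 r' hr']
      · rw [Function.update_of_ne hrr, Function.update_of_ne hrr, h1 r' hr']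
    · rw [Function.update_of_ne (Ne.symm hr), h3]
    · rw [Function.update_of_ne (Ne.symm hr), h4]

theorem m3_Par.head {c0 : K} {k : ℕ} {S S' : K → List Bool} (h : m3_Par c0 (k + 1) S S') (r : K) :
    (S r).head? = (S' r).head? := by
  obtain ⟨h1, u, a, b, h2, h3, h4⟩ := h
  by_cases hr : r = c0
  · subst hr
    rw [h3, h4]
    cases u with
    | nil => simp at h2
    | cons x u => rfl
  · rw [h1 r hr]

theorem m3_Par.pop {c0 : K} {k : ℕ} {S S' : K → List Bool} (h : m3_Par c0 (k + 1) S S') (r : K) :
    m3_Par c0 k (Function.update S r (S r).tail) (Function.update S' r (S' r).tail) := by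
  obtain ⟨h1, u, a, b, h2, h3, h4⟩ := h
  by_cases hr : r = c0
  · subst hr
    cases u with
    | nil => simp at h2
    | cons x u =>
      refine ⟨fun r' hr' => ?_, u, a, b, ?_, ?_, ?_⟩
      · rw [Function.update_of_ne hr', Function.update_of_ne hr', h1 r' hr']
      · simp only [List.length_cons] at h2; omega
      · rw [Function.update_self, h3]; rfl
      · rw [Function.update_self, h4]; rfl
  · refine ⟨fun r' hr' => ?_, u, a, b, by omega, ?_, ?_⟩
    · by_cases hrr : r' = r
      · subst hrr
        rw [Function.update_self, Function.update_self, h1 r' hr']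
      · rw [Function.update_of_ne hrr, Function.update_of_ne hrr, h1 r' hr']
    · rw [Function.update_of_ne (Ne.symm hr), h3]
    · rw [Function.update_of_ne (Ne.symm hr), h4]

/-- a statement looks only at finitely many elements of a stack -/
theorem m3_stepAux (c0 : K) (q : Turing.TM2.Stmt (fun _ : K => Bool) Λ σ) :
    ∃ D : ℕ, ∀ (k : ℕ) (v : σ) (S S' : K → List Bool), m3_Par c0 (k + D) S S' →
      m3_CPar c0 k (Turing.TM2.stepAux q v S) (Turing.TM2.stepAux q v S') := by
  induction q with
  | push r f q ih =>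
      obtain ⟨D, hD⟩ := ih
      refine ⟨D, fun k v S S' h => ?_⟩
      simp only [Turing.TM2.stepAux]
      exact hD k v _ _ (h.push r _)
  | peek r f q ih =>
      obtain ⟨D, hD⟩ := ih
      refine ⟨D + 1, fun k v S S' h => ?_⟩
      simp only [Turing.TM2.stepAux]
      have h' : m3_Par c0 ((k + D) + 1) S S' := h
      rw [h'.head r]
      exact hD k _ _ _ (h.mono (by omega))
  | pop r f q ih =>
      obtain ⟨D, hD⟩ := ih
      refine ⟨D + 1, fun k v S S' h => ?_⟩
      simp only [Turing.TM2.stepAux]
      have h' : m3_Par c0 ((k + D) + 1) S S' := h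
      rw [h'.head r]
      exact hD k _ _ _ (h'.pop r)
  | load f q ih =>
      obtain ⟨D, hD⟩ := ih
      refine ⟨D, fun k v S S' h => ?_⟩
      simp only [Turing.TM2.stepAux]
      exact hD k _ _ _ h
  | branch p q1 q2 ih1 ih2 =>
      obtain ⟨D1, hD1⟩ := ih1
      obtain ⟨D2, hD2⟩ := ih2
      refine ⟨max D1 D2, fun k v S S' h => ?_⟩
      simp only [Turing.TM2.stepAux]
      cases p v with
      | true => exact hD1 k v _ _ (h.mono (by have := le_max_left D1 D2; omega))
      | false => exact hD2 k v _ _ (h.mono (by have := le_max_right D1 D2; omega))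
  | goto l =>
      exact ⟨0, fun k v S S' h => ⟨rfl, rfl, h⟩⟩
  | halt =>
      exact ⟨0, fun k v S S' h => ⟨rfl, rfl, h⟩⟩

theorem m3_step [Finite Λ] (c0 : K) (m : Λ → Turing.TM2.Stmt (fun _ : K => Bool) Λ σ) :
    ∃ D : ℕ, ∀ (k : ℕ) (c c' d : Turing.TM2.Cfg (fun _ : K => Bool) Λ σ),
      m3_CPar c0 (k + D) c c' → Turing.TM2.step m c = some d →
      ∃ d', Turing.TM2.step m c' = some d' ∧ m3_CPar c0 k d d' := by
  choose D hD using fun l => m3_stepAux (σ := σ) c0 (m l)
  obtain ⟨B, hB⟩ := (Set.finite_range D).bddAbove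
  refine ⟨B, fun k c c' d h hd => ?_⟩
  obtain ⟨l, v, S⟩ := c
  obtain ⟨l', v', S'⟩ := c'
  obtain ⟨h1, h2, h3⟩ := h
  simp only at h1 h2 h3
  subst h1
  subst h2
  cases l with
  | none => simp [Turing.TM2.step] at hd
  | some l =>
    have hl : D l ≤ B := hB ⟨l, rfl⟩
    have h4 := hD l k v S S' (h3.mono (by omega))
    have hd' : Turing.TM2.stepAux (m l) v S = d := Option.some.inj hd
    rw [hd'] at h4
    exact ⟨_, rfl, h4⟩

theorem m3_iter [Finite Λ] (c0 : K) (m : Λ → Turing.TM2.Stmt (fun _ : K => Bool) Λ σ) :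
    ∃ D : ℕ, ∀ (n k : ℕ) (c c' d : Turing.TM2.Cfg (fun _ : K => Bool) Λ σ),
      m3_CPar c0 (k + n * D) c c' → (flip bind (Turing.TM2.step m))^[n] (some c) = some d →
      ∃ d', (flip bind (Turing.TM2.step m))^[n] (some c') = some d' ∧ m3_CPar c0 k d d' := by
  obtain ⟨D, hD⟩ := m3_step (σ := σ) c0 m
  refine ⟨D, fun n => ?_⟩
  induction n with
  | zero =>
      intro k c c' d h hd
      simp only [Function.iterate_zero, id_eq, Option.some.injEq] at hd
      subst hd
      exact ⟨c', rfl, by simpa using h⟩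
  | succ n ih =>
      intro k c c' d h hd
      rw [Function.iterate_succ_apply'] at hd
      rcases hx : (flip bind (Turing.TM2.step m))^[n] (some c) with _ | e
      · rw [hx] at hd
        exact absurd hd (by simp [flip])
      · rw [hx] at hd
        have hd1 : Turing.TM2.step m e = some d := hd
        have h' : m3_CPar c0 ((k + D) + n * D) c c' :=
          ⟨h.1, h.2.1, h.2.2.mono (by rw [Nat.succ_mul]; omega)⟩
        obtain ⟨e', he', hp⟩ := ih (k + D) c c' e h' hx
        obtain ⟨d', hd', hp'⟩ := hD k e e' d hp hd1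
        refine ⟨d', ?_, hp'⟩
        rw [Function.iterate_succ_apply', he']
        exact hd'

end m3

/-- the machine of a program -/
def m3_machine (c : Cmd) : CoinTM where
  K := Reg
  Λ := Option (CC c)
  σ := Option Bool
  io := .r0
  coins := .r3
  io_ne := by intro h; cases h
  main := some (CC.start c)
  start := none
  prog l := match l with
    | none => .load (fun _ => none) .halt
    | some a => CC.act c some none a

theorem m3_init (c : Cmd) (x ρ : List Bool) : (m3_machine c).init x ρ =
    (⟨some (some (CC.start c)), none, (⟨x, [], [], ρ⟩ : St).get⟩ : Cf (Option (CC c))) := by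
  refine congrArg (fun S => (⟨some (some (CC.start c)), none, S⟩ : Cf (Option (CC c)))) ?_
  funext k
  cases k <;> rfl

/-- TARGET -/
theorem machineT : SMachine := by
  intro c
  refine ⟨m3_machine c, fun x y ω t L₀ h => ?_⟩
  obtain ⟨D, hD⟩ := m3_iter (K := Reg) (Λ := Option (CC c)) (σ := Option Bool) Reg.r3
    (m3_machine c).prog
  obtain ⟨ρ, hρ⟩ := h (max L₀ ((t + 1) * D)) (le_max_left _ _)
  obtain ⟨n, hn, v', h1⟩ := compile_correct (m3_machine c).prog hρ some none (fun a => rfl) none
  have h2 : Steps (m3_machine c).prog (1 + n)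
      ⟨some (some (CC.start c)), none,
        (⟨x, [], [], (List.range (max L₀ ((t + 1) * D))).map ω⟩ : St).get⟩
      ⟨none, none, (⟨y, [], [], ρ⟩ : St).get⟩ := Steps.trans h1 (Steps.one rfl)
  refine ⟨1 + n, by omega, max L₀ ((t + 1) * D), fun L hL => ?_⟩
  have hpar : m3_CPar Reg.r3 (0 + (1 + n) * D)
      (⟨some (some (CC.start c)), none,
        (⟨x, [], [], (List.range (max L₀ ((t + 1) * D))).map ω⟩ : St).get⟩ : Cf (Option (CC c)))
      (⟨some (some (CC.start c)), none,
        (⟨x, [], [], (List.range L).map ω⟩ : St).get⟩ : Cf (Option (CC c))) := by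
    refine ⟨rfl, rfl, ?_, (List.range (max L₀ ((t + 1) * D))).map ω, [],
      ((List.range (L - max L₀ ((t + 1) * D))).map
        (fun i => ω (max L₀ ((t + 1) * D) + i))), ?_, ?_, ?_⟩
    · intro r hr
      cases r
      · rfl
      · rfl
      · rfl
      · exact absurd rfl hr
    · rw [List.length_map, List.length_range, zero_add]
      exact le_trans (Nat.mul_le_mul_right D (by omega)) (le_max_right _ _)
    · exact (List.append_nil _).symm
    · have : L = max L₀ ((t + 1) * D) + (L - max L₀ ((t + 1) * D)) := by omega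
      change (List.range L).map ω = _
      conv_lhs => rw [this, List.range_add, List.map_append, List.map_map]
      rfl
  obtain ⟨d', hd', hl, _, hs, _⟩ := hD (1 + n) 0 _ _ _ hpar h2
  refine ⟨d', ?_, hl.symm, ?_⟩
  · rw [m3_init]
    exact hd'
  · exact (hs Reg.r0 (by intro h; cases h)).symm
end Pool.Agent.H330ST.JM3
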