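import Pool.Agent.H330ST.Spec
set_option autoImplicit false
noncomputable section
namespace Pool.Agent.H330ST.JM4
open Pool.Agent.H685R2.Poly
open scoped ENNReal

theorem m4_step_none {M : CoinTM} [DecidableEq M.K]
    (c : Turing.TM2.Cfg (fun _ : M.K => Bool) M.Λ M.σ) (h : c.l = none) :
    Turing.TM2.step M.prog c = none := by
  obtain ⟨l, v, s⟩ := c
  simp only at h
  subst h
  rfl

theorem m4_iter_none {M : CoinTM} [DecidableEq M.K] (s : ℕ) :
    (flip bind (Turing.TM2.step M.prog))^[s] (none : Option (Turing.TM2.Cfg (fun _ : M.K => Bool) M.Λ M.σ)) = none := by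
  induction s with
  | zero => rfl
  | succ n ih =>
    rw [Function.iterate_succ_apply]
    exact ih

theorem m4_lt {M : CoinTM} {x ρ : List Bool} {t t' : ℕ} {y y' : List Bool}
    (h : M.HaltsOn x ρ t y) (h' : M.HaltsOn x ρ t' y') (hlt : t < t') : False := by
  let _ := M.decK
  unfold CoinTM.HaltsOn at h h'
  obtain ⟨c, hc, hl, hy⟩ := h
  obtain ⟨c', hc', hl', hy'⟩ := h'
  obtain ⟨s, rfl⟩ : ∃ s, t' = (s + 1) + t := ⟨t' - t - 1, by omega⟩
  rw [Function.iterate_add_apply, hc, Function.iterate_succ_apply] at hc'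
  have e : flip bind (Turing.TM2.step M.prog) (some c) = none := m4_step_none c hl
  rw [e, m4_iter_none] at hc'
  exact absurd hc' (by simp)

theorem m4_det {M : CoinTM} {x ρ : List Bool} {t t' : ℕ} {y y' : List Bool}
    (h : M.HaltsOn x ρ t y) (h' : M.HaltsOn x ρ t' y') : t = t' ∧ y = y' := by
  rcases lt_trichotomy t t' with hlt | heq | hgt
  · exact (m4_lt h h' hlt).elim
  · subst heq
    refine ⟨rfl, ?_⟩
    let _ := M.decK
    unfold CoinTM.HaltsOn at h h'
    obtain ⟨c, hc, hl, hy⟩ := h
    obtain ⟨c', hc', hl', hy'⟩ := h'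
    rw [hc] at hc'
    have : c = c' := Option.some_injective _ hc'
    subst this
    rw [← hy, ← hy']
  · exact (m4_lt h' h hgt).elim

theorem m4_meas (P : List Bool → Prop) (L : ℕ) :
    MeasurableSet {ω : ℕ → Bool | P ((List.range L).map ω)} := by
  have hm : Measurable (fun (ω : ℕ → Bool) (i : Fin L) => ω i) :=
    measurable_pi_lambda _ (fun i => measurable_pi_apply _)
  have e : {ω : ℕ → Bool | P ((List.range L).map ω)} =
      (fun (ω : ℕ → Bool) (i : Fin L) => ω i) ⁻¹' {v : Fin L → Bool | P ((List.finRange L).map v)} := by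
    ext ω
    simp only [Set.mem_ofPred_eq, Set.mem_preimage]
    have e2 : (List.range L).map ω = (List.finRange L).map (fun i : Fin L => ω i) := by
      have e3 : List.range L = (List.finRange L).map Fin.val := by simp
      rw [e3, List.map_map]
      rfl
    rw [e2]
  rw [e]
  exact hm (Set.toFinite _).measurableSet

/-- TARGET -/
theorem measT : SMeas := by
  intro M x
  refine ⟨?_, ?_⟩
  · intro t y
    have e : {ω | M.Halts x ω t y} =
        ⋃ L₀ : ℕ, ⋂ L : ℕ, ⋂ _ : L ≥ L₀, {ω | M.HaltsOn x ((List.range L).map ω) t y} := by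
      ext ω
      simp only [Set.mem_iUnion, Set.mem_iInter]
      rfl
    rw [e]
    refine MeasurableSet.iUnion fun L₀ => MeasurableSet.iInter fun L => MeasurableSet.iInter fun _ => ?_
    exact m4_meas (fun ρ => M.HaltsOn x ρ t y) L
  · intro ω t t' y y' h h'
    obtain ⟨L, hL⟩ := h
    obtain ⟨L', hL'⟩ := h'
    exact m4_det (hL (max L L') (le_max_left _ _)) (hL' (max L L') (le_max_right _ _))
end Pool.Agent.H330ST.JM4
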