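import Pool.Agent.H330ST.Spec
set_option autoImplicit false
noncomputable section
namespace Pool.Agent.H330ST.JM5
open Pool.Agent.H685R2.Poly
open scoped ENNReal
open MeasureTheory

/-- the probability of one value of a block -/
def m5_q (k : ℕ) : ℝ≥0∞ := ((2 : ℝ≥0∞) ^ k)⁻¹

theorem m5_fair (c : Bool) : fair {b | b = c} = (2 : ℝ≥0∞)⁻¹ := by
  unfold fair
  have h : ({b | b = c} : Set Bool) = {c} := rfl
  rw [h, PMF.toMeasure_apply_singleton _ _ (measurableSet_singleton c)]
  simp [PMF.uniformOfFintype_apply]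

theorem m5_meas_blk (k j : ℕ) : Measurable (fun ω : ℕ → Bool => blkω k ω j) := by
  apply measurable_pi_lambda
  intro l
  exact measurable_pi_apply (j * k + (l : ℕ))

theorem m5_cyl (k n : ℕ) (v : ℕ → Fin k → Bool) :
    coinMeasure {ω | ∀ j < n, blkω k ω j = v j} = m5_q k ^ n := by
  have h1 : {ω : ℕ → Bool | ∀ j < n, blkω k ω j = v j} =
      Set.pi (Finset.range (n * k) : Set ℕ) (fun m => {b : Bool | ∀ h : m % k < k, b = v (m / k) ⟨m % k, h⟩}) := by
    ext ω
    simp only [Set.mem_pi, Finset.coe_range, Set.mem_Iio]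
    constructor
    · intro h m hm hmk
      have hk : 0 < k := by omega
      have hj : m / k < n := Nat.div_lt_of_lt_mul (by rw [mul_comm]; exact hm)
      have h2 := congrFun (h (m / k) hj) ⟨m % k, hmk⟩
      simp only [blkω] at h2
      rw [← h2]
      congr 1
      rw [mul_comm]
      exact (Nat.div_add_mod m k).symm
    · intro h j hj
      funext l
      have hk : 0 < k := lt_of_le_of_lt (Nat.zero_le _) l.2
      have hm : j * k + (l : ℕ) < n * k := by
        have : (j + 1) * k ≤ n * k := Nat.mul_le_mul_right _ hj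
        have := l.2
        nlinarith
      have h2 : (j * k + (l : ℕ)) % k = l := by
        rw [Nat.add_mod, Nat.mul_mod_left, zero_add, Nat.mod_mod, Nat.mod_eq_of_lt l.2]
      have h3 : (j * k + (l : ℕ)) / k = j := by
        rw [mul_comm, Nat.mul_add_div hk, Nat.div_eq_of_lt l.2, add_zero]
      have h4 := h (j * k + l) hm (by rw [h2]; exact l.2)
      simp only [blkω]
      have h5 : (⟨(j * k + (l : ℕ)) % k, by rw [h2]; exact l.2⟩ : Fin k) = l := Fin.ext h2
      rw [h4, h5, h3]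
  rw [h1]
  unfold coinMeasure
  rw [Measure.infinitePi_pi _ (fun m _ => (Set.toFinite _).measurableSet)]
  rw [Finset.prod_congr rfl (g := fun _ => (2 : ℝ≥0∞)⁻¹)]
  · rw [Finset.prod_const, Finset.card_range, m5_q, ← ENNReal.inv_pow, ← ENNReal.inv_pow, mul_comm, pow_mul]
  · intro m hm
    rw [Finset.mem_range] at hm
    have hk : 0 < k := Nat.pos_of_ne_zero (by rintro rfl; simp at hm)
    have h2 : m % k < k := Nat.mod_lt _ hk
    have h3 : {b : Bool | ∀ h : m % k < k, b = v (m / k) ⟨m % k, h⟩} = {b | b = v (m / k) ⟨m % k, h2⟩} := by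
      ext b
      exact ⟨fun h => h h2, fun h _ => h⟩
    rw [h3]
    exact m5_fair _

theorem m5_rect (k n : ℕ) (S : ℕ → Finset (Fin k → Bool)) :
    coinMeasure {ω | ∀ j < n, blkω k ω j ∈ S j} = ∏ j ∈ Finset.range n, (((S j).card : ℝ≥0∞) * m5_q k) := by
  classical
  have h1 : {ω : ℕ → Bool | ∀ j < n, blkω k ω j ∈ S j} =
      ⋃ x ∈ Fintype.piFinset (fun j : Fin n => S j), {ω : ℕ → Bool | ∀ j : Fin n, blkω k ω j = x j} := by
    ext ω
    simp only [Set.mem_iUnion, Fintype.mem_piFinset]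
    constructor
    · intro h
      exact ⟨fun j => blkω k ω j, fun j => h j j.2, fun j => rfl⟩
    · rintro ⟨x, hx, h⟩ j hj
      have := hx ⟨j, hj⟩
      rw [← h ⟨j, hj⟩] at this
      exact this
  rw [h1, measure_biUnion_finset]
  · have h2 : ∀ x : Fin n → Fin k → Bool, coinMeasure {ω : ℕ → Bool | ∀ j : Fin n, blkω k ω j = x j} = m5_q k ^ n := by
      intro x
      rw [← m5_cyl k n (fun j => if h : j < n then x ⟨j, h⟩ else fun _ => true)]
      congr 1
      ext ω
      constructor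
      · intro h j hj
        simp only [dif_pos hj]
        exact h ⟨j, hj⟩
      · intro h j
        have := h j j.2
        simp only [j.2, dif_pos] at this
        exact this
    simp only [h2]
    rw [Finset.sum_const, Fintype.card_piFinset, Finset.prod_mul_distrib, Finset.prod_const, Finset.card_range,
      nsmul_eq_mul, Finset.prod_range]
    push_cast
    rfl
  · intro x _ y _ hxy
    rw [Function.onFun, Set.disjoint_left]
    intro ω h1 h2
    apply hxy
    funext j
    rw [← h1 j, ← h2 j]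
  · intro x _
    have : {ω : ℕ → Bool | ∀ j : Fin n, blkω k ω j = x j} = ⋂ j : Fin n, (fun ω : ℕ → Bool => blkω k ω j) ⁻¹' {x j} := by
      ext ω; simp
    rw [this]
    exact MeasurableSet.iInter fun j => m5_meas_blk k j (measurableSet_singleton _)

theorem m5_measS (k : ℕ) (Q : (Fin k → Bool) → Prop) (j : ℕ) : MeasurableSet {ω : ℕ → Bool | Q (blkω k ω j)} := by
  have : {ω : ℕ → Bool | Q (blkω k ω j)} = (fun ω : ℕ → Bool => blkω k ω j) ⁻¹' {v | Q v} := rfl
  rw [this]
  exact m5_meas_blk k j (Set.toFinite _).measurableSet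

theorem m5_measE (k : ℕ) (ok : (Fin k → Bool) → Prop) (Q : (Fin k → Bool) → Prop) (i : ℕ) :
    MeasurableSet {ω : ℕ → Bool | (∀ j < i, ¬ ok (blkω k ω j)) ∧ Q (blkω k ω i)} := by
  have : {ω : ℕ → Bool | (∀ j < i, ¬ ok (blkω k ω j)) ∧ Q (blkω k ω i)} =
      (⋂ j : Fin i, {ω : ℕ → Bool | ¬ ok (blkω k ω j)}) ∩ {ω : ℕ → Bool | Q (blkω k ω i)} := by
    ext ω
    simp only [Set.mem_inter_iff, Set.mem_iInter]
    constructor
    · rintro ⟨h1, h2⟩
      exact ⟨fun j => h1 j j.2, h2⟩
    · rintro ⟨h1, h2⟩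
      exact ⟨fun j hj => h1 ⟨j, hj⟩, h2⟩
  rw [this]
  exact (MeasurableSet.iInter fun j : Fin i => m5_measS k (fun v => ¬ ok v) (j : ℕ)).inter (m5_measS k Q i)

open Classical in
theorem m5_E (k : ℕ) (ok : (Fin k → Bool) → Prop) (Q : (Fin k → Bool) → Prop) (i : ℕ) :
    coinMeasure {ω : ℕ → Bool | (∀ j < i, ¬ ok (blkω k ω j)) ∧ Q (blkω k ω i)} =
      (((Finset.univ.filter (fun v => ¬ ok v)).card : ℝ≥0∞) * m5_q k) ^ i *
        (((Finset.univ.filter (fun v => Q v)).card : ℝ≥0∞) * m5_q k) := by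
  have h := m5_rect k (i + 1) (fun j => if j < i then Finset.univ.filter (fun v => ¬ ok v) else
    Finset.univ.filter (fun v => Q v))
  rw [Finset.prod_range_succ] at h
  rw [Finset.prod_congr rfl (g := fun _ => ((Finset.univ.filter (fun v => ¬ ok v)).card : ℝ≥0∞) * m5_q k)
    (fun j hj => by rw [if_pos (Finset.mem_range.1 hj)])] at h
  rw [Finset.prod_const, Finset.card_range, if_neg (lt_irrefl i)] at h
  rw [← h]
  congr 1
  ext ω
  constructor
  · rintro ⟨h1, h2⟩ j hj
    by_cases hji : j < i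
    · simp only [if_pos hji, Finset.mem_filter, Finset.mem_univ, true_and]
      exact h1 j hji
    · have : j = i := by omega
      subst this
      simp only [if_neg hji, Finset.mem_filter, Finset.mem_univ, true_and]
      exact h2
  · intro h1
    refine ⟨fun j hj => ?_, ?_⟩
    · have := h1 j (by omega)
      simp only [if_pos hj, Finset.mem_filter, Finset.mem_univ, true_and] at this
      exact this
    · have := h1 i (by omega)
      simp only [lt_irrefl, if_false, Finset.mem_filter, Finset.mem_univ, true_and] at this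
      exact this

/-- TARGET -/
theorem probT : SProb := by
  classical
  intro k ok hok
  set F : ℝ≥0∞ := ((Finset.univ.filter (fun v : Fin k → Bool => ¬ ok v)).card : ℝ≥0∞) with hF
  set G : ℝ≥0∞ := ((Finset.univ.filter (fun v : Fin k → Bool => ok v)).card : ℝ≥0∞) with hG
  set q : ℝ≥0∞ := m5_q k with hq
  have hGF : G + F = 2 ^ k := by
    rw [hG, hF, ← Nat.cast_add, Finset.card_filter_add_card_filter_not]
    simp
  have h2k0 : (2 : ℝ≥0∞) ^ k ≠ 0 := pow_ne_zero _ (by norm_num)
  have h2kt : (2 : ℝ≥0∞) ^ k ≠ ⊤ := ENNReal.pow_ne_top (by norm_num)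
  have hq0 : q ≠ 0 := by rw [hq, m5_q]; exact ENNReal.inv_ne_zero.2 h2kt
  have hqt : q ≠ ⊤ := by rw [hq, m5_q]; exact ENNReal.inv_ne_top.2 h2k0
  have hGq : G * q + F * q = 1 := by
    rw [← add_mul, hGF, hq, m5_q]; exact ENNReal.mul_inv_cancel h2k0 h2kt
  have hGt : G ≠ ⊤ := ENNReal.natCast_ne_top _
  have hFt : F ≠ ⊤ := ENNReal.natCast_ne_top _
  have hFq : F * q ≠ ⊤ := ENNReal.mul_ne_top hFt hqt
  have hGhalf : (2 : ℝ≥0∞)⁻¹ ≤ G * q := by
    have h1 : (2 : ℝ≥0∞) ^ k ≤ 2 * G := by rw [hG]; exact_mod_cast hok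
    calc (2 : ℝ≥0∞)⁻¹ = (2 : ℝ≥0∞)⁻¹ * ((2 : ℝ≥0∞) ^ k * q) := by
          rw [hq, m5_q, ENNReal.mul_inv_cancel h2k0 h2kt, mul_one]
      _ ≤ (2 : ℝ≥0∞)⁻¹ * ((2 * G) * q) := by gcongr
      _ = G * q := by
          rw [mul_assoc, ← mul_assoc, ENNReal.inv_mul_cancel (by norm_num) (by norm_num), one_mul]
  have hFhalf : F * q ≤ (2 : ℝ≥0∞)⁻¹ := by
    have h1 : (2 : ℝ≥0∞)⁻¹ + F * q ≤ (2 : ℝ≥0∞)⁻¹ + (2 : ℝ≥0∞)⁻¹ := by
      rw [ENNReal.inv_two_add_inv_two, ← hGq]
      gcongr
    exact (ENNReal.add_le_add_iff_left (by norm_num)).1 h1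
  have h1F : 1 - F * q = G * q := by
    rw [← hGq]
    exact ENNReal.add_sub_cancel_right hFq
  have hGq0 : G * q ≠ 0 := by
    intro h0
    rw [h0] at hGhalf
    simp at hGhalf
  refine ⟨?_, ?_, ?_⟩
  · -- almost surely some block is ok
    rw [ae_iff]
    have hle : ∀ n : ℕ, coinMeasure {ω | ¬ ∃ i, ok (blkω k ω i)} ≤ (2 : ℝ≥0∞)⁻¹ ^ n := by
      intro n
      calc coinMeasure {ω | ¬ ∃ i, ok (blkω k ω i)}
          ≤ coinMeasure {ω | ∀ j < n, blkω k ω j ∈ Finset.univ.filter (fun v : Fin k → Bool => ¬ ok v)} := by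
            apply measure_mono
            intro ω h j _
            simp only [Finset.mem_filter, Finset.mem_univ, true_and]
            exact fun h2 => h ⟨j, h2⟩
        _ = (F * q) ^ n := by
            rw [m5_rect k n (fun _ => Finset.univ.filter (fun v : Fin k → Bool => ¬ ok v)), Finset.prod_const,
              Finset.card_range]
        _ ≤ _ := by gcongr
    have hlim : Filter.Tendsto (fun n : ℕ => (2 : ℝ≥0∞)⁻¹ ^ n) Filter.atTop (nhds 0) :=
      ENNReal.tendsto_pow_atTop_nhds_zero_of_lt_one (by norm_num)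
    exact le_antisymm (ge_of_tendsto' hlim hle) bot_le
  · intro P hP
    have hset : {ω : ℕ → Bool | ∃ i, (∀ j < i, ¬ ok (blkω k ω j)) ∧ P (blkω k ω i)} =
        ⋃ i : ℕ, {ω : ℕ → Bool | (∀ j < i, ¬ ok (blkω k ω j)) ∧ P (blkω k ω i)} := by
      ext ω; simp
    rw [hset, measure_iUnion]
    · simp only [m5_E]
      rw [ENNReal.tsum_mul_right, ENNReal.tsum_geometric, h1F, ENNReal.div_eq_inv_mul,
        ENNReal.mul_inv (Or.inr hqt) (Or.inr hq0)]
      calc G⁻¹ * q⁻¹ * (((Finset.univ.filter (fun v => P v)).card : ℝ≥0∞) * q)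
          = G⁻¹ * ((Finset.univ.filter (fun v => P v)).card : ℝ≥0∞) * (q⁻¹ * q) := by ring
        _ = _ := by rw [ENNReal.inv_mul_cancel hq0 hqt, mul_one]
    · intro i i' hii
      rw [Function.onFun, Set.disjoint_left]
      rintro ω ⟨h1, h2⟩ ⟨h3, h4⟩
      rcases lt_trichotomy i i' with h | h | h
      · exact h3 i h (hP _ h2)
      · exact hii h
      · exact h1 i' h (hP _ h4)
    · intro i
      exact m5_measE k ok P i
  · intro cost
    have hf : ∀ (ω : ℕ → Bool) (i : ℕ), (if (∀ j < i, ¬ ok (blkω k ω j)) then (cost (blkω k ω i) : ℝ≥0∞) else 0) =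
        ∑ v : Fin k → Bool, Set.indicator {ω : ℕ → Bool | (∀ j < i, ¬ ok (blkω k ω j)) ∧ blkω k ω i = v}
          (fun _ => (cost v : ℝ≥0∞)) ω := by
      intro ω i
      by_cases h : ∀ j < i, ¬ ok (blkω k ω j)
      · rw [if_pos h, Finset.sum_eq_single (blkω k ω i)]
        · rw [Set.indicator_of_mem]
          exact ⟨h, rfl⟩
        · intro v _ hv
          rw [Set.indicator_of_notMem]
          rintro ⟨_, h2⟩
          exact hv h2.symm
        · intro h2
          exact absurd (Finset.mem_univ _) h2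
      · rw [if_neg h]
        symm
        apply Finset.sum_eq_zero
        intro v _
        rw [Set.indicator_of_notMem]
        rintro ⟨h2, _⟩
        exact h h2
    simp only [hf]
    have hmE : ∀ (i : ℕ) (v : Fin k → Bool), MeasurableSet {ω : ℕ → Bool | (∀ j < i, ¬ ok (blkω k ω j)) ∧ blkω k ω i = v} :=
      fun i v => m5_measE k ok (fun x => x = v) i
    rw [lintegral_tsum (fun i => (Finset.measurable_sum _ fun v _ => measurable_const.indicator (hmE i v)).aemeasurable)]
    have hint : ∀ i : ℕ, ∫⁻ ω, ∑ v : Fin k → Bool, Set.indicator {ω : ℕ → Bool | (∀ j < i, ¬ ok (blkω k ω j)) ∧ blkω k ω i = v}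
          (fun _ => (cost v : ℝ≥0∞)) ω ∂coinMeasure = (F * q) ^ i * (q * ∑ v, (cost v : ℝ≥0∞)) := by
      intro i
      rw [lintegral_finsetSum _ (fun v _ => measurable_const.indicator (hmE i v)), Finset.mul_sum, Finset.mul_sum]
      refine Finset.sum_congr rfl fun v _ => ?_
      rw [lintegral_indicator_const (hmE i v), m5_E k ok (fun x => x = v) i]
      have hc : (@Finset.filter _ (fun x : Fin k → Bool => x = v)
          (fun x => Classical.propDecidable (x = v)) Finset.univ).card = 1 := by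
        rw [Finset.card_eq_one]
        exact ⟨v, by ext x; simp⟩
      rw [hc, Nat.cast_one, one_mul, ← hF, ← hq]
      ring
    simp only [hint]
    rw [ENNReal.tsum_mul_right, ENNReal.tsum_geometric, h1F]
    have hinv : (G * q)⁻¹ ≤ 2 := by
      rw [← inv_inv (2 : ℝ≥0∞)]
      exact ENNReal.inv_le_inv.2 hGhalf
    calc (G * q)⁻¹ * (q * ∑ v, (cost v : ℝ≥0∞)) ≤ 2 * (q * ∑ v, (cost v : ℝ≥0∞)) := by gcongr
      _ = 2 * (∑ v, (cost v : ℝ≥0∞)) / 2 ^ k := by
        rw [hq, m5_q, ENNReal.div_eq_inv_mul]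
        ring

end Pool.Agent.H330ST.JM5
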