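import Pool.Agent.H330ST.Spec
set_option autoImplicit false
noncomputable section
namespace Pool.Agent.H330ST.JM6
open Pool.Agent.H685R2.Poly
open scoped ENNReal

/-- growth of a polynomial with natural coefficients -/
theorem m6_evalBound (p : Polynomial ℕ) (x : ℕ) (hx : 1 ≤ x) :
    p.eval x ≤ p.eval 1 * x ^ p.natDegree := by
  rw [Polynomial.eval_eq_sum_range, Polynomial.eval_eq_sum_range, Finset.sum_mul]
  refine Finset.sum_le_sum fun i hi => ?_
  rw [one_pow, mul_one]
  exact Nat.mul_le_mul_left _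
    (Nat.pow_le_pow_right hx (Nat.lt_succ_iff.mp (Finset.mem_range.mp hi)))

theorem m6_dsizeL {α : Type} [DEnc α] (N : ℕ) (l : List α) (h : ∀ a ∈ l, dsize a ≤ N) :
    dsize l ≤ l.length * (N + 1) + 1 := by
  induction l with
  | nil => rw [dsize_nil]; simp
  | cons a l ih =>
      rw [dsize_cons, List.length_cons, Nat.succ_mul]
      have h1 := ih (fun b hb => h b (List.mem_cons_of_mem a hb))
      have h2 := h a List.mem_cons_self
      omega

/-- number of strings whose first `m` bits are `false` -/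
theorem m6_card (m r : ℕ) :
    (Finset.univ.filter (fun v : Fin (m + r) → Bool => slowFlag m (List.ofFn v) = true)).card ≤
      2 ^ r := by
  have h : (Finset.univ : Finset (Fin r → Bool)).card = 2 ^ r := by
    simp
  rw [← h]
  refine Finset.card_le_card_of_injOn (fun v j => v (Fin.natAdd m j)) (fun _ _ => by simp) ?_
  have key : ∀ v : Fin (m + r) → Bool, slowFlag m (List.ofFn v) = true →
      ∀ i : Fin m, v (Fin.castAdd r i) = false := by
    intro v hv i
    unfold slowFlag at hv
    rw [List.all_eq_true] at hv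
    have h1 : v (Fin.castAdd r i) ∈ (List.ofFn v).take m := by
      rw [List.mem_take_iff_getElem]
      refine ⟨i.1, ?_, ?_⟩
      · simp
      · simp [Fin.castAdd, Fin.castLE]
    have h2 := hv _ h1
    simpa using h2
  intro v hv w hw hvw
  simp only [Finset.coe_filter, Finset.mem_univ, true_and, Set.mem_ofPred_eq] at hv hw
  funext i
  refine Fin.addCases (fun j => ?_) (fun j => ?_) i
  · rw [key v hv j, key w hw j]
  · exact congrFun hvw j

/-- the map from the input of a block to the input of the parts -/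
theorem m6_pre (K : ℕ) :
    PF (fun q : List (List ℕ) × List Bool => (q.1, (K * q.1.length, q.2))) :=
  PF.pair PF.fst' (PF.pair (PF.mul (PF.const K) (PF.length PF.fst')) PF.snd')

theorem m6_blk (K : ℕ) (q : List (List ℕ) × List Bool) :
    blkF K q = (fun b : List (List ℕ) × (ℕ × List Bool) =>
      if slowFlag b.2.1 b.2.2 = true then
        slowPad (b, List.replicate (2 ^ (kP b.1 + 2 * aP b.1)) ()) else fastFn b)
      (q.1, (K * q.1.length, q.2)) := by
  simp only [blkF, blockOut, slowPad, fastFn, List.length_replicate]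
  split_ifs <;> rfl

/-- bound for the size of the arguments -/
def m6_D (K : ℕ) : Polynomial ℕ :=
  (Polynomial.X * ((Polynomial.X * (2 * Polynomial.X + 1) + 1) + 1) + 1) +
    (2 * (Polynomial.C K * Polynomial.X) + 1) +
    (4 * (Polynomial.C K * Polynomial.X + 2 * (2 * Polynomial.X + 2) *
      ((2 * Polynomial.X + 2) ^ 2 * (Polynomial.X + Polynomial.C K * Polynomial.X))) + 1) + 2

theorem m6_sz (h4 : SParam) (K : ℕ) (l : List (List ℕ))
    (hl : ∀ f ∈ l, f.length ≤ l.length ∧ ∀ v ∈ f, v < l.length) (w : List Bool)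
    (hw : w.length = MP l (K * l.length)) :
    dsize (l, w) ≤ (m6_D K).eval l.length ∧
      dsize (l, (K * l.length, w)) ≤ (m6_D K).eval l.length := by
  obtain ⟨h41, h42, h43, h44, h45⟩ := h4 l
  have hk : kP l ≤ l.length := List.length_filter_le _ _
  have hl1 : dsize l ≤ l.length * ((l.length * (2 * l.length + 1) + 1) + 1) + 1 := by
    refine m6_dsizeL _ l fun f hf => ?_
    obtain ⟨hf1, hf2⟩ := hl f hf
    have h1 : dsize f ≤ f.length * (2 * l.length + 1) + 1 := by
      refine m6_dsizeL _ f fun v hv => ?_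
      have h2 := hf2 v hv
      rw [dsize_nat]
      omega
    have h3 : f.length * (2 * l.length + 1) ≤ l.length * (2 * l.length + 1) :=
      Nat.mul_le_mul_right _ hf1
    omega
  have hw1 : dsize w ≤ 4 * w.length + 1 := by
    have h1 := m6_dsizeL 3 w (fun b _ => dsize_bool b)
    omega
  have ha1 : aP l ≤ 2 * l.length + 2 := by
    have h1 : aP l < 2 ^ aP l := Nat.lt_two_pow_self
    omega
  have ha2 : 4 ^ aP l ≤ (2 * l.length + 2) ^ 2 := by
    have h1 : (4 : ℕ) ^ aP l = (2 ^ aP l) ^ 2 := by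
      rw [← pow_mul, mul_comm, pow_mul]
      norm_num
    rw [h1]
    exact Nat.pow_le_pow_left (by omega) 2
  have hM : MP l (K * l.length) ≤ K * l.length + 2 * (2 * l.length + 2) *
      ((2 * l.length + 2) ^ 2 * (l.length + K * l.length)) := by
    unfold MP
    rw [h43]
    gcongr
  have e : (m6_D K).eval l.length =
      (l.length * ((l.length * (2 * l.length + 1) + 1) + 1) + 1) + (2 * (K * l.length) + 1) +
      (4 * (K * l.length + 2 * (2 * l.length + 2) *
      ((2 * l.length + 2) ^ 2 * (l.length + K * l.length))) + 1) + 2 := by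
    simp [m6_D]
  rw [e, dsize_pair, dsize_pair, dsize_pair, dsize_nat]
  simp only
  rw [hw] at hw1
  constructor <;> omega

/-- the sum over all strings -/
theorem m6_sum (m r A B : ℕ) (f : (Fin (m + r) → Bool) → ℕ)
    (h : ∀ v, f v ≤ B + if slowFlag m (List.ofFn v) = true then A else 0) :
    ∑ v, f v ≤ 2 ^ (m + r) * B + 2 ^ r * A := by
  refine (Finset.sum_le_sum fun v _ => h v).trans ?_
  rw [Finset.sum_add_distrib, ← Finset.sum_filter, Finset.sum_const, Finset.sum_const]
  have h1 : (Finset.univ : Finset (Fin (m + r) → Bool)).card = 2 ^ (m + r) := by simp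
  rw [h1, smul_eq_mul, smul_eq_mul]
  exact Nat.add_le_add_left (Nat.mul_le_mul_right _ (m6_card m r)) _

/-- the time of a block -/
def m6_T (K : ℕ) (p pf p3 pK : Polynomial ℕ) (q : List (List ℕ) × List Bool) : ℕ :=
  pK.eval (dsize q) + (p3.eval (dsize (q.1, (K * q.1.length, q.2))) +
    if slowFlag (K * q.1.length) q.2 = true then
      p.eval (dsize (q.1, (K * q.1.length, q.2)) + 2 ^ (kP q.1 + 2 * aP q.1))
    else pf.eval (dsize (q.1, (K * q.1.length, q.2))))

/-- the bound for the slow part -/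
theorem m6_slow (h4 : SParam) (p : Polynomial ℕ) (l : List (List ℕ)) (D : ℕ) :
    p.eval (D + 2 ^ (kP l + 2 * aP l)) ≤ 2 ^ ((p.natDegree + 1) * l.length) *
      (p.eval 1 * (D + (2 * l.length + 2) ^ 2) ^ p.natDegree) := by
  obtain ⟨h41, h42, h43, h44, h45⟩ := h4 l
  have hk : kP l ≤ l.length := List.length_filter_le _ _
  have e1 : 2 ^ (kP l + 2 * aP l) ≤ 2 ^ l.length * (2 * l.length + 2) ^ 2 := by
    rw [pow_add, mul_comm 2 (aP l), pow_mul]
    exact Nat.mul_le_mul (Nat.pow_le_pow_right (by norm_num) hk)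
      (Nat.pow_le_pow_left (by omega) 2)
  have e2 : D + 2 ^ (kP l + 2 * aP l) ≤ 2 ^ l.length * (D + (2 * l.length + 2) ^ 2) := by
    rw [Nat.mul_add]
    have h5 : 1 * D ≤ 2 ^ l.length * D := Nat.mul_le_mul_right _ Nat.one_le_two_pow
    omega
  refine (m6_evalBound p _ ?_).trans ?_
  · have h6 : 1 ≤ 2 ^ (kP l + 2 * aP l) := Nat.one_le_two_pow
    omega
  · calc p.eval 1 * (D + 2 ^ (kP l + 2 * aP l)) ^ p.natDegree
        ≤ p.eval 1 * (2 ^ l.length * (D + (2 * l.length + 2) ^ 2)) ^ p.natDegree :=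
          Nat.mul_le_mul_left _ (Nat.pow_le_pow_left e2 _)
      _ = 2 ^ (p.natDegree * l.length) *
          (p.eval 1 * (D + (2 * l.length + 2) ^ 2) ^ p.natDegree) := by
          rw [mul_pow, ← pow_mul, mul_comm l.length]
          ring
      _ ≤ _ := Nat.mul_le_mul_right _ (Nat.pow_le_pow_right (by norm_num)
          (Nat.mul_le_mul_right _ (Nat.le_succ _)))

/-- TARGET -/
theorem avgT (h1 : SPad) (h2 : STFops) (h3 : SProgs) (h4 : SParam) : SAvg := by
  obtain ⟨g1, g2, g3, g4, g5⟩ := h3
  obtain ⟨t1, t2, t3⟩ := h2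
  obtain ⟨p, hp⟩ := h1 slowPad (fun b : List (List ℕ) × (ℕ × List Bool) => kP b.1 + 2 * aP b.1)
    g1 g4
  obtain ⟨pf, hpf⟩ := t1 g2
  obtain ⟨p3, hp3⟩ := t3 g3 hp hpf
  obtain ⟨pK, hpK⟩ := t1 (m6_pre (p.natDegree + 1))
  have h5 := t2 hp3 hpK
  refine ⟨p.natDegree + 1, m6_T (p.natDegree + 1) p pf p3 pK,
    pK.comp (m6_D (p.natDegree + 1)) + p3.comp (m6_D (p.natDegree + 1))
    + pf.comp (m6_D (p.natDegree + 1)) + Polynomial.C (p.eval 1) *
      (m6_D (p.natDegree + 1) + (2 * Polynomial.X + 2) ^ 2) ^ p.natDegree,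
    Nat.le_add_left _ _, ?_, ?_⟩
  · obtain ⟨c, hc⟩ := h5
    exact ⟨c, fun a x s1 s2 s3 => by
      rw [m6_blk]
      exact hc a x s1 s2 s3⟩
  intro l hl
  have key := m6_sum ((p.natDegree + 1) * l.length)
    (2 * aP l * tP l ((p.natDegree + 1) * l.length))
    (p.eval ((m6_D (p.natDegree + 1)).eval l.length + 2 ^ (kP l + 2 * aP l)))
    (pK.eval ((m6_D (p.natDegree + 1)).eval l.length) +
      (p3.eval ((m6_D (p.natDegree + 1)).eval l.length) +
      pf.eval ((m6_D (p.natDegree + 1)).eval l.length)))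
    (fun v => m6_T (p.natDegree + 1) p pf p3 pK (l, List.ofFn v)) (fun v => by
      obtain ⟨s1, s2⟩ := m6_sz h4 (p.natDegree + 1) l hl (List.ofFn v)
        (by rw [List.length_ofFn, MP])
      have b1 := eval_mono pK s1
      have b2 := eval_mono p3 s2
      have b3 := eval_mono pf s2
      have b4 := eval_mono p (Nat.add_le_add_right s2 (2 ^ (kP l + 2 * aP l)))
      unfold m6_T
      simp only
      split_ifs
      · omega
      · omega)
  have e : 2 * aP l * tP l ((p.natDegree + 1) * l.length) + (p.natDegree + 1) * l.length =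
      MP l ((p.natDegree + 1) * l.length) := by rw [MP]; ring
  have key2 := Nat.mul_le_mul_left (2 ^ (2 * aP l * tP l ((p.natDegree + 1) * l.length)))
    (m6_slow h4 p l ((m6_D (p.natDegree + 1)).eval l.length))
  rw [← mul_assoc, ← pow_add, e] at key2
  refine (key.trans (Nat.add_le_add_left key2 _)).trans (le_of_eq ?_)
  rw [show (p.natDegree + 1) * l.length + 2 * aP l * tP l ((p.natDegree + 1) * l.length) =
      MP l ((p.natDegree + 1) * l.length) from rfl, ← Nat.mul_add]
  congr 1
  simp only [Polynomial.eval_add, Polynomial.eval_comp, Polynomial.eval_mul, Polynomial.eval_pow,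
    Polynomial.eval_C, Polynomial.eval_X, Polynomial.eval_ofNat]
  ring
end Pool.Agent.H330ST.JM6
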