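import Pool.Agent.H330ST.Spec
set_option autoImplicit false
noncomputable section
namespace Pool.Agent.H330ST.JP1
open Pool.Agent.H685R2.Poly
open scoped ENNReal

theorem p1_min {γ : Type} [DEnc γ] {m n : γ → ℕ} (hm : PF m) (hn : PF n) :
    PF (fun c => min (m c) (n c)) :=
  PF.congr (PF.sub hm (PF.sub hm hn)) fun c => by omega

theorem p1_set {γ : Type} [DEnc γ] {x : γ → List Bool} {i : γ → ℕ} {b : γ → Bool} (hx : PF x)
    (hi : PF i) (hb : PF b) : PF (fun c => (x c).set (i c) (b c)) :=
  PF.congr (PF.ite (PF.lt hi (PF.length hx)) (PF.append (PF.take hi hx)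
    (PF.cons hb (PF.drop (PF.succ hi) hx))) hx) fun c => by
    rw [List.set_eq_take_append_cons_drop]
    by_cases h : i c < (x c).length <;> simp [h]

theorem p1_exch {γ : Type} [DEnc γ] {x : γ → List Bool} {i j : γ → ℕ} (hx : PF x)
    (hi : PF i) (hj : PF j) : PF (fun c => exch (x c) (i c) (j c)) :=
  p1_set (p1_set hx hi (PF.const false)) hj (PF.const true)

theorem p1_foldl_le (k : ℕ) (l : List Bool) (v : ℕ) (hv : v ≤ k) :
    l.foldl (fun v b => min (2 * v + (if b = true then 1 else 0)) k) v ≤ k := by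
  induction l generalizing v with
  | nil => exact hv
  | cons b l ih => exact ih _ (min_le_right _ _)

/-- TARGET -/
theorem pCap : SCap := by
  intro γ _ k b hk hb
  obtain ⟨r, hr⟩ := hk.size
  have hf : PF (fun p : γ × (ℕ × Bool) =>
      min (2 * p.2.1 + (if p.2.2 = true then 1 else 0)) (k p.1)) :=
    p1_min (PF.add (PF.mul (PF.const 2) (PF.fst PF.snd'))
      (PF.ite (PF.snd PF.snd') (PF.const 1) (PF.const 0))) (PF.comp hk PF.fst')
  refine PF.foldl (b0 := fun _ => 0) hb (PF.const 0) hf ⟨r, ?_⟩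
  intro c l1 l2 _
  have h1 := p1_foldl_le (k c) l1 0 (Nat.zero_le _)
  have h2 := hr c
  rw [dsize_nat] at h2 ⊢
  simp only at h1 ⊢
  omega

/-- TARGET -/
theorem pStp (h : SCap) : SStp := by
  intro γ _ ind a x b hind ha hx hb
  have hi : PF (fun c => capVal (x c).length ((b c).take (a c))) :=
    h (PF.length hx) (PF.take ha hb)
  have hj : PF (fun c => capVal (x c).length ((b c).drop (a c))) :=
    h (PF.length hx) (PF.drop ha hb)
  have he := p1_exch hx hi hj
  unfold stp
  refine PF.ite (PF.and (PF.getD hi hx (PF.const false)) (PF.and (PF.not (PF.getD hj hx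
    (PF.const true))) ?_)) he hx
  exact PF.comp hind (PF.pair PF.id' he)

end Pool.Agent.H330ST.JP1
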