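import Pool.Agent.H330ST.Spec
set_option autoImplicit false
noncomputable section
namespace Pool.Agent.H330ST.JP10
open Pool.Agent.H685R2.Poly
open scoped ENNReal

theorem p10_pBound {γ : Type} [DEnc γ] {n : γ → ℕ} (hn : PF n) : PF (fun c => pBound (n c)) := by
  have h2 : PF (fun c => n c + 2) := PF.succ (PF.succ hn)
  have h3 : PF (fun c => (n c + 2) * (n c + 2) * (n c + 2)) := PF.mul (PF.mul h2 h2) h2
  exact PF.mul h3 h3

/-- TARGET -/
theorem pIndQ (h1 : SFaces) (h2 : SSelC) (h3 : SColP) (h4 : SElimPF) : SIndQ := by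
  have hl : PF (fun c : (List (List ℕ) × List Bool) × ℕ => c.1.1) := PF.fst PF.fst'
  have hx : PF (fun c : (List (List ℕ) × List Bool) × ℕ => c.1.2) := PF.snd PF.fst'
  have hp : PF (fun c : (List (List ℕ) × List Bool) × ℕ => c.2) := PF.snd'
  have htop := (h1 hl).2.1
  have hsel := (h2 hl htop hx).1
  have hl' : PF (fun c : ((List (List ℕ) × List Bool) × ℕ) × List ℕ => c.1.1.1) :=
    PF.fst (PF.fst PF.fst')
  have hp' : PF (fun c : ((List (List ℕ) × List Bool) × ℕ) × List ℕ => c.1.2) :=
    PF.snd PF.fst'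
  have hf' : PF (fun c : ((List (List ℕ) × List Bool) × ℕ) × List ℕ => c.2) := PF.snd'
  have hcol := h3 hp' (h1 hl').2.2.1 hf'
  have hcols := PF.map hsel hcol
  have hbody := PF.and (h4 hp hcols).2 (h4 hp hcols).1
  have hrange : PF (fun q : List (List ℕ) × List Bool => List.range (pBound q.1.length)) :=
    PF.range (p10_pBound (PF.length PF.fst'))
  exact PF.any hrange hbody
end Pool.Agent.H330ST.JP10
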