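import Pool.Agent.H330ST.Spec
set_option autoImplicit false
noncomputable section
namespace Pool.Agent.H330ST.JP11
open Pool.Agent.H685R2.Poly
open scoped ENNReal

attribute [local irreducible] indQ

section p11

variable {γ : Type} [DEnc γ]

theorem p11_ind (h1 : SIndQ) {l : γ → List (List ℕ)} (hl : PF l) :
    PF (fun p : γ × List Bool => indQ (l p.1) p.2) :=
  PF.comp (g := fun q : List (List ℕ) × List Bool => indQ q.1 q.2)
    (f := fun p : γ × List Bool => (l p.1, p.2)) h1 (PF.pair (PF.comp hl PF.fst') PF.snd')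

theorem p11_x0P (h1 : SIndQ) (h2 : SGreedy) (h5 : SFaces) {l : γ → List (List ℕ)} (hl : PF l) :
    PF (fun c => x0P (l c)) :=
  h2 (ind := fun p => indQ (l p.1) p.2) (k := fun c => kP (l c)) (p11_ind h1 hl)
    (h5 hl).2.2.2.1

theorem p11_kP (h5 : SFaces) {l : γ → List (List ℕ)} (hl : PF l) : PF (fun c => kP (l c)) :=
  (h5 hl).2.2.2.1

theorem p11_aP (h5 : SFaces) {l : γ → List (List ℕ)} (hl : PF l) : PF (fun c => aP (l c)) :=
  (h5 hl).2.2.2.2.1

theorem p11_tP (h5 : SFaces) {l : γ → List (List ℕ)} {m : γ → ℕ} (hl : PF l) (hm : PF m) :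
    PF (fun c => tP (l c) (m c)) :=
  PF.mul (PF.mul (h5 hl).2.2.2.2.2 (h5 hl).2.2.2.2.2) (PF.add (p11_kP h5 hl) hm)

theorem p11_outs (h6 : SSelC) {l : γ → List (List ℕ)} {xs : γ → List (List Bool)}
    (hl : PF l) (hxs : PF xs) :
    PF (fun c => (xs c).map (fun x => outF (l c) x)) :=
  PF.map (f := fun p : γ × List Bool => outF (l p.1) p.2) hxs
    (h6 (l := fun p : γ × List Bool => l p.1) (E := fun p => l p.1) (x := fun p => p.2)
      (PF.comp hl PF.fst') (PF.comp hl PF.fst') PF.snd').2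

end p11

/-- TARGET -/
theorem pProgs (h1 : SIndQ) (h2 : SGreedy) (h3 : SSlow) (h4 : SFast) (h5 : SFaces) (h6 : SSelC) : SProgs := by
  have hl : PF (fun q : List (List ℕ) × (ℕ × List Bool) => q.1) := PF.fst'
  have hm : PF (fun q : List (List ℕ) × (ℕ × List Bool) => q.2.1) := PF.fst PF.snd'
  have hw : PF (fun q : List (List ℕ) × (ℕ × List Bool) => q.2.2) := PF.snd PF.snd'
  have hl' : PF (fun q : (List (List ℕ) × (ℕ × List Bool)) × List Unit => q.1.1) :=
    PF.fst PF.fst'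
  have hm' : PF (fun q : (List (List ℕ) × (ℕ × List Bool)) × List Unit => q.1.2.1) :=
    PF.fst (PF.snd PF.fst')
  have hw' : PF (fun q : (List (List ℕ) × (ℕ × List Bool)) × List Unit => q.1.2.2) :=
    PF.snd (PF.snd PF.fst')
  have e1 : PF (fun q : (List (List ℕ) × (ℕ × List Bool)) × List Unit =>
      slowOut (indQ q.1.1) (aP q.1.1) (tP q.1.1 q.1.2.1) q.1.2.1 (x0P q.1.1) q.2.length
        (q.1.2.2.drop q.1.2.1)) :=
    h3 (ind := fun p : ((List (List ℕ) × (ℕ × List Bool)) × List Unit) × List Bool =>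
        indQ (p.1.1.1) p.2)
      (a := fun q => aP q.1.1) (t := fun q => tP q.1.1 q.1.2.1) (m := fun q => q.1.2.1)
      (x0 := fun q => x0P q.1.1) (cc := fun q => q.2.length)
      (U := fun q => q.1.2.2.drop q.1.2.1) (p11_ind h1 hl')
      (p11_aP h5 hl') (p11_tP h5 hl' hm') hm' (PF.length PF.snd') (p11_x0P h1 h2 h5 hl')
      (PF.drop hm' hw')
  have e2 := h4 (ind := fun p : (List (List ℕ) × (ℕ × List Bool)) × List Bool =>
        indQ (p.1.1) p.2)
      (a := fun q => aP q.1) (t := fun q => tP q.1 q.2.1) (m := fun q => q.2.1)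
      (x0 := fun q => x0P q.1) (w := fun q => q.2.2) (p11_ind h1 hl)
      (p11_aP h5 hl) (p11_tP h5 hl hm) hm (p11_x0P h1 h2 h5 hl) hw
  refine ⟨?_, ?_, ?_, ?_, ?_⟩
  · unfold slowPad
    exact p11_outs h6 hl' e1
  · unfold fastFn
    exact p11_outs h6 hl e2.1
  · exact e2.2
  · exact PF.add (p11_kP h5 hl) (PF.mul (PF.const 2) (p11_aP h5 hl))
  · have hk : PF (fun q : List (List ℕ) × ℕ => q.1) := PF.fst'
    have hn : PF (fun q : List (List ℕ) × ℕ => q.2) := PF.snd'
    exact PF.add hn (PF.mul (PF.mul (PF.const 2) (p11_aP h5 hk)) (p11_tP h5 hk hn))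

end Pool.Agent.H330ST.JP11
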