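import Pool.Agent.H330ST.Spec
set_option autoImplicit false
noncomputable section
namespace Pool.Agent.H330ST.JP1b
open Pool.Agent.H685R2.Poly
open scoped ENNReal

theorem p1b_dsize (l : List Bool) : dsize l ≤ 4 * l.length + 1 := by
  induction l with
  | nil => exact le_of_eq dsize_nil
  | cons b l ih =>
      rw [dsize_cons, List.length_cons]
      have := dsize_bool b
      omega

theorem p1b_length_exch (x : List Bool) (i j : ℕ) : (exch x i j).length = x.length := by
  unfold exch
  rw [List.length_set, List.length_set]

theorem p1b_length_stp (ind : List Bool → Bool) (a : ℕ) (x bs : List Bool) :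
    (stp ind a x bs).length = x.length := by
  unfold stp
  split_ifs
  · exact p1b_length_exch _ _ _
  · rfl

theorem p1b_run (ind : List Bool → Bool) (a : ℕ) (x w : List Bool) (i : ℕ) :
    ((runStep ind a)^[i] (x, w)).1.length = x.length ∧
      (((runStep ind a)^[i] (x, w)).2).Sublist w := by
  induction i with
  | zero => exact ⟨rfl, List.Sublist.refl _⟩
  | succ i ih =>
      rw [Function.iterate_succ_apply']
      refine ⟨?_, ?_⟩
      · unfold runStep
        rw [p1b_length_stp]
        exact ih.1
      · exact (List.drop_sublist _ _).trans ih.2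

/-- TARGET -/
theorem pRun (h : SStp) : SRun := by
  intro γ _ ind a t x w hind ha ht hx hw
  have hf : PF (fun q : γ × (List Bool × List Bool) =>
      runStep (fun y => ind (q.1, y)) (a q.1) q.2) := by
    have h1 : PF (fun q : (γ × (List Bool × List Bool)) × List Bool => ind (q.1.1, q.2)) :=
      PF.comp hind (PF.pair (PF.fst PF.fst') PF.snd')
    have h2 : PF (fun q : γ × (List Bool × List Bool) => 2 * a q.1) :=
      PF.mul (PF.const 2) (PF.comp ha PF.fst')
    have h3 := h h1 (PF.comp ha (PF.fst' (α := γ) (β := List Bool × List Bool)))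
      (PF.fst PF.snd') (PF.take h2 (PF.snd PF.snd'))
    exact PF.pair h3 (PF.drop h2 (PF.snd PF.snd'))
  obtain ⟨r, hr⟩ := hx.size
  obtain ⟨s, hs⟩ := hw.size
  have h1 := PF.iterNat ht (PF.pair hx hw) hf ⟨4 * r + s + 2, fun c i _ => by
    have h2 := p1b_run (fun y => ind (c, y)) (a c) (x c) (w c) i
    change dsize ((runStep (fun y => ind (c, y)) (a c))^[i] (x c, w c)) ≤ _
    rw [dsize_pair]
    have h3 := p1b_dsize ((runStep (fun y => ind (c, y)) (a c))^[i] (x c, w c)).1
    rw [h2.1] at h3
    have h4 := dsize_sublist h2.2
    have h5 := length_le_dsize (x c)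
    have h6 := hr c
    have h7 := hs c
    simp only [Polynomial.eval_add, Polynomial.eval_mul, Polynomial.eval_ofNat]
    omega⟩
  exact PF.fst h1

theorem p1b_set {α γ : Type} [DEnc α] [DEnc γ] {l : γ → List α} {n : γ → ℕ} {b : γ → α}
    (hl : PF l) (hn : PF n) (hb : PF b) : PF (fun c => (l c).set (n c) (b c)) := by
  have h1 : PF (fun c => if decide (n c < (l c).length) = true then
      (l c).take (n c) ++ b c :: (l c).drop (n c + 1) else l c) :=
    PF.ite (PF.lt hn (PF.length hl)) (PF.append (PF.take hn hl) (PF.cons hb (PF.drop (PF.succ hn) hl)))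
      hl
  refine PF.congr h1 fun c => ?_
  rw [List.set_eq_take_append_cons_drop]
  simp only [decide_eq_true_eq]

/-- TARGET -/
theorem pGreedy : SGreedy := by
  intro γ _ ind k hind hk
  have hset : PF (fun q : γ × (List Bool × ℕ) => q.2.1.set q.2.2 true) :=
    p1b_set (PF.fst PF.snd') (PF.snd PF.snd') (PF.const true)
  have hf : PF (fun q : γ × (List Bool × ℕ) =>
      if ind (q.1, q.2.1.set q.2.2 true) = true then q.2.1.set q.2.2 true else q.2.1) :=
    PF.ite (PF.comp hind (PF.pair PF.fst' hset)) hset (PF.fst PF.snd')
  obtain ⟨r, hr⟩ := hk.size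
  have hlen : ∀ (c : γ) (l : List ℕ) (x : List Bool), (l.foldl (fun x j =>
      if ind (c, x.set j true) = true then x.set j true else x) x).length = x.length := by
    intro c l
    induction l with
    | nil => intro x; rfl
    | cons j l ih =>
        intro x
        rw [List.foldl_cons, ih]
        split_ifs
        · exact List.length_set ..
        · rfl
  exact PF.foldl (PF.range hk) (PF.replicate hk (PF.const false)) hf ⟨4 * r + 1,
    fun c l1 l2 _ => by
      have h1 := p1b_dsize (l1.foldl (fun x j =>
        if ind (c, x.set j true) = true then x.set j true else x) (List.replicate (k c) false))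
      rw [hlen, List.length_replicate] at h1
      have h2 := hr c
      rw [dsize_nat] at h2
      simp only [Polynomial.eval_add, Polynomial.eval_mul, Polynomial.eval_ofNat,
        Polynomial.eval_one]
      refine h1.trans ?_
      omega⟩

end Pool.Agent.H330ST.JP1b
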