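import Pool.Agent.H330ST.Spec
set_option autoImplicit false
noncomputable section
namespace Pool.Agent.H330ST.JP2
open Pool.Agent.H330ST
open Pool.Agent.H685R2.Poly

theorem add_len (a b : List Bool) (l : List ℕ) (s : Bool × List Bool) :
    (l.foldl (addStep a b) s).2.length = s.2.length + l.length := by
  induction l generalizing s with
  | nil => simp
  | cons i l ih =>
      rw [List.foldl_cons, ih]
      simp [addStep]
      omega

theorem sub_len (a b : List Bool) (l : List ℕ) (s : Bool × List Bool) :
    (l.foldl (subStep a b) s).2.length = s.2.length + l.length := by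
  induction l generalizing s with
  | nil => simp
  | cons i l ih =>
      rw [List.foldl_cons, ih]
      simp [subStep]
      omega

theorem dsize_state (s : Bool × List Bool) : dsize s ≤ 4 * s.2.length + 5 := by
  rw [dsize_pair]
  have h1 := dsize_bool s.1
  have h2 := dsize_bools s.2
  omega

theorem PF_xor {γ : Type} [DEnc γ] {f g : γ → Bool} (hf : PF f) (hg : PF g) :
    PF (fun c => xor (f c) (g c)) :=
  PF.congr (PF.ite hf (PF.not hg) hg) fun c => by cases f c <;> cases g c <;> rfl

section
variable {γ : Type} [DEnc γ] {L : γ → ℕ} {a b : γ → List Bool}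

theorem fold_add (hL : PF L) (ha : PF a) (hb : PF b) :
    PF (fun c => (List.range (L c)).foldl (addStep (a c) (b c)) (false, [])) := by
  obtain ⟨r, hr⟩ := hL.size
  have hc : PF (fun p : γ × ((Bool × List Bool) × ℕ) => p.1) := PF.fst'
  have hs : PF (fun p : γ × ((Bool × List Bool) × ℕ) => p.2.1) := PF.fst PF.snd'
  have hi : PF (fun p : γ × ((Bool × List Bool) × ℕ) => p.2.2) := PF.snd PF.snd'
  have hA : PF (fun p : γ × ((Bool × List Bool) × ℕ) => (a p.1).getD p.2.2 false) :=
    PF.getD hi (PF.comp ha hc) (PF.const false)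
  have hB : PF (fun p : γ × ((Bool × List Bool) × ℕ) => (b p.1).getD p.2.2 false) :=
    PF.getD hi (PF.comp hb hc) (PF.const false)
  have hC : PF (fun p : γ × ((Bool × List Bool) × ℕ) => p.2.1.1) := PF.fst hs
  have hf : PF (fun p : γ × ((Bool × List Bool) × ℕ) => addStep (a p.1) (b p.1) p.2.1 p.2.2) :=
    PF.pair (PF.or (PF.or (PF.and hA hB) (PF.and hA hC)) (PF.and hB hC))
      (PF.cons (PF_xor (PF_xor hA hB) hC) (PF.snd hs))
  refine PF.foldl (PF.range hL) (PF.const (false, ([] : List Bool))) hf ⟨4 * r + 5, ?_⟩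
  intro c l1 l2 h
  refine (dsize_state _).trans ?_
  have h1 := add_len (a c) (b c) l1 (false, [])
  have h2 : l1.length ≤ L c := by
    have := congrArg List.length h
    simp at this
    omega
  have h3 := hr c
  rw [dsize_nat] at h3
  simp only [Polynomial.eval_add, Polynomial.eval_mul, Polynomial.eval_ofNat]
  simp only [List.length_nil, zero_add] at h1
  rw [h1]
  omega

theorem fold_sub (hL : PF L) (ha : PF a) (hb : PF b) :
    PF (fun c => (List.range (L c)).foldl (subStep (a c) (b c)) (false, [])) := by
  obtain ⟨r, hr⟩ := hL.size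
  have hc : PF (fun p : γ × ((Bool × List Bool) × ℕ) => p.1) := PF.fst'
  have hs : PF (fun p : γ × ((Bool × List Bool) × ℕ) => p.2.1) := PF.fst PF.snd'
  have hi : PF (fun p : γ × ((Bool × List Bool) × ℕ) => p.2.2) := PF.snd PF.snd'
  have hA : PF (fun p : γ × ((Bool × List Bool) × ℕ) => (a p.1).getD p.2.2 false) :=
    PF.getD hi (PF.comp ha hc) (PF.const false)
  have hB : PF (fun p : γ × ((Bool × List Bool) × ℕ) => (b p.1).getD p.2.2 false) :=
    PF.getD hi (PF.comp hb hc) (PF.const false)
  have hC : PF (fun p : γ × ((Bool × List Bool) × ℕ) => p.2.1.1) := PF.fst hs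
  have hf : PF (fun p : γ × ((Bool × List Bool) × ℕ) => subStep (a p.1) (b p.1) p.2.1 p.2.2) :=
    PF.pair (PF.or (PF.or (PF.and (PF.not hA) hB) (PF.and (PF.not hA) hC)) (PF.and hB hC))
      (PF.cons (PF_xor (PF_xor hA hB) hC) (PF.snd hs))
  refine PF.foldl (PF.range hL) (PF.const (false, ([] : List Bool))) hf ⟨4 * r + 5, ?_⟩
  intro c l1 l2 h
  refine (dsize_state _).trans ?_
  have h1 := sub_len (a c) (b c) l1 (false, [])
  have h2 : l1.length ≤ L c := by
    have := congrArg List.length h
    simp at this
    omega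
  have h3 := hr c
  rw [dsize_nat] at h3
  simp only [Polynomial.eval_add, Polynomial.eval_mul, Polynomial.eval_ofNat]
  simp only [List.length_nil, zero_add] at h1
  rw [h1]
  omega

end

theorem pArith : SArith := by
  intro γ _ L a b hL ha hb
  exact ⟨PF.reverse (PF.snd (fold_add hL ha hb)), PF.reverse (PF.snd (fold_sub hL ha hb)),
    PF.fst (fold_sub hL ha hb), PF.replicate hL (PF.const false),
    PF.cons (PF.const true) (PF.replicate (PF.pred hL) (PF.const false))⟩

end Pool.Agent.H330ST.JP2
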