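import Pool.Agent.H330ST.Spec
set_option autoImplicit false
noncomputable section
namespace Pool.Agent.H330ST.JP3
open Pool.Agent.H685R2.Poly
open scoped ENNReal

/-- one step of the enumeration of the masks -/
def p3_step (c : ℕ) (L : List (List Bool)) : List (List Bool) :=
  (L.map (fun x => false :: x) ++ L.map (fun x => true :: x)).take c

theorem p3_iter (c k : ℕ) : (p3_step c)^[k] [[]] = allMasks c k := by
  induction k with
  | zero => rfl
  | succ k ih =>
    rw [Function.iterate_succ_apply', ih]
    rfl

theorem p3_len (c k : ℕ) : (allMasks c k).length ≤ c + 1 := by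
  cases k with
  | zero => simp [allMasks]
  | succ k =>
    rw [allMasks, List.length_take]
    omega

theorem p3_mem (c k : ℕ) : ∀ x ∈ allMasks c k, x.length = k := by
  induction k with
  | zero =>
    intro x hx
    simp only [allMasks, List.mem_singleton] at hx
    rw [hx]
    rfl
  | succ k ih =>
    intro x hx
    rw [allMasks] at hx
    have h1 := List.mem_of_mem_take hx
    rw [List.mem_append, List.mem_map, List.mem_map] at h1
    rcases h1 with ⟨y, hy, rfl⟩ | ⟨y, hy, rfl⟩
    · rw [List.length_cons, ih y hy]
    · rw [List.length_cons, ih y hy]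

theorem p3_size (c k : ℕ) : dsize (allMasks c k) ≤ (c + 1) * (4 * k + 2) + 1 := by
  have h1 := dsize_map_le (allMasks c k) (fun x => x) (4 * k + 1) (by
    intro x hx
    have h2 := dsize_bools x
    rw [p3_mem c k x hx] at h2
    exact h2)
  rw [List.map_id'] at h1
  exact h1.trans (Nat.add_le_add_right (Nat.mul_le_mul_right _ (p3_len c k)) 1)

/-- TARGET -/
theorem pMasks : SMasks := by
  intro γ _ c k hc hk
  obtain ⟨r, hr⟩ := hc.size
  obtain ⟨s, hs⟩ := hk.size
  have hf : PF (fun p : γ × List (List Bool) => p3_step (c p.1) p.2) := by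
    refine PF.take (PF.comp hc PF.fst') (PF.append ?_ ?_)
    · exact PF.map (f := fun q : (γ × List (List Bool)) × List Bool => false :: q.2) PF.snd'
        (PF.cons (PF.const false) PF.snd')
    · exact PF.map (f := fun q : (γ × List (List Bool)) × List Bool => true :: q.2) PF.snd'
        (PF.cons (PF.const true) PF.snd')
  refine PF.congr (PF.iterNat (b0 := fun _ => ([[]] : List (List Bool)))
    (f := fun p : γ × List (List Bool) => p3_step (c p.1) p.2) hk (PF.const [[]]) hf
    ⟨(r + 1) * (4 * s + 2) + 1, ?_⟩) fun g => (p3_iter _ _).symm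
  intro g i hi
  show dsize ((p3_step (c g))^[i] [[]]) ≤ _
  rw [p3_iter]
  refine (p3_size _ _).trans ?_
  have h1 := hr g
  have h2 := hs g
  rw [dsize_nat] at h1 h2
  simp only [Polynomial.eval_add, Polynomial.eval_mul, Polynomial.eval_one, Polynomial.eval_ofNat]
  have h3 : c g + 1 ≤ r.eval (dsize g) + 1 := by omega
  have h4 : 4 * i + 2 ≤ 4 * s.eval (dsize g) + 2 := by omega
  have h5 := Nat.mul_le_mul h3 h4
  omega

/-- TARGET -/
theorem pLookup : SLookup := by
  intro γ _ tb x htb hx
  have h1 : PF (fun q : γ × (List Bool × List Bool) => decide (q.2.1 = x q.1)) :=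
    PF.eq (PF.fst PF.snd') (PF.comp hx PF.fst')
  have h2 : PF (fun c => (tb c).filter (fun p => decide (p.1 = x c))) :=
    PF.filter (f := fun q : γ × (List Bool × List Bool) => decide (q.2.1 = x q.1)) htb h1
  have h3 : PF (fun c => ((tb c).filter (fun p => decide (p.1 = x c))).map (fun p => p.2)) :=
    PF.map (f := fun q : γ × (List Bool × List Bool) => q.2.2) h2 (PF.snd PF.snd')
  exact PF.headD h3 (PF.const [])

end Pool.Agent.H330ST.JP3
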