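import Pool.Agent.H330ST.Spec
set_option autoImplicit false
noncomputable section
namespace Pool.Agent.H330ST.JP4
open Pool.Agent.H685R2.Poly
open scoped ENNReal

theorem p4_add_foldl_length (a b : List Bool) (l : List ℕ) (s : Bool × List Bool) :
    (l.foldl (addStep a b) s).2.length = s.2.length + l.length := by
  induction l generalizing s with
  | nil => simp
  | cons i l ih =>
      rw [List.foldl_cons, ih, List.length_cons]
      simp only [addStep, List.length_cons]
      omega

theorem p4_bAdd_length (L : ℕ) (a b : List Bool) : (bAdd L a b).length = L := by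
  unfold bAdd
  rw [List.length_reverse, p4_add_foldl_length]
  simp

theorem p4_zeroB_length (L : ℕ) : (zeroB L).length = L := by simp [zeroB]

theorem p4_oneB_length (L : ℕ) : (oneB L).length ≤ L + 1 := by
  unfold oneB
  rw [List.length_cons, List.length_replicate]
  omega

theorem p4_inner_length (ind : List Bool → Bool) (a L : ℕ) (tb : List (List Bool × List Bool))
    (x : List Bool) (bss : List (List Bool)) (s : List Bool) (hs : s.length = L) :
    (bss.foldl (fun s bs => bAdd L s (lookup tb (stp ind a x bs))) s).length = L := by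
  induction bss generalizing s with
  | nil => exact hs
  | cons b bss ih =>
      rw [List.foldl_cons]
      exact ih _ (p4_bAdd_length _ _ _)

/-- size of a number -/
theorem p4_dsize_len (x : List Bool) (k : ℕ) (h : x.length ≤ k) : dsize x ≤ 4 * k + 1 := by
  have := dsize_bools x
  omega

/-- the inner sum is computable in polynomial time -/
theorem p4_inner (h1 : SStp) (h2 : SArith) (h3 : SLookup) {γ : Type} [DEnc γ]
    {ind : γ × List Bool → Bool} {a L : γ → ℕ} {bss : γ → List (List Bool)}
    {tb : γ → List (List Bool × List Bool)} {x : γ → List Bool} (hind : PF ind) (ha : PF a)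
    (hL : PF L) (hbss : PF bss) (htb : PF tb) (hx : PF x) :
    PF (fun c => (bss c).foldl (fun s bs =>
      bAdd (L c) s (lookup (tb c) (stp (fun y => ind (c, y)) (a c) (x c) bs))) (zeroB (L c))) := by
  have hind' : PF (fun q : (γ × (List Bool × List Bool)) × List Bool => ind (q.1.1, q.2)) :=
    PF.comp hind (PF.pair (PF.fst PF.fst') PF.snd')
  have hst : PF (fun p : γ × (List Bool × List Bool) =>
      stp (fun y => ind (p.1, y)) (a p.1) (x p.1) p.2.2) :=
    h1 (ind := fun q : (γ × (List Bool × List Bool)) × List Bool => ind (q.1.1, q.2)) hind'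
      (PF.comp ha PF.fst') (PF.comp hx PF.fst') (PF.snd PF.snd')
  have hlk : PF (fun p : γ × (List Bool × List Bool) =>
      lookup (tb p.1) (stp (fun y => ind (p.1, y)) (a p.1) (x p.1) p.2.2)) :=
    h3 (PF.comp htb PF.fst') hst
  have hf : PF (fun p : γ × (List Bool × List Bool) =>
      bAdd (L p.1) p.2.1 (lookup (tb p.1) (stp (fun y => ind (p.1, y)) (a p.1) (x p.1) p.2.2))) :=
    (h2 (PF.comp hL PF.fst') (PF.fst PF.snd') hlk).1
  have hz : PF (fun c => zeroB (L c)) := (h2 hL hx hx).2.2.2.1
  obtain ⟨r, hr⟩ := hL.size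
  refine PF.foldl (f := fun p : γ × (List Bool × List Bool) =>
      bAdd (L p.1) p.2.1 (lookup (tb p.1) (stp (fun y => ind (p.1, y)) (a p.1) (x p.1) p.2.2)))
    hbss hz hf ⟨4 * r + 1, ?_⟩
  intro c l1 l2 _
  simp only [Polynomial.eval_add, Polynomial.eval_mul, Polynomial.eval_ofNat,
    Polynomial.eval_one]
  have hlen := p4_inner_length (fun y => ind (c, y)) (a c) (L c) (tb c) (x c) l1 (zeroB (L c))
    (p4_zeroB_length _)
  have h4 := dsize_bools (l1.foldl (fun s bs =>
      bAdd (L c) s (lookup (tb c) (stp (fun y => ind (c, y)) (a c) (x c) bs))) (zeroB (L c)))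
  rw [hlen] at h4
  have h5 := hr c
  rw [dsize_nat] at h5
  refine h4.trans ?_
  omega

/-- one step of the dynamic program -/
theorem p4_step (h1 : SStp) (h2 : SArith) (h3 : SLookup) {γ : Type} [DEnc γ]
    {ind : γ × List Bool → Bool} {a L : γ → ℕ} {bss : γ → List (List Bool)}
    {tb : γ → List (List Bool × List Bool)} (hind : PF ind) (ha : PF a)
    (hL : PF L) (hbss : PF bss) (htb : PF tb) :
    PF (fun c => dpStep (fun y => ind (c, y)) (a c) (L c) (bss c) (tb c)) := by
  have hind' : PF (fun q : (γ × (List Bool × List Bool)) × List Bool => ind (q.1.1, q.2)) :=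
    PF.comp hind (PF.pair (PF.fst PF.fst') PF.snd')
  have hin := p4_inner h1 h2 h3 (γ := γ × (List Bool × List Bool))
    (ind := fun q : (γ × (List Bool × List Bool)) × List Bool => ind (q.1.1, q.2))
    (a := fun p => a p.1) (L := fun p => L p.1) (bss := fun p => bss p.1) (tb := fun p => tb p.1)
    (x := fun p => p.2.1) hind' (PF.comp ha PF.fst') (PF.comp hL PF.fst') (PF.comp hbss PF.fst')
    (PF.comp htb PF.fst') (PF.fst PF.snd')
  have hm := PF.map htb (PF.pair (PF.fst PF.snd') hin)
  exact PF.congr hm fun c => rfl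

/-- the shape of all tables -/
theorem p4_shape (ind : List Bool → Bool) (a L : ℕ) (bss : List (List Bool)) (x0 : List Bool)
    (ms : List (List Bool)) (i : ℕ) : ∃ g : List Bool → List Bool, (∀ x, (g x).length ≤ L + 1) ∧
      (dpStep ind a L bss)^[i] (dpInit L x0 ms) = ms.map (fun x => (x, g x)) := by
  induction i with
  | zero =>
      refine ⟨fun x => if decide (x = x0) = true then oneB L else zeroB L, fun x => ?_, rfl⟩
      dsimp only
      split_ifs
      · exact p4_oneB_length L
      · rw [p4_zeroB_length]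
        omega
  | succ i ih =>
      obtain ⟨g, _, hg⟩ := ih
      refine ⟨fun x => bss.foldl (fun s bs => bAdd L s
        (lookup (ms.map (fun x => (x, g x))) (stp ind a x bs))) (zeroB L), fun x => ?_, ?_⟩
      · dsimp only
        rw [p4_inner_length _ _ _ _ _ _ _ (p4_zeroB_length L)]
        omega
      · rw [Function.iterate_succ_apply', hg]
        unfold dpStep
        rw [List.map_map]
        rfl

/-- TARGET -/
theorem pDp (h1 : SStp) (h2 : SArith) (h3 : SLookup) : SDp := by
  intro γ _ ind a L t bss ms x0 hind ha hL ht hbss hms hx0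
  have hinit : PF (fun c => dpInit (L c) (x0 c) (ms c)) := by
    have hone : PF (fun c : γ × List Bool => oneB (L c.1)) :=
      (h2 (PF.comp hL PF.fst') PF.snd' PF.snd').2.2.2.2
    have hzer : PF (fun c : γ × List Bool => zeroB (L c.1)) :=
      (h2 (PF.comp hL PF.fst') PF.snd' PF.snd').2.2.2.1
    have hdec : PF (fun c : γ × List Bool => decide (c.2 = x0 c.1)) :=
      PF.eq PF.snd' (PF.comp hx0 PF.fst')
    exact PF.congr (PF.map hms (PF.pair PF.snd' (PF.ite hdec hone hzer))) fun c => rfl
  have hind' : PF (fun q : (γ × List (List Bool × List Bool)) × List Bool => ind (q.1.1, q.2)) :=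
    PF.comp hind (PF.pair (PF.fst PF.fst') PF.snd')
  have hstep : PF (fun p : γ × List (List Bool × List Bool) =>
      dpStep (fun y => ind (p.1, y)) (a p.1) (L p.1) (bss p.1) p.2) :=
    p4_step h1 h2 h3 (γ := γ × List (List Bool × List Bool))
      (ind := fun q : (γ × List (List Bool × List Bool)) × List Bool => ind (q.1.1, q.2))
      (a := fun p => a p.1) (L := fun p => L p.1) (bss := fun p => bss p.1) (tb := fun p => p.2)
      hind' (PF.comp ha PF.fst') (PF.comp hL PF.fst') (PF.comp hbss PF.fst') PF.snd'
  obtain ⟨r, hr⟩ := hL.size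
  obtain ⟨s, hs⟩ := hms.size
  refine PF.iterNat (f := fun p : γ × List (List Bool × List Bool) =>
      dpStep (fun y => ind (p.1, y)) (a p.1) (L p.1) (bss p.1) p.2) ht hinit hstep
    ⟨s * (s + (4 * (r + 1) + 1) + 1 + 1) + 1, ?_⟩
  intro c i _
  obtain ⟨g, hg1, hg2⟩ := p4_shape (fun y => ind (c, y)) (a c) (L c) (bss c) (x0 c) (ms c) i
  have e : (fun b => dpStep (fun y => ind (c, y)) (a c) (L c) (bss c) b)^[i]
      (dpInit (L c) (x0 c) (ms c)) = (ms c).map (fun x => (x, g x)) := hg2
  have hLc := hr c
  rw [dsize_nat] at hLc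
  have hsc := hs c
  have hbound := dsize_map_le (ms c) (fun x => (x, g x))
    (s.eval (dsize c) + (4 * (r.eval (dsize c) + 1) + 1) + 1) (by
      intro x hx
      rw [dsize_pair]
      have h4 := dsize_mem hx
      have h5 := p4_dsize_len (g x) (L c + 1) (hg1 x)
      simp only
      omega)
  have hlen : (ms c).length ≤ s.eval (dsize c) := (length_le_dsize (ms c)).trans hsc
  have hmul := Nat.mul_le_mul_right
    (s.eval (dsize c) + (4 * (r.eval (dsize c) + 1) + 1) + 1 + 1) hlen
  simp only
  rw [e]
  simp only [Polynomial.eval_add, Polynomial.eval_mul, Polynomial.eval_ofNat,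
    Polynomial.eval_one]
  omega
end Pool.Agent.H330ST.JP4
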