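import Pool.Agent.H330ST.Spec
set_option autoImplicit false
noncomputable section
namespace Pool.Agent.H330ST.JP5
open Pool.Agent.H685R2.Poly
open scoped ENNReal

theorem p5_dsize_bools (l : List Bool) : dsize l ≤ 4 * l.length + 1 := by
  induction l with
  | nil => simp [dsize_nil]
  | cons b l ih =>
      rw [dsize_cons, List.length_cons]
      have := dsize_bool b
      omega

theorem p5_sub_length (a b : List Bool) (l : List ℕ) : ∀ s : Bool × List Bool,
    (l.foldl (subStep a b) s).2.length = l.length + s.2.length := by
  induction l with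
  | nil => intro s; simp
  | cons i l ih =>
      intro s
      rw [List.foldl_cons, ih, List.length_cons]
      simp only [subStep, List.length_cons]
      omega

theorem p5_bSub_length (L : ℕ) (a b : List Bool) : (bSub L a b).length = L := by
  unfold bSub
  rw [List.length_reverse, p5_sub_length]
  simp

theorem p5_lookup_size (tb : List (List Bool × List Bool)) (x : List Bool) :
    dsize (lookup tb x) ≤ dsize tb := by
  unfold lookup
  cases h : tb.filter (fun p => decide (p.1 = x)) with
  | nil =>
      simp only [List.map_nil, List.headD_nil]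
      have := dsize_pos tb
      rw [dsize_nil]
      exact this
  | cons p l =>
      simp only [List.map_cons, List.headD_cons]
      have hp : p ∈ tb := by
        have : p ∈ tb.filter (fun p => decide (p.1 = x)) := by rw [h]; simp
        exact List.mem_of_mem_filter this
      have h1 := dsize_mem hp
      rw [dsize_pair] at h1
      omega

theorem p5_max_size (L : ℕ) (tb : List (List Bool × List Bool)) (bs : List (List Bool)) :
    ∀ s : List Bool, dsize s ≤ (4 * L + 1) + dsize tb →
    dsize (bs.foldl (fun s x => if bLt L s (lookup tb x) = true then lookup tb x else s) s) ≤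
      (4 * L + 1) + dsize tb := by
  induction bs with
  | nil => intro s hs; exact hs
  | cons x bs ih =>
      intro s hs
      rw [List.foldl_cons]
      apply ih
      split
      · have := p5_lookup_size tb x
        omega
      · exact hs

theorem p5_sel_size (m L : ℕ) (tb : List (List Bool × List Bool)) (cm : List Bool) (N : ℕ)
    (bs : List (List Bool)) : ∀ s : List Bool × List (List Bool),
    (∀ x ∈ bs, dsize x ≤ N) → dsize s.2 ≤ N + 2 → ∀ M : ℕ, dsize s.1 ≤ M + (4 * L + 1) →
    dsize (bs.foldl (selStep m L tb cm) s) ≤ (M + (4 * L + 1)) + (N + 2) + 1 := by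
  induction bs with
  | nil =>
      intro s _ h2 M h1
      rw [List.foldl_nil, dsize_pair]
      omega
  | cons x bs ih =>
      intro s hN h2 M h1
      rw [List.foldl_cons]
      have hx := hN x List.mem_cons_self
      refine ih _ (fun y hy => hN y (List.mem_cons_of_mem _ hy)) ?_ M ?_
      · unfold selStep
        split
        · split
          · change dsize [x] ≤ N + 2
            rw [dsize_cons, dsize_nil]
            omega
          · change dsize ([] : List (List Bool)) ≤ N + 2
            rw [dsize_nil]
            omega
        · exact h2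
      · unfold selStep
        split
        · split
          · exact h1
          · change dsize (bSub L s.1 (wtB m L tb cm x)) ≤ _
            have h3 := p5_dsize_bools (bSub L s.1 (wtB m L tb cm x))
            rw [p5_bSub_length] at h3
            omega
        · exact h1

theorem p5_wt (h2 : SArith) (h3 : SLookup) {γ : Type} [DEnc γ] {m L : γ → ℕ}
    {tb : γ → List (List Bool × List Bool)} {cm x : γ → List Bool} (hm : PF m) (hL : PF L)
    (htb : PF tb) (hcm : PF cm) (hx : PF x) :
    PF (fun c => wtB (m c) (L c) (tb c) (cm c) (x c)) :=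
  PF.append (PF.replicate (PF.pred hm) (PF.const false)) (h2 hL hcm (h3 htb hx)).2.1

theorem p5_selStep (h2 : SArith) (h3 : SLookup) {γ : Type} [DEnc γ] {m L : γ → ℕ}
    {tb : γ → List (List Bool × List Bool)} {cm x : γ → List Bool}
    {s : γ → List Bool × List (List Bool)} (hm : PF m) (hL : PF L)
    (htb : PF tb) (hcm : PF cm) (hx : PF x) (hs : PF s) :
    PF (fun c => selStep (m c) (L c) (tb c) (cm c) (s c) (x c)) := by
  have hw := p5_wt h2 h3 hm hL htb hcm hx
  have h4 := h2 hL (PF.fst hs) hw
  exact PF.ite (PF.isEmpty (PF.snd hs))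
    (PF.ite h4.2.2.1 (PF.pair (PF.fst hs) (PF.cons hx (PF.const [])))
      (PF.pair h4.2.1 (PF.const []))) hs

/-- TARGET -/
theorem pSel (h2 : SArith) (h3 : SLookup) : SSel := by
  intro γ _ m L tb cm U bs hm hL htb hcm hbs hU
  obtain ⟨rL, hrL⟩ := hL.size
  obtain ⟨rt, hrt⟩ := htb.size
  obtain ⟨rU, hrU⟩ := hU.size
  obtain ⟨rb, hrb⟩ := hbs.size
  constructor
  · have hstep : PF (fun p : γ × ((List Bool × List (List Bool)) × List Bool) =>
        selStep (m p.1) (L p.1) (tb p.1) (cm p.1) p.2.1 p.2.2) :=
      p5_selStep h2 h3 (PF.comp hm PF.fst') (PF.comp hL PF.fst') (PF.comp htb PF.fst')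
        (PF.comp hcm PF.fst') (PF.snd PF.snd') (PF.fst PF.snd')
    refine PF.snd (PF.foldl hbs (PF.pair hU (PF.const [])) hstep
      ⟨(rU + (4 * rL + 1)) + (rb + 2) + 1, ?_⟩)
    intro c l1 l2 h
    have hb := hrb c
    rw [h] at hb
    have h5 := p5_sel_size (m c) (L c) (tb c) (cm c) (rb.eval (dsize c)) l1 (U c, [])
      (fun x hx => by
        have h6 : dsize x ≤ dsize (l1 ++ l2) := dsize_mem (List.mem_append_left _ hx)
        omega)
      (by
        change dsize ([] : List (List Bool)) ≤ _
        rw [dsize_nil]
        omega)
      (rU.eval (dsize c)) (by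
        have := hrU c
        change dsize (U c) ≤ _
        omega)
    refine h5.trans ?_
    have h7 := hrL c
    rw [dsize_nat] at h7
    simp only [Polynomial.eval_add, Polynomial.eval_mul, Polynomial.eval_ofNat,
      Polynomial.eval_one]
    omega
  · have hstep : PF (fun p : γ × (List Bool × List Bool) =>
        if bLt (L p.1) p.2.1 (lookup (tb p.1) p.2.2) = true then lookup (tb p.1) p.2.2
        else p.2.1) :=
      PF.ite (h2 (PF.comp hL PF.fst') (PF.fst PF.snd')
        (h3 (PF.comp htb PF.fst') (PF.snd PF.snd'))).2.2.1
        (h3 (PF.comp htb PF.fst') (PF.snd PF.snd')) (PF.fst PF.snd')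
    refine PF.foldl hbs (h2 hL hU hU).2.2.2.1 hstep ⟨(4 * rL + 1) + rt, ?_⟩
    intro c l1 l2 h
    have h5 := p5_max_size (L c) (tb c) l1 (zeroB (L c)) (by
      have h6 := p5_dsize_bools (zeroB (L c))
      have h7 : (zeroB (L c)).length = L c := by simp [zeroB]
      rw [h7] at h6
      omega)
    refine h5.trans ?_
    have h7 := hrL c
    have h8 := hrt c
    rw [dsize_nat] at h7
    simp only [Polynomial.eval_add, Polynomial.eval_mul, Polynomial.eval_ofNat,
      Polynomial.eval_one]
    omega

end Pool.Agent.H330ST.JP5
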