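import Pool.Agent.H330ST.Spec
set_option autoImplicit false
noncomputable section
namespace Pool.Agent.H330ST.JP6
open Pool.Agent.H685R2.Poly
open scoped ENNReal

theorem p6_cntT {γ : Type} [DEnc γ] {x : γ → List Bool} (hx : PF x) :
    PF (fun c => cntT (x c)) := by
  unfold cntT
  exact PF.length (PF.filter (f := fun p : γ × Bool => p.2) hx PF.snd')

theorem p6_digits {γ : Type} [DEnc γ] {a t m : γ → ℕ} (ha : PF a) (ht : PF t) (hm : PF m) :
    PF (fun c => digits (a c) (t c) (m c)) := by
  unfold digits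
  exact PF.succ (PF.add hm (PF.mul (PF.mul (PF.const 2) ha) ht))

theorem p6_basis (h1 : SMasks) {γ : Type} [DEnc γ] {ind : γ × List Bool → Bool} {cc : γ → ℕ}
    {x0 : γ → List Bool} (hind : PF ind) (hcc : PF cc) (hx0 : PF x0) :
    PF (fun c => basisMasks (fun y => ind (c, y)) (cc c) (x0 c)) := by
  unfold basisMasks
  exact PF.filter (f := fun p : γ × List Bool => ind p && decide (cntT p.2 = cntT (x0 p.1)))
    (h1 hcc (PF.length hx0))
    (PF.and hind (PF.natEq (p6_cntT PF.snd') (p6_cntT (PF.comp hx0 PF.fst'))))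

/-- TARGET -/
theorem pSlow (h1 : SMasks) (h2 : SDp) (h3 : SSel) : SSlow := by
  intro γ _ ind a t m cc x0 U hind ha ht hm hcc hx0 hU
  have hL := p6_digits ha ht hm
  have hbss : PF (fun c => allMasks (cc c) (2 * a c)) := h1 hcc (PF.mul (PF.const 2) ha)
  have hms : PF (fun c => allMasks (cc c) (x0 c).length) := h1 hcc (PF.length hx0)
  have htab := h2 hind ha hL ht hbss hms hx0
  have hbs := p6_basis h1 hind hcc hx0
  have hmax := (h3 hm hL htab hU hbs hU).2
  have hsel := (h3 hm hL htab hmax hbs hU).1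
  unfold slowOut
  exact hsel

/-- TARGET -/
theorem pFast (h : SRun) : SFast := by
  intro γ _ ind a t m x0 w hind ha ht hm hx0 hw
  constructor
  · unfold fastOut
    exact PF.ite (PF.headD hw (PF.const false))
      (PF.cons (h hind ha ht hx0 (PF.drop hm hw)) (PF.const [])) (PF.const [])
  · unfold slowFlag
    exact PF.all (f := fun p : γ × Bool => !p.2) (PF.take hm hw) (PF.not PF.snd')

end Pool.Agent.H330ST.JP6
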