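import Pool.Agent.H330ST.Spec
set_option autoImplicit false
noncomputable section
namespace Pool.Agent.H330ST.JP7
open Pool.Agent.H685R2.Poly
open scoped ENNReal

/-- one subtraction -/
def p7_sub (p b : ℕ) : ℕ := if decide (p ≤ b) = true then b - p else b

theorem p7_sub_le (p b : ℕ) : p7_sub p b ≤ b := by
  unfold p7_sub
  split_ifs <;> omega

theorem p7_iter_le (p i b : ℕ) : (p7_sub p)^[i] b ≤ b := by
  induction i with
  | zero => exact le_rfl
  | succ i ih =>
      rw [Function.iterate_succ_apply']
      exact (p7_sub_le _ _).trans ih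

theorem p7_iter_mod (p i b : ℕ) : (p7_sub p)^[i] b % p = b % p := by
  induction i with
  | zero => rfl
  | succ i ih =>
      rw [Function.iterate_succ_apply', ← ih]
      unfold p7_sub
      split_ifs with h
      · rw [decide_eq_true_eq] at h
        rw [← Nat.mod_eq_sub_mod h]
      · rfl

theorem p7_iter_lt (p : ℕ) (hp : 0 < p) : ∀ i b : ℕ, b ≤ i → (p7_sub p)^[i] b < p := by
  intro i
  induction i with
  | zero => intro b hb; simp; omega
  | succ i ih =>
      intro b hb
      rw [Function.iterate_succ_apply]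
      by_cases h : p ≤ b
      · apply ih
        unfold p7_sub
        rw [if_pos (decide_eq_true h)]
        omega
      · have h1 : p7_sub p b = b := by
          unfold p7_sub
          rw [if_neg (by simpa using h)]
        rw [h1]
        have h2 := p7_iter_le p i b
        omega

theorem p7_iter_eq (p : ℕ) (hp : 0 < p) (n : ℕ) : (p7_sub p)^[n] n = n % p := by
  rw [← p7_iter_mod p n n]
  exact (Nat.mod_eq_of_lt (p7_iter_lt p hp n n le_rfl)).symm

/-- TARGET -/
theorem pMd : SMd := by
  intro γ _ n p hn hp
  have hstep : PF (fun q : γ × ℕ => if decide (p q.1 ≤ q.2) = true then q.2 - p q.1 else q.2) :=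
    PF.ite (PF.le (PF.comp hp PF.fst') PF.snd') (PF.sub PF.snd' (PF.comp hp PF.fst')) PF.snd'
  obtain ⟨r, hr⟩ := hn.size
  have hit := PF.iterNat (f := fun q : γ × ℕ => if decide (p q.1 ≤ q.2) = true then q.2 - p q.1
    else q.2) hn hn hstep ⟨r, by
      intro c i hi
      have h1 : (fun b => if decide (p c ≤ b) = true then b - p c else b)^[i] (n c) ≤ n c :=
        p7_iter_le (p c) i (n c)
      refine le_trans ?_ (hr c)
      rw [dsize_nat, dsize_nat]
      simp only at h1 ⊢
      omega⟩
  refine PF.congr (PF.ite (PF.natEq hp (PF.const 0)) (PF.const 0) hit) fun c => ?_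
  unfold md
  by_cases h : p c = 0
  · rw [if_pos (decide_eq_true h), if_pos (decide_eq_true h)]
  · rw [if_neg (by simpa using h), if_neg (by simpa using h)]
    exact (p7_iter_eq (p c) (Nat.pos_of_ne_zero h) (n c)).symm

theorem p7_foldmax (l : List (List ℕ)) (N b : ℕ) (hb : b ≤ N) (h : ∀ f ∈ l, f.length ≤ N) :
    l.foldl (fun m f => max m f.length) b ≤ N := by
  induction l generalizing b with
  | nil => exact hb
  | cons a l ih =>
      rw [List.foldl_cons]
      exact ih _ (max_le hb (h a List.mem_cons_self)) fun f hf => h f (List.mem_cons_of_mem _ hf)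

theorem p7_dimP {γ : Type} [DEnc γ] {l : γ → List (List ℕ)} (hl : PF l) :
    PF (fun c => dimP (l c)) := by
  obtain ⟨r, hr⟩ := hl.size
  have hlen : PF (fun p : γ × (ℕ × List ℕ) => p.2.2.length) := PF.length (PF.snd PF.snd')
  have hstep : PF (fun p : γ × (ℕ × List ℕ) =>
      if decide (p.2.1 ≤ p.2.2.length) = true then p.2.2.length else p.2.1) :=
    PF.ite (PF.le (PF.fst PF.snd') hlen) hlen (PF.fst PF.snd')
  have hfun : ∀ (l : List (List ℕ)) (b : ℕ),
      l.foldl (fun m f => if decide (m ≤ f.length) = true then f.length else m) b =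
        l.foldl (fun m f => max m f.length) b := by
    intro l
    induction l with
    | nil => intro b; rfl
    | cons a l ih =>
        intro b
        rw [List.foldl_cons, List.foldl_cons, ih]
        congr 1
        split_ifs with h
        · rw [decide_eq_true_eq] at h
          exact (max_eq_right h).symm
        · rw [decide_eq_true_eq] at h
          exact (max_eq_left (by omega)).symm
  refine PF.congr (PF.foldl hl (PF.const 0) hstep ⟨2 * r + 1, ?_⟩) fun c => ?_
  · intro c l1 l2 h
    simp only
    rw [hfun, dsize_nat]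
    simp only [Polynomial.eval_add, Polynomial.eval_mul, Polynomial.eval_ofNat,
      Polynomial.eval_one]
    have h1 : l1.foldl (fun m f => max m f.length) 0 ≤ r.eval (dsize c) := by
      apply p7_foldmax _ _ _ (Nat.zero_le _)
      intro f hf
      refine (length_le_dsize f).trans ((dsize_mem ?_).trans (hr c))
      rw [h]
      exact List.mem_append_left _ hf
    omega
  · simp only
    rw [hfun]
    rfl

/-- the step of `szc` -/
def p7_sz (k : ℕ) (s : ℕ × ℕ) : ℕ × ℕ := if decide (s.2 < k) = true then (s.1 + 1, 2 * s.2) else s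

theorem p7_szc_bound (k : ℕ) (l : List ℕ) : ∀ s : ℕ × ℕ, s.2 ≤ 2 * k + 2 →
    (l.foldl (fun s _ => p7_sz k s) s).1 ≤ s.1 + l.length ∧
    (l.foldl (fun s _ => p7_sz k s) s).2 ≤ 2 * k + 2 := by
  induction l with
  | nil => intro s hs; exact ⟨le_rfl, hs⟩
  | cons a l ih =>
      intro s hs
      rw [List.foldl_cons]
      have h1 : (p7_sz k s).2 ≤ 2 * k + 2 ∧ (p7_sz k s).1 ≤ s.1 + 1 := by
        unfold p7_sz
        split_ifs with h
        · rw [decide_eq_true_eq] at h
          constructor <;> simp only <;> omega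
        · exact ⟨hs, by omega⟩
      have h2 := ih (p7_sz k s) h1.1
      rw [List.length_cons]
      constructor
      · omega
      · exact h2.2

theorem p7_szc {γ : Type} [DEnc γ] {k : γ → ℕ} (hk : PF k) : PF (fun c => szc (k c)) := by
  obtain ⟨r, hr⟩ := hk.size
  have hstep : PF (fun p : γ × ((ℕ × ℕ) × ℕ) => if decide (p.2.1.2 < k p.1) = true then
      (p.2.1.1 + 1, 2 * p.2.1.2) else p.2.1) :=
    PF.ite (PF.lt (PF.snd (PF.fst PF.snd')) (PF.comp hk PF.fst'))
      (PF.pair (PF.succ (PF.fst (PF.fst PF.snd')))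
        (PF.mul (PF.const 2) (PF.snd (PF.fst PF.snd')))) (PF.fst PF.snd')
  refine PF.congr (PF.foldl (PF.range hk) (PF.const ((1, 2) : ℕ × ℕ)) hstep
    ⟨(2 * (1 + r) + 1) + (2 * (2 * r + 2) + 1) + 1, ?_⟩) fun c => ?_
  · intro c l1 l2 h
    have h1 := p7_szc_bound (k c) l1 (1, 2) (by simp)
    have h2 : l1.length ≤ k c := by
      have h3 := congrArg List.length h
      rw [List.length_range, List.length_append] at h3
      omega
    have h4 := hr c
    rw [dsize_nat] at h4
    change dsize (l1.foldl (fun s _ => p7_sz (k c) s) (1, 2)) ≤ _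
    rw [dsize_pair, dsize_nat, dsize_nat]
    simp only [Polynomial.eval_add, Polynomial.eval_mul, Polynomial.eval_ofNat,
      Polynomial.eval_one]
    have h5 := h1.1
    have h6 := h1.2
    simp only at h5
    omega
  · rfl

/-- TARGET -/
theorem pFaces : SFaces := by
  intro γ _ l hl
  have hdim : PF (fun c => dimP (l c)) := p7_dimP hl
  have htop : PF (fun c => topF (l c)) :=
    PF.congr (PF.filter (f := fun p : γ × List ℕ => decide (p.2.length = dimP (l p.1))) hl
      (PF.natEq (PF.length PF.snd') (PF.comp (g := fun c => dimP (l c)) hdim PF.fst'))) fun c => rfl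
  have hsub : PF (fun c => subF (l c)) :=
    PF.congr (PF.filter (f := fun p : γ × List ℕ => decide (p.2.length + 1 = dimP (l p.1))) hl
      (PF.natEq (PF.succ (PF.length PF.snd')) (PF.comp (g := fun c => dimP (l c)) hdim PF.fst'))) fun c => rfl
  have hk : PF (fun c => kP (l c)) := PF.congr (PF.length htop) fun c => rfl
  exact ⟨hdim, htop, hsub, hk, PF.fst (p7_szc hk), PF.snd (p7_szc hk)⟩

/-- TARGET -/
theorem pSelC (h : SFaces) : SSelC := by
  have key : ∀ {γ : Type} [DEnc γ] {E : γ → List (List ℕ)} {x : γ → List Bool},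
      PF E → PF x → PF (fun c => selC (E c) (x c)) := by
    intro γ _ E x hE hx
    have h1 : PF (fun c => (List.range (E c).length).filter
        (fun i => (fun p : γ × ℕ => (x p.1).getD p.2 false) (c, i))) :=
      PF.filter (PF.range (PF.length hE)) (PF.getD PF.snd' (PF.comp hx PF.fst') (PF.const false))
    have h2 := PF.map (f := fun p : γ × ℕ => (E p.1).getD p.2 []) h1
      (PF.getD PF.snd' (PF.comp hE PF.fst') (PF.const []))
    exact PF.congr h2 fun c => rfl
  intro γ _ l E x hl hE hx
  refine ⟨key hE hx, ?_⟩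
  obtain ⟨hdim, htop, -, -, -, -⟩ := h hl
  have hs : PF (fun c => selC (topF (l c)) (x c)) := key htop hx
  have ht : PF (fun p : γ × List ℕ => decide (p.2.length < dimP (l p.1)) ||
      (selC (topF (l p.1)) (x p.1)).any (fun g => decide (g = p.2))) :=
    PF.or (PF.lt (PF.length PF.snd') (PF.comp (g := fun c => dimP (l c)) hdim PF.fst'))
      (PF.congr (PF.any (f := fun q : (γ × List ℕ) × List ℕ => decide (q.2 = q.1.2))
        (PF.comp hs PF.fst') (PF.eq PF.snd' (PF.snd PF.fst'))) fun p => rfl)
  exact PF.congr (PF.filter hl ht) fun c => rfl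

end Pool.Agent.H330ST.JP7
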