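import Pool.Agent.H330ST.Spec
set_option autoImplicit false
noncomputable section
namespace Pool.Agent.H330ST.JP8
open Pool.Agent.H685R2.Poly
open scoped ENNReal

/-- a fold whose steps either keep the state or replace it by a bounded number is bounded -/
theorem p8_bound (N : ℕ) (F : ℕ → ℕ → ℕ) (hF : ∀ s i, F s i = s ∨ F s i ≤ N) :
    ∀ (l : List ℕ) (s : ℕ), s ≤ N → l.foldl F s ≤ N := by
  intro l
  induction l with
  | nil => intro s hs; exact hs
  | cons a l ih =>
      intro s hs
      rw [List.foldl_cons]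
      apply ih
      rcases hF s a with h | h
      · rw [h]; exact hs
      · exact h

theorem p8_entry (h : SMd) {γ : Type} [DEnc γ] {p : γ → ℕ} {g f : γ → List ℕ} (hp : PF p)
    (hg : PF g) (hf : PF f) : PF (fun c => entryP (p c) (g c) (f c)) := by
  obtain ⟨r, hr⟩ := hp.size
  have hl : PF (fun c => List.range (f c).length) := PF.range (PF.length hf)
  have hi : PF (fun q : γ × (ℕ × ℕ) => q.2.2) := PF.snd PF.snd'
  have hf1 : PF (fun q : γ × (ℕ × ℕ) => f q.1) := PF.comp hf PF.fst'
  have hg1 : PF (fun q : γ × (ℕ × ℕ) => g q.1) := PF.comp hg PF.fst'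
  have hp1 : PF (fun q : γ × (ℕ × ℕ) => p q.1) := PF.comp hp PF.fst'
  have her : PF (fun q : γ × (ℕ × ℕ) => (f q.1).eraseIdx q.2.2) :=
    PF.congr (PF.append (PF.take hi hf1) (PF.drop (PF.succ hi) hf1)) fun q => by
      rw [List.eraseIdx_eq_take_drop_succ]
  have hc1 : PF (fun q : γ × (ℕ × ℕ) => decide ((f q.1).eraseIdx q.2.2 = g q.1)) :=
    PF.eq her hg1
  have hmd : PF (fun q : γ × (ℕ × ℕ) => md q.2.2 2) := h hi (PF.const 2)
  have hc2 : PF (fun q : γ × (ℕ × ℕ) => decide (md q.2.2 2 = 0)) := PF.isZero hmd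
  have hstep : PF (fun q : γ × (ℕ × ℕ) =>
      if decide ((f q.1).eraseIdx q.2.2 = g q.1) = true then
        (if decide (md q.2.2 2 = 0) = true then 1 else p q.1 - 1) else q.2.1) :=
    PF.ite hc1 (PF.ite hc2 (PF.const 1) (PF.pred hp1)) (PF.fst PF.snd')
  refine PF.congr (PF.foldl hl (PF.const 0) hstep ⟨r + 2, ?_⟩) fun c => ?_
  · intro c l1 l2 _
    have h1 := p8_bound (p c + 1) (fun s i =>
      if decide ((f c).eraseIdx i = g c) = true then
        (if decide (md i 2 = 0) = true then 1 else p c - 1) else s) (by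
        intro s i
        split_ifs
        · right; omega
        · right; omega
        · left; rfl) l1 0 (by omega)
    have h2 := hr c
    rw [dsize_nat] at h2
    rw [dsize_nat]
    simp only [Polynomial.eval_add, Polynomial.eval_ofNat]
    omega
  · rfl

/-- TARGET -/
theorem pColP (h : SMd) : SColP := by
  intro γ _ p rows f hp hrows hf
  have h1 : PF (fun q : γ × List ℕ => entryP (p q.1) q.2 (f q.1)) :=
    p8_entry h (PF.comp hp PF.fst') PF.snd' (PF.comp hf PF.fst')
  exact PF.congr (PF.map hrows h1) fun c => rfl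
end Pool.Agent.H330ST.JP8
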