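import Pool.Agent.H330ST.Spec
set_option autoImplicit false
noncomputable section
namespace Pool.Agent.H330ST.JP9
open Pool.Agent.H685R2.Poly
open scoped ENNReal

/-! Polynomial time of the elimination modulo `p`. -/

theorem p9_reduce1 (h : SMd) {γ : Type} [DEnc γ] {p : γ → ℕ} {v : γ → List ℕ}
    {b : γ → ℕ × List ℕ} (hp : PF p) (hv : PF v) (hb : PF b) :
    PF (fun c => reduce1 (p c) (v c) (b c)) := by
  unfold reduce1
  have hp' : PF (fun q : γ × ℕ => p q.1) := PF.comp hp PF.fst'
  have hv' : PF (fun q : γ × ℕ => v q.1) := PF.comp hv PF.fst'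
  have hb' : PF (fun q : γ × ℕ => b q.1) := PF.comp hb PF.fst'
  have h0 : PF (fun _ : γ × ℕ => (0 : ℕ)) := PF.const 0
  have h1 : PF (fun q : γ × ℕ => (b q.1).2.getD (b q.1).1 0) :=
    PF.getD (PF.fst hb') (PF.snd hb') h0
  have h2 : PF (fun q : γ × ℕ => (v q.1).getD q.2 0) := PF.getD PF.snd' hv' h0
  have h3 : PF (fun q : γ × ℕ => (v q.1).getD (b q.1).1 0) := PF.getD (PF.fst hb') hv' h0
  have h4 : PF (fun q : γ × ℕ => (b q.1).2.getD q.2 0) := PF.getD PF.snd' (PF.snd hb') h0
  exact PF.map (f := fun q : γ × ℕ =>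
    md ((b q.1).2.getD (b q.1).1 0 * (v q.1).getD q.2 0 +
      (p q.1 - (v q.1).getD (b q.1).1 0) * (b q.1).2.getD q.2 0) (p q.1))
    (PF.range (PF.length hv)) (h (PF.add (PF.mul h1 h2) (PF.mul (PF.sub hp' h3) h4)) hp')

theorem p9_md_le (n p : ℕ) : md n p ≤ p := by
  unfold md
  by_cases hp : p = 0
  · simp [hp]
  · simp only [hp, decide_false, Bool.false_eq_true, if_false]
    exact (Nat.mod_lt _ (Nat.pos_of_ne_zero hp)).le

theorem p9_reduce1_length (p : ℕ) (v : List ℕ) (b : ℕ × List ℕ) :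
    (reduce1 p v b).length = v.length := by
  simp [reduce1]

theorem p9_reduceAll_length (p : ℕ) (bs : List (ℕ × List ℕ)) (v : List ℕ) :
    (reduceAll p bs v).length = v.length := by
  unfold reduceAll
  induction bs generalizing v with
  | nil => rfl
  | cons b bs ih => rw [List.foldl_cons, ih, p9_reduce1_length]

theorem p9_reduce1_le (p : ℕ) (v : List ℕ) (b : ℕ × List ℕ) :
    ∀ x ∈ reduce1 p v b, x ≤ p := by
  intro x hx
  unfold reduce1 at hx
  rw [List.mem_map] at hx
  obtain ⟨i, _, rfl⟩ := hx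
  exact p9_md_le _ _

theorem p9_reduceAll_cases (p : ℕ) (bs : List (ℕ × List ℕ)) (v : List ℕ) :
    reduceAll p bs v = v ∨ ∀ x ∈ reduceAll p bs v, x ≤ p := by
  induction bs using List.reverseRecOn with
  | nil => left; rfl
  | append_singleton bs b _ =>
      right
      have e : reduceAll p (bs ++ [b]) v = reduce1 p (reduceAll p bs v) b := by
        unfold reduceAll
        rw [List.foldl_append]
        rfl
      rw [e]
      exact p9_reduce1_le _ _ _

theorem p9_dsize_bdd (l : List ℕ) (p : ℕ) (h : ∀ x ∈ l, x ≤ p) :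
    dsize l ≤ l.length * (2 * p + 2) + 1 := by
  have h1 := dsize_map_le l id (2 * p + 1) (by
    intro a ha
    rw [dsize_nat, id]
    have := h a ha
    omega)
  rw [List.map_id] at h1
  exact h1

theorem p9_dsize_reduceAll (p : ℕ) (bs : List (ℕ × List ℕ)) (v : List ℕ) (S : ℕ)
    (hS : dsize v ≤ S) : dsize (reduceAll p bs v) ≤ S + S * (2 * p + 2) + 1 := by
  have hlen : v.length ≤ S := (length_le_dsize v).trans hS
  rcases p9_reduceAll_cases p bs v with h | h
  · rw [h]
    have : 0 ≤ S * (2 * p + 2) := Nat.zero_le _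
    omega
  · have h1 := p9_dsize_bdd _ p h
    rw [p9_reduceAll_length] at h1
    have h2 : v.length * (2 * p + 2) ≤ S * (2 * p + 2) := Nat.mul_le_mul_right _ hlen
    omega

theorem p9_reduceAll (h : SMd) {γ : Type} [DEnc γ] {p : γ → ℕ} {bs : γ → List (ℕ × List ℕ)}
    {v : γ → List ℕ} (hp : PF p) (hbs : PF bs) (hv : PF v) :
    PF (fun c => reduceAll (p c) (bs c) (v c)) := by
  obtain ⟨r, hr⟩ := hp.size
  obtain ⟨s, hs⟩ := hv.size
  have h1 : PF (fun q : γ × (List ℕ × (ℕ × List ℕ)) => reduce1 (p q.1) q.2.1 q.2.2) :=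
    p9_reduce1 h (PF.comp hp PF.fst') (PF.fst PF.snd') (PF.snd PF.snd')
  refine PF.congr (PF.foldl hbs hv h1 ⟨s + s * (r + 2) + 1, ?_⟩) fun c => rfl
  intro c l1 l2 _
  change dsize (reduceAll (p c) l1 (v c)) ≤ _
  have h2 := p9_dsize_reduceAll (p c) l1 (v c) _ (hs c)
  have h3 := hr c
  rw [dsize_nat] at h3
  have h4 : s.eval (dsize c) * (2 * p c + 2) ≤ s.eval (dsize c) * (r.eval (dsize c) + 2) :=
    Nat.mul_le_mul_left _ (by omega)
  simp only [Polynomial.eval_add, Polynomial.eval_mul, Polynomial.eval_ofNat,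
    Polynomial.eval_one]
  omega

theorem p9_nzs {γ : Type} [DEnc γ] {v : γ → List ℕ} (hv : PF v) : PF (fun c => nzs (v c)) := by
  unfold nzs
  exact PF.filter (f := fun q : γ × ℕ => !(decide ((v q.1).getD q.2 0 = 0)))
    (PF.range (PF.length hv))
    (PF.not (PF.isZero (PF.getD PF.snd' (PF.comp hv PF.fst') (PF.const 0))))

theorem p9_nzs_headD (v : List ℕ) : (nzs v).headD 0 ≤ v.length := by
  cases h : nzs v with
  | nil => simp
  | cons a l =>
      have h1 : a ∈ nzs v := by rw [h]; exact List.mem_cons_self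
      unfold nzs at h1
      have h2 := (List.mem_filter.1 h1).1
      rw [List.mem_range] at h2
      simp only [List.headD_cons]
      omega

theorem p9_elimStep (h : SMd) {γ : Type} [DEnc γ] {p : γ → ℕ}
    {s : γ → Bool × List (ℕ × List ℕ)} {v : γ → List ℕ} (hp : PF p) (hs : PF s) (hv : PF v) :
    PF (fun c => elimStep (p c) (s c) (v c)) := by
  unfold elimStep
  have h1 : PF (fun c => reduceAll (p c) (s c).2 (v c)) := p9_reduceAll h hp (PF.snd hs) hv
  have h2 : PF (fun c => nzs (reduceAll (p c) (s c).2 (v c))) := p9_nzs h1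
  exact PF.ite (PF.isEmpty h2) (PF.pair (PF.const false) (PF.snd hs))
    (PF.pair (PF.fst hs) (PF.append (PF.snd hs)
      (PF.cons (PF.pair (PF.headD h2 (PF.const 0)) h1) (PF.const []))))

/-- bound for the size of a basis element -/
def p9K (p S : ℕ) : ℕ := (2 * S + 1) + (S + S * (2 * p + 2) + 1) + 1

theorem p9_dsize_elimStep (p : ℕ) (s : Bool × List (ℕ × List ℕ)) (v : List ℕ) (S : ℕ)
    (hS : dsize v ≤ S) : dsize (elimStep p s v).2 ≤ dsize s.2 + (p9K p S + 1) := by
  unfold elimStep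
  split_ifs with hc
  · exact Nat.le_add_right _ _
  · change dsize (s.2 ++ [((nzs (reduceAll p s.2 v)).headD 0, reduceAll p s.2 v)]) ≤ _
    have h1 := dsize_append s.2 [((nzs (reduceAll p s.2 v)).headD 0, reduceAll p s.2 v)]
    rw [dsize_cons, dsize_nil, dsize_pair] at h1
    have h2 := p9_dsize_reduceAll p s.2 v S hS
    have h3 := p9_nzs_headD (reduceAll p s.2 v)
    rw [p9_reduceAll_length] at h3
    have h4 : v.length ≤ S := (length_le_dsize v).trans hS
    simp only [dsize_nat] at h1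
    unfold p9K
    omega

theorem p9_dsize_elim (p : ℕ) (S : ℕ) (l : List (List ℕ)) (hl : ∀ v ∈ l, dsize v ≤ S) :
    ∀ s : Bool × List (ℕ × List ℕ),
      dsize (l.foldl (elimStep p) s).2 ≤ dsize s.2 + l.length * (p9K p S + 1) := by
  induction l with
  | nil => intro s; simp
  | cons v l ih =>
      intro s
      rw [List.foldl_cons, List.length_cons, Nat.succ_mul]
      have h1 := ih (fun w hw => hl w (List.mem_cons_of_mem _ hw)) (elimStep p s v)
      have h2 := p9_dsize_elimStep p s v S (hl v List.mem_cons_self)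
      omega

theorem p9_indepP (h : SMd) {γ : Type} [DEnc γ] {p : γ → ℕ} {cols : γ → List (List ℕ)}
    (hp : PF p) (hcols : PF cols) : PF (fun c => indepP (p c) (cols c)) := by
  obtain ⟨r, hr⟩ := hp.size
  obtain ⟨s, hs⟩ := hcols.size
  have h1 : PF (fun q : γ × ((Bool × List (ℕ × List ℕ)) × List ℕ) =>
      elimStep (p q.1) q.2.1 q.2.2) :=
    p9_elimStep h (PF.comp hp PF.fst') (PF.fst PF.snd') (PF.snd PF.snd')
  have h2 : PF (fun c => (cols c).foldl (fun b a => elimStep (p c) b a) (true, [])) := by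
    refine PF.foldl hcols (PF.const (true, [])) h1
      ⟨3 + (1 + s * ((2 * s + 1) + (s + s * (r + 2) + 1) + 1 + 1)) + 1, ?_⟩
    intro c l1 l2 hl
    change dsize (l1.foldl (elimStep (p c)) (true, [])) ≤ _
    rw [dsize_pair]
    have h3 := p9_dsize_elim (p c) (s.eval (dsize c)) l1 (by
      intro v hv
      refine le_trans (dsize_mem ?_) (hs c)
      rw [hl]
      exact List.mem_append_left _ hv) (true, [])
    have h4 : l1.length ≤ s.eval (dsize c) := by
      have h5 := length_le_dsize (cols c)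
      have h6 := hs c
      rw [hl, List.length_append] at h5
      rw [hl] at h6
      omega
    have h5 := dsize_bool (l1.foldl (elimStep (p c)) (true, [])).1
    have h6 := hr c
    rw [dsize_nat] at h6
    have h7 : p9K (p c) (s.eval (dsize c)) + 1 ≤ (2 * s.eval (dsize c) + 1) +
        (s.eval (dsize c) + s.eval (dsize c) * (r.eval (dsize c) + 2) + 1) + 1 + 1 := by
      unfold p9K
      have h8 : s.eval (dsize c) * (2 * p c + 2) ≤ s.eval (dsize c) * (r.eval (dsize c) + 2) :=
        Nat.mul_le_mul_left _ (by omega)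
      omega
    have h8 := Nat.mul_le_mul h4 h7
    have h9 : dsize ((true, []) : Bool × List (ℕ × List ℕ)).2 = 1 := rfl
    rw [h9] at h3
    simp only [Polynomial.eval_add, Polynomial.eval_mul, Polynomial.eval_ofNat,
      Polynomial.eval_one]
    omega
  exact PF.congr (PF.fst h2) fun c => rfl

theorem p9_isPrimeB {γ : Type} [DEnc γ] {p : γ → ℕ} (hp : PF p) :
    PF (fun c => isPrimeB (p c)) := by
  unfold isPrimeB
  have h1 : PF (fun q : (γ × ℕ) × ℕ => !(decide (q.1.2 * q.2 = p q.1.1))) :=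
    PF.not (PF.natEq (PF.mul (PF.snd PF.fst') PF.snd') (PF.comp hp (PF.fst PF.fst')))
  have h2 : PF (fun q : γ × ℕ => (List.range (p q.1)).all (fun e => !(decide (q.2 * e = p q.1)))) :=
    PF.all (f := fun q : (γ × ℕ) × ℕ => !(decide (q.1.2 * q.2 = p q.1.1)))
      (PF.range (PF.comp hp PF.fst')) h1
  exact PF.and (PF.le (PF.const 2) hp)
    (PF.all (f := fun q : γ × ℕ => (List.range (p q.1)).all
      (fun e => !(decide (q.2 * e = p q.1)))) (PF.range hp) h2)

/-- TARGET -/
theorem pElimPF (h : SMd) : SElimPF := by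
  intro γ _ p cols hp hcols
  exact ⟨p9_indepP h hp hcols, p9_isPrimeB hp⟩

end Pool.Agent.H330ST.JP9
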