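/- Digits: invariant of the fold over range i: val of the (reversed) output digits + 2^i * carry = (val a % 2^i) + (val b % 2^i). -/
import Pool.Agent.H330ST.Spec
set_option autoImplicit false
noncomputable section
namespace Pool.Agent.H330ST.JV1
open Pool.Agent.H685R2.Poly
open scoped ENNReal

theorem v1_val_nil : val [] = 0 := rfl

theorem v1_val_cons (c : Bool) (a : List Bool) :
    val (c :: a) = (if c = true then 1 else 0) + 2 * val a := rfl

theorem v1_val_append (l m : List Bool) : val (l ++ m) = val l + 2 ^ l.length * val m := by
  induction l with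
  | nil => simp [v1_val_nil]
  | cons c l ih =>
    rw [List.cons_append, v1_val_cons, v1_val_cons, ih, List.length_cons, pow_succ]
    ring

theorem v1_val_snoc (l : List Bool) (b : Bool) :
    val (l ++ [b]) = val l + 2 ^ l.length * (if b = true then 1 else 0) := by
  rw [v1_val_append, v1_val_cons, v1_val_nil]
  ring

theorem v1_val_lt (a : List Bool) : val a < 2 ^ a.length := by
  induction a with
  | nil => simp [v1_val_nil]
  | cons c a ih =>
    rw [v1_val_cons, List.length_cons, pow_succ]
    split_ifs <;> omega

theorem v1_val_rep (j : ℕ) (a : List Bool) :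
    val (List.replicate j false ++ a) = 2 ^ j * val a := by
  induction j with
  | zero => simp
  | succ j ih =>
    rw [List.replicate_succ, List.cons_append, v1_val_cons, ih, pow_succ]
    simp
    ring

theorem v1_val_zero (j : ℕ) : val (List.replicate j false) = 0 := by
  have h := v1_val_rep j []
  simpa [v1_val_nil] using h

theorem v1_bit_mod (c v n : ℕ) (hc : c ≤ 1) : (c + 2 * v) % 2 ^ (n + 1) = c + 2 * (v % 2 ^ n) := by
  rw [pow_succ, mul_comm (2 ^ n) 2, Nat.mod_mul]
  have h1 : (c + 2 * v) % 2 = c := by omega
  have h2 : (c + 2 * v) / 2 = v := by omega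
  rw [h1, h2]

theorem v1_mod_succ (a : List Bool) (n : ℕ) :
    val a % 2 ^ (n + 1) = val a % 2 ^ n + 2 ^ n * (if a.getD n false = true then 1 else 0) := by
  induction a generalizing n with
  | nil => simp [v1_val_nil]
  | cons c a ih =>
    have hc : (if c = true then 1 else 0) ≤ 1 := by split_ifs <;> omega
    rw [v1_val_cons, v1_bit_mod _ _ _ hc]
    cases n with
    | zero =>
      simp [Nat.mod_one]
    | succ n =>
      rw [v1_bit_mod _ _ _ hc, ih n, List.getD_cons_succ, pow_succ]
      ring

def v1_av (a b : List Bool) (n : ℕ) : Bool × List Bool :=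
  (List.range n).foldl (addStep a b) (false, [])

def v1_sv (a b : List Bool) (n : ℕ) : Bool × List Bool :=
  (List.range n).foldl (subStep a b) (false, [])

theorem v1_av_succ (a b : List Bool) (n : ℕ) :
    v1_av a b (n + 1) = addStep a b (v1_av a b n) n := by
  unfold v1_av
  rw [List.range_succ, List.foldl_append]
  rfl

theorem v1_sv_succ (a b : List Bool) (n : ℕ) :
    v1_sv a b (n + 1) = subStep a b (v1_sv a b n) n := by
  unfold v1_sv
  rw [List.range_succ, List.foldl_append]
  rfl

theorem v1_av_len (a b : List Bool) (n : ℕ) : (v1_av a b n).2.length = n := by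
  induction n with
  | zero => rfl
  | succ n ih => rw [v1_av_succ]; simp [addStep, ih]

theorem v1_sv_len (a b : List Bool) (n : ℕ) : (v1_sv a b n).2.length = n := by
  induction n with
  | zero => rfl
  | succ n ih => rw [v1_sv_succ]; simp [subStep, ih]

theorem v1_add_digit (x y c : Bool) (V A B T : ℕ)
    (ih : V + T * (if c = true then 1 else 0) = A + B) :
    V + T * (if (x ^^ y ^^ c) = true then 1 else 0) +
        T * 2 * (if (x && y || x && c || y && c) = true then 1 else 0) =
      A + T * (if x = true then 1 else 0) + (B + T * (if y = true then 1 else 0)) := by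
  cases x <;> cases y <;> cases c <;> simp at ih ⊢ <;> omega

theorem v1_sub_digit (x y c : Bool) (V A B T : ℕ)
    (ih : V + B = A + T * (if c = true then 1 else 0)) :
    V + T * (if (x ^^ y ^^ c) = true then 1 else 0) +
        (B + T * (if y = true then 1 else 0)) =
      A + T * (if x = true then 1 else 0) +
        T * 2 * (if (!x && y || !x && c || y && c) = true then 1 else 0) := by
  cases x <;> cases y <;> cases c <;> simp at ih ⊢ <;> omega

theorem v1_av_inv (a b : List Bool) (n : ℕ) :
    val (v1_av a b n).2.reverse + 2 ^ n * (if (v1_av a b n).1 = true then 1 else 0) =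
      val a % 2 ^ n + val b % 2 ^ n := by
  induction n with
  | zero => simp [v1_av, v1_val_nil, Nat.mod_one]
  | succ n ih =>
    rw [v1_av_succ, v1_mod_succ a n, v1_mod_succ b n]
    have hlen := v1_av_len a b n
    generalize v1_av a b n = s at ih hlen
    obtain ⟨c, l⟩ := s
    simp only [addStep, List.reverse_cons]
    rw [v1_val_snoc, List.length_reverse]
    simp only at ih hlen
    rw [hlen, pow_succ]
    exact v1_add_digit _ _ _ _ _ _ _ ih

theorem v1_sv_inv (a b : List Bool) (n : ℕ) :
    val (v1_sv a b n).2.reverse + val b % 2 ^ n =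
      val a % 2 ^ n + 2 ^ n * (if (v1_sv a b n).1 = true then 1 else 0) := by
  induction n with
  | zero => simp [v1_sv, v1_val_nil, Nat.mod_one]
  | succ n ih =>
    rw [v1_sv_succ, v1_mod_succ a n, v1_mod_succ b n]
    have hlen := v1_sv_len a b n
    generalize v1_sv a b n = s at ih hlen
    obtain ⟨c, l⟩ := s
    simp only [subStep, List.reverse_cons]
    rw [v1_val_snoc, List.length_reverse]
    simp only at ih hlen
    rw [hlen, pow_succ]
    exact v1_sub_digit _ _ _ _ _ _ _ ih

/-- TARGET -/
theorem vArith : VArith := by
  intro L a b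
  have hsb := v1_sv_inv a b L
  have hlt : val (v1_sv a b L).2.reverse < 2 ^ L := by
    have := v1_val_lt (v1_sv a b L).2.reverse
    rwa [List.length_reverse, v1_sv_len] at this
  have hA : val a % 2 ^ L < 2 ^ L := Nat.mod_lt _ (by positivity)
  have hB : val b % 2 ^ L < 2 ^ L := Nat.mod_lt _ (by positivity)
  refine ⟨⟨?_, ?_⟩, ⟨?_, ?_⟩, ?_, v1_val_lt a, fun j => v1_val_rep j a, ⟨v1_val_zero L, ?_⟩, ?_⟩
  · show (v1_av a b L).2.reverse.length = L
    rw [List.length_reverse, v1_av_len]
  · show val (v1_av a b L).2.reverse = _
    have h := v1_av_inv a b L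
    have hlt' : val (v1_av a b L).2.reverse < 2 ^ L := by
      have := v1_val_lt (v1_av a b L).2.reverse
      rwa [List.length_reverse, v1_av_len] at this
    rw [Nat.add_mod (val a) (val b), ← h, Nat.add_mul_mod_self_left, Nat.mod_eq_of_lt hlt']
  · show (v1_sv a b L).2.reverse.length = L
    rw [List.length_reverse, v1_sv_len]
  · intro h
    show val (v1_sv a b L).2.reverse = _
    rcases Bool.eq_false_or_eq_true (v1_sv a b L).1 with h1 | h1
    · rw [h1] at hsb
      simp at hsb
      omega
    · rw [h1] at hsb
      simp at hsb
      omega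
  · show (v1_sv a b L).1 = _
    rcases Bool.eq_false_or_eq_true (v1_sv a b L).1 with h1 | h1
    · rw [h1] at hsb
      simp at hsb
      rw [h1]
      symm
      rw [decide_eq_true_iff]
      omega
    · rw [h1] at hsb
      simp at hsb
      rw [h1]
      symm
      rw [decide_eq_false_iff_not]
      omega
  · simp [zeroB]
  · intro hL
    refine ⟨?_, ?_⟩
    · unfold oneB
      rw [v1_val_cons, v1_val_zero]
      simp
    · simp [oneB]
      omega

theorem v1_val_inj (a b : List Bool) (hl : a.length = b.length) (h : val a = val b) : a = b := by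
  induction a generalizing b with
  | nil =>
    cases b with
    | nil => rfl
    | cons _ _ => simp at hl
  | cons c a ih =>
    cases b with
    | nil => simp at hl
    | cons d b =>
      rw [v1_val_cons, v1_val_cons] at h
      have h1 : c = d := by
        cases c <;> cases d <;> simp at h ⊢ <;> omega
      subst h1
      have h2 : val a = val b := by omega
      rw [ih b (by simpa using hl) h2]

/-- TARGET -/
theorem vBij : VBij := by
  classical
  intro B P hP
  let f : (Fin B → Bool) → Fin (2 ^ B) := fun v => ⟨val (List.ofFn v), by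
    have := v1_val_lt (List.ofFn v)
    rwa [List.length_ofFn] at this⟩
  have hinj : Function.Injective f := by
    intro v w hvw
    have h1 : val (List.ofFn v) = val (List.ofFn w) := congrArg Fin.val hvw
    exact List.ofFn_injective (v1_val_inj _ _ (by simp) h1)
  have hbij : Function.Bijective f :=
    (Fintype.bijective_iff_injective_and_card f).2 ⟨hinj, by simp⟩
  have hinj' : Function.Injective (fun v : Fin B → Bool => val (List.ofFn v)) := by
    intro v w hvw
    exact hinj (Fin.ext hvw)
  unfold cntW
  have hset : {n | P n} = ((Finset.univ.filter (fun v : Fin B → Bool =>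
      P (val (List.ofFn v)))).image (fun v : Fin B → Bool => val (List.ofFn v)) : Finset ℕ) := by
    ext n
    simp only [Set.mem_ofPred_eq, Finset.coe_image, Set.mem_image, Finset.coe_filter,
      Finset.mem_univ, true_and]
    constructor
    · intro hn
      obtain ⟨v, hv⟩ := hbij.2 ⟨n, hP n hn⟩
      have h1 : val (List.ofFn v) = n := congrArg Fin.val hv
      exact ⟨v, by rw [h1]; exact hn, h1⟩
    · rintro ⟨v, hv, rfl⟩
      exact hv
  rw [hset, Set.ncard_coe_finset, Finset.card_image_of_injective _ hinj']

end Pool.Agent.H330ST.JV1
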