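import Pool.Agent.H330ST.Spec
set_option autoImplicit false
noncomputable section
namespace Pool.Agent.H330ST.JV2
open Pool.Agent.H685R2.Poly
open scoped ENNReal

theorem v2_len (c k : ℕ) : 2 ^ k ≤ c → (allMasks c k).length = 2 ^ k := by
  induction k with
  | zero => intro _; simp [allMasks]
  | succ k ih =>
    intro h
    have h1 : 2 ^ k ≤ c := by
      have : 2 ^ k ≤ 2 ^ (k + 1) := Nat.pow_le_pow_right (by norm_num) (by omega)
      omega
    have h2 := ih h1
    simp only [allMasks, List.length_take, List.length_append, List.length_map, h2]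
    rw [pow_succ] at h ⊢
    omega

theorem v2_eq (c k : ℕ) (h : 2 ^ (k + 1) ≤ c) : allMasks c (k + 1) =
    (allMasks c k).map (fun x => false :: x) ++ (allMasks c k).map (fun x => true :: x) := by
  have h1 : 2 ^ k ≤ c := by
    have : 2 ^ k ≤ 2 ^ (k + 1) := Nat.pow_le_pow_right (by norm_num) (by omega)
    omega
  rw [allMasks]
  apply List.take_of_length_le
  simp only [List.length_append, List.length_map, v2_len c k h1]
  rw [pow_succ] at h
  omega

/-- TARGET -/
theorem vMasks : VMasks := by
  intro c k
  induction k with
  | zero =>
    intro _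
    refine ⟨by simp [allMasks], ?_⟩
    intro x
    simp [allMasks]
  | succ k ih =>
    intro h
    have h1 : 2 ^ k ≤ c := by
      have : 2 ^ k ≤ 2 ^ (k + 1) := Nat.pow_le_pow_right (by norm_num) (by omega)
      omega
    obtain ⟨hn, hm⟩ := ih h1
    rw [v2_eq c k h]
    refine ⟨?_, ?_⟩
    · rw [List.nodup_append]
      refine ⟨?_, ?_, ?_⟩
      · exact hn.map (fun a b hab => by simpa using hab)
      · exact hn.map (fun a b hab => by simpa using hab)
      · intro a ha b hb hab
        rw [List.mem_map] at ha hb
        obtain ⟨a', _, rfl⟩ := ha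
        obtain ⟨b', _, rfl⟩ := hb
        simp at hab
    · intro x
      rw [List.mem_append, List.mem_map, List.mem_map]
      constructor
      · rintro (⟨a, ha, rfl⟩ | ⟨a, ha, rfl⟩)
        · rw [List.length_cons, (hm a).mp ha]
        · rw [List.length_cons, (hm a).mp ha]
      · intro hx
        match x, hx with
        | b :: a, hx =>
          rw [List.length_cons] at hx
          have ha : a ∈ allMasks c k := (hm a).mpr (by omega)
          cases b
          · left
            exact ⟨a, ha, rfl⟩
          · right
            exact ⟨a, ha, rfl⟩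

open Classical in
theorem v2_cntW (M : ℕ) (P : List Bool → Prop) :
    cntW M P = ∑ v : Fin M → Bool, if P (List.ofFn v) then 1 else 0 := by
  rw [cntW, Finset.card_filter]

/-- TARGET -/
theorem vSplit : VSplit := by
  classical
  intro A B P
  rw [v2_cntW]
  simp_rw [v2_cntW]
  rw [← Fintype.sum_prod_type' (f := fun (u : Fin A → Bool) (v : Fin B → Bool) =>
    if P (List.ofFn u ++ List.ofFn v) then 1 else 0)]
  symm
  apply Fintype.sum_equiv (Fin.appendEquiv A B)
  rintro ⟨u, v⟩
  have e : List.ofFn ((Fin.appendEquiv A B) (u, v)) = List.ofFn u ++ List.ofFn v :=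
    List.ofFn_fin_append u v
  by_cases hP : P (List.ofFn u ++ List.ofFn v)
  · rw [if_pos hP, if_pos (by rw [e]; exact hP)]
  · rw [if_neg hP, if_neg (by rw [e]; exact hP)]

theorem v2_iter (ind : List Bool → Bool) (a : ℕ) (t : ℕ) : ∀ (x w v : List Bool),
    w.length = 2 * a * t → (runStep ind a)^[t] (x, w ++ v) = (run ind a t x w, v) := by
  induction t with
  | zero =>
    intro x w v hw
    have : w = [] := by
      apply List.eq_nil_of_length_eq_zero
      simpa using hw
    subst this
    simp [run]
  | succ t ih =>
    intro x w v hw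
    have hle : 2 * a ≤ w.length := by
      rw [hw]
      nlinarith [Nat.zero_le (a * t)]
    have h1 : runStep ind a (x, w ++ v) = (stp ind a x (w.take (2 * a)), w.drop (2 * a) ++ v) := by
      simp only [runStep]
      rw [List.take_append_of_le_length hle, List.drop_append_of_le_length hle]
    have h2 : runStep ind a (x, w) = (stp ind a x (w.take (2 * a)), w.drop (2 * a)) := rfl
    have hlen : (w.drop (2 * a)).length = 2 * a * t := by
      rw [List.length_drop, hw]
      have : 2 * a * (t + 1) = 2 * a * t + 2 * a := by ring
      omega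
    rw [Function.iterate_succ_apply, h1, ih _ _ _ hlen]
    rw [run, run, Function.iterate_succ_apply, h2]

theorem v2_first (ind : List Bool → Bool) (a t : ℕ) (x u w : List Bool) (hu : u.length = 2 * a) :
    run ind a (t + 1) x (u ++ w) = run ind a t (stp ind a x u) w := by
  rw [run, run, Function.iterate_succ_apply]
  congr 2
  simp only [runStep]
  rw [← hu, List.take_left, List.drop_left]

theorem v2_last (ind : List Bool → Bool) (a t : ℕ) (x w v : List Bool)
    (hw : w.length = 2 * a * t) (hv : v.length = 2 * a) :
    run ind a (t + 1) x (w ++ v) = stp ind a (run ind a t x w) v := by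
  rw [run, Function.iterate_succ_apply', v2_iter ind a t x w v hw]
  simp only [runStep]
  rw [← hv, List.take_length]

/-- TARGET -/
theorem vRec (h : VSplit) : VRec := by
  classical
  intro ind a t x y
  constructor
  · have e : 2 * a * (t + 1) = 2 * a + 2 * a * t := by ring
    rw [e, h (2 * a) (2 * a * t)]
    apply Finset.sum_congr rfl
    intro u _
    congr 1
    ext w
    rw [v2_first ind a t x (List.ofFn u) w (by simp)]
  · have e : 2 * a * (t + 1) = 2 * a * t + 2 * a := by ring
    rw [e, h (2 * a * t) (2 * a)]
    simp_rw [v2_cntW]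
    rw [Finset.sum_comm]
    apply Finset.sum_congr rfl
    intro v _
    apply Finset.sum_congr rfl
    intro u _
    rw [v2_last ind a t x (List.ofFn u) (List.ofFn v) (by simp) (by simp)]

end Pool.Agent.H330ST.JV2
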