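import Pool.Agent.H330ST.Spec
set_option autoImplicit false
noncomputable section
namespace Pool.Agent.H330ST.JV3
open Pool.Agent.H685R2.Poly
open scoped ENNReal

theorem v3_lookup (ms : List (List Bool)) (g : List Bool → List Bool) (x : List Bool)
    (hx : x ∈ ms) : lookup (ms.map (fun y => (y, g y))) x = g x := by
  induction ms with
  | nil => simp at hx
  | cons m ms ih =>
    by_cases hm : m = x
    · subst hm
      simp [lookup]
    · have hx' : x ∈ ms := by
        rcases List.mem_cons.1 hx with h | h
        · exact absurd h.symm hm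
        · exact h
      have := ih hx'
      unfold lookup at this ⊢
      rw [List.map_cons, List.filter_cons_of_neg (by simpa using hm)]
      exact this

theorem v3_stp_length (ind : List Bool → Bool) (a : ℕ) (x bs : List Bool) :
    (stp ind a x bs).length = x.length := by
  unfold stp
  split_ifs <;> simp [exch]

/-- entries of the table -/
def v3_g (ind : List Bool → Bool) (a L : ℕ) (bss : List (List Bool)) (x0 : List Bool) :
    ℕ → List Bool → List Bool
  | 0, x => if decide (x = x0) = true then oneB L else zeroB L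
  | t + 1, x => bss.foldl (fun s bs => bAdd L s (v3_g ind a L bss x0 t (stp ind a x bs))) (zeroB L)

theorem v3_dpTab (ind : List Bool → Bool) (a L : ℕ) (bss : List (List Bool)) (x0 : List Bool)
    (ms : List (List Bool)) (hms : ∀ x ∈ ms, ∀ bs, stp ind a x bs ∈ ms) (t : ℕ) :
    dpTab ind a L bss t x0 ms = ms.map (fun x => (x, v3_g ind a L bss x0 t x)) := by
  induction t with
  | zero => rfl
  | succ t ih =>
    unfold dpTab at ih ⊢
    rw [Function.iterate_succ_apply', ih, dpStep, List.map_map]
    apply List.map_congr_left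
    intro x hx
    simp only [Function.comp, v3_g]
    congr 1
    have : ∀ (l : List (List Bool)) (s : List Bool),
        l.foldl (fun s bs => bAdd L s (lookup (ms.map (fun x => (x, v3_g ind a L bss x0 t x)))
          (stp ind a x bs))) s =
        l.foldl (fun s bs => bAdd L s (v3_g ind a L bss x0 t (stp ind a x bs))) s := by
      intro l
      induction l with
      | nil => intro s; rfl
      | cons b l ihl =>
        intro s
        rw [List.foldl_cons, List.foldl_cons, v3_lookup _ _ _ (hms x hx b), ihl]
    exact this bss (zeroB L)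

theorem v3_fold (h1 : VArith) (L : ℕ) (h : List Bool → List Bool) (l : List (List Bool))
    (s : List Bool) (hs : s.length = L)
    (hb : val s + (l.map (fun b => val (h b))).sum < 2 ^ L) :
    (l.foldl (fun s bs => bAdd L s (h bs)) s).length = L ∧
      val (l.foldl (fun s bs => bAdd L s (h bs)) s) =
        val s + (l.map (fun b => val (h b))).sum := by
  induction l generalizing s with
  | nil => simp [hs]
  | cons b l ih =>
    rw [List.foldl_cons]
    rw [List.map_cons, List.sum_cons] at hb ⊢
    obtain ⟨⟨hl, hv⟩, -⟩ := h1 L s (h b)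
    have hlt : val s + val (h b) < 2 ^ L := by omega
    rw [Nat.mod_eq_of_lt hlt] at hv
    obtain ⟨e1, e2⟩ := ih (bAdd L s (h b)) hl (by rw [hv]; omega)
    refine ⟨e1, ?_⟩
    rw [e2, hv]; omega

theorem v3_cntW_le (M : ℕ) (P : List Bool → Prop) : cntW M P ≤ 2 ^ M := by
  classical
  unfold cntW
  refine le_trans (Finset.card_le_univ _) ?_
  simp

theorem v3_sum (h2 : VMasks) (c k : ℕ) (hc : 2 ^ k ≤ c) (f : List Bool → ℕ) :
    ((allMasks c k).map f).sum = ∑ u : Fin k → Bool, f (List.ofFn u) := by
  classical
  obtain ⟨hn, hm⟩ := h2 c k hc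
  rw [← List.sum_toFinset f hn]
  symm
  apply Finset.sum_bij (fun u _ => List.ofFn u)
  · intro u _
    rw [List.mem_toFinset, hm]
    simp
  · intro u _ v _ h
    exact List.ofFn_injective h
  · intro x hx
    rw [List.mem_toFinset, hm] at hx
    subst hx
    exact ⟨fun i => x.get i, Finset.mem_univ _, List.ofFn_get x⟩
  · intro u _
    rfl

theorem v3_val (h1 : VArith) (h2 : VMasks) (h4 : VRec) (ind : List Bool → Bool) (a L c : ℕ)
    (x0 : List Bool) (hc : 2 ^ (2 * a) ≤ c) (t : ℕ) (ht : 2 * a * t < L) (x : List Bool) :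
    (v3_g ind a L (allMasks c (2 * a)) x0 t x).length = L ∧
    val (v3_g ind a L (allMasks c (2 * a)) x0 t x) =
      cntW (2 * a * t) (fun w => run ind a t x w = x0) := by
  classical
  induction t generalizing x with
  | zero =>
    have hL : 1 ≤ L := by omega
    obtain ⟨-, -, -, -, -, ⟨z1, z2⟩, ho⟩ := h1 L [] []
    obtain ⟨o1, o2⟩ := ho hL
    unfold v3_g cntW
    by_cases hx : x = x0
    · simp [hx, o1, o2, run]
    · simp [hx, z1, z2, run]
  | succ t ih =>
    have ht' : 2 * a * t < L := by
      refine lt_of_le_of_lt ?_ ht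
      exact Nat.mul_le_mul_left _ (Nat.le_succ t)
    have hrec := (h4 ind a t x x0).1
    obtain ⟨-, -, -, -, -, ⟨z1, z2⟩, -⟩ := h1 L [] []
    have hsum : ((allMasks c (2 * a)).map (fun b => val (v3_g ind a L (allMasks c (2 * a)) x0 t
        (stp ind a x b)))).sum =
        cntW (2 * a * (t + 1)) (fun w => run ind a (t + 1) x w = x0) := by
      rw [hrec, v3_sum h2 c (2 * a) hc]
      apply Finset.sum_congr rfl
      intro u _
      exact (ih ht' _).2
    have hlt : 2 ^ (2 * a * (t + 1)) < 2 ^ L := Nat.pow_lt_pow_right (by norm_num) ht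
    have hle := v3_cntW_le (2 * a * (t + 1)) (fun w => run ind a (t + 1) x w = x0)
    have := v3_fold h1 L (fun b => v3_g ind a L (allMasks c (2 * a)) x0 t (stp ind a x b))
      (allMasks c (2 * a)) (zeroB L) z2 (by rw [z1, hsum]; omega)
    rw [z1, hsum, Nat.zero_add] at this
    exact this

/-- TARGET -/
theorem vDp (h1 : VArith) (h2 : VMasks) (h3 : VSplit) (h4 : VRec) : VDp := by
  intro ind a t L c x0 ht hc hk x hx
  obtain ⟨hn, hm⟩ := h2 c x0.length hk
  rw [v3_dpTab ind a L (allMasks c (2 * a)) x0 (allMasks c x0.length) (fun y hy bs => by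
    rw [hm] at hy ⊢
    rw [v3_stp_length, hy]) t]
  rw [v3_lookup _ _ _ ((hm x).2 hx)]
  exact v3_val h1 h2 h4 ind a L c x0 hc t ht x

end Pool.Agent.H330ST.JV3
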