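import Pool.Agent.H330ST.Spec
set_option autoImplicit false
noncomputable section
namespace Pool.Agent.H330ST.JV4
open Pool.Agent.H685R2.Poly
open scoped ENNReal
/-- selection on numbers -/
def v4_selN (w : List Bool → ℕ) : List (List Bool) → ℕ → List (List Bool)
  | [], _ => []
  | x :: bs, u => if u < w x then [x] else v4_selN w bs (u - w x)

theorem v4_foldConst (m L : ℕ) (tb : List (List Bool × List Bool)) (cm : List Bool)
    (y : List Bool) (bs : List (List Bool)) (U : List Bool) :
    bs.foldl (selStep m L tb cm) (U, [y]) = (U, [y]) := by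
  induction bs with
  | nil => rfl
  | cons x bs ih =>
    rw [List.foldl_cons]
    have : selStep m L tb cm (U, [y]) x = (U, [y]) := by
      simp [selStep]
    rw [this, ih]

theorem v4_fold (h1 : VArith) (m L : ℕ) (tb : List (List Bool × List Bool)) (cm : List Bool)
    (w : List Bool → ℕ) (bs : List (List Bool))
    (hw : ∀ x ∈ bs, val (wtB m L tb cm x) = w x ∧ w x < 2 ^ L) (U : List Bool) :
    (bs.foldl (selStep m L tb cm) (U, [])).2 = v4_selN w bs (val U % 2 ^ L) := by
  induction bs generalizing U with
  | nil => rfl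
  | cons x bs ih =>
    obtain ⟨hx1, hx2⟩ := hw x (by simp)
    have hmod : w x % 2 ^ L = w x := Nat.mod_eq_of_lt hx2
    have hlt := (h1 L U (wtB m L tb cm x)).2.2.1
    have hsub := (h1 L U (wtB m L tb cm x)).2.1.2
    rw [hx1, hmod] at hlt hsub
    rw [List.foldl_cons]
    by_cases hu : val U % 2 ^ L < w x
    · have hs : selStep m L tb cm (U, []) x = (U, [x]) := by
        simp [selStep, hlt, hu]
      rw [hs, v4_foldConst]
      simp [v4_selN, hu]
    · have hs : selStep m L tb cm (U, []) x = (bSub L U (wtB m L tb cm x), []) := by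
        simp [selStep, hlt, hu]
      rw [hs, ih (fun y hy => hw y (by simp [hy]))]
      have hv := hsub (not_lt.mp hu)
      have hpos : 0 < 2 ^ L := Nat.pos_of_ne_zero (by positivity)
      have hlt2 : val U % 2 ^ L - w x < 2 ^ L :=
        lt_of_le_of_lt (Nat.sub_le _ _) (Nat.mod_lt _ hpos)
      rw [hv, Nat.mod_eq_of_lt hlt2]
      simp [v4_selN, hu]

theorem v4_selN_cases (w : List Bool → ℕ) (bs : List (List Bool)) (u : ℕ) :
    v4_selN w bs u = [] ∨ ∃ x ∈ bs, v4_selN w bs u = [x] := by
  induction bs generalizing u with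
  | nil => left; rfl
  | cons y bs ih =>
    by_cases hu : u < w y
    · right
      exact ⟨y, by simp, by simp [v4_selN, hu]⟩
    · rcases ih (u - w y) with h | ⟨x, hx, h⟩
      · left; simp [v4_selN, hu, h]
      · right; exact ⟨x, by simp [hx], by simp [v4_selN, hu, h]⟩

theorem v4_selN_iff (w : List Bool → ℕ) (bs : List (List Bool)) (hnd : bs.Nodup)
    (x : List Bool) (hx : x ∈ bs) :
    ∃ S, S + w x ≤ (bs.map w).sum ∧ ∀ u, v4_selN w bs u = [x] ↔ S ≤ u ∧ u < S + w x := by
  induction bs with
  | nil => simp at hx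
  | cons y bs ih =>
    rw [List.nodup_cons] at hnd
    obtain ⟨hy, hnd⟩ := hnd
    by_cases hxy : x = y
    · subst hxy
      refine ⟨0, by simp, fun u => ?_⟩
      by_cases hu : u < w x
      · simp [v4_selN, hu]
      · simp only [v4_selN, hu, if_false, zero_add, and_false, iff_false]
        intro h
        rcases v4_selN_cases w bs (u - w x) with h' | ⟨z, hz, h'⟩
        · rw [h'] at h; simp at h
        · rw [h'] at h
          have : z = x := by simpa using h
          exact hy (this ▸ hz)
    · have hx' : x ∈ bs := by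
        rcases List.mem_cons.mp hx with h | h
        · exact absurd h hxy
        · exact h
      obtain ⟨S, hS, hiff⟩ := ih hnd hx'
      refine ⟨w y + S, ?_, fun u => ?_⟩
      · rw [List.map_cons, List.sum_cons]; omega
      · by_cases hu : u < w y
        · simp only [v4_selN, hu, if_true]
          constructor
          · intro h
            have : y = x := by simpa using h
            exact absurd this.symm hxy
          · intro h; omega
        · simp only [v4_selN, hu, if_false]
          rw [hiff]
          constructor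
          · intro h; omega
          · intro h; omega

/-- TARGET -/
theorem vSel (h1 : VArith) (h2 : VBij) : VSel := by
  intro m L B tb cm bs hnd hBL hcm hlk hsum
  have hBL2 : 2 ^ B < 2 ^ L := Nat.pow_lt_pow_right (by norm_num) hBL
  have hcmv : val cm < 2 ^ L := by
    have := (h1 L cm cm).2.2.2.1
    rwa [hcm] at this
  have hle : ∀ x ∈ bs, 2 ^ (m - 1) * (val cm - val (lookup tb x)) ≤ 2 ^ B := by
    intro x hx
    refine le_trans ?_ hsum
    exact List.single_le_sum (fun _ _ => Nat.zero_le _) _ (List.mem_map.mpr ⟨x, hx, rfl⟩)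
  have hw : ∀ x ∈ bs, val (wtB m L tb cm x) = 2 ^ (m - 1) * (val cm - val (lookup tb x)) ∧
      2 ^ (m - 1) * (val cm - val (lookup tb x)) < 2 ^ L := by
    intro x hx
    obtain ⟨hl1, hl2⟩ := hlk x hx
    refine ⟨?_, lt_of_le_of_lt (hle x hx) hBL2⟩
    have h3 := (h1 L (bSub L cm (lookup tb x)) cm).2.2.2.2.1 (m - 1)
    have h4 := (h1 L cm (lookup tb x)).2.1.2
    rw [Nat.mod_eq_of_lt hcmv, Nat.mod_eq_of_lt (lt_of_le_of_lt hl2 hcmv)] at h4
    unfold wtB
    rw [h3, h4 hl2]
  have hsel : ∀ U, sel m L tb cm bs U =
      v4_selN (fun x => 2 ^ (m - 1) * (val cm - val (lookup tb x))) bs (val U % 2 ^ L) := by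
    intro U
    exact v4_fold h1 m L tb cm _ bs hw U
  refine ⟨?_, ?_⟩
  · intro x hx
    obtain ⟨S, hS, hiff⟩ := v4_selN_iff
      (fun x => 2 ^ (m - 1) * (val cm - val (lookup tb x))) bs hnd x hx
    have hcong : cntW B (fun U => sel m L tb cm bs U = [x]) =
        cntW B (fun U => S ≤ val U ∧
          val U < S + 2 ^ (m - 1) * (val cm - val (lookup tb x))) := by
      unfold cntW
      congr 1
      ext v
      simp only [Finset.mem_filter, Finset.mem_univ, true_and]
      rw [hsel, hiff]
      have hv : val (List.ofFn v) < 2 ^ B := by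
        have := (h1 L (List.ofFn v) cm).2.2.2.1
        rwa [List.length_ofFn] at this
      rw [Nat.mod_eq_of_lt (lt_trans hv hBL2)]
    rw [hcong, h2 B (fun n => S ≤ n ∧
      n < S + 2 ^ (m - 1) * (val cm - val (lookup tb x))) ?_]
    · have : {n : ℕ | S ≤ n ∧ n < S + 2 ^ (m - 1) * (val cm - val (lookup tb x))} =
          ((Finset.Ico S (S + 2 ^ (m - 1) * (val cm - val (lookup tb x))) : Finset ℕ) : Set ℕ) := by
        ext n; simp
      rw [this, Set.ncard_coe_finset, Nat.card_Ico]
      omega
    · intro n hn
      exact lt_of_lt_of_le hn.2 (le_trans hS hsum)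
  · intro U
    rw [hsel]
    exact v4_selN_cases _ _ _

theorem v4_max (h1 : VArith) (L : ℕ) (tb : List (List Bool × List Bool))
    (bs : List (List Bool)) (hl : ∀ x ∈ bs, (lookup tb x).length = L) (s : List Bool)
    (hs : s.length = L) :
    (bs.foldl (fun s x => if bLt L s (lookup tb x) = true then lookup tb x else s) s).length = L ∧
    val s ≤ val (bs.foldl (fun s x => if bLt L s (lookup tb x) = true then lookup tb x else s) s) ∧
    (∀ x ∈ bs, val (lookup tb x) ≤
      val (bs.foldl (fun s x => if bLt L s (lookup tb x) = true then lookup tb x else s) s)) ∧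
    (val (bs.foldl (fun s x => if bLt L s (lookup tb x) = true then lookup tb x else s) s) = val s ∨
      ∃ x ∈ bs,
        val (bs.foldl (fun s x => if bLt L s (lookup tb x) = true then lookup tb x else s) s) =
          val (lookup tb x)) := by
  induction bs generalizing s with
  | nil => simp [hs]
  | cons y bs ih =>
    have hy : (lookup tb y).length = L := hl y (by simp)
    have hsv : val s < 2 ^ L := by
      have := (h1 L s s).2.2.2.1
      rwa [hs] at this
    have hyv : val (lookup tb y) < 2 ^ L := by
      have := (h1 L (lookup tb y) s).2.2.2.1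
      rwa [hy] at this
    have hlt := (h1 L s (lookup tb y)).2.2.1
    rw [Nat.mod_eq_of_lt hsv, Nat.mod_eq_of_lt hyv] at hlt
    rw [List.foldl_cons]
    have hl' : ∀ x ∈ bs, (lookup tb x).length = L := fun x hx => hl x (by simp [hx])
    by_cases h : val s < val (lookup tb y)
    · have hif : (if bLt L s (lookup tb y) = true then lookup tb y else s) = lookup tb y := by
        rw [hlt]; simp [h]
      rw [hif]
      obtain ⟨a1, a2, a3, a4⟩ := ih hl' (lookup tb y) hy
      refine ⟨a1, by omega, ?_, ?_⟩
      · intro x hx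
        rcases List.mem_cons.mp hx with hx | hx
        · rw [hx]; exact a2
        · exact a3 x hx
      · right
        rcases a4 with a4 | ⟨x, hx, a4⟩
        · exact ⟨y, by simp, a4⟩
        · exact ⟨x, by simp [hx], a4⟩
    · have hif : (if bLt L s (lookup tb y) = true then lookup tb y else s) = s := by
        rw [hlt]; simp [h]
      rw [hif]
      obtain ⟨a1, a2, a3, a4⟩ := ih hl' s hs
      refine ⟨a1, a2, ?_, ?_⟩
      · intro x hx
        rcases List.mem_cons.mp hx with hx | hx
        · rw [hx]; omega
        · exact a3 x hx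
      · rcases a4 with a4 | ⟨x, hx, a4⟩
        · left; exact a4
        · right; exact ⟨x, by simp [hx], a4⟩

/-- TARGET -/
theorem vMax (h1 : VArith) : VMax := by
  intro L tb bs hl
  have hz := (h1 L [] []).2.2.2.2.2.1
  obtain ⟨a1, a2, a3, a4⟩ := v4_max h1 L tb bs hl (zeroB L) hz.2
  refine ⟨a1, a3, ?_⟩
  intro hne
  rcases a4 with a4 | ⟨x, hx, a4⟩
  · obtain ⟨x, hx⟩ := List.exists_mem_of_ne_nil bs hne
    refine ⟨x, hx, ?_⟩
    have h5 := a3 x hx
    have h6 : val (maxB L tb bs) = 0 := by
      unfold maxB
      rw [a4, hz.1]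
    have h7 : val (lookup tb x) ≤ val (maxB L tb bs) := h5
    omega
  · exact ⟨x, hx, a4⟩

end Pool.Agent.H330ST.JV4
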