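import Pool.Agent.H330ST.Spec
set_option autoImplicit false
noncomputable section
namespace Pool.Agent.H330ST.JV6
open Pool.Agent.H685R2.Poly
open scoped ENNReal

/-- value, most significant bit first -/
def v6_val (bs : List Bool) : ℕ := bs.foldl (fun v b => 2 * v + (if b = true then 1 else 0)) 0

theorem v6_val_append (bs : List Bool) (b : Bool) :
    v6_val (bs ++ [b]) = 2 * v6_val bs + (if b = true then 1 else 0) := by
  simp [v6_val, List.foldl_append]

theorem v6_cap_append (k : ℕ) (bs : List Bool) (b : Bool) :
    capVal k (bs ++ [b]) = min (2 * capVal k bs + (if b = true then 1 else 0)) k := by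
  simp [capVal, List.foldl_append]

theorem v6_cap (k : ℕ) (bs : List Bool) : capVal k bs = min (v6_val bs) k := by
  induction bs using List.reverseRecOn with
  | nil => simp [capVal, v6_val]
  | append_singleton bs b ih =>
    rw [v6_cap_append, v6_val_append, ih]
    omega

theorem v6_val_lt (bs : List Bool) : v6_val bs < 2 ^ bs.length := by
  induction bs using List.reverseRecOn with
  | nil => simp [v6_val]
  | append_singleton bs b ih =>
    rw [v6_val_append, List.length_append, List.length_singleton, pow_succ]
    split_ifs <;> omega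

theorem v6_val_surj (a : ℕ) : ∀ n, n < 2 ^ a → ∃ bs : List Bool, bs.length = a ∧ v6_val bs = n := by
  induction a with
  | zero => intro n hn; exact ⟨[], rfl, by simp at hn; simp [v6_val, hn]⟩
  | succ a ih =>
    intro n hn
    rw [pow_succ] at hn
    obtain ⟨bs, h1, h2⟩ := ih (n / 2) (by omega)
    refine ⟨bs ++ [decide (n % 2 = 1)], by simp [h1], ?_⟩
    rw [v6_val_append, h2]
    by_cases h : n % 2 = 1
    · simp only [h, decide_true, if_true]; omega
    · simp only [h, decide_false, Bool.false_eq_true, if_false]; omega

theorem v6_val_inj (a : ℕ) : ∀ b c : List Bool, b.length = a → c.length = a →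
    v6_val b = v6_val c → b = c := by
  induction a with
  | zero =>
    intro b c hb hc _
    rw [List.length_eq_zero_iff] at hb hc
    rw [hb, hc]
  | succ a ih =>
    intro b c hb hc h
    rcases List.eq_nil_or_concat b with rfl | ⟨b', x, rfl⟩
    · simp at hb
    rcases List.eq_nil_or_concat c with rfl | ⟨c', y, rfl⟩
    · simp at hc
    simp only [List.concat_eq_append] at *
    simp only [List.length_append, List.length_singleton, Nat.add_right_cancel_iff] at hb hc
    rw [v6_val_append, v6_val_append] at h
    have h1 : v6_val b' = v6_val c' := by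
      revert h; split_ifs <;> omega
    have h2 : x = y := by
      revert h; rw [h1]
      cases x <;> cases y <;> simp
    rw [ih b' c' hb hc h1, h2]

theorem v6_getD_set (x : List Bool) (i n : ℕ) (b : Bool) :
    (x.set i b).getD n false = if n = i ∧ i < x.length then b else x.getD n false := by
  simp only [List.getD_eq_getElem?_getD, List.getElem?_set]
  by_cases h : i = n
  · subst h
    by_cases h2 : i < x.length
    · simp [h2]
    · simp [h2]
  · have h' : ¬ n = i := fun e => h e.symm
    simp [h, h']

theorem v6_mem_supp (x : List Bool) (n : ℕ) : n ∈ supp x ↔ x.getD n false = true := by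
  unfold supp
  rw [Finset.mem_filter, Finset.mem_range]
  constructor
  · exact fun h => h.2
  · intro h
    refine ⟨?_, h⟩
    by_contra h2
    rw [List.getD_eq_getElem?_getD, List.getElem?_eq_none (by omega)] at h
    simp at h

theorem v6_supp_lt (x : List Bool) (n : ℕ) (h : n ∈ supp x) : n < x.length := by
  unfold supp at h
  rw [Finset.mem_filter, Finset.mem_range] at h
  exact h.1

theorem v6_supp_inj (x y : List Bool) (h : x.length = y.length) (hs : supp x = supp y) :
    x = y := by
  apply List.ext_getElem h
  intro n h1 h2
  have h3 := v6_mem_supp x n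
  have h4 := v6_mem_supp y n
  rw [hs] at h3
  have h5 : (x.getD n false = true) ↔ (y.getD n false = true) := h3.symm.trans h4
  rw [List.getD_eq_getElem _ _ h1, List.getD_eq_getElem _ _ h2] at h5
  exact Bool.eq_iff_iff.mpr h5

theorem v6_supp_exch (x : List Bool) (i j : ℕ) (hj : j < x.length) (hi : i < x.length)
    (hij : i ≠ j) : supp (exch x i j) = insert j ((supp x).erase i) := by
  ext n
  rw [v6_mem_supp, exch, v6_getD_set, v6_getD_set, List.length_set, Finset.mem_insert,
    Finset.mem_erase, v6_mem_supp]
  by_cases h1 : n = j
  · simp [h1, hj]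
  · by_cases h2 : n = i
    · simp [h2, hi, hij]
    · simp [h1, h2]

theorem v6_supp_append (x : List Bool) (b : Bool) :
    supp (x ++ [b]) = if b = true then insert x.length (supp x) else supp x := by
  ext n
  have h : (x ++ [b]).getD n false = if n = x.length then b else x.getD n false := by
    simp only [List.getD_eq_getElem?_getD]
    rcases lt_trichotomy n x.length with h | h | h
    · rw [List.getElem?_append_left h, if_neg (by omega)]
    · subst h; simp
    · rw [List.getElem?_eq_none (by simp; omega), if_neg (by omega),
        List.getElem?_eq_none (by omega)]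
  rw [v6_mem_supp, h]
  by_cases hb : b = true
  · rw [if_pos hb, Finset.mem_insert, v6_mem_supp]
    by_cases hn : n = x.length
    · simp [hn, hb]
    · simp [hn]
  · rw [if_neg hb, v6_mem_supp]
    by_cases hn : n = x.length
    · rw [if_pos hn]
      have : x.getD n false = false := by
        rw [List.getD_eq_getElem?_getD, List.getElem?_eq_none (by omega)]; rfl
      rw [this]
      simp [hb]
    · rw [if_neg hn]

theorem v6_cntT (x : List Bool) : cntT x = (supp x).card := by
  induction x using List.reverseRecOn with
  | nil => simp [cntT, supp]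
  | append_singleton x b ih =>
    rw [v6_supp_append]
    have h : cntT (x ++ [b]) = cntT x + (if b = true then 1 else 0) := by
      unfold cntT
      rw [List.filter_append, List.length_append]
      cases b <;> simp
    rw [h, ih]
    by_cases hb : b = true
    · rw [if_pos hb, if_pos hb, Finset.card_insert_of_notMem]
      intro h2
      exact absurd (v6_supp_lt _ _ h2) (by omega)
    · rw [if_neg hb, if_neg hb]; rfl

/-- a step moves along a pair of positions or stays -/
theorem v6_stp (ind : List Bool → Bool) (a : ℕ) (x b : List Bool) :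
    (∃ i j, i = capVal x.length (b.take a) ∧ j = capVal x.length (b.drop a) ∧ i ∈ supp x ∧
      j < x.length ∧ j ∉ supp x ∧ ind (exch x i j) = true ∧ stp ind a x b = exch x i j) ∨
    ((¬ (capVal x.length (b.take a) ∈ supp x ∧ capVal x.length (b.drop a) < x.length ∧
      capVal x.length (b.drop a) ∉ supp x ∧
      ind (exch x (capVal x.length (b.take a)) (capVal x.length (b.drop a))) = true)) ∧
      stp ind a x b = x) := by
  set i := capVal x.length (b.take a) with hi
  set j := capVal x.length (b.drop a) with hj
  have key : (x.getD i false && (!(x.getD j true) && ind (exch x i j))) = true ↔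
      (i ∈ supp x ∧ j < x.length ∧ j ∉ supp x ∧ ind (exch x i j) = true) := by
    rw [Bool.and_eq_true, Bool.and_eq_true, v6_mem_supp, v6_mem_supp]
    have h : ((!(x.getD j true)) = true) ↔ (j < x.length ∧ ¬ x.getD j false = true) := by
      by_cases hl : j < x.length
      · rw [List.getD_eq_getElem _ _ hl, List.getD_eq_getElem _ _ hl]
        simp [hl]
      · simp only [List.getD_eq_getElem?_getD, List.getElem?_eq_none (not_lt.mp hl)]
        simp [hl]
    rw [h]
    tauto
  by_cases hc : (x.getD i false && (!(x.getD j true) && ind (exch x i j))) = true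
  · left
    have h2 := key.mp hc
    refine ⟨i, j, rfl, rfl, h2.1, h2.2.1, h2.2.2.1, h2.2.2.2, ?_⟩
    unfold stp
    rw [← hi, ← hj, if_pos hc]
  · right
    refine ⟨fun h => hc (key.mpr h), ?_⟩
    unfold stp
    rw [← hi, ← hj, if_neg hc]

theorem v6_cnt_one (M : ℕ) (P : List Bool → Prop) (b0 : List Bool) (h0 : b0.length = M)
    (h : ∀ b : List Bool, b.length = M → (P b ↔ b = b0)) : cntW M P = 1 := by
  classical
  subst h0
  unfold cntW
  rw [Finset.card_eq_one]
  refine ⟨fun i => b0.get i, ?_⟩
  ext v
  rw [Finset.mem_filter, Finset.mem_singleton]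
  rw [h _ (List.length_ofFn)]
  constructor
  · rintro ⟨-, h2⟩
    apply List.ofFn_injective
    rw [h2, List.ofFn_get]
  · intro h2
    refine ⟨Finset.mem_univ _, ?_⟩
    rw [h2, List.ofFn_get]

theorem v6_cnt_zero (M : ℕ) (P : List Bool → Prop)
    (h : ∀ b : List Bool, b.length = M → ¬ P b) : cntW M P = 0 := by
  classical
  unfold cntW
  rw [Finset.card_eq_zero, Finset.filter_eq_empty_iff]
  intro v _
  exact h _ List.length_ofFn

theorem v6_cnt_compl (M : ℕ) (P : List Bool → Prop) :
    cntW M P + cntW M (fun b => ¬ P b) = 2 ^ M := by
  classical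
  have h := Finset.card_filter_add_card_filter_not (s := (Finset.univ : Finset (Fin M → Bool)))
    (fun v => P (List.ofFn v))
  have h2 : (Finset.univ : Finset (Fin M → Bool)).card = 2 ^ M := by
    simp [Finset.card_univ]
  rw [h2] at h
  rw [← h]
  unfold cntW
  congr 2
  ext v
  simp

theorem v6_cnt_le (M : ℕ) (P : List Bool → Prop) (S : Finset (ℕ × ℕ)) (f : List Bool → ℕ × ℕ)
    (h1 : ∀ b : List Bool, b.length = M → P b → f b ∈ S)
    (h2 : ∀ b c : List Bool, b.length = M → c.length = M → P b → P c → f b = f c → b = c) :
    cntW M P ≤ S.card := by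
  classical
  unfold cntW
  apply Finset.card_le_card_of_injOn (fun v => f (List.ofFn v))
  · intro v hv
    have hv' := (Finset.mem_filter.mp (Finset.mem_coe.mp hv)).2
    exact h1 _ List.length_ofFn hv'
  · intro v hv w hw hvw
    have hv' := (Finset.mem_filter.mp (Finset.mem_coe.mp hv)).2
    have hw' := (Finset.mem_filter.mp (Finset.mem_coe.mp hw)).2
    exact List.ofFn_injective (h2 _ _ List.length_ofFn List.length_ofFn hv' hw' hvw)

/-- a string is determined by the two capped values below `k` -/
theorem v6_uniq (k a : ℕ) (b c : List Bool) (hb : b.length = 2 * a) (hc : c.length = 2 * a)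
    (h1 : capVal k (b.take a) < k) (h2 : capVal k (b.drop a) < k)
    (h3 : capVal k (b.take a) = capVal k (c.take a))
    (h4 : capVal k (b.drop a) = capVal k (c.drop a)) : b = c := by
  rw [v6_cap] at h1 h2
  rw [v6_cap, v6_cap] at h3 h4
  have e1 : v6_val (b.take a) = v6_val (c.take a) := by omega
  have e2 : v6_val (b.drop a) = v6_val (c.drop a) := by omega
  have f1 := v6_val_inj a (b.take a) (c.take a) (by rw [List.length_take]; omega)
    (by rw [List.length_take]; omega) e1
  have f2 := v6_val_inj a (b.drop a) (c.drop a) (by rw [List.length_drop]; omega)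
    (by rw [List.length_drop]; omega) e2
  rw [← List.take_append_drop a b, f1, f2, List.take_append_drop]

theorem v6_exists (k a i j : ℕ) (hk : k ≤ 2 ^ a) (hi : i < k) (hj : j < k) :
    ∃ b : List Bool, b.length = 2 * a ∧ capVal k (b.take a) = i ∧ capVal k (b.drop a) = j := by
  obtain ⟨b1, l1, e1⟩ := v6_val_surj a i (by omega)
  obtain ⟨b2, l2, e2⟩ := v6_val_surj a j (by omega)
  refine ⟨b1 ++ b2, by rw [List.length_append]; omega, ?_, ?_⟩
  · rw [List.take_left' l1, v6_cap, e1]; omega
  · rw [List.drop_left' l1, v6_cap, e2]; omega

/-- TARGET -/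
theorem vStep : VStep := by
  intro ind k r a hk
  refine ⟨?_, ?_, ?_⟩
  · -- bases go to bases
    rintro x b ⟨hx, hind, hr⟩
    rcases v6_stp ind a x b with ⟨i, j, -, -, hi, hj, hj2, he, hs⟩ | ⟨-, hs⟩
    · have hi2 := v6_supp_lt x i hi
      have hij : i ≠ j := fun e => hj2 (e ▸ hi)
      rw [hs]
      refine ⟨by simp [exch, hx], he, ?_⟩
      rw [v6_cntT, v6_supp_exch x i j hj hi2 hij, Finset.card_insert_of_notMem,
        Finset.card_erase_of_mem hi]
      · rw [v6_cntT] at hr
        have : 0 < (supp x).card := Finset.card_pos.mpr ⟨i, hi⟩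
        omega
      · intro h
        exact hj2 (Finset.mem_of_mem_erase h)
    · rw [hs]; exact ⟨hx, hind, hr⟩
  · -- transition numbers
    rintro x y ⟨hx, hindx, hrx⟩ ⟨hy, hindy, hry⟩ hxy
    rw [v6_cntT] at hrx hry
    split_ifs with hcard
    · -- the two positions
      have hcx : (supp x \ supp y).card = 1 := by
        have h1 := Finset.card_sdiff_add_card_inter (supp x) (supp y)
        omega
      have hcy : (supp y \ supp x).card = 1 := by
        have h1 := Finset.card_sdiff_add_card_inter (supp y) (supp x)
        rw [Finset.inter_comm] at h1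
        omega
      obtain ⟨i0, hi0⟩ := Finset.card_eq_one.mp hcx
      obtain ⟨j0, hj0⟩ := Finset.card_eq_one.mp hcy
      have hi0' : i0 ∈ supp x \ supp y := by rw [hi0]; exact Finset.mem_singleton_self _
      have hj0' : j0 ∈ supp y \ supp x := by rw [hj0]; exact Finset.mem_singleton_self _
      rw [Finset.mem_sdiff] at hi0' hj0'
      have hi0l := v6_supp_lt x i0 hi0'.1
      have hj0l : j0 < x.length := by
        have := v6_supp_lt y j0 hj0'.1
        omega
      have hij0 : i0 ≠ j0 := fun e => hj0'.2 (e ▸ hi0'.1)
      have hyex : exch x i0 j0 = y := by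
        apply v6_supp_inj
        · simp [exch, hx, hy]
        · rw [v6_supp_exch x i0 j0 hj0l hi0l hij0]
          ext n
          rw [Finset.mem_insert, Finset.mem_erase]
          constructor
          · rintro (rfl | ⟨hn, hn2⟩)
            · exact hj0'.1
            · by_contra hn3
              have : n ∈ supp x \ supp y := Finset.mem_sdiff.mpr ⟨hn2, hn3⟩
              rw [hi0, Finset.mem_singleton] at this
              exact hn this
          · intro hn
            by_cases hn2 : n ∈ supp x
            · right
              exact ⟨fun e => hi0'.2 (e ▸ hn), hn2⟩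
            · left
              have : n ∈ supp y \ supp x := Finset.mem_sdiff.mpr ⟨hn, hn2⟩
              rw [hj0, Finset.mem_singleton] at this
              exact this
      obtain ⟨b0, hb0, hb1, hb2⟩ := v6_exists k a i0 j0 hk (hx ▸ hi0l) (hx ▸ hj0l)
      apply v6_cnt_one _ _ b0 hb0
      intro b hb
      constructor
      · intro hs
        rcases v6_stp ind a x b with ⟨i, j, hi, hj, hi1, hj1, hj2, he, hs2⟩ | ⟨-, hs2⟩
        · have hi2 := v6_supp_lt x i hi1
          have hij : i ≠ j := fun e => hj2 (e ▸ hi1)
          have hyy : supp y = insert j ((supp x).erase i) := by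
            rw [← hs, hs2, v6_supp_exch x i j hj1 hi2 hij]
          have hii : i = i0 := by
            have : i ∈ supp x \ supp y := by
              rw [Finset.mem_sdiff, hyy]
              refine ⟨hi1, ?_⟩
              simp [hij]
            rw [hi0, Finset.mem_singleton] at this
            exact this
          have hjj : j = j0 := by
            have : j ∈ supp y \ supp x := by
              rw [Finset.mem_sdiff, hyy]
              exact ⟨Finset.mem_insert_self _ _, hj2⟩
            rw [hj0, Finset.mem_singleton] at this
            exact this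
          rw [hx] at hi hj
          apply v6_uniq k a b b0 hb hb0
          · rw [← hi, ← hx]; exact hi2
          · rw [← hj, ← hx]; exact hj1
          · rw [← hi, hb1, hii]
          · rw [← hj, hb2, hjj]
        · exact absurd (hs2.symm.trans hs) hxy
      · intro hbb
        subst hbb
        rcases v6_stp ind a x b with ⟨i, j, hi, hj, hi1, hj1, hj2, he, hs2⟩ | ⟨hn, hs2⟩
        · rw [hx] at hi hj
          rw [hs2, hi, hj, hb1, hb2, hyex]
        · exfalso
          apply hn
          rw [hx, hb1, hb2, hyex]
          exact ⟨hi0'.1, hx ▸ hj0l, hj0'.2, hindy⟩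
    · apply v6_cnt_zero
      intro b hb hs
      apply hcard
      rcases v6_stp ind a x b with ⟨i, j, hi, hj, hi1, hj1, hj2, he, hs2⟩ | ⟨-, hs2⟩
      · have hi2 := v6_supp_lt x i hi1
        have hij : i ≠ j := fun e => hj2 (e ▸ hi1)
        have hyy : supp y = insert j ((supp x).erase i) := by
          rw [← hs, hs2, v6_supp_exch x i j hj1 hi2 hij]
        have hint : supp x ∩ supp y = (supp x).erase i := by
          rw [hyy]
          ext n
          rw [Finset.mem_inter, Finset.mem_insert, Finset.mem_erase]
          constructor
          · rintro ⟨h1, h2 | h2⟩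
            · exact absurd (h2 ▸ h1) hj2
            · exact h2
          · rintro ⟨h1, h2⟩
            exact ⟨h2, Or.inr ⟨h1, h2⟩⟩
        rw [hint, Finset.card_erase_of_mem hi1]
        have : 0 < (supp x).card := Finset.card_pos.mpr ⟨i, hi1⟩
        omega
      · exact absurd (hs2.symm.trans hs) hxy
  · -- the holding probability
    rintro x ⟨hx, hindx, hrx⟩
    rw [v6_cntT] at hrx
    have hc := v6_cnt_compl (2 * a) (fun b => stp ind a x b = x)
    have hle : cntW (2 * a) (fun b => ¬ stp ind a x b = x) ≤
        ((supp x) ×ˢ (Finset.range k \ supp x)).card := by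
      apply v6_cnt_le _ _ _ (fun b => (capVal k (b.take a), capVal k (b.drop a)))
      · intro b hb hP
        rcases v6_stp ind a x b with ⟨i, j, hi, hj, hi1, hj1, hj2, he, hs2⟩ | ⟨-, hs2⟩
        · rw [hx] at hi hj
          rw [Finset.mem_product, Finset.mem_sdiff, Finset.mem_range]
          simp only
          rw [← hi, ← hj]
          exact ⟨hi1, hx ▸ hj1, hj2⟩
        · exact absurd hs2 hP
      · intro b c hb hcl hPb hPc hbc
        rcases v6_stp ind a x b with ⟨i, j, hi, hj, hi1, hj1, hj2, he, hs2⟩ | ⟨-, hs2⟩
        · have hi2 := v6_supp_lt x i hi1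
          rw [hx] at hi hj
          rw [Prod.mk.injEq] at hbc
          apply v6_uniq k a b c hb hcl
          · rw [← hi, ← hx]; exact hi2
          · rw [← hj, ← hx]; exact hj1
          · exact hbc.1
          · exact hbc.2
        · exact absurd hs2 hPb
    have hsub : supp x ⊆ Finset.range k := by
      intro n hn
      rw [Finset.mem_range, ← hx]
      exact v6_supp_lt x n hn
    have hrk : r ≤ k := by
      have := Finset.card_le_card hsub
      rw [Finset.card_range] at this
      omega
    rw [Finset.card_product, Finset.card_sdiff_of_subset hsub, Finset.card_range, hrx] at hle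
    have hk2 : k * k ≤ 2 ^ (2 * a) := by
      have : 2 ^ (2 * a) = 2 ^ a * 2 ^ a := by rw [← pow_add]; ring_nf
      rw [this]
      exact Nat.mul_le_mul hk hk
    obtain ⟨s, rfl⟩ := Nat.exists_eq_add_of_le hrk
    rw [Nat.add_sub_cancel_left] at hle
    have h4 : 4 * (r * s) ≤ (r + s) * (r + s) := by
      rcases le_total r s with h | h
      · obtain ⟨d, rfl⟩ := Nat.exists_eq_add_of_le h
        nlinarith [Nat.zero_le (d * d)]
      · obtain ⟨d, rfl⟩ := Nat.exists_eq_add_of_le h
        nlinarith [Nat.zero_le (d * d)]
    omega
end Pool.Agent.H330ST.JV6
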