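import Pool.Agent.H330ST.Spec
set_option autoImplicit false
noncomputable section
namespace Pool.Agent.H330ST.JV8
open Pool.Agent.H685R2.Poly
open scoped ENNReal

theorem v8_swap (A B : ℕ) (P : List Bool → List Bool → Prop) :
    ∑ u : Fin A → Bool, cntW B (fun w => P (List.ofFn u) w) =
      ∑ w : Fin B → Bool, cntW A (fun u => P u (List.ofFn w)) := by
  classical
  unfold cntW
  simp only [Finset.card_filter]
  rw [Finset.sum_comm]

theorem v8_iter {ind : List Bool → Bool} {k r a : ℕ}
    (hs : ∀ x b, IsBas ind k r x → IsBas ind k r (stp ind a x b)) :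
    ∀ (t : ℕ) (s : List Bool × List Bool), IsBas ind k r s.1 →
      IsBas ind k r ((runStep ind a)^[t] s).1 := by
  intro t
  induction t with
  | zero => intro s h; exact h
  | succ t ih =>
    intro s h
    rw [Function.iterate_succ_apply]
    exact ih _ (hs _ _ h)

theorem v8_congr (M : ℕ) {P Q : List Bool → Prop} (h : ∀ w, P w ↔ Q w) : cntW M P = cntW M Q := by
  have : P = Q := funext fun w => propext (h w)
  rw [this]

/-- TARGET -/
theorem vRev (h1 : VStep) (h2 : VRec) : VRev := by
  intro ind k r a t
  induction t with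
  | zero =>
    intro x y _ _ _
    exact v8_congr _ fun w => ⟨fun h => h.symm, fun h => h.symm⟩
  | succ t ih =>
    intro x y hk hx hy
    obtain ⟨hs, hne, -⟩ := h1 ind k r a hk
    rw [(h2 ind a t x y).1, (h2 ind a t y x).2]
    have e1 : ∑ u : Fin (2 * a) → Bool, cntW (2 * a * t)
        (fun w => run ind a t (stp ind a x (List.ofFn u)) w = y) =
        ∑ u : Fin (2 * a) → Bool, cntW (2 * a * t)
        (fun w => run ind a t y w = stp ind a x (List.ofFn u)) :=
      Finset.sum_congr rfl fun u _ => ih _ _ hk (hs _ _ hx) hy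
    rw [e1, v8_swap (2 * a) (2 * a * t) (fun u w => run ind a t y w = stp ind a x u),
      v8_swap (2 * a) (2 * a * t) (fun u w => stp ind a (run ind a t y w) u = x)]
    refine Finset.sum_congr rfl fun w _ => ?_
    have hz : IsBas ind k r (run ind a t y (List.ofFn w)) := v8_iter hs t _ hy
    rcases eq_or_ne x (run ind a t y (List.ofFn w)) with h | h
    · rw [← h]
      exact v8_congr _ fun u => ⟨fun h => h.symm, fun h => h.symm⟩
    · have e2 := hne _ _ hx hz h
      have e3 := hne _ _ hz hx h.symm
      rw [Finset.inter_comm] at e3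
      rw [← e2] at e3
      rw [e3]
      exact v8_congr _ fun u => ⟨fun h => h.symm, fun h => h.symm⟩
end Pool.Agent.H330ST.JV8
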