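import Pool.Agent.H330ST.Spec
set_option autoImplicit false
noncomputable section
namespace Pool.Agent.H330ST.JW1
open Pool.Agent.H685R2.Poly
open scoped ENNReal

theorem w1_mem_supp (x : List Bool) (i : ℕ) : i ∈ supp x ↔ x.getD i false = true := by
  unfold supp
  rw [Finset.mem_filter, Finset.mem_range]
  constructor
  · exact fun h => h.2
  · intro h
    refine ⟨?_, h⟩
    by_contra hi
    rw [List.getD_eq_default _ _ (by omega)] at h
    exact absurd h (by simp)

theorem w1_supp_lt {x : List Bool} {i : ℕ} (h : i ∈ supp x) : i < x.length := by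
  unfold supp at h
  rw [Finset.mem_filter, Finset.mem_range] at h
  exact h.1

theorem w1_card_supp (x : List Bool) : (supp x).card = cntT x := by
  induction x with
  | nil => simp [supp, cntT]
  | cons b x ih =>
    have h1 : supp (b :: x) = (if b = true then {0} else ∅) ∪ (supp x).map ⟨Nat.succ, Nat.succ_injective⟩ := by
      ext i
      rw [Finset.mem_union, Finset.mem_map, w1_mem_supp]
      cases i with
      | zero =>
        cases b <;> simp
      | succ i =>
        rw [List.getD_cons_succ, ← w1_mem_supp]
        have : (i + 1 ∈ (if b = true then ({0} : Finset ℕ) else ∅)) ↔ False := by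
          cases b <;> simp
        rw [this, false_or]
        constructor
        · intro h; exact ⟨i, h, rfl⟩
        · rintro ⟨j, hj, hj2⟩
          simp only [Function.Embedding.coeFn_mk, Nat.succ_eq_add_one, Nat.add_right_cancel_iff] at hj2
          rwa [← hj2]
    have h2 : Disjoint (if b = true then ({0} : Finset ℕ) else ∅)
        ((supp x).map ⟨Nat.succ, Nat.succ_injective⟩) := by
      rw [Finset.disjoint_left]
      intro i hi hi2
      rw [Finset.mem_map] at hi2
      obtain ⟨j, _, rfl⟩ := hi2
      revert hi
      cases b <;> simp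
    rw [h1, Finset.card_union_of_disjoint h2, Finset.card_map, ih]
    unfold cntT
    cases b
    · simp
    · simp [Nat.add_comm]

theorem w1_supp_set_false (x : List Bool) (i : ℕ) : supp (x.set i false) = (supp x).erase i := by
  ext j
  rw [Finset.mem_erase, w1_mem_supp, w1_mem_supp, List.getD_eq_getElem?_getD,
    List.getD_eq_getElem?_getD, List.getElem?_set]
  by_cases h : i = j
  · subst h
    by_cases h2 : i < x.length <;> simp [h2]
  · simp [h, Ne.symm h]

theorem w1_supp_set_true (x : List Bool) (i : ℕ) (hi : i < x.length) :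
    supp (x.set i true) = insert i (supp x) := by
  ext j
  rw [Finset.mem_insert, w1_mem_supp, w1_mem_supp, List.getD_eq_getElem?_getD,
    List.getD_eq_getElem?_getD, List.getElem?_set]
  by_cases h : i = j
  · subst h
    simp [hi]
  · simp [h, Ne.symm h]

/-- a linearly independent family inside the span of another one is not larger -/
theorem w1_card_le {W : Type} [AddCommGroup W] [Module ℚ W] (v : ℕ → W) (A B : Finset ℕ)
    (hA : LinearIndepOn ℚ v (A : Set ℕ)) (h : ∀ i ∈ A, v i ∈ Submodule.span ℚ (v '' (B : Set ℕ))) :
    A.card ≤ B.card := by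
  classical
  have hfin : (v '' (B : Set ℕ)).Finite := B.finite_toSet.image v
  have : Fintype (v '' (B : Set ℕ)) := hfin.fintype
  have h1 := linearIndependent_le_span' (fun i : (A : Set ℕ) => v i) hA (v '' (B : Set ℕ)) (by
    rintro _ ⟨⟨i, hi⟩, rfl⟩
    exact h i hi)
  have h2 : Fintype.card (v '' (B : Set ℕ)) ≤ B.card := by
    rw [← Set.toFinset_card, Set.toFinset_image]
    refine Finset.card_image_le.trans ?_
    simp
  have h3 : Cardinal.mk (A : Set ℕ) = A.card := by simp
  rw [h3] at h1
  exact le_trans (by exact_mod_cast h1) h2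

/-- TARGET -/
theorem sExch : SExch := by
  intro ind k r ⟨W, i1, i2, v, hv⟩ hmax x y hx hy i hi
  obtain ⟨hxl, hxi, hxc⟩ := hx
  obtain ⟨hyl, hyi, hyc⟩ := hy
  rw [Finset.mem_sdiff] at hi
  have hX : LinearIndepOn ℚ v (supp x : Set ℕ) := (hv x hxl).1 hxi
  have hY : LinearIndepOn ℚ v (supp y : Set ℕ) := (hv y hyl).1 hyi
  have hex : ∃ j ∈ supp y, v j ∉ Submodule.span ℚ (v '' ((supp x).erase i : Set ℕ)) := by
    by_contra hcon
    have h1 := w1_card_le v (supp y) ((supp x).erase i) hY fun j hj =>
      by_contra fun hne => hcon ⟨j, hj, hne⟩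
    rw [Finset.card_erase_of_mem hi.1, w1_card_supp, w1_card_supp, hxc, hyc] at h1
    have h2 : 0 < (supp x).card := Finset.card_pos.2 ⟨i, hi.1⟩
    rw [w1_card_supp, hxc] at h2
    omega
  obtain ⟨j, hj, hjs⟩ := hex
  have hjl : j < x.length := by
    rw [hxl, ← hyl]
    exact w1_supp_lt hj
  have hji : j ≠ i := fun h => hi.2 (h ▸ hj)
  have hjx : j ∉ supp x := by
    intro hjx
    apply hjs
    refine Submodule.subset_span ⟨j, ?_, rfl⟩
    exact Finset.mem_coe.2 (Finset.mem_erase.2 ⟨hji, hjx⟩)
  have hsup : supp (exch x i j) = insert j ((supp x).erase i) := by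
    unfold exch
    rw [w1_supp_set_true _ _ (by rw [List.length_set]; exact hjl), w1_supp_set_false]
  have hje : j ∉ (supp x).erase i := fun h => hjx (Finset.mem_of_mem_erase h)
  refine ⟨j, Finset.mem_sdiff.2 ⟨hj, hjx⟩, ?_, ?_, ?_⟩
  · unfold exch
    rw [List.length_set, List.length_set, hxl]
  · rw [hv _ (by unfold exch; rw [List.length_set, List.length_set, hxl])]
    change LinearIndepOn ℚ v (supp (exch x i j) : Set ℕ)
    rw [hsup, Finset.coe_insert, linearIndepOn_insert (by exact_mod_cast hje)]
    refine ⟨hX.mono ?_, hjs⟩
    exact_mod_cast Finset.erase_subset i (supp x)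
  · rw [← w1_card_supp, hsup, Finset.card_insert_of_notMem hje, Finset.card_erase_of_mem hi.1,
      w1_card_supp, hxc]
    have h2 : 0 < (supp x).card := Finset.card_pos.2 ⟨i, hi.1⟩
    rw [w1_card_supp, hxc] at h2
    omega

/-- TARGET -/
theorem sGr : SGr := by
  intro ind k ⟨W, i1, i2, v, hv⟩
  have key : ∀ n ≤ k, ∀ g, g = (List.range n).foldl
      (fun x j => if ind (x.set j true) = true then x.set j true else x)
      (List.replicate k false) →
      g.length = k ∧ (∀ i ∈ supp g, i < n) ∧ LinearIndepOn ℚ v (supp g : Set ℕ) ∧
        ∀ i < n, v i ∈ Submodule.span ℚ (v '' (supp g : Set ℕ)) := by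
    intro n
    induction n with
    | zero =>
      intro _ g hg
      have h0 : g = List.replicate k false := by rw [hg]; rfl
      have h1 : supp g = ∅ := by
        rw [Finset.eq_empty_iff_forall_notMem]
        intro i hi
        rw [w1_mem_supp, h0] at hi
        simp [List.getD_eq_getElem?_getD, List.getElem?_replicate] at hi
        split_ifs at hi <;> simp at hi
      refine ⟨by rw [h0]; simp, ?_, ?_, fun i hi => absurd hi (by omega)⟩
      · rw [h1]; simp
      · rw [h1, Finset.coe_empty]
        exact linearIndepOn_empty ℚ v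
    | succ n ih =>
      intro hn g hg
      obtain ⟨h1, h2, h3, h4⟩ := ih (by omega) _ rfl
      rw [List.range_succ, List.foldl_append, List.foldl_cons, List.foldl_nil] at hg
      set x := (List.range n).foldl (fun x j => if ind (x.set j true) = true then x.set j true else x)
        (List.replicate k false) with hx
      have hnx : n ∉ supp x := fun h => absurd (h2 n h) (by omega)
      have hsup := w1_supp_set_true x n (by omega)
      have hl : (x.set n true).length = k := by rw [List.length_set, h1]
      have hiff := hv (x.set n true) hl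
      change _ ↔ LinearIndepOn ℚ v (supp (x.set n true) : Set ℕ) at hiff
      rw [hsup] at hiff
      by_cases hind : ind (x.set n true) = true
      · rw [if_pos hind] at hg
        rw [hg, hsup]
        refine ⟨hl, ?_, hiff.1 hind, ?_⟩
        · intro i hi
          rcases Finset.mem_insert.1 hi with h | h
          · omega
          · have := h2 i h; omega
        · intro i hi
          rcases Nat.lt_succ_iff_lt_or_eq.1 hi with h | h
          · refine Submodule.span_mono ?_ (h4 i h)
            refine Set.image_mono ?_
            exact_mod_cast Finset.subset_insert n (supp x)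
          · rw [h]
            exact Submodule.subset_span ⟨n, by simp, rfl⟩
      · rw [if_neg hind] at hg
        rw [hg]
        refine ⟨h1, fun i hi => by have := h2 i hi; omega, h3, ?_⟩
        intro i hi
        rcases Nat.lt_succ_iff_lt_or_eq.1 hi with h | h
        · exact h4 i h
        · rw [h]
          by_contra hsp
          apply hind
          rw [hiff, Finset.coe_insert, linearIndepOn_insert (by exact_mod_cast hnx)]
          exact ⟨h3, hsp⟩
  obtain ⟨h1, h2, h3, h4⟩ := key k le_rfl (greedy ind k) rfl
  refine ⟨⟨h1, (hv _ h1).2 h3, rfl⟩, ?_⟩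
  intro y hyl hyi
  rw [← w1_card_supp, ← w1_card_supp]
  refine w1_card_le v _ _ ((hv y hyl).1 hyi) ?_
  intro i hi
  exact h4 i (by rw [← hyl]; exact w1_supp_lt hi)

end Pool.Agent.H330ST.JW1
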