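import Pool.Agent.H330ST.Spec
set_option autoImplicit false
noncomputable section
namespace Pool.Agent.H330ST.JW2
open Pool.Agent.H685R2.Poly
open scoped ENNReal

open Finset Matrix Pool.Agent.Helper870.DT

theorem w2_trickle {ι : Type} [Fintype ι] [DecidableEq ι] (W : ι → ι → ℝ)
    (hW : ∀ x y, 0 ≤ W x y) (hs : ∀ x y, W x y = W y x)
    (hconn : ∀ x x', 0 < ∑ y, W x y → 0 < ∑ y, W x' y → ∀ g : ι → ℝ,
      (∀ a b, 0 < W a b → g a = g b) → g x = g x')
    (hT : ∀ u : ι → ℝ, ∑ x, ∑ y, W x y * (u x * u y) ≤
      ∑ z, (∑ y, W z y * u y) ^ 2 / (∑ y, W z y))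
    (u : ι → ℝ) : (∑ x, ∑ y, W x y) * ∑ x, ∑ y, W x y * (u x * u y) ≤
      (∑ x, (∑ y, W x y) * u x) ^ 2 := by
  classical
  set w : ι → ℝ := fun x => ∑ y, W x y with hw
  have hw0 : ∀ x, 0 ≤ w x := fun x => Finset.sum_nonneg fun y _ => hW x y
  have hWz : ∀ x, w x = 0 → ∀ y, W x y = 0 := by
    intro x hx y
    exact (Finset.sum_eq_zero_iff_of_nonneg (fun y _ => hW x y)).mp hx y (Finset.mem_univ y)
  set d : ι → ℝ := fun x => Real.sqrt (w x) with hd
  have hd2 : ∀ x, d x * d x = w x := fun x => Real.mul_self_sqrt (hw0 x)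
  have hdz : ∀ x, d x = 0 → w x = 0 := by
    intro x hx
    rw [← hd2 x, hx, mul_zero]
  set A : Matrix ι ι ℝ := Matrix.of fun x y => W x y / (d x * d y) with hAdef
  have hAH : A.IsHermitian := by
    ext x y
    simp only [Matrix.conjTranspose_apply, hAdef, Matrix.of_apply, star_trivial]
    rw [hs y x, mul_comm]
  obtain ⟨l, e, he, hnorm, hdec⟩ := spec_decomp A hAH
  -- quadratic form of A in terms of W
  have hform : ∀ v : ι → ℝ, v ⬝ᵥ (A *ᵥ v) =
      ∑ x, ∑ y, W x y * ((v x / d x) * (v y / d y)) := by
    intro v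
    simp only [dotProduct, Matrix.mulVec, hAdef, Matrix.of_apply, Finset.mul_sum]
    apply Finset.sum_congr rfl
    intro x _
    apply Finset.sum_congr rfl
    intro y _
    rw [div_eq_mul_inv, div_eq_mul_inv, div_eq_mul_inv, mul_inv]
    ring
  have hsq : ∀ v : ι → ℝ, (A *ᵥ v) ⬝ᵥ (A *ᵥ v) =
      ∑ z, (∑ y, W z y * (v y / d y)) ^ 2 / (∑ y, W z y) := by
    intro v
    simp only [dotProduct, Matrix.mulVec, hAdef, Matrix.of_apply]
    apply Finset.sum_congr rfl
    intro z _
    have h1 : ∑ y, W z y / (d z * d y) * v y = (∑ y, W z y * (v y / d y)) / d z := by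
      rw [Finset.sum_div]
      apply Finset.sum_congr rfl
      intro y _
      rw [div_eq_mul_inv, div_eq_mul_inv, div_eq_mul_inv, mul_inv]
      ring
    rw [h1, div_mul_div_comm, hd2, ← pow_two]
  -- eigenvalues satisfy l ≤ l^2
  have hee : ∀ i, e i ⬝ᵥ e i = 1 := by
    intro i
    rw [← hnorm i]
    simp [dotProduct, pow_two]
  have hl1 : ∀ i, l i ≤ l i ^ 2 := by
    intro i
    have h1 := hT (fun x => e i x / d x)
    rw [← hform, ← hsq, he i] at h1
    simp only [dotProduct_smul, smul_dotProduct, smul_eq_mul, hee] at h1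
    nlinarith
  -- Rayleigh bound
  have hray : ∀ v : ι → ℝ, v ⬝ᵥ (A *ᵥ v) = ∑ x, w x * (v x / d x) ^ 2 -
      (∑ x, ∑ y, W x y * (v x / d x - v y / d y) ^ 2) / 2 := by
    intro v
    rw [hform]
    have h1 : ∑ x, ∑ y, W x y * (v x / d x - v y / d y) ^ 2 =
        ∑ x, ∑ y, W x y * (v x / d x) ^ 2 + ∑ x, ∑ y, W x y * (v y / d y) ^ 2 -
        2 * ∑ x, ∑ y, W x y * ((v x / d x) * (v y / d y)) := by
      simp only [Finset.mul_sum, ← Finset.sum_add_distrib, ← Finset.sum_sub_distrib]
      apply Finset.sum_congr rfl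
      intro x _
      apply Finset.sum_congr rfl
      intro y _
      ring
    have h2 : ∑ x, ∑ y, W x y * (v x / d x) ^ 2 = ∑ x, w x * (v x / d x) ^ 2 := by
      apply Finset.sum_congr rfl
      intro x _
      rw [← Finset.sum_mul]
    have h3 : ∑ x, ∑ y, W x y * (v y / d y) ^ 2 = ∑ x, w x * (v x / d x) ^ 2 := by
      rw [Finset.sum_comm]
      apply Finset.sum_congr rfl
      intro x _
      rw [← Finset.sum_mul]
      congr 1
      exact Finset.sum_congr rfl fun y _ => hs y x
    rw [h1, h2, h3]
    ring
  have hwle : ∀ (v : ι → ℝ) (x : ι), w x * (v x / d x) ^ 2 ≤ v x ^ 2 := by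
    intro v x
    rcases eq_or_ne (d x) 0 with h | h
    · rw [h, div_zero]
      have := sq_nonneg (v x)
      simpa using this
    · rw [div_pow, ← hd2 x]
      have : d x * d x * (v x ^ 2 / d x ^ 2) = v x ^ 2 := by field_simp
      rw [this]
  have key : ∀ i, 0 < l i → ∃ c : ℝ, ∀ x, e i x = c * d x := by
    intro i hi
    have hge : 1 ≤ l i := by
      have := hl1 i
      nlinarith
    have h1 := hray (e i)
    rw [he i, dotProduct_smul, smul_eq_mul, hee, mul_one] at h1
    have hsum1 : ∑ x, w x * (e i x / d x) ^ 2 ≤ ∑ x, e i x ^ 2 :=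
      Finset.sum_le_sum fun x _ => hwle (e i) x
    rw [hnorm i] at hsum1
    have hnn : 0 ≤ ∑ x, ∑ y, W x y * (e i x / d x - e i y / d y) ^ 2 :=
      Finset.sum_nonneg fun x _ => Finset.sum_nonneg fun y _ => mul_nonneg (hW x y) (sq_nonneg _)
    have hzero : ∑ x, ∑ y, W x y * (e i x / d x - e i y / d y) ^ 2 = 0 := by linarith
    have heq : ∑ x, w x * (e i x / d x) ^ 2 = ∑ x, e i x ^ 2 := by
      rw [hnorm i]
      linarith
    have hW0 : ∀ x y, W x y * (e i x / d x - e i y / d y) ^ 2 = 0 := by
      intro x y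
      have h2 := (Finset.sum_eq_zero_iff_of_nonneg (fun x _ =>
        Finset.sum_nonneg fun y _ => mul_nonneg (hW x y) (sq_nonneg _))).mp hzero x
        (Finset.mem_univ x)
      exact (Finset.sum_eq_zero_iff_of_nonneg (fun y _ =>
        mul_nonneg (hW x y) (sq_nonneg _))).mp h2 y (Finset.mem_univ y)
    have hterm : ∀ x, w x * (e i x / d x) ^ 2 = e i x ^ 2 := by
      have h3 : ∑ x, (e i x ^ 2 - w x * (e i x / d x) ^ 2) = 0 := by
        rw [Finset.sum_sub_distrib, heq, sub_self]
      intro x
      have h4 := (Finset.sum_eq_zero_iff_of_nonneg (fun x _ =>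
        sub_nonneg.mpr (hwle (e i) x))).mp h3 x (Finset.mem_univ x)
      linarith
    have hg : ∀ a b, 0 < W a b → e i a / d a = e i b / d b := by
      intro a b hab
      rcases mul_eq_zero.mp (hW0 a b) with h10 | h10
      · exact absurd h10 hab.ne'
      · have := pow_eq_zero_iff (two_ne_zero) |>.mp h10
        linarith
    have hzz : ∀ x, d x = 0 → e i x = 0 := by
      intro x h
      have h5 := hterm x
      rw [h, div_zero] at h5
      have h6 : e i x ^ 2 = 0 := by
        rw [← h5]; ring
      exact pow_eq_zero_iff (two_ne_zero) |>.mp h6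
    have hpos : ∀ x, d x ≠ 0 → 0 < w x := by
      intro x h
      rcases (hw0 x).eq_or_lt with h6 | h6
      · exfalso
        apply h
        have h7 : d x * d x = 0 := by rw [hd2 x, ← h6]
        exact mul_self_eq_zero.mp h7
      · exact h6
    by_cases hex : ∃ z0, d z0 ≠ 0
    · obtain ⟨z0, hz0⟩ := hex
      refine ⟨e i z0 / d z0, ?_⟩
      intro x
      rcases eq_or_ne (d x) 0 with h | h
      · rw [h, mul_zero, hzz x h]
      · have h11 := hconn z0 x (hpos z0 hz0) (hpos x h) (fun y => e i y / d y) hg
        have h12 : e i x = e i x / d x * d x := by field_simp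
        rw [h12, ← h11]
    · push Not at hex
      refine ⟨0, fun x => ?_⟩
      rw [hzz x (hex x), zero_mul]
  -- orthogonal vectors
  have horth : ∀ v : ι → ℝ, ∑ x, d x * v x = 0 → v ⬝ᵥ (A *ᵥ v) ≤ 0 := by
    intro v hv
    rw [hdec]
    apply Finset.sum_nonpos
    intro i _
    rcases le_or_gt (l i) 0 with h | h
    · exact mul_nonpos_of_nonpos_of_nonneg h (sq_nonneg _)
    · obtain ⟨c, hc⟩ := key i h
      have : e i ⬝ᵥ v = 0 := by
        simp only [dotProduct, hc]
        have : ∑ x, c * d x * v x = c * ∑ x, d x * v x := by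
          rw [Finset.mul_sum]
          exact Finset.sum_congr rfl fun x _ => by ring
        rw [this, hv, mul_zero]
      rw [this]
      simp
  -- conclusion
  set T := ∑ x, w x with hTdef
  have hT0 : 0 ≤ T := Finset.sum_nonneg fun x _ => hw0 x
  rcases hT0.eq_or_lt with h | hTpos
  · rw [← h, zero_mul]
    positivity
  · set α := (∑ x, w x * u x) / T with hα
    have hv : ∑ x, d x * (d x * (u x - α)) = 0 := by
      have h1 : ∑ x, d x * (d x * (u x - α)) = ∑ x, w x * u x - (∑ x, w x) * α := by
        rw [Finset.sum_mul, ← Finset.sum_sub_distrib]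
        apply Finset.sum_congr rfl
        intro x _
        rw [← mul_assoc, hd2]
        ring
      rw [h1, hα, ← hTdef]
      field_simp
      ring
    have h2 := horth (fun x => d x * (u x - α)) hv
    rw [hform] at h2
    have h3 : ∑ x, ∑ y, W x y * (d x * (u x - α) / d x * (d y * (u y - α) / d y)) =
        ∑ x, ∑ y, W x y * ((u x - α) * (u y - α)) := by
      apply Finset.sum_congr rfl
      intro x _
      apply Finset.sum_congr rfl
      intro y _
      rcases eq_or_ne (d x) 0 with h4 | h4
      · rw [hWz x (hdz x h4) y]; ring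
      rcases eq_or_ne (d y) 0 with h5 | h5
      · rw [hs x y, hWz y (hdz y h5) x]; ring
      · field_simp
    rw [h3] at h2
    have h6 : ∑ x, ∑ y, W x y * ((u x - α) * (u y - α)) =
        ∑ x, ∑ y, W x y * (u x * u y) - α * ∑ x, ∑ y, W x y * u x - α * ∑ x, ∑ y, W x y * u y +
        α ^ 2 * ∑ x, ∑ y, W x y := by
      simp only [Finset.mul_sum, ← Finset.sum_add_distrib, ← Finset.sum_sub_distrib]
      apply Finset.sum_congr rfl
      intro x _
      apply Finset.sum_congr rfl
      intro y _
      ring
    have h7 : ∑ x, ∑ y, W x y * u x = α * T := by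
      have : ∑ x, ∑ y, W x y * u x = ∑ x, w x * u x := by
        apply Finset.sum_congr rfl
        intro x _
        rw [← Finset.sum_mul]
      rw [this, hα]
      field_simp
    have h8 : ∑ x, ∑ y, W x y * u y = α * T := by
      have : ∑ x, ∑ y, W x y * u y = ∑ x, w x * u x := by
        rw [Finset.sum_comm]
        apply Finset.sum_congr rfl
        intro x _
        rw [← Finset.sum_mul]
        congr 1
        exact Finset.sum_congr rfl fun y _ => hs y x
      rw [this, hα]
      field_simp
    have h9 : ∑ x, ∑ y, W x y = T := by rw [hTdef]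
    have h10 : ∑ x, w x * u x = α * T := by
      rw [hα]; field_simp
    rw [h6, h7, h8, h9] at h2
    show T * ∑ x, ∑ y, W x y * (u x * u y) ≤ (∑ x, w x * u x) ^ 2
    rw [h10]
    nlinarith


theorem w2_QQ_step (F : Finset (Finset ℕ)) (V : Finset ℕ) (l r : ℕ)
    (hF : ∀ A ∈ F, A ⊆ V ∧ A.card = l) (S : Finset ℕ) (hS : S.card + (r + 3) = l)
    (hconn : ∀ x ∈ V \ S, ∀ x' ∈ V \ S, x ≠ x' → (upS F (insert x S)).Nonempty →
      (upS F (insert x' S)).Nonempty → ∃ y ∈ V \ S, y ≠ x ∧
      (upS F (insert x (insert y S))).Nonempty ∧ (y = x' ∨ (upS F (insert x' (insert y S))).Nonempty))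
    (ih : ∀ z ∈ V \ S, QQ F V (insert z S)) : QQ F V S := by
  classical
  intro u
  -- pass to the subtype
  have e : ∀ k : ℕ → ℝ, ∑ x : {x // x ∈ V \ S}, k x = ∑ x ∈ V \ S, k x :=
    fun k => Finset.sum_coe_sort (V \ S) k
  have e2 : ∀ k : ℕ → ℕ → ℝ, ∑ x : {x // x ∈ V \ S}, ∑ y : {x // x ∈ V \ S}, k x y =
      ∑ x ∈ V \ S, ∑ y ∈ V \ S, k x y := by
    intro k
    rw [← e]
    exact Finset.sum_congr rfl fun x _ => e (k x)
  have key : (∑ x : {x // x ∈ V \ S}, ∑ y : {x // x ∈ V \ S}, Wt F S x y) *
      (∑ x : {x // x ∈ V \ S}, ∑ y : {x // x ∈ V \ S}, Wt F S x y * (u x * u y)) ≤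
      (∑ x : {x // x ∈ V \ S}, (∑ y : {x // x ∈ V \ S}, Wt F S x y) * u x) ^ 2 := by
    refine w2_trickle (ι := {x // x ∈ V \ S}) (fun x y => Wt F S x y)
      (fun x y => Wt_nonneg _ _ _ _) (fun x y => Wt_symm _ _ _ _) ?_ ?_ (fun x => u x)
    · -- connectivity
      rintro ⟨x, hx⟩ ⟨x', hx'⟩ hpos hpos' g hg
      have hne : ∀ x (hx : x ∈ V \ S), (0 < ∑ y : {x // x ∈ V \ S}, Wt F S x y) →
          (upS F (insert x S)).Nonempty := by
        intro x hx hpos
        rw [e (fun y => Wt F S x y), Wt_sum F V l (r + 2) hF S (by omega) x hx] at hpos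
        rw [Finset.nonempty_iff_ne_empty]
        intro h0
        rw [h0] at hpos
        simp at hpos
      by_cases hxx : x = x'
      · subst hxx
        rfl
      obtain ⟨y, hy, hyx, h1, h2⟩ := hconn x hx x' hx' hxx (hne x hx hpos) (hne x' hx' hpos')
      have hW : ∀ a b, a ≠ b → (upS F (insert a (insert b S))).Nonempty → 0 < Wt F S a b := by
        intro a b hab h
        unfold Wt
        rw [if_neg hab]
        exact_mod_cast h.card_pos
      have h3 := hg ⟨x, hx⟩ ⟨y, hy⟩ (hW x y (Ne.symm hyx) h1)
      rw [h3]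
      by_cases hyx' : y = x'
      · subst hyx'
        rfl
      · rcases h2 with h2 | h2
        · exact absurd h2 hyx'
        · exact (hg ⟨x', hx'⟩ ⟨y, hy⟩ (hW x' y (Ne.symm hyx') h2)).symm
    · -- the quadratic inequality
      intro v
      set w : ℕ → ℝ := fun x => if h : x ∈ V \ S then v ⟨x, h⟩ else 0 with hw
      have hwv : ∀ x : {x // x ∈ V \ S}, v x = w x := by
        rintro ⟨x, hx⟩
        rw [hw]
        simp only [hx, dif_pos]
      simp only [hwv]
      rw [e2 (fun x y => Wt F S x y * (w x * w y))]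
      have e4 : ∑ z : {x // x ∈ V \ S}, (∑ y : {x // x ∈ V \ S}, Wt F S z y * w y) ^ 2 /
          (∑ y : {x // x ∈ V \ S}, Wt F S z y) =
          ∑ z ∈ V \ S, (∑ y ∈ V \ S, Wt F S z y * w y) ^ 2 / ∑ y ∈ V \ S, Wt F S z y := by
        rw [← e]
        apply Finset.sum_congr rfl
        intro z _
        rw [e (fun y => Wt F S z y * w y), e (fun y => Wt F S z y)]
      rw [e4]
      -- inequality at each z
      have hz : ∀ z ∈ V \ S, ∑ x ∈ V \ insert z S, ∑ y ∈ V \ insert z S,
          Wt F (insert z S) x y * (w x * w y) ≤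
          ((r : ℝ) + 1) * ((∑ y ∈ V \ S, Wt F S z y * w y) ^ 2 / ∑ y ∈ V \ S, Wt F S z y) := by
        intro z hz
        have hzS := (Finset.mem_sdiff.mp hz).2
        have hq := ih z hz w
        have hScard : (insert z S).card + (r + 2) = l := by
          rw [Finset.card_insert_of_notMem hzS]; omega
        have hrow : ∀ x ∈ V \ insert z S, ∑ y ∈ V \ insert z S, Wt F (insert z S) x y =
            ((r + 1 : ℕ) : ℝ) * ((upS F (insert x (insert z S))).card : ℝ) := fun x hx =>
          Wt_sum F V l (r + 1) hF (insert z S) (by omega) x hx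
        have htot : ∑ x ∈ V \ insert z S, ∑ y ∈ V \ insert z S, Wt F (insert z S) x y =
            ((r + 1 : ℕ) : ℝ) * (((r + 2 : ℕ) : ℝ) * ((upS F (insert z S)).card : ℝ)) := by
          rw [Finset.sum_congr rfl hrow, ← Finset.mul_sum]
          have := double_count F V l (r + 2) hF (insert z S) (by omega) (fun _ => 1)
          simp only [Finset.sum_const, nsmul_eq_mul, mul_one] at this
          rw [this]
        have hlin : ∑ x ∈ V \ insert z S, (∑ y ∈ V \ insert z S, Wt F (insert z S) x y) * w x =
            ((r + 1 : ℕ) : ℝ) * ∑ y ∈ V \ S, Wt F S z y * w y := by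
          have h1 : ∑ y ∈ V \ S, Wt F S z y * w y =
              ∑ y ∈ V \ insert z S, ((upS F (insert z (insert y S))).card : ℝ) * w y := by
            rw [← sum_offdiag V S z hz]
            apply Finset.sum_congr rfl
            intro y _
            unfold Wt
            split_ifs <;> simp
          rw [h1, Finset.mul_sum]
          apply Finset.sum_congr rfl
          intro x hx
          rw [hrow x hx, Finset.insert_comm]
          ring
        rw [htot, hlin] at hq
        have hden : ∑ y ∈ V \ S, Wt F S z y =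
            ((r + 2 : ℕ) : ℝ) * ((upS F (insert z S)).card : ℝ) :=
          Wt_sum F V l (r + 2) hF S (by omega) z hz
        rw [hden]
        rcases Nat.eq_zero_or_pos (upS F (insert z S)).card with h0 | hpos
        · -- no facets above
          have hempty : upS F (insert z S) = ∅ := Finset.card_eq_zero.mp h0
          have hzero : ∀ x y, Wt F (insert z S) x y = 0 := by
            intro x y
            unfold Wt
            split_ifs
            · rfl
            · have : upS F (insert x (insert y (insert z S))) = ∅ := by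
                rw [Finset.eq_empty_iff_forall_notMem]
                intro A hA
                rw [mem_upS] at hA
                have : A ∈ upS F (insert z S) := mem_upS.mpr ⟨hA.1,
                  (Finset.subset_insert _ _).trans ((Finset.subset_insert _ _).trans hA.2)⟩
                rw [hempty] at this
                simp at this
              rw [this]; simp
          have hz0 : ∑ x ∈ V \ insert z S, ∑ y ∈ V \ insert z S,
              Wt F (insert z S) x y * (w x * w y) = 0 :=
            Finset.sum_eq_zero fun x _ => Finset.sum_eq_zero fun y _ => by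
              rw [hzero, zero_mul]
          rw [hz0, h0, Nat.cast_zero, mul_zero, div_zero, mul_zero]
        · have hc : (0:ℝ) < ((upS F (insert z S)).card : ℝ) := Nat.cast_pos.mpr hpos
          rw [← mul_div_assoc, le_div_iff₀ (mul_pos (Nat.cast_pos.mpr (by omega)) hc)]
          set Qz := ∑ x ∈ V \ insert z S, ∑ y ∈ V \ insert z S,
            Wt F (insert z S) x y * (w x * w y)
          set Lz := ∑ y ∈ V \ S, Wt F S z y * w y
          have hr1 : (0:ℝ) < ((r + 1 : ℕ) : ℝ) := by positivity
          have h2 : ((r + 1 : ℕ) : ℝ) * (Qz * (((r + 2 : ℕ) : ℝ) *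
              ((upS F (insert z S)).card : ℝ))) ≤
              ((r + 1 : ℕ) : ℝ) * (((r : ℝ) + 1) * Lz ^ 2) := by
            calc _ = ((r + 1 : ℕ) : ℝ) * (((r + 2 : ℕ) : ℝ) * ((upS F (insert z S)).card : ℝ)) * Qz :=
                  by ring
              _ ≤ (((r + 1 : ℕ) : ℝ) * Lz) ^ 2 := hq
              _ = _ := by push_cast; ring
          exact le_of_mul_le_mul_left h2 hr1
      have hsum := Finset.sum_le_sum hz
      rw [← Finset.mul_sum] at hsum
      -- left side
      have hleft : ∑ z ∈ V \ S, ∑ x ∈ V \ insert z S, ∑ y ∈ V \ insert z S,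
          Wt F (insert z S) x y * (w x * w y) =
          ((r : ℝ) + 1) * ∑ x ∈ V \ S, ∑ y ∈ V \ S, Wt F S x y * (w x * w y) := by
        have h1 : ∀ z ∈ V \ S, ∑ x ∈ V \ insert z S, ∑ y ∈ V \ insert z S,
            Wt F (insert z S) x y * (w x * w y) =
            ∑ x ∈ V \ S, ∑ y ∈ V \ S, (if z = x then 0 else if z = y then 0 else
              Wt F (insert z S) x y * (w x * w y)) := by
          intro z hz
          rw [← sum_offdiag V S z hz]
          apply Finset.sum_congr rfl
          intro x _
          by_cases h : z = x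
          · simp [h]
          · simp only [h, if_false]
            rw [← sum_offdiag V S z hz]
        rw [Finset.sum_congr rfl h1, Finset.sum_comm, Finset.mul_sum]
        apply Finset.sum_congr rfl
        intro x hx
        rw [Finset.sum_comm, Finset.mul_sum]
        apply Finset.sum_congr rfl
        intro y hy
        by_cases hxy : x = y
        · subst hxy
          have : ∀ z ∈ V \ S, (if z = x then 0 else if z = x then 0 else
              Wt F (insert z S) x x * (w x * w x)) = (0:ℝ) := by
            intro z _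
            unfold Wt
            simp
          rw [Finset.sum_congr rfl this]
          unfold Wt
          simp
        · have hxS := (Finset.mem_sdiff.mp hx)
          have hyS := (Finset.mem_sdiff.mp hy)
          have hx' : x ∉ insert y S := by simp [hxy, hxS.2]
          have h2 : ∑ z ∈ V \ S, (if z = x then 0 else if z = y then 0 else
              Wt F (insert z S) x y * (w x * w y)) =
              (∑ z ∈ V \ insert x (insert y S),
                ((upS F (insert z (insert x (insert y S)))).card : ℝ)) * (w x * w y) := by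
            have hset : V \ insert x (insert y S) =
                (V \ S).filter (fun z => ¬ z = x ∧ ¬ z = y) := by
              ext z
              simp only [Finset.mem_sdiff, Finset.mem_insert, Finset.mem_filter, not_or]
              tauto
            rw [hset, Finset.sum_filter, Finset.sum_mul]
            apply Finset.sum_congr rfl
            intro z _
            by_cases h3 : z = x
            · simp [h3]
            · by_cases h4 : z = y
              · simp [h4]
              · rw [if_neg h3, if_neg h4, if_pos ⟨h3, h4⟩]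
                have hset2 : insert x (insert y (insert z S)) =
                    insert z (insert x (insert y S)) := by
                  ext t
                  simp only [Finset.mem_insert]
                  tauto
                unfold Wt
                rw [if_neg hxy, hset2]
          rw [h2]
          have h5 := double_count F V l (r + 1) hF (insert x (insert y S))
            (by rw [Finset.card_insert_of_notMem hx', Finset.card_insert_of_notMem hyS.2]; omega)
            (fun _ => 1)
          simp only [Finset.sum_const, nsmul_eq_mul, mul_one] at h5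
          rw [h5]
          unfold Wt
          rw [if_neg hxy]
          push_cast
          ring
      rw [hleft] at hsum
      exact le_of_mul_le_mul_left hsum (by positivity)
  have hC : ∑ x : {x // x ∈ V \ S}, (∑ y : {x // x ∈ V \ S}, Wt F S x y) * u x =
      ∑ x ∈ V \ S, (∑ y ∈ V \ S, Wt F S x y) * u x := by
    rw [← e]
    apply Finset.sum_congr rfl
    intro x _
    rw [e (fun y => Wt F S x y)]
  rw [e2 (fun x y => Wt F S x y), e2 (fun x y => Wt F S x y * (u x * u y)), hC] at key
  exact key


/-- completing a member of the family with elements of another one -/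
theorem w2_aug (F : Finset (Finset ℕ)) (hE : Exch F) (A : Finset ℕ) (hA : A ∈ F) (x : ℕ) :
    ∀ (n : ℕ) (B : Finset ℕ), B ∈ F → x ∈ B → ((B \ A).erase x).card = n →
      ∃ C ∈ F, x ∈ C ∧ C \ A ⊆ {x} ∧ A ∩ B ⊆ C := by
  intro n
  induction n with
  | zero =>
    intro B hB hx hn
    refine ⟨B, hB, hx, ?_, Finset.inter_subset_right⟩
    rw [Finset.card_eq_zero] at hn
    intro a ha
    rw [Finset.mem_singleton]
    by_contra hax
    have : a ∈ (B \ A).erase x := Finset.mem_erase.2 ⟨hax, ha⟩
    rw [hn] at this
    simp at this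
  | succ n ih =>
    intro B hB hx hn
    have hne : ((B \ A).erase x).Nonempty := by
      rw [← Finset.card_pos]; omega
    obtain ⟨a, ha⟩ := hne
    have ha' := Finset.mem_erase.1 ha
    have haB := Finset.mem_sdiff.1 ha'.2
    obtain ⟨b, hb, hbF⟩ := hE B hB A hA a ha'.2
    have hbA := Finset.mem_sdiff.1 hb
    have hset : (insert b (B.erase a) \ A).erase x = ((B \ A).erase x).erase a := by
      ext t
      simp only [Finset.mem_erase, Finset.mem_sdiff, Finset.mem_insert]
      constructor
      · rintro ⟨h1, h2 | h2, h3⟩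
        · subst h2; exact absurd hbA.1 h3
        · exact ⟨h2.1, h1, h2.2, h3⟩
      · rintro ⟨h1, h2, h3, h4⟩
        exact ⟨h2, Or.inr ⟨h1, h3⟩, h4⟩
    obtain ⟨C, hC, hxC, h1, h2⟩ := ih (insert b (B.erase a)) hbF
      (Finset.mem_insert_of_mem (Finset.mem_erase.2 ⟨Ne.symm ha'.1, hx⟩))
      (by rw [hset, Finset.card_erase_of_mem ha, hn]; rfl)
    refine ⟨C, hC, hxC, h1, ?_⟩
    intro t ht
    apply h2
    rw [Finset.mem_inter] at ht ⊢
    refine ⟨ht.1, Finset.mem_insert_of_mem (Finset.mem_erase.2 ⟨?_, ht.2⟩)⟩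
    rintro rfl
    exact haB.2 ht.1

/-- the link graph has diameter at most two -/
theorem w2_conn (F : Finset (Finset ℕ)) (V : Finset ℕ) (l r : ℕ)
    (hF : ∀ A ∈ F, A ⊆ V ∧ A.card = l) (hE : Exch F) (S : Finset ℕ) (hS : S.card + (r + 3) = l) :
    ∀ x ∈ V \ S, ∀ x' ∈ V \ S, x ≠ x' → (upS F (insert x S)).Nonempty →
      (upS F (insert x' S)).Nonempty → ∃ y ∈ V \ S, y ≠ x ∧
      (upS F (insert x (insert y S))).Nonempty ∧
      (y = x' ∨ (upS F (insert x' (insert y S))).Nonempty) := by
  intro x hx x' hx' hne h1 h2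
  obtain ⟨A, hA⟩ := h1
  obtain ⟨B, hB⟩ := h2
  rw [mem_upS] at hA hB
  obtain ⟨C, hC, hxC, h3, h4⟩ := w2_aug F hE A hA.1 x' _ B hB.1 (hB.2 (Finset.mem_insert_self _ _)) rfl
  have hSA : S ⊆ A := (Finset.subset_insert _ _).trans hA.2
  have hSB : S ⊆ B := (Finset.subset_insert _ _).trans hB.2
  have hSC : S ⊆ C := (Finset.subset_inter hSA hSB).trans h4
  have hxA : x ∈ A := hA.2 (Finset.mem_insert_self _ _)
  have hcard : 2 ≤ ((C ∩ A) \ S).card := by
    have e1 : (C \ A).card ≤ 1 := (Finset.card_le_card h3).trans (by simp)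
    have e2 := Finset.card_sdiff_add_card_inter C A
    have e3 := (hF C hC).2
    have e4 := Finset.le_card_sdiff S (C ∩ A)
    omega
  have hne2 : (((C ∩ A) \ S).erase x).Nonempty := by
    rw [← Finset.card_pos]
    have := Finset.pred_card_le_card_erase (s := (C ∩ A) \ S) (a := x)
    omega
  obtain ⟨y, hy⟩ := hne2
  rw [Finset.mem_erase, Finset.mem_sdiff, Finset.mem_inter] at hy
  refine ⟨y, Finset.mem_sdiff.2 ⟨(hF A hA.1).1 hy.2.1.2, hy.2.2⟩, hy.1, ⟨A, ?_⟩, Or.inr ⟨C, ?_⟩⟩
  · rw [mem_upS]
    exact ⟨hA.1, Finset.insert_subset hxA (Finset.insert_subset hy.2.1.2 hSA)⟩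
  · rw [mem_upS]
    exact ⟨hC, Finset.insert_subset hxC (Finset.insert_subset hy.2.1.1 hSC)⟩

/-- the kernel of an equivalence relation is positive semidefinite -/
theorem w2_psd {κ : Type} [DecidableEq κ] (P : Finset ℕ) (c : ℕ → κ) (u : ℕ → ℝ) :
    0 ≤ ∑ x ∈ P, ∑ y ∈ P, (if c x = c y then u x * u y else (0 : ℝ)) := by
  have h1 : ∑ x ∈ P, ∑ y ∈ P, (if c x = c y then u x * u y else (0 : ℝ)) =
      ∑ t ∈ P.image c, (∑ x ∈ P, if c x = t then u x else (0 : ℝ)) ^ 2 := by
    have h2 : ∀ t ∈ P.image c, (∑ x ∈ P, if c x = t then u x else (0 : ℝ)) ^ 2 =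
        ∑ x ∈ P, ∑ y ∈ P, (if c x = t then (if c y = t then u x * u y else 0) else (0 : ℝ)) := by
      intro t _
      rw [pow_two, Finset.sum_mul_sum]
      apply Finset.sum_congr rfl
      intro x _
      apply Finset.sum_congr rfl
      intro y _
      split_ifs <;> simp
    symm
    rw [Finset.sum_congr rfl h2, Finset.sum_comm]
    apply Finset.sum_congr rfl
    intro x hx
    rw [Finset.sum_comm]
    apply Finset.sum_congr rfl
    intro y hy
    rw [Finset.sum_ite_eq, if_pos (Finset.mem_image_of_mem c hx)]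
    by_cases h : c x = c y
    · simp [h]
    · rw [if_neg h, if_neg (fun h' => h h'.symm)]
  rw [h1]
  exact Finset.sum_nonneg fun t _ => sq_nonneg _

/-- the weights in the top case -/
theorem w2_top (F : Finset (Finset ℕ)) (V : Finset ℕ) (l : ℕ)
    (hF : ∀ A ∈ F, A ⊆ V ∧ A.card = l) (S : Finset ℕ) (hS : S.card + 2 = l) (x y : ℕ)
    (hx : x ∈ V \ S) (hy : y ∈ V \ S) :
    Wt F S x y = if x ≠ y ∧ insert x (insert y S) ∈ F then 1 else 0 := by
  rw [Finset.mem_sdiff] at hx hy
  unfold Wt
  by_cases h : x = y
  · simp [h]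
  rw [if_neg h]
  have hc : (insert x (insert y S)).card = l := by
    rw [Finset.card_insert_of_notMem (by simp [h, hx.2]), Finset.card_insert_of_notMem hy.2]
    omega
  by_cases hm : insert x (insert y S) ∈ F
  · rw [if_pos ⟨h, hm⟩]
    have : upS F (insert x (insert y S)) = {insert x (insert y S)} := by
      ext A
      rw [mem_upS, Finset.mem_singleton]
      constructor
      · rintro ⟨h1, h2⟩
        exact (Finset.eq_of_subset_of_card_le h2 (by rw [(hF A h1).2, hc])).symm
      · rintro rfl
        exact ⟨hm, Finset.Subset.refl _⟩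
    rw [this]; simp
  · rw [if_neg (fun h' => hm h'.2)]
    have : upS F (insert x (insert y S)) = ∅ := by
      rw [Finset.eq_empty_iff_forall_notMem]
      intro A hA
      rw [mem_upS] at hA
      have := Finset.eq_of_subset_of_card_le hA.2 (by rw [(hF A hA.1).2, hc])
      rw [this] at hm
      exact hm hA.1
    rw [this]; simp

open Classical in
theorem w2_base (F : Finset (Finset ℕ)) (V : Finset ℕ) (l : ℕ)
    (hF : ∀ A ∈ F, A ⊆ V ∧ A.card = l) (hE : Exch F) (S : Finset ℕ) (hS : S.card + 2 = l) :
    QQ F V S := by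
  intro u
  set P : Finset ℕ := (V \ S).filter (fun x => (upS F (insert x S)).Nonempty) with hP
  -- adjacency
  set Ad : ℕ → ℕ → Prop := fun x y => x ≠ y ∧ insert x (insert y S) ∈ F with hAd
  have hsym : ∀ x y, Ad x y → Ad y x := by
    rintro x y ⟨h1, h2⟩
    exact ⟨Ne.symm h1, by rwa [Finset.insert_comm]⟩
  have htr : ∀ x y z, x ∈ V \ S → y ∈ P → z ∈ V \ S → Ad x z → Ad x y ∨ Ad y z := by
    intro x y z hx hy hz hxz
    rw [hP, Finset.mem_filter] at hy
    obtain ⟨hyV, A, hA⟩ := hy
    rw [mem_upS] at hA
    rw [Finset.mem_sdiff] at hx hyV hz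
    by_cases hyx : y = x
    · subst hyx; right; exact hxz
    by_cases hyz : y = z
    · subst hyz; left; exact hxz
    -- the other element
    have hyA : y ∈ A := hA.2 (Finset.mem_insert_self _ _)
    have hSA : S ⊆ A := (Finset.subset_insert _ _).trans hA.2
    have hc1 : (insert y S).card = S.card + 1 := Finset.card_insert_of_notMem hyV.2
    have hAc := (hF A hA.1).2
    have hcard : (A \ insert y S).card = 1 := by
      rw [Finset.card_sdiff_of_subset hA.2]
      omega
    obtain ⟨w, hw⟩ := Finset.card_eq_one.1 hcard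
    have hwm : w ∈ A \ insert y S := by rw [hw]; simp
    rw [Finset.mem_sdiff, Finset.mem_insert, not_or] at hwm
    have hAeq : A = insert w (insert y S) := by
      ext t
      constructor
      · intro ht
        by_cases h : t ∈ insert y S
        · exact Finset.mem_insert_of_mem h
        · have : t ∈ A \ insert y S := Finset.mem_sdiff.2 ⟨ht, h⟩
          rw [hw, Finset.mem_singleton] at this
          rw [this]; exact Finset.mem_insert_self _ _
      · intro ht
        rcases Finset.mem_insert.1 ht with h | h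
        · rw [h]; exact hwm.1
        · exact hA.2 h
    by_cases hwx : w = x
    · left
      subst hwx
      exact ⟨Ne.symm hyx, by rw [← hAeq]; exact hA.1⟩
    by_cases hwz : w = z
    · right
      subst hwz
      exact ⟨hyz, by rw [Finset.insert_comm, ← hAeq]; exact hA.1⟩
    have hwB : w ∈ A \ insert x (insert z S) := by
      rw [Finset.mem_sdiff]
      refine ⟨hwm.1, ?_⟩
      simp only [Finset.mem_insert, not_or]
      exact ⟨hwx, hwz, hwm.2.2⟩
    obtain ⟨b, hb, hbF⟩ := hE A hA.1 _ hxz.2 w hwB
    have her : A.erase w = insert y S := by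
      rw [hAeq, Finset.erase_insert]
      simp only [Finset.mem_insert, not_or]
      exact hwm.2
    rw [her] at hbF
    rw [Finset.mem_sdiff, Finset.mem_insert, Finset.mem_insert] at hb
    rcases hb.1 with h | h | h
    · left
      subst h
      exact ⟨Ne.symm hyx, hbF⟩
    · right
      subst h
      exact ⟨hyz, by rw [Finset.insert_comm]; exact hbF⟩
    · exact absurd (hSA h) hb.2
  have hAdP : ∀ x y, x ∈ V \ S → y ∈ V \ S → Ad x y → x ∈ P := by
    intro x y hx hy h
    rw [hP, Finset.mem_filter]
    refine ⟨hx, insert x (insert y S), ?_⟩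
    rw [mem_upS]
    refine ⟨h.2, ?_⟩
    exact Finset.insert_subset_insert _ (Finset.subset_insert _ _)
  -- classes
  set c : ℕ → Finset ℕ := fun x => P.filter (fun y => Ad x y) with hc
  have hcl : ∀ x ∈ P, ∀ y ∈ P, (c x = c y ↔ ¬ Ad x y) := by
    intro x hx y hy
    constructor
    · intro h hxy
      have : y ∈ c x := by rw [hc]; simp only [Finset.mem_filter]; exact ⟨hy, hxy⟩
      rw [h, hc] at this
      simp only [Finset.mem_filter] at this
      exact this.2.1 rfl
    · intro h
      have hxV := (Finset.mem_filter.1 hx).1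
      have hyV := (Finset.mem_filter.1 hy).1
      rw [hc]
      ext t
      simp only [Finset.mem_filter]
      constructor
      · rintro ⟨ht, h1⟩
        have htV := (Finset.mem_filter.1 ht).1
        rcases htr x y t hxV hy htV h1 with h2 | h2
        · exact absurd h2 h
        · exact ⟨ht, h2⟩
      · rintro ⟨ht, h1⟩
        have htV := (Finset.mem_filter.1 ht).1
        rcases htr y x t hyV hx htV h1 with h2 | h2
        · exact absurd (hsym _ _ h2) h
        · exact ⟨ht, h2⟩
  apply revCS (V \ S) (Wt F S) (Wt_nonneg F S) (Wt_symm F S) (fun x => if x ∈ P then 1 else 0)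
  intro v
  have h1 : ∑ x ∈ V \ S, (if x ∈ P then (1 : ℝ) else 0) * v x = ∑ x ∈ P, v x := by
    rw [hP, Finset.sum_filter]
    refine Finset.sum_congr rfl fun x hx => ?_
    simp only [Finset.mem_filter, hx, true_and]
    split_ifs <;> simp
  have h2 : ∑ x ∈ V \ S, ∑ y ∈ V \ S, Wt F S x y * (v x * v y) =
      ∑ x ∈ P, ∑ y ∈ P, (if Ad x y then v x * v y else 0) := by
    have h3 : ∀ x ∈ V \ S, ∀ y ∈ V \ S, Wt F S x y * (v x * v y) =
        if x ∈ P then (if y ∈ P then (if Ad x y then v x * v y else 0) else 0) else 0 := by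
      intro x hx y hy
      rw [w2_top F V l hF S hS x y hx hy]
      by_cases h : Ad x y
      · rw [if_pos (hAdP x y hx hy h), if_pos (hAdP y x hy hx (hsym _ _ h)), if_pos h, if_pos h, one_mul]
      · rw [if_neg h, if_neg h, zero_mul]
        simp
    have h3' : ∑ x ∈ V \ S, ∑ y ∈ V \ S, Wt F S x y * (v x * v y) = ∑ x ∈ V \ S, ∑ y ∈ V \ S,
        (if x ∈ P then (if y ∈ P then (if Ad x y then v x * v y else 0) else 0) else 0) :=
      Finset.sum_congr rfl fun x hx => Finset.sum_congr rfl fun y hy => h3 x hx y hy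
    rw [h3']
    rw [hP, Finset.sum_filter]
    refine Finset.sum_congr rfl fun x hx => ?_
    simp only [Finset.mem_filter, hx, true_and]
    by_cases h : (upS F (insert x S)).Nonempty
    · simp only [h, if_true]
      rw [Finset.sum_filter]
      refine Finset.sum_congr rfl fun y hy => ?_
      simp only [hy, true_and]
    · simp only [h, if_false, Finset.sum_const_zero]
  rw [h1, h2]
  have h3 := w2_psd P c v
  have h4 : ∑ x ∈ P, ∑ y ∈ P, (if c x = c y then v x * v y else 0) =
      (∑ x ∈ P, v x) ^ 2 - ∑ x ∈ P, ∑ y ∈ P, (if Ad x y then v x * v y else 0) := by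
    rw [pow_two, Finset.sum_mul_sum, ← Finset.sum_sub_distrib]
    refine Finset.sum_congr rfl fun x hx => ?_
    rw [← Finset.sum_sub_distrib]
    refine Finset.sum_congr rfl fun y hy => ?_
    have := hcl x hx y hy
    by_cases h : Ad x y
    · rw [if_pos h, if_neg (fun h' => (this.1 h') h)]; ring
    · rw [if_neg h, if_pos (this.2 h)]; ring
  rw [h4] at h3
  linarith

/-- TARGET -/
theorem sQQ : SQQ := by
  intro F V l hF hE
  have key : ∀ (r : ℕ) (S : Finset ℕ), S.card + (r + 2) = l → QQ F V S := by
    intro r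
    induction r with
    | zero =>
      intro S hS
      exact w2_base F V l hF hE S (by omega)
    | succ r ih =>
      intro S hS
      refine w2_QQ_step F V l r hF S (by omega) (w2_conn F V l r hF hE S (by omega)) ?_
      intro z hz
      apply ih
      rw [Finset.card_insert_of_notMem (Finset.mem_sdiff.1 hz).2]
      omega
  intro S hS
  exact key (l - S.card - 2) S (by omega)

end Pool.Agent.H330ST.JW2
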