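/- ST W3 sGap, by helper27. -/
import Pool.Agent.H330ST.Spec
set_option autoImplicit false
noncomputable section
namespace Pool.Agent.H330ST.JW3
open Pool.Agent.H685R2.Poly
open scoped ENNReal

open Pool.Agent.Helper870.DT (upS QQ Wt mem_upS double_count Wt_row Wt_sum sum_offdiag Wt_nonneg
  Wt_symm)

/-- sum of `f` over the facets above `T` -/
def w3_sm (F : Finset (Finset ℕ)) (f : Finset ℕ → ℝ) (T : Finset ℕ) : ℝ := ∑ A ∈ upS F T, f A

/-- number of facets above `T` -/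
def w3_nn (F : Finset (Finset ℕ)) (T : Finset ℕ) : ℝ := ((upS F T).card : ℝ)

/-- mean of `f` over the facets above `T` -/
def w3_mu (F : Finset (Finset ℕ)) (f : Finset ℕ → ℝ) (T : Finset ℕ) : ℝ := w3_sm F f T / w3_nn F T

/-- the square of the sum over the number -/
def w3_ph (F : Finset (Finset ℕ)) (f : Finset ℕ → ℝ) (T : Finset ℕ) : ℝ :=
  w3_sm F f T ^ 2 / w3_nn F T

theorem w3_nn_nonneg (F : Finset (Finset ℕ)) (T : Finset ℕ) : 0 ≤ w3_nn F T := Nat.cast_nonneg _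

theorem w3_sm_zero {F : Finset (Finset ℕ)} {T : Finset ℕ} (f : Finset ℕ → ℝ) (h : w3_nn F T = 0) :
    w3_sm F f T = 0 := by
  have h1 : (upS F T).card = 0 := by
    unfold w3_nn at h
    exact_mod_cast h
  unfold w3_sm
  rw [Finset.card_eq_zero.1 h1, Finset.sum_empty]

theorem w3_nn_mu (F : Finset (Finset ℕ)) (f : Finset ℕ → ℝ) (T : Finset ℕ) :
    w3_nn F T * w3_mu F f T = w3_sm F f T := by
  unfold w3_mu
  rcases eq_or_ne (w3_nn F T) 0 with h | h
  · rw [w3_sm_zero f h, h, zero_mul]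
  · field_simp

theorem w3_sm_mu (F : Finset (Finset ℕ)) (f : Finset ℕ → ℝ) (T : Finset ℕ) :
    w3_sm F f T * w3_mu F f T = w3_ph F f T := by
  unfold w3_mu w3_ph
  ring

theorem w3_nn_mu2 (F : Finset (Finset ℕ)) (f : Finset ℕ → ℝ) (T : Finset ℕ) :
    w3_nn F T * w3_mu F f T ^ 2 = w3_ph F f T := by
  rw [pow_two, ← mul_assoc, w3_nn_mu, w3_sm_mu]

theorem w3_nn_mono (F : Finset (Finset ℕ)) {S T : Finset ℕ} (h : S ⊆ T) : w3_nn F T ≤ w3_nn F S := by
  unfold w3_nn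
  refine Nat.cast_le.2 (Finset.card_le_card ?_)
  intro A hA
  rw [mem_upS] at hA ⊢
  exact ⟨hA.1, h.trans hA.2⟩

/-- the local inequality -/
theorem w3_local (F : Finset (Finset ℕ)) (V : Finset ℕ) (l r : ℕ)
    (hF : ∀ A ∈ F, A ⊆ V ∧ A.card = l) (S : Finset ℕ) (hS : S.card + (r + 2) = l)
    (hQ : QQ F V S) (f : Finset ℕ → ℝ) :
    0 ≤ ∑ x ∈ V \ S, ∑ y ∈ V \ S, (if x = y then 0 else w3_ph F f (insert x (insert y S))) -
      2 * ((r : ℝ) + 1) * ∑ x ∈ V \ S, w3_ph F f (insert x S) +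
      ((r : ℝ) + 1) * ((r : ℝ) + 2) * w3_ph F f S := by
  set U := V \ S with hU
  set W : ℕ → ℕ → ℝ := Wt F S with hW
  set u : ℕ → ℝ := fun x => w3_mu F f (insert x S) with hu
  set m : ℝ := w3_mu F f S with hm
  set M : ℕ → ℕ → ℝ := fun x y => w3_mu F f (insert x (insert y S)) with hM
  have hMs : ∀ x y, M x y = M y x := by
    intro x y
    rw [hM]
    simp only
    rw [Finset.insert_comm]
  have hWs : ∀ x y, W x y = W y x := fun x y => Wt_symm F S x y
  have hW0 : ∀ x y, 0 ≤ W x y := fun x y => Wt_nonneg F S x y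
  have hWnn : ∀ x y, x ≠ y → W x y = w3_nn F (insert x (insert y S)) := by
    intro x y hxy
    rw [hW]
    unfold Wt w3_nn
    rw [if_neg hxy]
  have hWd : ∀ x, W x x = 0 := by
    intro x
    rw [hW]
    unfold Wt
    rw [if_pos rfl]
  have hrow : ∀ x ∈ U, ∑ y ∈ U, W x y = ((r : ℝ) + 1) * w3_nn F (insert x S) := by
    intro x hx
    have h := Wt_sum F V l (r + 1) hF S (by omega) x hx
    rw [hW]
    push_cast at h
    exact h
  have hrowf : ∀ x ∈ U, ∑ y ∈ U, W x y * M x y = ((r : ℝ) + 1) * w3_sm F f (insert x S) := by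
    intro x hx
    have h := Wt_row F V l (r + 1) hF S (by omega) x hx f
    push_cast at h
    unfold w3_sm
    rw [← h]
    refine Finset.sum_congr rfl fun y _ => ?_
    by_cases hxy : x = y
    · rw [if_pos hxy, hxy, hWd, zero_mul]
    · rw [if_neg hxy, hWnn x y hxy]
      exact w3_nn_mu F f _
  have hdc : ∑ x ∈ U, w3_nn F (insert x S) = ((r : ℝ) + 2) * w3_nn F S := by
    have h := double_count F V l (r + 2) hF S hS (fun _ => 1)
    simp only [Finset.sum_const, nsmul_eq_mul, mul_one] at h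
    push_cast at h
    exact h
  have hdcf : ∑ x ∈ U, w3_sm F f (insert x S) = ((r : ℝ) + 2) * w3_sm F f S := by
    have h := double_count F V l (r + 2) hF S hS f
    push_cast at h
    exact h
  -- the seven sums
  have S1 : ∑ x ∈ U, ∑ y ∈ U, W x y * M x y ^ 2 =
      ∑ x ∈ U, ∑ y ∈ U, (if x = y then 0 else w3_ph F f (insert x (insert y S))) := by
    refine Finset.sum_congr rfl fun x _ => Finset.sum_congr rfl fun y _ => ?_
    by_cases hxy : x = y
    · rw [if_pos hxy, hxy, hWd, zero_mul]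
    · rw [if_neg hxy, hWnn x y hxy]
      exact w3_nn_mu2 F f _
  have S2 : ∑ x ∈ U, ∑ y ∈ U, W x y * M x y * u x =
      ((r : ℝ) + 1) * ∑ x ∈ U, w3_ph F f (insert x S) := by
    rw [Finset.mul_sum]
    refine Finset.sum_congr rfl fun x hx => ?_
    rw [← Finset.sum_mul, hrowf x hx, mul_assoc]
    congr 1
    exact w3_sm_mu F f _
  have S2' : ∑ x ∈ U, ∑ y ∈ U, W x y * M x y * u y = ∑ x ∈ U, ∑ y ∈ U, W x y * M x y * u x := by
    rw [Finset.sum_comm]
    refine Finset.sum_congr rfl fun x _ => Finset.sum_congr rfl fun y _ => ?_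
    rw [hWs y x, hMs y x]
  have S3 : ∑ x ∈ U, ∑ y ∈ U, W x y * u x ^ 2 =
      ((r : ℝ) + 1) * ∑ x ∈ U, w3_ph F f (insert x S) := by
    rw [Finset.mul_sum]
    refine Finset.sum_congr rfl fun x hx => ?_
    rw [← Finset.sum_mul, hrow x hx, mul_assoc]
    congr 1
    exact w3_nn_mu2 F f _
  have S3' : ∑ x ∈ U, ∑ y ∈ U, W x y * u y ^ 2 = ∑ x ∈ U, ∑ y ∈ U, W x y * u x ^ 2 := by
    rw [Finset.sum_comm]
    refine Finset.sum_congr rfl fun x _ => Finset.sum_congr rfl fun y _ => ?_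
    rw [hWs y x]
  have S5 : ∑ x ∈ U, ∑ y ∈ U, W x y * M x y = ((r : ℝ) + 1) * (((r : ℝ) + 2) * w3_sm F f S) := by
    rw [← hdcf, Finset.mul_sum]
    exact Finset.sum_congr rfl fun x hx => hrowf x hx
  have S6 : ∑ x ∈ U, ∑ y ∈ U, W x y * u x = ((r : ℝ) + 1) * (((r : ℝ) + 2) * w3_sm F f S) := by
    rw [← hdcf, Finset.mul_sum]
    refine Finset.sum_congr rfl fun x hx => ?_
    rw [← Finset.sum_mul, hrow x hx, mul_assoc]
    congr 1
    exact w3_nn_mu F f _
  have S6' : ∑ x ∈ U, ∑ y ∈ U, W x y * u y = ∑ x ∈ U, ∑ y ∈ U, W x y * u x := by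
    rw [Finset.sum_comm]
    refine Finset.sum_congr rfl fun x _ => Finset.sum_congr rfl fun y _ => ?_
    rw [hWs y x]
  have S7 : ∑ x ∈ U, ∑ y ∈ U, W x y = ((r : ℝ) + 1) * (((r : ℝ) + 2) * w3_nn F S) := by
    rw [← hdc, Finset.mul_sum]
    exact Finset.sum_congr rfl fun x hx => hrow x hx
  have hr1 : (0 : ℝ) < (r : ℝ) + 1 := by positivity
  have hr2 : (0 : ℝ) < (r : ℝ) + 2 := by positivity
  have S4 : ∑ x ∈ U, ∑ y ∈ U, W x y * (u x * u y) ≤
      ((r : ℝ) + 1) * (((r : ℝ) + 2) * w3_ph F f S) := by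
    have hq := hQ u
    rw [← hU, ← hW] at hq
    have h6 : ∑ x ∈ U, (∑ y ∈ U, W x y) * u x = ∑ x ∈ U, ∑ y ∈ U, W x y * u x :=
      Finset.sum_congr rfl fun x _ => Finset.sum_mul _ _ _
    rw [h6, S6, S7] at hq
    rcases (w3_nn_nonneg F S).eq_or_lt with h0 | hpos
    · have hz : ∀ x y, W x y = 0 := by
        intro x y
        by_cases hxy : x = y
        · rw [hxy, hWd]
        · refine le_antisymm ?_ (hW0 x y)
          rw [hWnn x y hxy, h0]
          exact w3_nn_mono F ((Finset.subset_insert _ _).trans (Finset.subset_insert _ _))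
      have h1 : ∑ x ∈ U, ∑ y ∈ U, W x y * (u x * u y) = 0 :=
        Finset.sum_eq_zero fun x _ => Finset.sum_eq_zero fun y _ => by rw [hz, zero_mul]
      rw [h1]
      unfold w3_ph
      rw [← h0, div_zero, mul_zero, mul_zero]
    · set X := ∑ x ∈ U, ∑ y ∈ U, W x y * (u x * u y) with hX
      unfold w3_ph
      rw [mul_div_assoc', mul_div_assoc', le_div_iff₀ hpos]
      have hP : 0 < ((r : ℝ) + 1) * ((r : ℝ) + 2) := mul_pos hr1 hr2
      refine le_of_mul_le_mul_left ?_ hP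
      calc ((r : ℝ) + 1) * ((r : ℝ) + 2) * (X * w3_nn F S) =
            ((r : ℝ) + 1) * (((r : ℝ) + 2) * w3_nn F S) * X := by ring
        _ ≤ (((r : ℝ) + 1) * (((r : ℝ) + 2) * w3_sm F f S)) ^ 2 := hq
        _ = _ := by ring
  have hE : 0 ≤ ∑ x ∈ U, ∑ y ∈ U, W x y * (M x y - u x - u y + m) ^ 2 :=
    Finset.sum_nonneg fun x _ => Finset.sum_nonneg fun y _ => mul_nonneg (hW0 x y) (sq_nonneg _)
  have hexp : ∑ x ∈ U, ∑ y ∈ U, W x y * (M x y - u x - u y + m) ^ 2 =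
      ∑ x ∈ U, ∑ y ∈ U, W x y * M x y ^ 2 - 2 * ∑ x ∈ U, ∑ y ∈ U, W x y * M x y * u x -
      2 * ∑ x ∈ U, ∑ y ∈ U, W x y * M x y * u y + ∑ x ∈ U, ∑ y ∈ U, W x y * u x ^ 2 +
      ∑ x ∈ U, ∑ y ∈ U, W x y * u y ^ 2 + 2 * ∑ x ∈ U, ∑ y ∈ U, W x y * (u x * u y) +
      2 * m * ∑ x ∈ U, ∑ y ∈ U, W x y * M x y - 2 * m * ∑ x ∈ U, ∑ y ∈ U, W x y * u x -
      2 * m * ∑ x ∈ U, ∑ y ∈ U, W x y * u y + m ^ 2 * ∑ x ∈ U, ∑ y ∈ U, W x y := by
    simp only [Finset.mul_sum, ← Finset.sum_add_distrib, ← Finset.sum_sub_distrib]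
    refine Finset.sum_congr rfl fun x _ => Finset.sum_congr rfl fun y _ => ?_
    ring
  rw [hexp, S2', S3', S6', S1, S2, S3, S5, S6, S7] at hE
  have e1 : m * w3_sm F f S = w3_ph F f S := by
    rw [mul_comm]
    exact w3_sm_mu F f S
  have e2 : m ^ 2 * w3_nn F S = w3_ph F f S := by
    rw [mul_comm]
    exact w3_nn_mu2 F f S
  have e3 : 2 * m * (((r : ℝ) + 1) * (((r : ℝ) + 2) * w3_sm F f S)) =
      2 * (((r : ℝ) + 1) * (((r : ℝ) + 2) * w3_ph F f S)) := by
    rw [← e1]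
    ring
  have e4 : m ^ 2 * (((r : ℝ) + 1) * (((r : ℝ) + 2) * w3_nn F S)) =
      ((r : ℝ) + 1) * (((r : ℝ) + 2) * w3_ph F f S) := by
    rw [← e2]
    ring
  rw [e3, e4] at hE
  linarith

/-- summation over sets with one more element -/
theorem w3_up (V : Finset ℕ) (k : ℕ) (g : Finset ℕ → ℝ) :
    ∑ S ∈ V.powersetCard k, ∑ x ∈ V \ S, g (insert x S) =
      ((k : ℝ) + 1) * ∑ T ∈ V.powersetCard (k + 1), g T := by
  have h1 : ((k : ℝ) + 1) * ∑ T ∈ V.powersetCard (k + 1), g T =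
      ∑ T ∈ V.powersetCard (k + 1), ∑ _x ∈ T, g T := by
    rw [Finset.mul_sum]
    refine Finset.sum_congr rfl fun T hT => ?_
    rw [Finset.sum_const, (Finset.mem_powersetCard.1 hT).2, nsmul_eq_mul]
    push_cast
    ring
  rw [h1, Finset.sum_sigma', Finset.sum_sigma']
  refine Finset.sum_bij' (fun p _ => ⟨insert p.2 p.1, p.2⟩) (fun p _ => ⟨p.1.erase p.2, p.2⟩)
    ?_ ?_ ?_ ?_ ?_
  · rintro ⟨S, x⟩ h
    simp only [Finset.mem_sigma, Finset.mem_powersetCard, Finset.mem_sdiff] at h ⊢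
    refine ⟨⟨Finset.insert_subset h.2.1 h.1.1, ?_⟩, Finset.mem_insert_self _ _⟩
    rw [Finset.card_insert_of_notMem h.2.2, h.1.2]
  · rintro ⟨T, x⟩ h
    simp only [Finset.mem_sigma, Finset.mem_powersetCard, Finset.mem_sdiff] at h ⊢
    refine ⟨⟨(Finset.erase_subset _ _).trans h.1.1, ?_⟩, h.1.1 h.2, Finset.notMem_erase _ _⟩
    rw [Finset.card_erase_of_mem h.2, h.1.2]
    rfl
  · rintro ⟨S, x⟩ h
    simp only [Finset.mem_sigma, Finset.mem_powersetCard, Finset.mem_sdiff] at h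
    simp only [Finset.erase_insert h.2.2]
  · rintro ⟨T, x⟩ h
    simp only [Finset.mem_sigma, Finset.mem_powersetCard] at h
    simp only [Finset.insert_erase h.2]
  · rintro ⟨S, x⟩ h
    rfl

/-- sum over the sets with `k` elements -/
def w3_Ps (F : Finset (Finset ℕ)) (V : Finset ℕ) (f : Finset ℕ → ℝ) (k : ℕ) : ℝ :=
  ∑ T ∈ V.powersetCard k, w3_ph F f T

theorem w3_rec (F : Finset (Finset ℕ)) (V : Finset ℕ) (l r k : ℕ)
    (hF : ∀ A ∈ F, A ⊆ V ∧ A.card = l) (hk : k + (r + 2) = l)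
    (hQ : ∀ S : Finset ℕ, S.card + 2 ≤ l → QQ F V S) (f : Finset ℕ → ℝ) :
    0 ≤ ((k : ℝ) + 1) * (((k : ℝ) + 2) * w3_Ps F V f (k + 2)) -
      2 * ((r : ℝ) + 1) * (((k : ℝ) + 1) * w3_Ps F V f (k + 1)) +
      ((r : ℝ) + 1) * ((r : ℝ) + 2) * w3_Ps F V f k := by
  have h1 : ∀ S ∈ V.powersetCard k,
      0 ≤ ∑ x ∈ V \ S, (∑ y ∈ V \ insert x S, w3_ph F f (insert y (insert x S))) -
      2 * ((r : ℝ) + 1) * ∑ x ∈ V \ S, w3_ph F f (insert x S) +
      ((r : ℝ) + 1) * ((r : ℝ) + 2) * w3_ph F f S := by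
    intro S hS
    rw [Finset.mem_powersetCard] at hS
    have h2 := w3_local F V l r hF S (by omega) (hQ S (by omega)) f
    have h3 : ∑ x ∈ V \ S, ∑ y ∈ V \ S, (if x = y then 0 else w3_ph F f (insert x (insert y S))) =
        ∑ x ∈ V \ S, (∑ y ∈ V \ insert x S, w3_ph F f (insert y (insert x S))) := by
      refine Finset.sum_congr rfl fun x hx => ?_
      rw [sum_offdiag V S x hx]
      refine Finset.sum_congr rfl fun y _ => ?_
      rw [Finset.insert_comm]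
    rw [h3] at h2
    exact h2
  have h4 := Finset.sum_nonneg h1
  rw [Finset.sum_add_distrib, Finset.sum_sub_distrib, ← Finset.mul_sum, ← Finset.mul_sum,
    w3_up V k (fun T => ∑ y ∈ V \ T, w3_ph F f (insert y T)), w3_up V (k + 1) (fun T => w3_ph F f T),
    w3_up V k (fun T => w3_ph F f T)] at h4
  unfold w3_Ps
  push_cast at h4
  have e : (k : ℝ) + 1 + 1 = (k : ℝ) + 2 := by ring
  rw [e] at h4
  exact h4

theorem w3_convex (a : ℕ → ℝ) (l : ℕ) (h : ∀ k, k + 2 ≤ l → 0 ≤ a (k + 2) - 2 * a (k + 1) + a k) :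
    ∀ n, n + 1 ≤ l → a (n + 1) - a 0 ≤ ((n : ℝ) + 1) * (a (n + 1) - a n) := by
  intro n
  induction n with
  | zero =>
    intro _
    simp
  | succ n ih =>
    intro hn
    have h1 := ih (by omega)
    have h2 := h n (by omega)
    push_cast
    have h3 : 0 ≤ ((n : ℝ) + 1) * (a (n + 2) - 2 * a (n + 1) + a n) := mul_nonneg (by positivity) h2
    have e : n + 1 + 1 = n + 2 := rfl
    rw [e]
    nlinarith

theorem w3_main (F : Finset (Finset ℕ)) (V : Finset ℕ) (n : ℕ)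
    (hF : ∀ A ∈ F, A ⊆ V ∧ A.card = n + 1)
    (hQ : ∀ S : Finset ℕ, S.card + 2 ≤ n + 1 → QQ F V S) (f : Finset ℕ → ℝ) :
    w3_Ps F V f (n + 1) - w3_Ps F V f 0 ≤ ((n : ℝ) + 1) * w3_Ps F V f (n + 1) - w3_Ps F V f n := by
  have h := w3_convex (fun k => w3_Ps F V f k / ((n + 1).choose k : ℝ)) (n + 1) ?_ n le_rfl
  · simp only [Nat.choose_self, Nat.cast_one, div_one, Nat.choose_zero_right] at h
    rw [Nat.choose_succ_self_right, Nat.cast_add, Nat.cast_one] at h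
    have hn : (0 : ℝ) < (n : ℝ) + 1 := by positivity
    have e : ((n : ℝ) + 1) * (w3_Ps F V f (n + 1) - w3_Ps F V f n / ((n : ℝ) + 1)) =
        ((n : ℝ) + 1) * w3_Ps F V f (n + 1) - w3_Ps F V f n := by
      field_simp
    rw [e] at h
    exact h
  · intro k hk
    obtain ⟨r, hr⟩ : ∃ r, k + (r + 2) = n + 1 := ⟨n + 1 - (k + 2), by omega⟩
    have h1 := w3_rec F V (n + 1) r k hF hr hQ f
    have hc : ∀ j, j ≤ n + 1 → (0 : ℝ) < ((n + 1).choose j : ℝ) := fun j hj =>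
      Nat.cast_pos.2 (Nat.choose_pos hj)
    have c1 : ((n + 1).choose (k + 1) : ℝ) * ((k : ℝ) + 1) = ((n + 1).choose k : ℝ) * ((r : ℝ) + 2) := by
      have := Nat.choose_succ_right_eq (n + 1) k
      have e : n + 1 - k = r + 2 := by omega
      rw [e] at this
      exact_mod_cast this
    have c2 : ((n + 1).choose (k + 2) : ℝ) * ((k : ℝ) + 2) =
        ((n + 1).choose (k + 1) : ℝ) * ((r : ℝ) + 1) := by
      have := Nat.choose_succ_right_eq (n + 1) (k + 1)
      have e : n + 1 - (k + 1) = r + 1 := by omega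
      rw [e] at this
      exact_mod_cast this
    have p0 := hc k (by omega)
    have p1 := hc (k + 1) (by omega)
    have p2 := hc (k + 2) (by omega)
    set c := ((n + 1).choose k : ℝ) with hc0
    set d := ((n + 1).choose (k + 1) : ℝ) with hd0
    set e := ((n + 1).choose (k + 2) : ℝ) with he0
    have q0 : w3_Ps F V f k = c * (w3_Ps F V f k / c) := by field_simp
    have q1 : w3_Ps F V f (k + 1) = d * (w3_Ps F V f (k + 1) / d) := by field_simp
    have q2 : w3_Ps F V f (k + 2) = e * (w3_Ps F V f (k + 2) / e) := by field_simp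
    set A0 := w3_Ps F V f k / c with hA0
    set A1 := w3_Ps F V f (k + 1) / d with hA1
    set A2 := w3_Ps F V f (k + 2) / e with hA2
    rw [q0, q1, q2] at h1
    have h2 : ((k : ℝ) + 1) * (((k : ℝ) + 2) * (e * A2)) -
        2 * ((r : ℝ) + 1) * (((k : ℝ) + 1) * (d * A1)) + ((r : ℝ) + 1) * ((r : ℝ) + 2) * (c * A0) =
        (c * (((r : ℝ) + 1) * ((r : ℝ) + 2))) * (A2 - 2 * A1 + A0) := by
      have t1 : ((k : ℝ) + 1) * (((k : ℝ) + 2) * (e * A2)) = c * (((r : ℝ) + 1) * ((r : ℝ) + 2)) * A2 := by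
        calc ((k : ℝ) + 1) * (((k : ℝ) + 2) * (e * A2)) = ((k : ℝ) + 1) * (e * ((k : ℝ) + 2)) * A2 := by ring
          _ = ((r : ℝ) + 1) * (d * ((k : ℝ) + 1)) * A2 := by rw [c2]; ring
          _ = _ := by rw [c1]; ring
      have t2 : 2 * ((r : ℝ) + 1) * (((k : ℝ) + 1) * (d * A1)) =
          2 * (c * (((r : ℝ) + 1) * ((r : ℝ) + 2))) * A1 := by
        calc 2 * ((r : ℝ) + 1) * (((k : ℝ) + 1) * (d * A1)) =
              2 * ((r : ℝ) + 1) * (d * ((k : ℝ) + 1)) * A1 := by ring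
          _ = _ := by rw [c1]; ring
      rw [t1, t2]
      ring
    rw [h2] at h1
    exact nonneg_of_mul_nonneg_right h1 (by positivity)

theorem w3_top (F : Finset (Finset ℕ)) (V : Finset ℕ) (l : ℕ)
    (hF : ∀ A ∈ F, A ⊆ V ∧ A.card = l) (f : Finset ℕ → ℝ) :
    w3_Ps F V f l = ∑ A ∈ F, f A ^ 2 := by
  unfold w3_Ps
  have h1 : ∀ T ∈ V.powersetCard l, w3_ph F f T = if T ∈ F then f T ^ 2 else 0 := by
    intro T hT
    rw [Finset.mem_powersetCard] at hT
    have h2 : ∀ A, A ∈ upS F T ↔ A ∈ F ∧ A = T := by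
      intro A
      rw [mem_upS]
      constructor
      · rintro ⟨hA, hs⟩
        refine ⟨hA, (Finset.eq_of_subset_of_card_le hs ?_).symm⟩
        rw [(hF A hA).2, hT.2]
      · rintro ⟨hA, rfl⟩
        exact ⟨hA, Finset.Subset.refl _⟩
    unfold w3_ph w3_sm w3_nn
    split_ifs with h
    · have h3 : upS F T = {T} := by
        ext A
        rw [h2, Finset.mem_singleton]
        constructor
        · exact fun h => h.2
        · rintro rfl
          exact ⟨h, rfl⟩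
      rw [h3, Finset.sum_singleton, Finset.card_singleton]
      simp
    · have h3 : upS F T = ∅ := by
        ext A
        rw [h2]
        constructor
        · rintro ⟨h4, rfl⟩
          exact absurd h4 h
        · intro h4
          exact absurd h4 (Finset.notMem_empty _)
      rw [h3]
      simp
  rw [Finset.sum_congr rfl h1, ← Finset.sum_filter]
  refine Finset.sum_congr ?_ fun _ _ => rfl
  ext A
  rw [Finset.mem_filter, Finset.mem_powersetCard]
  constructor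
  · exact fun h => h.2
  · exact fun h => ⟨hF A h, h⟩

theorem w3_bot (F : Finset (Finset ℕ)) (V : Finset ℕ) (f : Finset ℕ → ℝ) :
    w3_Ps F V f 0 = (∑ A ∈ F, f A) ^ 2 / (F.card : ℝ) := by
  unfold w3_Ps
  rw [Finset.powersetCard_zero, Finset.sum_singleton]
  have h : upS F ∅ = F := by
    ext A
    rw [mem_upS]
    simp
  unfold w3_ph w3_sm w3_nn
  rw [h]

theorem w3_cnt (F : Finset (Finset ℕ)) (V : Finset ℕ) (n : ℕ)
    (hF : ∀ A ∈ F, A ⊆ V ∧ A.card = n + 1) (g : Finset ℕ → ℝ) :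
    ∑ T ∈ V.powersetCard n, ∑ A ∈ upS F T, g A = ((n : ℝ) + 1) * ∑ A ∈ F, g A := by
  have h1 : ∀ T ∈ V.powersetCard n, ∑ A ∈ upS F T, g A = ∑ A ∈ F, if T ⊆ A then g A else 0 := by
    intro T _
    unfold upS
    rw [Finset.sum_filter]
  rw [Finset.sum_congr rfl h1, Finset.sum_comm, Finset.mul_sum]
  refine Finset.sum_congr rfl fun A hA => ?_
  rw [← Finset.sum_filter, Finset.sum_const, nsmul_eq_mul]
  congr 1
  have h2 : (V.powersetCard n).filter (fun T => T ⊆ A) = A.powersetCard n := by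
    ext T
    rw [Finset.mem_filter, Finset.mem_powersetCard, Finset.mem_powersetCard]
    constructor
    · exact fun h => ⟨h.2, h.1.2⟩
    · exact fun h => ⟨⟨h.1.trans (hF A hA).1, h.2⟩, h.1⟩
  rw [h2, Finset.card_powersetCard, (hF A hA).2, Nat.choose_succ_self_right]
  push_cast
  ring

theorem w3_var (X : Finset (Finset ℕ)) (f : Finset ℕ → ℝ) :
    ∑ A ∈ X, f A ^ 2 - (∑ A ∈ X, f A) ^ 2 / (X.card : ℝ) ≤
      1 / 4 * ∑ A ∈ X, ∑ B ∈ X, (f A - f B) ^ 2 := by
  have hD : ∑ A ∈ X, ∑ B ∈ X, (f A - f B) ^ 2 =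
      2 * ((X.card : ℝ) * ∑ A ∈ X, f A ^ 2) - 2 * (∑ A ∈ X, f A) ^ 2 := by
    have h1 : ∀ A ∈ X, ∑ B ∈ X, (f A - f B) ^ 2 =
        (X.card : ℝ) * f A ^ 2 + ∑ B ∈ X, f B ^ 2 - 2 * (f A * ∑ B ∈ X, f B) := by
      intro A _
      rw [Finset.mul_sum, Finset.mul_sum, ← nsmul_eq_mul, ← Finset.sum_const,
        ← Finset.sum_add_distrib, ← Finset.sum_sub_distrib]
      exact Finset.sum_congr rfl fun B _ => by ring
    rw [Finset.sum_congr rfl h1, Finset.sum_sub_distrib, Finset.sum_add_distrib, ← Finset.mul_sum,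
      ← Finset.mul_sum, ← Finset.sum_mul, Finset.sum_const, nsmul_eq_mul]
    ring
  have hD0 : 0 ≤ ∑ A ∈ X, ∑ B ∈ X, (f A - f B) ^ 2 :=
    Finset.sum_nonneg fun _ _ => Finset.sum_nonneg fun _ _ => sq_nonneg _
  rcases Nat.lt_or_ge X.card 2 with h | h
  · rcases Nat.lt_or_ge X.card 1 with h0 | h1
    · have : X = ∅ := Finset.card_eq_zero.1 (by omega)
      rw [this]
      simp
    · have h2 : X.card = 1 := by omega
      obtain ⟨A, rfl⟩ := Finset.card_eq_one.1 h2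
      simp
  · have hX : (2 : ℝ) ≤ (X.card : ℝ) := by exact_mod_cast h
    have hX0 : (0 : ℝ) < (X.card : ℝ) := by linarith
    have e : ∑ A ∈ X, f A ^ 2 - (∑ A ∈ X, f A) ^ 2 / (X.card : ℝ) =
        (∑ A ∈ X, ∑ B ∈ X, (f A - f B) ^ 2) / (2 * (X.card : ℝ)) := by
      rw [hD]
      field_simp
    rw [e, div_le_iff₀ (by positivity)]
    nlinarith

theorem w3_pairs (F : Finset (Finset ℕ)) (V : Finset ℕ) (n : ℕ)
    (hF : ∀ A ∈ F, A ⊆ V ∧ A.card = n + 1) (f : Finset ℕ → ℝ) :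
    ∑ T ∈ V.powersetCard n, ∑ A ∈ upS F T, ∑ B ∈ upS F T, (f A - f B) ^ 2 =
      ∑ A ∈ F, ∑ B ∈ F, if (A ∩ B).card + 1 = n + 1 then (f A - f B) ^ 2 else 0 := by
  have h1 : ∀ T ∈ V.powersetCard n, ∑ A ∈ upS F T, ∑ B ∈ upS F T, (f A - f B) ^ 2 =
      ∑ A ∈ F, ∑ B ∈ F, if T ⊆ A ∩ B then (f A - f B) ^ 2 else 0 := by
    intro T _
    unfold upS
    rw [Finset.sum_filter]
    refine Finset.sum_congr rfl fun A _ => ?_
    split_ifs with h
    · rw [Finset.sum_filter]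
      refine Finset.sum_congr rfl fun B _ => ?_
      by_cases hB : T ⊆ B
      · rw [if_pos hB, if_pos (Finset.subset_inter h hB)]
      · rw [if_neg hB, if_neg (fun hc => hB (hc.trans Finset.inter_subset_right))]
    · symm
      refine Finset.sum_eq_zero fun B _ => ?_
      rw [if_neg (fun hc => h (hc.trans Finset.inter_subset_left))]
  rw [Finset.sum_congr rfl h1, Finset.sum_comm]
  refine Finset.sum_congr rfl fun A hA => ?_
  rw [Finset.sum_comm]
  refine Finset.sum_congr rfl fun B hB => ?_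
  by_cases hAB : A = B
  · subst hAB
    simp
  rw [← Finset.sum_filter, Finset.sum_const, nsmul_eq_mul]
  have h2 : (V.powersetCard n).filter (fun T => T ⊆ A ∩ B) = (A ∩ B).powersetCard n := by
    ext T
    rw [Finset.mem_filter, Finset.mem_powersetCard, Finset.mem_powersetCard]
    constructor
    · exact fun h => ⟨h.2, h.1.2⟩
    · exact fun h => ⟨⟨(h.1.trans Finset.inter_subset_left).trans (hF A hA).1, h.2⟩, h.1⟩
  rw [h2, Finset.card_powersetCard]
  have h3 : (A ∩ B).card ≤ n := by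
    by_contra hcon
    have h4 : A ∩ B = A := Finset.eq_of_subset_of_card_le Finset.inter_subset_left
      (by rw [(hF A hA).2]; omega)
    have h5 : A ∩ B = B := Finset.eq_of_subset_of_card_le Finset.inter_subset_right
      (by rw [(hF B hB).2]; omega)
    exact hAB (h4.symm.trans h5)
  by_cases h4 : (A ∩ B).card = n
  · rw [h4, Nat.choose_self, if_pos rfl]
    simp
  · rw [Nat.choose_eq_zero_of_lt (by omega), if_neg (by omega)]
    simp

/-- TARGET -/
theorem sGap : SGap := by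
  intro F V l hF hQ f
  rcases Nat.eq_zero_or_pos l with rfl | hl
  · have h1 : F ⊆ {∅} := by
      intro A hA
      rw [Finset.mem_singleton]
      exact Finset.card_eq_zero.1 (hF A hA).2
    rcases Finset.subset_singleton_iff.1 h1 with h2 | h2
    · rw [h2]
      simp
    · rw [h2]
      simp
  obtain ⟨n, rfl⟩ : ∃ n, l = n + 1 := ⟨l - 1, by omega⟩
  have hm := w3_main F V n hF hQ f
  rw [w3_top F V (n + 1) hF f, w3_bot F V f, ← w3_cnt F V n hF (fun A => f A ^ 2)] at hm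
  unfold w3_Ps at hm
  rw [← Finset.sum_sub_distrib] at hm
  have h1 : ∑ T ∈ V.powersetCard n, (∑ A ∈ upS F T, f A ^ 2 - w3_ph F f T) ≤
      ∑ T ∈ V.powersetCard n, 1 / 4 * ∑ A ∈ upS F T, ∑ B ∈ upS F T, (f A - f B) ^ 2 :=
    Finset.sum_le_sum fun T _ => w3_var (upS F T) f
  rw [← Finset.mul_sum, w3_pairs F V n hF f] at h1
  have h2 := hm.trans h1
  have h3 : (0 : ℝ) ≤ (F.card : ℝ) := Nat.cast_nonneg _
  have h4 := mul_le_mul_of_nonneg_left h2 h3
  have h5 : (F.card : ℝ) * (∑ A ∈ F, f A ^ 2 - (∑ A ∈ F, f A) ^ 2 / (F.card : ℝ)) =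
      (F.card : ℝ) * ∑ A ∈ F, f A ^ 2 - (∑ A ∈ F, f A) ^ 2 := by
    rcases Nat.eq_zero_or_pos F.card with h0 | h0
    · have : F = ∅ := Finset.card_eq_zero.1 h0
      rw [this]
      simp
    · have h6 : (0 : ℝ) < (F.card : ℝ) := Nat.cast_pos.2 h0
      field_simp
  rw [h5] at h4
  calc _ ≤ _ := h4
    _ = _ := by ring

end Pool.Agent.H330ST.JW3
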