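import Pool.Agent.H330ST.Spec

set_option autoImplicit false

noncomputable section

namespace Pool.Agent.H330ST.JW4

open Pool.Agent.H685R2.Poly
open scoped ENNReal

theorem w4_op {X : Type} [Fintype X] [DecidableEq X] (A : X → X → ℕ) (q : ℕ) (hq : 4 ≤ q)
    (hsym : ∀ x y, A x y = A y x) (hrow : ∀ x, ∑ y, A x y = q) (hdiag : ∀ x, q ≤ 2 * A x x)
    (hP : ∀ f : X → ℝ, (Fintype.card X : ℝ) * ∑ x, f x ^ 2 - (∑ x, f x) ^ 2 ≤
      (Fintype.card X : ℝ) / 4 * ∑ x, ∑ y, (A x y : ℝ) * (f x - f y) ^ 2)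
    (x0 : X) (g : X → ℝ) (hg : ∑ x, g x = 0) :
    ∑ x, (∑ y, (A x y : ℝ) * g y) ^ 2 ≤ (q : ℝ) * ((q : ℝ) - 2) * ∑ x, g x ^ 2 := by
  have hN : (0 : ℝ) < Fintype.card X := by
    have : 0 < Fintype.card X := Fintype.card_pos_iff.mpr ⟨x0⟩
    exact_mod_cast this
  have hq0 : (0 : ℝ) < q := by
    have : 0 < q := by omega
    exact_mod_cast this
  have hrowR : ∀ x, ∑ y, (A x y : ℝ) = q := by
    intro x
    exact_mod_cast hrow x
  have hcolR : ∀ y, ∑ x, (A x y : ℝ) = q := by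
    intro y
    rw [← hrowR y]
    exact Finset.sum_congr rfl (fun x _ => by rw [hsym x y])
  set S : ℝ := ∑ x, g x ^ 2 with hS
  set I : ℝ := ∑ x, g x * ∑ y, (A x y : ℝ) * g y with hI
  have hexp : ∑ x, ∑ y, (A x y : ℝ) * (g x - g y) ^ 2 = 2 * q * S - 2 * I := by
    have e1 : ∀ x y, (A x y : ℝ) * (g x - g y) ^ 2 =
        g x ^ 2 * (A x y : ℝ) - 2 * (g x * ((A x y : ℝ) * g y)) + (A x y : ℝ) * g y ^ 2 := by
      intro x y
      ring
    have e2 : ∑ x, ∑ y, (A x y : ℝ) * g y ^ 2 = q * S := by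
      rw [Finset.sum_comm, hS, Finset.mul_sum]
      refine Finset.sum_congr rfl (fun y _ => ?_)
      rw [← Finset.sum_mul, hcolR]
    have e3 : ∑ x, ∑ y, g x ^ 2 * (A x y : ℝ) = q * S := by
      rw [hS, Finset.mul_sum]
      refine Finset.sum_congr rfl (fun x _ => ?_)
      rw [← Finset.mul_sum, hrowR, mul_comm]
    simp_rw [e1]
    simp_rw [Finset.sum_add_distrib, Finset.sum_sub_distrib]
    rw [e2, e3]
    have e4 : ∑ x, ∑ y, 2 * (g x * ((A x y : ℝ) * g y)) = 2 * I := by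
      rw [hI, Finset.mul_sum]
      refine Finset.sum_congr rfl (fun x _ => ?_)
      rw [Finset.mul_sum, Finset.mul_sum]
    rw [e4]
    ring
  have h1 : I ≤ ((q : ℝ) - 2) * S := by
    have := hP g
    rw [hexp, hg] at this
    have h3 : (Fintype.card X : ℝ) * (((q : ℝ) - 2) * S - I) ≥ 0 := by
      nlinarith [this]
    have h4 : 0 ≤ ((q : ℝ) - 2) * S - I := by
      by_contra hneg
      push Not at hneg
      nlinarith [mul_neg_of_pos_of_neg hN hneg]
    linarith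
  have h2 : ∑ x, (∑ y, (A x y : ℝ) * g y) ^ 2 ≤ q * I := by
    have hQ0 : ∀ x y, 0 ≤ 2 / (q : ℝ) * (A x y : ℝ) - (if x = y then 1 else 0) := by
      intro x y
      by_cases hxy : x = y
      · subst hxy
        rw [if_pos rfl]
        have : (q : ℝ) ≤ 2 * (A x x : ℝ) := by exact_mod_cast hdiag x
        rw [sub_nonneg, div_mul_eq_mul_div, le_div_iff₀ hq0]
        linarith
      · rw [if_neg hxy, sub_zero]
        positivity
    have hQrow : ∀ x, ∑ y, (2 / (q : ℝ) * (A x y : ℝ) - (if x = y then 1 else 0)) = 1 := by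
      intro x
      rw [Finset.sum_sub_distrib, ← Finset.mul_sum, hrowR]
      simp
      field_simp
      norm_num
    have hQcol : ∀ y, ∑ x, (2 / (q : ℝ) * (A x y : ℝ) - (if x = y then 1 else 0)) = 1 := by
      intro y
      rw [Finset.sum_sub_distrib, ← Finset.mul_sum, hcolR]
      simp
      field_simp
      norm_num
    have hval : ∀ x, ∑ y, (2 / (q : ℝ) * (A x y : ℝ) - (if x = y then 1 else 0)) * g y =
        2 / (q : ℝ) * (∑ y, (A x y : ℝ) * g y) - g x := by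
      intro x
      simp_rw [sub_mul]
      rw [Finset.sum_sub_distrib, Finset.mul_sum]
      congr 1
      · exact Finset.sum_congr rfl (fun y _ => by ring)
      · simp
    have hJ : ∀ x, (2 / (q : ℝ) * (∑ y, (A x y : ℝ) * g y) - g x) ^ 2 ≤
        ∑ y, (2 / (q : ℝ) * (A x y : ℝ) - (if x = y then 1 else 0)) * g y ^ 2 := by
      intro x
      rw [← hval x]
      have := Finset.sum_sq_le_sum_mul_sum_of_sq_eq_mul Finset.univ
        (r := fun y => (2 / (q : ℝ) * (A x y : ℝ) - (if x = y then 1 else 0)) * g y)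
        (f := fun y => 2 / (q : ℝ) * (A x y : ℝ) - (if x = y then 1 else 0))
        (g := fun y => (2 / (q : ℝ) * (A x y : ℝ) - (if x = y then 1 else 0)) * g y ^ 2)
        (fun y _ => hQ0 x y) (fun y _ => mul_nonneg (hQ0 x y) (sq_nonneg _))
        (fun y _ => by ring)
      rw [hQrow x, one_mul] at this
      exact this
    have hsum : ∑ x, (2 / (q : ℝ) * (∑ y, (A x y : ℝ) * g y) - g x) ^ 2 ≤ S := by
      refine (Finset.sum_le_sum (fun x _ => hJ x)).trans ?_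
      rw [Finset.sum_comm, hS]
      refine le_of_eq (Finset.sum_congr rfl (fun y _ => ?_))
      rw [← Finset.sum_mul, hQcol, one_mul]
    have hex2 : ∑ x, (2 / (q : ℝ) * (∑ y, (A x y : ℝ) * g y) - g x) ^ 2 =
        (2 / (q : ℝ)) ^ 2 * (∑ x, (∑ y, (A x y : ℝ) * g y) ^ 2) - 2 * (2 / (q : ℝ)) * I + S := by
      rw [hI, hS, Finset.mul_sum, Finset.mul_sum, ← Finset.sum_sub_distrib,
        ← Finset.sum_add_distrib]
      exact Finset.sum_congr rfl (fun x _ => by ring)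
    rw [hex2] at hsum
    have h5 : (2 / (q : ℝ)) ^ 2 * (∑ x, (∑ y, (A x y : ℝ) * g y) ^ 2) ≤
        2 * (2 / (q : ℝ)) * I := by linarith
    have h6 : (q : ℝ) ^ 2 / 4 * ((2 / (q : ℝ)) ^ 2 * (∑ x, (∑ y, (A x y : ℝ) * g y) ^ 2)) ≤
        (q : ℝ) ^ 2 / 4 * (2 * (2 / (q : ℝ)) * I) :=
      mul_le_mul_of_nonneg_left h5 (by positivity)
    have e5 : (q : ℝ) ^ 2 / 4 * ((2 / (q : ℝ)) ^ 2 * (∑ x, (∑ y, (A x y : ℝ) * g y) ^ 2)) =
        ∑ x, (∑ y, (A x y : ℝ) * g y) ^ 2 := by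
      field_simp
      ring
    have e6 : (q : ℝ) ^ 2 / 4 * (2 * (2 / (q : ℝ)) * I) = q * I := by
      field_simp
      ring
    rw [e5, e6] at h6
    exact h6
  calc ∑ x, (∑ y, (A x y : ℝ) * g y) ^ 2 ≤ q * I := h2
    _ ≤ q * (((q : ℝ) - 2) * S) := mul_le_mul_of_nonneg_left h1 hq0.le
    _ = (q : ℝ) * ((q : ℝ) - 2) * S := by ring

/-- TARGET -/
theorem sMix : SMix := by
  intro X _ _ A q hq hsym hrow hdiag hP x0 c hc0 hcs k m t hk ht x
  have hq0 : (0 : ℝ) < q := by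
    have : 0 < q := by omega
    exact_mod_cast this
  have hq4 : (4 : ℝ) ≤ q := by exact_mod_cast hq
  have hNpos : 0 < Fintype.card X := Fintype.card_pos_iff.mpr ⟨x0⟩
  set N : ℝ := (Fintype.card X : ℝ) with hNdef
  have hN1 : (1 : ℝ) ≤ N := by
    rw [hNdef]
    exact_mod_cast hNpos
  have hcolN : ∀ y, ∑ x, A x y = q := by
    intro y
    rw [← hrow y]
    exact Finset.sum_congr rfl (fun x _ => hsym x y)
  have hcsum : ∀ s, ∑ x, c s x = q ^ s := by
    intro s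
    induction s with
    | zero =>
      simp [hc0]
    | succ s ih =>
      simp_rw [hcs]
      rw [Finset.sum_comm]
      simp_rw [← Finset.mul_sum, hrow]
      rw [← Finset.sum_mul, ih, pow_succ]
  let G : ℕ → X → ℝ := fun s y => N * (c s y : ℝ) - (q : ℝ) ^ s
  have hGsum : ∀ s, ∑ y, G s y = 0 := by
    intro s
    have h1 : ∑ y, (c s y : ℝ) = (q : ℝ) ^ s := by exact_mod_cast hcsum s
    simp only [G]
    rw [Finset.sum_sub_distrib, ← Finset.mul_sum, h1]
    simp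
    rw [← hNdef]
    ring
  have hGstep : ∀ s y, G (s + 1) y = ∑ z, (A y z : ℝ) * G s z := by
    intro s y
    simp only [G]
    rw [hcs]
    push_cast
    simp_rw [mul_sub]
    rw [Finset.sum_sub_distrib, ← Finset.sum_mul, Finset.mul_sum]
    have : ∑ z, (A y z : ℝ) = q := by exact_mod_cast hrow y
    rw [this]
    congr 1
    · refine Finset.sum_congr rfl (fun z _ => ?_)
      rw [hsym y z]
      ring
    · ring
  have hGsq : ∀ s, ∑ y, G s y ^ 2 ≤ ((q : ℝ) * ((q : ℝ) - 2)) ^ s * N ^ 2 := by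
    intro s
    induction s with
    | zero =>
      simp only [pow_zero, one_mul]
      have h0 : ∀ y, G 0 y = if y = x0 then N - 1 else -1 := by
        intro y
        simp only [G, hc0, pow_zero]
        by_cases hy : y = x0
        · simp [hy]
        · simp [hy]
      have hc : ∑ y, G 0 y ^ 2 = ∑ y, (if y = x0 then (N - 1) ^ 2 - 1 else 0) + ∑ y : X, (1 : ℝ) := by
        rw [← Finset.sum_add_distrib]
        refine Finset.sum_congr rfl (fun y _ => ?_)
        rw [h0]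
        by_cases hy : y = x0
        · simp [hy]
        · simp [hy]
      rw [hc]
      simp
      rw [← hNdef]
      nlinarith
    | succ s ih =>
      have hop := w4_op A q hq hsym hrow hdiag hP x0 (G s) (hGsum s)
      have e : ∑ y, G (s + 1) y ^ 2 = ∑ y, (∑ z, (A y z : ℝ) * G s z) ^ 2 :=
        Finset.sum_congr rfl (fun y _ => by rw [hGstep])
      rw [e]
      have hnn : 0 ≤ (q : ℝ) * ((q : ℝ) - 2) := by
        apply mul_nonneg hq0.le
        linarith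
      calc _ ≤ (q : ℝ) * ((q : ℝ) - 2) * ∑ y, G s y ^ 2 := hop
        _ ≤ (q : ℝ) * ((q : ℝ) - 2) * (((q : ℝ) * ((q : ℝ) - 2)) ^ s * N ^ 2) :=
          mul_le_mul_of_nonneg_left ih hnn
        _ = ((q : ℝ) * ((q : ℝ) - 2)) ^ (s + 1) * N ^ 2 := by ring
  have hGx : G t x ^ 2 ≤ ((q : ℝ) * ((q : ℝ) - 2)) ^ t * N ^ 2 :=
    (Finset.single_le_sum (f := fun y => G t y ^ 2) (fun y _ => sq_nonneg _)
      (Finset.mem_univ x)).trans (hGsq t)
  -- the decay
  have hr0 : 0 ≤ 1 - 2 / (q : ℝ) := by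
    rw [sub_nonneg, div_le_one hq0]
    linarith
  have hr1 : 1 - 2 / (q : ℝ) ≤ 1 := by
    have : 0 ≤ 2 / (q : ℝ) := by positivity
    linarith
  have hdec : (1 - 2 / (q : ℝ)) ^ t ≤ (1 / 4) ^ (k + m) := by
    have h1 : (1 - 2 / (q : ℝ)) ^ t ≤ (1 - 2 / (q : ℝ)) ^ (q * (k + m)) :=
      pow_le_pow_of_le_one hr0 hr1 ht
    have h2 : (1 - 2 / (q : ℝ)) ^ q ≤ 1 / 4 := by
      have h3 : 1 - 2 / (q : ℝ) ≤ Real.exp (-(2 / (q : ℝ))) := by
        have := Real.add_one_le_exp (-(2 / (q : ℝ)))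
        linarith
      have h4 : (1 - 2 / (q : ℝ)) ^ q ≤ (Real.exp (-(2 / (q : ℝ)))) ^ q :=
        pow_le_pow_left₀ hr0 h3 q
      have h5 : (Real.exp (-(2 / (q : ℝ)))) ^ q = Real.exp (-2) := by
        rw [← Real.exp_nat_mul]
        congr 1
        field_simp
      rw [h5] at h4
      have h6 : (4 : ℝ) ≤ Real.exp 2 := by
        have h7 : (2 : ℝ) ≤ Real.exp 1 := by
          have := Real.add_one_le_exp (1 : ℝ)
          linarith
        have h8 : Real.exp 2 = Real.exp 1 * Real.exp 1 := by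
          rw [← Real.exp_add]
          norm_num
        rw [h8]
        nlinarith
      have h9 : Real.exp (-2) ≤ 1 / 4 := by
        rw [Real.exp_neg, inv_eq_one_div]
        exact one_div_le_one_div_of_le (by norm_num) h6
      exact h4.trans h9
    calc (1 - 2 / (q : ℝ)) ^ t ≤ (1 - 2 / (q : ℝ)) ^ (q * (k + m)) := h1
      _ = ((1 - 2 / (q : ℝ)) ^ q) ^ (k + m) := by rw [pow_mul]
      _ ≤ (1 / 4) ^ (k + m) := pow_le_pow_left₀ (pow_nonneg hr0 q) h2 _
  have hNk : N ≤ 2 ^ k := by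
    rw [hNdef]
    exact_mod_cast hk
  have hfin : G t x ^ 2 ≤ ((q : ℝ) ^ t / 2 ^ m) ^ 2 := by
    refine hGx.trans ?_
    have e1 : ((q : ℝ) * ((q : ℝ) - 2)) ^ t = ((q : ℝ) ^ t) ^ 2 * (1 - 2 / (q : ℝ)) ^ t := by
      rw [← pow_mul, mul_comm t 2, pow_mul, ← mul_pow]
      congr 1
      field_simp
    rw [e1]
    have h1 : N ^ 2 ≤ (2 ^ k) ^ 2 := pow_le_pow_left₀ (by linarith) hNk 2
    calc ((q : ℝ) ^ t) ^ 2 * (1 - 2 / (q : ℝ)) ^ t * N ^ 2
        ≤ ((q : ℝ) ^ t) ^ 2 * (1 / 4) ^ (k + m) * (2 ^ k) ^ 2 := by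
          apply mul_le_mul _ h1 (by positivity) (by positivity)
          exact mul_le_mul_of_nonneg_left hdec (by positivity)
      _ = ((q : ℝ) ^ t / 2 ^ m) ^ 2 := by
          rw [show ((q : ℝ) ^ t / 2 ^ m) ^ 2 = (q : ℝ) ^ (t * 2) / 2 ^ (m * 2) by
            rw [div_pow, ← pow_mul, ← pow_mul], pow_add, ← pow_mul, ← pow_mul]
          have h4k : (1 / 4 : ℝ) ^ k * 2 ^ (k * 2) = 1 := by
            rw [mul_comm k 2, pow_mul, ← mul_pow]
            norm_num
          have h4m : (1 / 4 : ℝ) ^ m = 1 / 2 ^ (m * 2) := by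
            rw [mul_comm m 2, pow_mul, one_div, one_div, inv_pow]
            norm_num
          calc (q : ℝ) ^ (t * 2) * ((1 / 4) ^ k * (1 / 4) ^ m) * 2 ^ (k * 2)
              = (q : ℝ) ^ (t * 2) * (1 / 4) ^ m * ((1 / 4) ^ k * 2 ^ (k * 2)) := by ring
            _ = (q : ℝ) ^ (t * 2) * (1 / 2 ^ (m * 2)) := by rw [h4k, h4m]; ring
            _ = (q : ℝ) ^ (t * 2) / 2 ^ (m * 2) := by ring
  have hG : G t x ≤ (q : ℝ) ^ t / 2 ^ m := by
    have hpos : 0 ≤ (q : ℝ) ^ t / 2 ^ m := by positivity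
    exact abs_le_of_sq_le_sq' hfin hpos |>.2
  have h2m : (0 : ℝ) < 2 ^ m := by positivity
  have hlast : (2 : ℝ) ^ m * (N * (c t x : ℝ)) ≤ (q : ℝ) ^ t * (2 ^ m + 1) := by
    have h1 : N * (c t x : ℝ) - (q : ℝ) ^ t ≤ (q : ℝ) ^ t / 2 ^ m := hG
    have h2 : (2 : ℝ) ^ m * (N * (c t x : ℝ) - (q : ℝ) ^ t) ≤ 2 ^ m * ((q : ℝ) ^ t / 2 ^ m) :=
      mul_le_mul_of_nonneg_left h1 h2m.le
    rw [mul_div_cancel₀ _ h2m.ne'] at h2
    linarith
  rw [hNdef] at hlast
  exact_mod_cast hlast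

end Pool.Agent.H330ST.JW4
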