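import Pool.Agent.H330ST.Spec
set_option autoImplicit false
noncomputable section
namespace Pool.Agent.H330ST.JW5
open Pool.Agent.H685R2.Poly
open scoped ENNReal

theorem w5_mem_supp (x : List Bool) (i : ℕ) :
    i ∈ supp x ↔ i < x.length ∧ x.getD i false = true := by
  unfold supp
  rw [Finset.mem_filter, Finset.mem_range]

theorem w5_card_supp (x : List Bool) : (supp x).card = cntT x := by
  unfold supp
  rw [Finset.card_filter]
  induction x with
  | nil => simp [cntT]
  | cons b x ih =>
    rw [List.length_cons, Finset.sum_range_succ']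
    simp only [List.getD_cons_succ, List.getD_cons_zero]
    rw [ih]
    cases b <;> simp [cntT]

theorem w5_supp_inj {x y : List Bool} (h : x.length = y.length) (hs : supp x = supp y) : x = y := by
  refine List.ext_getElem h ?_
  intro i h1 h2
  have h3 : i ∈ supp x ↔ i ∈ supp y := by rw [hs]
  rw [w5_mem_supp, w5_mem_supp, List.getD_eq_getElem _ _ h1, List.getD_eq_getElem _ _ h2] at h3
  have h4 : x[i] = true ↔ y[i] = true := by
    constructor
    · intro h; exact (h3.1 ⟨h1, h⟩).2
    · intro h; exact (h3.2 ⟨h2, h⟩).2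
  exact Bool.eq_iff_iff.2 h4

theorem w5_getD_set (x : List Bool) (i n : ℕ) (b : Bool) :
    (x.set i b).getD n false = if i = n ∧ n < x.length then b else x.getD n false := by
  rw [List.getD_eq_getElem?_getD, List.getElem?_set, List.getD_eq_getElem?_getD]
  by_cases h : i = n
  · subst h
    by_cases h2 : i < x.length
    · simp [h2]
    · simp [h2]
  · simp [h]

theorem w5_supp_exch (x : List Bool) (i j : ℕ) (hj : j < x.length) (hij : i ≠ j) :
    supp (exch x i j) = insert j ((supp x).erase i) := by
  ext n
  rw [w5_mem_supp, Finset.mem_insert, Finset.mem_erase, w5_mem_supp]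
  unfold exch
  rw [w5_getD_set, w5_getD_set]
  simp only [List.length_set]
  by_cases hnj : n = j
  · subst hnj
    simp [hj]
  · by_cases hni : n = i
    · subst hni
      by_cases hn : n < x.length
      · simp [Ne.symm hnj, hnj, hn]
      · simp [hnj, hn]
    · simp [Ne.symm hnj, Ne.symm hni, hnj, hni]

/-- lists of length `k` as functions -/
theorem w5_exists_ofFn (k : ℕ) (y : List Bool) (h : y.length = k) :
    ∃ v : Fin k → Bool, List.ofFn v = y := by
  subst h
  exact ⟨fun i => y.get i, List.ofFn_get y⟩

theorem w5_run_bas (ind : List Bool → Bool) (k r a : ℕ)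
    (h : ∀ x b, IsBas ind k r x → IsBas ind k r (stp ind a x b)) (t : ℕ) (x w : List Bool)
    (hx : IsBas ind k r x) : IsBas ind k r (run ind a t x w) := by
  unfold run
  have key : ∀ t : ℕ, IsBas ind k r ((runStep ind a)^[t] (x, w)).1 := by
    intro t
    induction t with
    | zero => exact hx
    | succ t ih =>
      rw [Function.iterate_succ_apply']
      exact h _ _ ih
  exact key t

theorem w5_cnt (M : ℕ) (P : List Bool → Prop)
    [DecidablePred fun v : Fin M → Bool => P (List.ofFn v)] :
    cntW M P = (Finset.univ.filter (fun v : Fin M → Bool => P (List.ofFn v))).card := by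
  unfold cntW
  congr

/-- TARGET -/
theorem vMix (h1 : VStep) (h2 : VRec) (h3 : SExch) (h4 : SQQ) (h5 : SGap) (h6 : SMix) : VMix := by
  classical
  intro ind k r a t m x0 hlin hmax hx0 ha hk ht x hx
  obtain ⟨hcl, hoff, hlazy⟩ := h1 ind k r a hk
  -- the states
  let X : Type := {v : Fin k → Bool // IsBas ind k r (List.ofFn v)}
  let L : X → List Bool := fun v => List.ofFn v.1
  have hL : ∀ v : X, IsBas ind k r (L v) := fun v => v.2
  have hLinj : Function.Injective L := by
    intro u v h
    exact Subtype.ext (List.ofFn_injective h)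
  have hLsurj : ∀ y, IsBas ind k r y → ∃ v : X, L v = y := by
    intro y hy
    obtain ⟨v, hv⟩ := w5_exists_ofFn k y hy.1
    exact ⟨⟨v, by rw [hv]; exact hy⟩, hv⟩
  have hcardX : Fintype.card X = cntW k (fun y => IsBas ind k r y) := by
    unfold cntW
    exact Fintype.card_subtype _
  let A : X → X → ℕ := fun u v => cntW (2 * a) (fun b => stp ind a (L u) b = L v)
  have hq : (4 : ℕ) ^ a = 2 ^ (2 * a) := by
    rw [pow_mul]; norm_num
  have hAoff : ∀ u v : X, u ≠ v → A u v =
      if (supp (L u) ∩ supp (L v)).card + 1 = r then 1 else 0 := by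
    intro u v huv
    exact hoff (L u) (L v) (hL u) (hL v) (fun h => huv (hLinj h))
  have hsym : ∀ u v, A u v = A v u := by
    intro u v
    by_cases huv : u = v
    · rw [huv]
    · rw [hAoff u v huv, hAoff v u (Ne.symm huv), Finset.inter_comm]
  have hrow : ∀ u : X, ∑ v, A u v = 4 ^ a := by
    intro u
    have hstep : ∀ b : Fin (2 * a) → Bool, ∃ v : X, L v = stp ind a (L u) (List.ofFn b) :=
      fun b => hLsurj _ (hcl _ _ (hL u))
    choose g hg using hstep
    have h7 : (Finset.univ : Finset (Fin (2 * a) → Bool)).card =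
        ∑ v ∈ (Finset.univ : Finset X), (Finset.univ.filter fun b => g b = v).card :=
      Finset.card_eq_sum_card_fiberwise (fun b _ => Finset.mem_coe.2 (Finset.mem_univ (g b)))
    have h8 : (Finset.univ : Finset (Fin (2 * a) → Bool)).card = 4 ^ a := by
      rw [Finset.card_univ, Fintype.card_fun, Fintype.card_bool, Fintype.card_fin, hq]
    rw [← h8, h7]
    refine Finset.sum_congr rfl fun v _ => ?_
    change cntW (2 * a) (fun b => stp ind a (L u) b = L v) = _
    rw [w5_cnt]
    congr 1
    ext b
    simp only [Finset.mem_filter, Finset.mem_univ, true_and]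
    rw [← hg b]
    exact hLinj.eq_iff
  have hlz : ∀ u : X, 4 ^ a ≤ 2 * A u u := by
    intro u
    rw [hq]
    exact hlazy (L u) (hL u)
  -- the set system
  let S : X → Finset ℕ := fun v => supp (L v)
  have hSinj : Function.Injective S := by
    intro u v h
    refine hLinj (w5_supp_inj ?_ h)
    rw [(hL u).1, (hL v).1]
  let F : Finset (Finset ℕ) := Finset.univ.image S
  have hF1 : ∀ B ∈ F, B ⊆ Finset.range k ∧ B.card = r := by
    intro B hB
    obtain ⟨v, -, rfl⟩ := Finset.mem_image.1 hB
    constructor
    · intro i hi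
      have := ((w5_mem_supp _ _).1 hi).1
      rw [(hL v).1] at this
      exact Finset.mem_range.2 this
    · change (supp (L v)).card = r
      rw [w5_card_supp]
      exact (hL v).2.2
  have hF2 : Exch F := by
    intro B hB C hC i hi
    obtain ⟨u, -, rfl⟩ := Finset.mem_image.1 hB
    obtain ⟨v, -, rfl⟩ := Finset.mem_image.1 hC
    obtain ⟨j, hj, hb⟩ := h3 ind k r hlin hmax (L u) (L v) (hL u) (hL v) i hi
    refine ⟨j, hj, ?_⟩
    obtain ⟨w, hw⟩ := hLsurj _ hb
    have hj1 : j < (L u).length := by
      rw [(hL u).1, ← (hL v).1]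
      exact ((w5_mem_supp _ _).1 (Finset.mem_sdiff.1 hj).1).1
    have hij : i ≠ j := by
      rintro rfl
      exact (Finset.mem_sdiff.1 hj).2 (Finset.mem_sdiff.1 hi).1
    rw [Finset.mem_image]
    refine ⟨w, Finset.mem_univ _, ?_⟩
    change supp (L w) = _
    rw [hw, w5_supp_exch _ _ _ hj1 hij]
  have hgap := h5 F (Finset.range k) r hF1 (h4 F (Finset.range k) r hF1 hF2)
  have hFcard : F.card = Fintype.card X := by
    rw [Finset.card_image_of_injective _ hSinj, Finset.card_univ]
  have hsumF : ∀ φ : Finset ℕ → ℝ, ∑ B ∈ F, φ B = ∑ v : X, φ (S v) := by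
    intro φ
    exact Finset.sum_image (fun u _ v _ h => hSinj h)
  have hpoin : ∀ f : X → ℝ, (Fintype.card X : ℝ) * ∑ v, f v ^ 2 - (∑ v, f v) ^ 2 ≤
      (Fintype.card X : ℝ) / 4 * ∑ u, ∑ v, (A u v : ℝ) * (f u - f v) ^ 2 := by
    intro f
    have hne : Nonempty X := by
      obtain ⟨v, -⟩ := hLsurj x0 hx0
      exact ⟨v⟩
    let f' : Finset ℕ → ℝ := fun B => f (Function.invFun S B)
    have hf' : ∀ v, f' (S v) = f v := by
      intro v
      change f (Function.invFun S (S v)) = f v
      rw [Function.leftInverse_invFun hSinj v]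
    have h7 := hgap f'
    rw [hsumF, hsumF, hsumF, hFcard] at h7
    have h8 : ∀ u, ∑ C ∈ F, (if (S u ∩ C).card + 1 = r then (f' (S u) - f' C) ^ 2 else 0) =
        ∑ v : X, (A u v : ℝ) * (f u - f v) ^ 2 := by
      intro u
      rw [hsumF]
      refine Finset.sum_congr rfl fun v _ => ?_
      rw [hf', hf']
      by_cases huv : u = v
      · subst huv
        simp
      · rw [hAoff u v huv]
        change (if (supp (L u) ∩ supp (L v)).card + 1 = r then _ else _) = _
        split_ifs <;> simp
    rw [Finset.sum_congr rfl fun u _ => h8 u] at h7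
    simp only [hf'] at h7
    exact h7
  -- the numbers of coin strings
  obtain ⟨v0, hv0⟩ := hLsurj x0 hx0
  obtain ⟨vx, hvx⟩ := hLsurj x hx
  let c : ℕ → X → ℕ := fun s v => cntW (2 * a * s) (fun w => run ind a s x0 w = L v)
  have hc0 : ∀ v, c 0 v = if v = v0 then 1 else 0 := by
    intro v
    change cntW (2 * a * 0) (fun w => run ind a 0 x0 w = L v) = _
    unfold cntW
    have h7 : ∀ w : List Bool, run ind a 0 x0 w = x0 := fun w => rfl
    simp only [h7]
    rw [← hv0]
    by_cases h : v = v0
    · subst h
      rw [if_pos rfl, Finset.filter_true_of_mem (fun _ _ => rfl), Finset.card_univ,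
        Fintype.card_fun, Fintype.card_bool, Fintype.card_fin]
      rfl
    · rw [if_neg h, Finset.filter_false_of_mem (fun _ _ h' => h (hLinj h').symm),
        Finset.card_empty]
  have hcs : ∀ s v, c (s + 1) v = ∑ u, c s u * A u v := by
    intro s v
    change cntW (2 * a * (s + 1)) (fun w => run ind a (s + 1) x0 w = L v) = _
    rw [(h2 ind a s x0 (L v)).2]
    have hst : ∀ w : Fin (2 * a * s) → Bool, ∃ u : X, L u = run ind a s x0 (List.ofFn w) :=
      fun w => hLsurj _ (w5_run_bas ind k r a hcl s x0 _ hx0)
    choose g hg using hst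
    have h7 : ∀ b : Fin (2 * a) → Bool,
        cntW (2 * a * s) (fun w => stp ind a (run ind a s x0 w) (List.ofFn b) = L v) =
        ∑ u : X, c s u * (if stp ind a (L u) (List.ofFn b) = L v then 1 else 0) := by
      intro b
      have h8 : (Finset.univ.filter fun w : Fin (2 * a * s) → Bool =>
          stp ind a (run ind a s x0 (List.ofFn w)) (List.ofFn b) = L v).card =
          ∑ u ∈ (Finset.univ : Finset X),
            ((Finset.univ.filter fun w : Fin (2 * a * s) → Bool =>
              stp ind a (run ind a s x0 (List.ofFn w)) (List.ofFn b) = L v).filter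
                fun w => g w = u).card :=
        Finset.card_eq_sum_card_fiberwise (fun w _ => Finset.mem_coe.2 (Finset.mem_univ (g w)))
      rw [w5_cnt, h8]
      refine Finset.sum_congr rfl fun u _ => ?_
      change _ = cntW (2 * a * s) (fun w => run ind a s x0 w = L u) * _
      rw [w5_cnt (2 * a * s) (fun w => run ind a s x0 w = L u)]
      by_cases hu : stp ind a (L u) (List.ofFn b) = L v
      · rw [if_pos hu, mul_one]
        congr 1
        ext w
        simp only [Finset.mem_filter, Finset.mem_univ, true_and]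
        rw [← hg w]
        constructor
        · rintro ⟨-, h9⟩
          rw [h9]
        · intro h9
          refine ⟨?_, hLinj h9⟩
          rw [h9]
          exact hu
      · rw [if_neg hu, mul_zero, Finset.card_eq_zero]
        rw [Finset.eq_empty_iff_forall_notMem]
        intro w hw
        simp only [Finset.mem_filter, Finset.mem_univ, true_and] at hw
        rw [← hg w, hw.2] at hw
        exact hu hw.1
    rw [Finset.sum_congr rfl fun b _ => h7 b, Finset.sum_comm]
    refine Finset.sum_congr rfl fun u _ => ?_
    rw [← Finset.mul_sum]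
    congr 1
    change _ = cntW (2 * a) (fun b => stp ind a (L u) b = L v)
    rw [w5_cnt, Finset.card_filter]
  have hXle : Fintype.card X ≤ 2 ^ k := by
    have h7 : Fintype.card X ≤ Fintype.card (Fin k → Bool) := Fintype.card_subtype_le _
    rwa [Fintype.card_fun, Fintype.card_bool, Fintype.card_fin] at h7
  have h4a : 4 ≤ 4 ^ a := by
    calc 4 = 4 ^ 1 := (pow_one 4).symm
      _ ≤ 4 ^ a := Nat.pow_le_pow_right (by norm_num) ha
  have hfin := h6 A (4 ^ a) h4a hsym hrow hlz hpoin v0 c hc0 hcs k m t hXle (le_of_eq ht.symm) vx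
  rw [hcardX] at hfin
  have hct : c t vx = cntW (2 * a * t) (fun w => run ind a t x0 w = x) := by
    change cntW (2 * a * t) (fun w => run ind a t x0 w = L vx) = _
    rw [hvx]
  rw [hct, hq, ← pow_mul] at hfin
  exact hfin

end Pool.Agent.H330ST.JW5
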