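import Pool.Agent.H330ST.Spec
set_option autoImplicit false
noncomputable section
namespace Pool.Agent.H330ST.JW6
open Pool.Agent.H685R2.Poly
open scoped ENNReal

theorem w6_cntW_congr (M : ℕ) (P Q : List Bool → Prop) (h : ∀ w, w.length = M → (P w ↔ Q w)) :
    cntW M P = cntW M Q := by
  classical
  unfold cntW
  congr 1
  ext v
  simp only [Finset.mem_filter, Finset.mem_univ, true_and]
  exact h _ (by simp)

theorem w6_cntW_mono (M : ℕ) (P Q : List Bool → Prop) (h : ∀ w, w.length = M → P w → Q w) :
    cntW M P ≤ cntW M Q := by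
  classical
  unfold cntW
  apply Finset.card_le_card
  intro v
  simp only [Finset.mem_filter, Finset.mem_univ, true_and]
  exact h _ (by simp)

theorem w6_cntW_true (M : ℕ) (P : List Bool → Prop) (h : ∀ w, w.length = M → P w) :
    cntW M P = 2 ^ M := by
  classical
  unfold cntW
  rw [Finset.filter_true_of_mem (fun v _ => h _ (by simp))]
  simp

theorem w6_cntW_false (M : ℕ) (P : List Bool → Prop) (h : ∀ w, w.length = M → ¬ P w) :
    cntW M P = 0 := by
  classical
  unfold cntW
  rw [Finset.card_eq_zero, Finset.filter_eq_empty_iff]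
  exact fun v _ => h _ (by simp)

theorem w6_run (ind : List Bool → Bool) (k r a t : ℕ) (h9 : VStep) (hk : k ≤ 2 ^ a)
    (x w : List Bool) (hx : IsBas ind k r x) : IsBas ind k r (run ind a t x w) := by
  unfold run
  induction t generalizing x w with
  | zero => simpa using hx
  | succ t ih =>
    rw [Function.iterate_succ_apply]
    have := ih (stp ind a x (w.take (2 * a))) (w.drop (2 * a)) ((h9 ind k r a hk).1 x _ hx)
    simpa [runStep] using this

theorem w6_fib (B : ℕ) (g : List Bool → List Bool) (bs : List (List Bool)) (hn : bs.Nodup)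
    (hg : ∀ w, g w ∈ bs) : (bs.map (fun x => cntW B (fun w => g w = x))).sum = 2 ^ B := by
  classical
  rw [← List.sum_toFinset _ hn]
  have h := Finset.card_eq_sum_card_fiberwise (s := (Finset.univ : Finset (Fin B → Bool)))
    (t := bs.toFinset) (f := fun v => g (List.ofFn v))
    (fun v _ => by simpa using hg (List.ofFn v))
  have h2 : (Finset.univ : Finset (Fin B → Bool)).card = 2 ^ B := by simp
  rw [← h2, h]
  apply Finset.sum_congr rfl
  intro x _
  unfold cntW
  congr 1
  ext v
  simp

theorem w6_card (k : ℕ) (P : List Bool → Prop) (bs : List (List Bool)) (hn : bs.Nodup)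
    (hP : ∀ x, x ∈ bs ↔ P x) (hl : ∀ x, P x → x.length = k) : cntW k P = bs.length := by
  classical
  rw [← List.toFinset_card_of_nodup hn]
  unfold cntW
  apply Finset.card_bij (fun v _ => List.ofFn v)
  · intro v hv
    simp only [Finset.mem_filter, Finset.mem_univ, true_and] at hv
    simpa [hP] using hv
  · intro v _ v' _ h
    exact List.ofFn_injective h
  · intro x hx
    rw [List.mem_toFinset, hP] at hx
    have hlx := hl x hx
    subst hlx
    refine ⟨fun i => x.get i, ?_, ?_⟩
    · simp only [Finset.mem_filter, Finset.mem_univ, true_and]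
      simpa using hx
    · simp

/-- number of strings of length `m` that start with `true` -/
theorem w6_first (m : ℕ) : (Finset.univ.filter
    (fun u : Fin (m + 1) → Bool => u 0 = true)).card = 2 ^ m := by
  classical
  have h2 : (Finset.univ : Finset (Fin m → Bool)).card = 2 ^ m := by simp
  rw [← h2]
  symm
  apply Finset.card_bij (fun v _ => (Fin.cons true v : Fin (m + 1) → Bool))
  · intro v _
    simp
  · intro v _ v' _ h
    exact (Fin.cons_inj.mp h).2
  · intro u hu
    simp only [Finset.mem_filter, Finset.mem_univ, true_and] at hu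
    refine ⟨Fin.tail u, Finset.mem_univ _, ?_⟩
    rw [← hu]
    exact Fin.cons_self_tail u

/-- TARGET -/
theorem sBlock (h1 : VMix) (h2 : VRev) (h3 : VDp) (h4 : VSel) (h5 : VMax) (h6 : VSplit) (h7 : VMasks) (h8 : SGr) (h9 : VStep) (h10 : VArith) : SBlock := by
  classical
  intro ind k a t m c hlin hm ha hk ht hc
  obtain ⟨hb0, hmaxr⟩ := h8 ind k hlin
  obtain ⟨x0, hx0⟩ : ∃ x0, x0 = greedy ind k := ⟨_, rfl⟩
  obtain ⟨r, hr⟩ : ∃ r, r = cntT x0 := ⟨_, rfl⟩
  rw [← hx0] at hb0 hmaxr ⊢
  rw [← hr] at hb0 hmaxr ⊢
  have hlen : x0.length = k := hb0.1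
  have hck : 2 ^ k ≤ c := le_trans (Nat.pow_le_pow_right (by norm_num) (by omega)) hc
  have hca : 2 ^ (2 * a) ≤ c := le_trans (Nat.pow_le_pow_right (by norm_num) (by omega)) hc
  obtain ⟨B, hB⟩ : ∃ B, B = 2 * a * t := ⟨_, rfl⟩
  obtain ⟨L, hL⟩ : ∃ L, L = digits a t m := ⟨_, rfl⟩
  have hBL : 2 * a * t < L := by rw [hL]; unfold digits; omega
  obtain ⟨tb, htb⟩ : ∃ tb, tb = dpTab ind a L (allMasks c (2 * a)) t x0 (allMasks c x0.length) :=
    ⟨_, rfl⟩
  obtain ⟨bs, hbs⟩ : ∃ bs, bs = basisMasks ind c x0 := ⟨_, rfl⟩
  obtain ⟨cm, hcm⟩ : ∃ cm, cm = maxB L tb bs := ⟨_, rfl⟩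
  have hdp := h3 ind a t L c x0 hBL hca (by rw [hlen]; exact hck)
  rw [← htb, hlen, ← hB] at hdp
  have hmasks := h7 c k hck
  have hmem : ∀ x, x ∈ bs ↔ IsBas ind k r x := by
    intro x
    rw [hbs]
    unfold basisMasks IsBas
    rw [hlen, List.mem_filter, hmasks.2 x, hr]
    simp
  have hnd : bs.Nodup := by
    rw [hbs]; unfold basisMasks; rw [hlen]; exact hmasks.1.filter _
  -- the numbers c(x)
  have hcx : ∀ x ∈ bs, val (lookup tb x) = cntW B (fun w => run ind a t x0 w = x) := by
    intro x hx
    have hbx := (hmem x).1 hx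
    rw [(hdp x hbx.1).2]
    have := h2 ind k r a t x x0 hk hbx hb0
    rw [← hB] at this
    exact this
  have hmax := h5 L tb bs (fun x hx => (hdp x ((hmem x).1 hx).1).1)
  rw [← hcm] at hmax
  obtain ⟨hcml, hcmle, hcmex⟩ := hmax
  have hne : bs ≠ [] := by
    intro h
    have : x0 ∈ bs := (hmem x0).2 hb0
    rw [h] at this
    simp at this
  have hrun : ∀ w, IsBas ind k r (run ind a t x0 w) := fun w =>
    w6_run ind k r a t h9 hk x0 w hb0
  have hsum : (bs.map (fun x => val (lookup tb x))).sum = 2 ^ B := by
    rw [← w6_fib B (fun w => run ind a t x0 w) bs hnd (fun w => (hmem _).2 (hrun w))]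
    congr 1
    apply List.map_congr_left
    intro x hx
    exact hcx x hx
  have hN := w6_card k (fun y => IsBas ind k r y) bs hnd hmem (fun x hx => hx.1)
  have hmix : 2 ^ m * (bs.length * val cm) ≤ 2 ^ B * (2 ^ m + 1) := by
    obtain ⟨x, hx, hxe⟩ := hcmex hne
    have := h1 ind k r a t m x0 hlin hmaxr hb0 ha hk ht x ((hmem x).1 hx)
    rw [hN, ← hB, ← hcx x hx, ← hxe] at this
    exact this
  -- sum of the differences
  have hdiff : (bs.map (fun x => (val cm - val (lookup tb x)))).sum + 2 ^ B =
      bs.length * val cm := by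
    rw [← hsum]
    have : ∀ l : List (List Bool), (∀ x ∈ l, val (lookup tb x) ≤ val cm) →
        (l.map (fun x => (val cm - val (lookup tb x)))).sum +
          (l.map (fun x => val (lookup tb x))).sum = l.length * val cm := by
      intro l
      induction l with
      | nil => intro _; simp
      | cons y l ih =>
        intro hl
        have h1 := ih (fun x hx => hl x (List.mem_cons_of_mem _ hx))
        have h2 := hl y (List.mem_cons_self ..)
        simp only [List.map_cons, List.sum_cons, List.length_cons]
        rw [Nat.add_mul, one_mul]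
        omega
    exact this bs hcmle
  have hmul : (bs.map (fun x => 2 ^ (m - 1) * (val cm - val (lookup tb x)))).sum =
      2 ^ (m - 1) * (bs.map (fun x => (val cm - val (lookup tb x)))).sum := by
    rw [List.sum_map_mul_left]
  have hpow : 2 ^ m = 2 * 2 ^ (m - 1) := by
    rw [← pow_succ']; congr 1; omega
  have hle : (bs.map (fun x => 2 ^ (m - 1) * (val cm - val (lookup tb x)))).sum ≤ 2 ^ B := by
    rw [hmul]
    rw [← hdiff] at hmix
    have h1 : 2 ^ m * (bs.map (fun x => (val cm - val (lookup tb x)))).sum ≤ 2 ^ B := by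
      nlinarith [hmix]
    refine le_trans ?_ h1
    apply Nat.mul_le_mul_right
    exact Nat.pow_le_pow_right (by norm_num) (by omega)
  have hsel := h4 m L B tb cm bs hnd (by rw [hB]; exact hBL) hcml
    (fun x hx => ⟨(hdp x ((hmem x).1 hx).1).1, hcmle x hx⟩) hle
  -- the block function on `u ++ U`
  obtain ⟨m', rfl⟩ : ∃ m', m = m' + 1 := ⟨m - 1, by omega⟩
  have hm' : m' + 1 - 1 = m' := by omega
  rw [hm'] at hsel hle hmul
  have hout : ∀ (u : Fin (m' + 1) → Bool) (U : List Bool),
      blockOut ind a t (m' + 1) x0 c (List.ofFn u ++ U) =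
        if (∀ i, u i = false) then sel (m' + 1) L tb cm bs U
        else if u 0 = true then [run ind a t x0 U] else [] := by
    intro u U
    have hlu : (List.ofFn u).length = m' + 1 := by simp
    have htake : (List.ofFn u ++ U).take (m' + 1) = List.ofFn u := List.take_left' hlu
    have hdrop : (List.ofFn u ++ U).drop (m' + 1) = U := List.drop_left' hlu
    unfold blockOut slowFlag fastOut
    rw [htake, hdrop]
    have hhead : (List.ofFn u ++ U).headD false = u 0 := by
      rw [List.ofFn_succ]; simp
    rw [hhead]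
    have hall : ((List.ofFn u).all (fun b => !b) = true) ↔ ∀ i, u i = false := by
      rw [List.all_eq_true]
      constructor
      · intro h i
        have := h (u i) (List.mem_ofFn.2 ⟨i, rfl⟩)
        simpa using this
      · intro h b hb
        obtain ⟨i, rfl⟩ := List.mem_ofFn.1 hb
        simp [h i]
    have hslow : slowOut ind a t (m' + 1) x0 c U = sel (m' + 1) L tb cm bs U := by
      unfold slowOut
      rw [← hL, ← htb, ← hbs, ← hcm]
    rw [hslow]
    by_cases hcase : ∀ i, u i = false
    · rw [if_pos (hall.2 hcase), if_pos hcase]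
    · rw [if_neg (fun h => hcase (hall.1 h)), if_neg hcase]
  -- counting
  have hcount : ∀ x ∈ bs, cntW ((m' + 1) + B)
      (fun w => blockOut ind a t (m' + 1) x0 c w = [x]) = 2 ^ m' * val cm := by
    intro x hx
    rw [h6 (m' + 1) B]
    have hterm : ∀ u : Fin (m' + 1) → Bool,
        cntW B (fun v => blockOut ind a t (m' + 1) x0 c (List.ofFn u ++ v) = [x]) =
        (if (∀ i, u i = false) then 2 ^ m' * (val cm - val (lookup tb x)) else 0) +
        (if u 0 = true then val (lookup tb x) else 0) := by
      intro u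
      by_cases hcase : ∀ i, u i = false
      · have h0 : ¬ (u 0 = true) := by rw [hcase 0]; simp
        rw [if_pos hcase, if_neg h0, add_zero, ← hsel.1 x hx]
        apply w6_cntW_congr
        intro w _
        rw [hout, if_pos hcase]
      · rw [if_neg hcase, zero_add]
        by_cases h0 : u 0 = true
        · rw [if_pos h0, hcx x hx]
          apply w6_cntW_congr
          intro w _
          rw [hout, if_neg hcase, if_pos h0]
          simp
        · rw [if_neg h0]
          apply w6_cntW_false
          intro w _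
          rw [hout, if_neg hcase, if_neg h0]
          simp
    rw [Finset.sum_congr rfl (fun u _ => hterm u), Finset.sum_add_distrib]
    have hs1 : (∑ u : Fin (m' + 1) → Bool,
        if (∀ i, u i = false) then 2 ^ m' * (val cm - val (lookup tb x)) else 0) =
        2 ^ m' * (val cm - val (lookup tb x)) := by
      rw [Finset.sum_eq_single (fun _ => false)]
      · rw [if_pos (fun _ => rfl)]
      · intro u _ hu
        rw [if_neg]
        intro h
        exact hu (funext h)
      · intro h; exact absurd (Finset.mem_univ _) h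
    have hs2 : (∑ u : Fin (m' + 1) → Bool,
        if u 0 = true then val (lookup tb x) else 0) = 2 ^ m' * val (lookup tb x) := by
      rw [← Finset.sum_filter, Finset.sum_const, w6_first, smul_eq_mul]
    rw [hs1, hs2, ← Nat.mul_add]
    congr 1
    have := hcmle x hx
    omega
  have hcmpos : 0 < val cm := by
    by_contra h0
    have h0' : val cm = 0 := by omega
    have hz : (bs.map (fun x => val (lookup tb x))).sum = 0 := by
      rw [List.sum_eq_zero]
      intro n hn
      obtain ⟨x, hx, rfl⟩ := List.mem_map.1 hn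
      have := hcmle x hx
      omega
    rw [hsum] at hz
    have : 0 < 2 ^ B := Nat.pos_of_ne_zero (by positivity)
    omega
  refine ⟨2 ^ m' * val cm, Nat.mul_pos (by positivity) hcmpos, ?_, ?_, ?_⟩
  · intro x hx
    rw [← hB]
    exact hcount x ((hmem x).2 hx)
  · intro w
    unfold blockOut
    split_ifs with hsf
    · have hslow : slowOut ind a t (m' + 1) x0 c (w.drop (m' + 1)) =
          sel (m' + 1) L tb cm bs (w.drop (m' + 1)) := by
        unfold slowOut
        rw [← hL, ← htb, ← hbs, ← hcm]
      rw [hslow]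
      rcases hsel.2 (w.drop (m' + 1)) with h | ⟨x, hx, h⟩
      · exact Or.inl h
      · exact Or.inr ⟨x, (hmem x).1 hx, h⟩
    · unfold fastOut
      split_ifs with hh
      · exact Or.inr ⟨_, hrun _, rfl⟩
      · exact Or.inl rfl
  · rw [← hB]
    rw [h6 (m' + 1) B]
    have hge : (∑ u : Fin (m' + 1) → Bool, if u 0 = true then 2 ^ B else 0) ≤
        ∑ u : Fin (m' + 1) → Bool, cntW B
          (fun v => blockOut ind a t (m' + 1) x0 c (List.ofFn u ++ v) ≠ []) := by
      apply Finset.sum_le_sum
      intro u _
      split_ifs with h0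
      · rw [w6_cntW_true]
        intro w _
        rw [hout, if_neg (fun h => by rw [h 0] at h0; exact absurd h0 (by simp)), if_pos h0]
        simp
      · exact Nat.zero_le _
    rw [← Finset.sum_filter, Finset.sum_const, w6_first, smul_eq_mul] at hge
    calc 2 ^ (m' + 1 + B) = 2 * (2 ^ m' * 2 ^ B) := by rw [pow_add, pow_succ]; ring
      _ ≤ _ := Nat.mul_le_mul_left _ hge

end Pool.Agent.H330ST.JW6
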