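import Pool.Agent.H330ST.Spec
set_option autoImplicit false
noncomputable section
namespace Pool.Agent.H330ST.JZ
open Pool.Agent.H685R2.Poly
open scoped ENNReal
open MeasureTheory

theorem z_meas_blk (k i : ℕ) (Q : (Fin k → Bool) → Prop) :
    MeasurableSet {ω : ℕ → Bool | Q (blkω k ω i)} := by
  have hm : Measurable (fun (ω : ℕ → Bool) => blkω k ω i) :=
    measurable_pi_lambda _ (fun j => measurable_pi_apply _)
  exact hm (Set.toFinite {v : Fin k → Bool | Q v}).measurableSet

theorem z_ofFn (k i : ℕ) (ω : ℕ → Bool) :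
    List.ofFn (blkω k ω i) = (List.range k).map (fun j => ω (i * k + j)) := by
  have e3 : List.range k = (List.finRange k).map Fin.val := by simp
  rw [e3, List.map_map, List.ofFn_eq_map]
  rfl

theorem z_flat (k : ℕ) (ω : ℕ → Bool) (i : ℕ) :
    (List.range (i * k)).map ω =
      ((List.range i).map (fun j => List.ofFn (blkω k ω j))).flatten := by
  induction i with
  | zero => simp
  | succ i ih =>
    rw [Nat.succ_mul, List.range_add, List.map_append, ih, List.range_succ, List.map_append,
      List.flatten_append, List.map_map]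
    congr 1
    simp only [List.map_cons, List.map_nil, List.flatten_cons, List.flatten_nil, List.append_nil]
    rw [z_ofFn]
    rfl

theorem z_range (k : ℕ) (ω : ℕ → Bool) (i L : ℕ) (hL : (i + 1) * k ≤ L) :
    ∃ s3, (List.range L).map ω = ((List.range i).map (fun j => List.ofFn (blkω k ω j))).flatten ++
      (List.ofFn (blkω k ω i) ++ s3) := by
  obtain ⟨r, rfl⟩ := Nat.exists_eq_add_of_le hL
  refine ⟨((List.range r).map ((i + 1) * k + ·)).map ω, ?_⟩
  rw [List.range_add, List.map_append, z_flat, List.range_succ, List.map_append,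
      List.flatten_append]
  simp [List.append_assoc]

theorem z_card {l : List (List ℕ)} {F : Finset (Finset ℕ)} (h : Lists l F) :
    l.length = F.card := by
  obtain ⟨h1, h2, h3, h4⟩ := h
  have hnd : (l.map List.toFinset).Nodup := by
    apply List.Nodup.map_on _ h1
    intro f hf g hg hfg
    have hf2 := h2 f hf
    have hg2 := h2 g hg
    have nf : f.Nodup := hf2.imp (fun h => Nat.ne_of_lt h)
    have ng : g.Nodup := hg2.imp (fun h => Nat.ne_of_lt h)
    have hp : f.Perm g := List.perm_of_nodup_nodup_toFinset_eq nf ng hfg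
    exact hp.eq_of_pairwise (fun a b _ _ h1 h2 => absurd (h1.trans h2) (lt_irrefl _)) hf2 hg2
  have e : F = (l.map List.toFinset).toFinset := by
    ext s
    rw [h3 s, List.mem_toFinset, List.mem_map]
  rw [e, List.toFinset_card_of_nodup hnd, List.length_map]

theorem z_face {l : List (List ℕ)} {F : Finset (Finset ℕ)} (h : Lists l F) :
    ∀ f ∈ l, f.length ≤ l.length ∧ ∀ v ∈ f, v < l.length := by
  obtain ⟨h1, h2, h3, h4⟩ := h
  intro f hf
  refine ⟨?_, h4 f hf⟩
  have nf : f.Nodup := (h2 f hf).imp (fun h => Nat.ne_of_lt h)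
  rw [← List.toFinset_card_of_nodup nf]
  have : f.toFinset ⊆ Finset.range l.length := by
    intro v hv
    rw [List.mem_toFinset] at hv
    exact Finset.mem_range.2 (h4 f hf v hv)
  exact (Finset.card_le_card this).trans (by simp)

theorem z_dsize {l : List (List ℕ)} (h : ∀ f ∈ l, f.length ≤ l.length ∧ ∀ v ∈ f, v < l.length) :
    dsize l ≤ l.length * (l.length * (2 * l.length + 2) + 2) + 1 := by
  have h1 : ∀ f ∈ l, dsize f ≤ l.length * (2 * l.length + 2) + 1 := by
    intro f hf
    have h2 := dsize_map_le f id (2 * l.length + 1) (by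
      intro v hv
      have := (h f hf).2 v hv
      rw [id, dsize_nat]
      omega)
    rw [List.map_id] at h2
    refine h2.trans ?_
    have h5 : f.length * (2 * l.length + 1 + 1) ≤ l.length * (2 * l.length + 2) :=
      Nat.mul_le_mul_right (2 * l.length + 1 + 1) (h f hf).1
    omega
  have h3 := dsize_map_le l id (l.length * (2 * l.length + 2) + 1) (by
    intro f hf
    exact h1 f hf)
  rw [List.map_id] at h3
  exact h3

open Classical in
theorem z_count {X Y S : Type} [Fintype X] (B : X → List Y) (bas : Y → Prop) (Tr : Y → S)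
    (STs : Finset S) (q : ℕ)
    (hinj : ∀ x y, bas x → bas y → Tr x = Tr y → x = y)
    (hST : ∀ x, bas x → Tr x ∈ STs) (hsur : ∀ U ∈ STs, ∃ x, bas x ∧ Tr x = U)
    (hq : ∀ x, bas x → (Finset.univ.filter (fun v => B v = [x])).card = q)
    (hB : ∀ v, B v = [] ∨ ∃ x, bas x ∧ B v = [x]) (tr : X → S)
    (htr : ∀ v x, B v = [x] → tr v = Tr x) :
    (∀ U ∈ STs, (Finset.univ.filter (fun v => B v ≠ [] ∧ tr v = U)).card = q) ∧
      (Finset.univ.filter (fun v => B v ≠ [])).card = STs.card * q := by
  have h1 : ∀ U ∈ STs, (Finset.univ.filter (fun v => B v ≠ [] ∧ tr v = U)).card = q := by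
    intro U hU
    obtain ⟨x, hx, rfl⟩ := hsur U hU
    rw [← hq x hx]
    congr 1
    ext v
    simp only [Finset.mem_filter, Finset.mem_univ, true_and]
    constructor
    · rintro ⟨h2, h3⟩
      rcases hB v with h4 | ⟨y, hy, h4⟩
      · exact absurd h4 h2
      · rw [htr v y h4] at h3
        rw [h4, hinj y x hy hx h3]
    · intro h2
      exact ⟨by rw [h2]; simp, htr v x h2⟩
  refine ⟨h1, ?_⟩
  have hmaps : ∀ v ∈ Finset.univ.filter (fun v => B v ≠ []), tr v ∈ STs := by
    intro v hv
    simp only [Finset.mem_filter, Finset.mem_univ, true_and] at hv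
    rcases hB v with h4 | ⟨y, hy, h4⟩
    · exact absurd h4 hv
    · rw [htr v y h4]
      exact hST y hy
  rw [Finset.card_eq_sum_card_fiberwise hmaps]
  rw [Finset.sum_congr rfl (g := fun _ => q)]
  · simp
  · intro U hU
    rw [Finset.filter_filter]
    exact h1 U hU

theorem z_pf (h11 : SProgs) (K : ℕ) :
    PF (fun l : List (List ℕ) => MP l (K * l.length)) := by
  have h := h11.2.2.2.2
  exact PF.comp (g := fun q : List (List ℕ) × ℕ => MP q.1 q.2) h
    (PF.pair PF.id' (PF.mul (PF.const K) (PF.length PF.id')))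


theorem z_sum (f : ℕ → ℕ) (i : ℕ) : ((List.range i).map f).sum = ∑ j ∈ Finset.range i, f j := by
  induction i with
  | zero => simp
  | succ i ih =>
    rw [List.range_succ, List.map_append, List.sum_append, ih, Finset.sum_range_succ]
    simp

open Classical in
/-- TARGET -/
theorem main (h1 : SAvg) (h2 : SLoop) (h3 : SMachine) (h4 : SMeas) (h5 : SProb) (h6 : SBlock) (h7 : SInd) (h8 : STree) (h9 : SParam) (h10 : SEnc) (h11 : SProgs) : SMain := by
  obtain ⟨K, T, P, hK, hTF, hAvg⟩ := h1
  obtain ⟨c, q, hloop⟩ := h2 (fun l : List (List ℕ) => MP l (K * l.length)) (blkF K) T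
    (z_pf h11 K) hTF
  obtain ⟨M, hM⟩ := h3 c
  refine ⟨M, 1 + 2 * (100 * P + q.comp (Polynomial.X * (Polynomial.X * (2 * Polynomial.X + 2) + 2) + 1)), ?_⟩
  intro F d l hF hd hdim hl
  have hcard := z_card hl
  have hface := z_face hl
  have hpos : 1 ≤ l.length := by
    rw [hcard]
    obtain ⟨s, hs, _⟩ := hdim.1
    exact Finset.card_pos.2 ⟨s, hs⟩
  obtain ⟨p1, p2, p3, p4, p5⟩ := h9 l
  have hlin : LinOracle (indQ l) (kP l) :=
    ⟨_, inferInstance, inferInstance, fun i => col F d (((topF l).getD i []).toFinset),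
      fun x hx => h7 F d l hF hd hdim hl x hx⟩
  obtain ⟨Q, hQ0, hQ1, hQ2, hQ3⟩ := h6 (indQ l) (kP l) (aP l) (tP l (K * l.length)) (K * l.length)
    (2 ^ (kP l + 2 * aP l)) hlin (Nat.one_le_iff_ne_zero.2 (by positivity)) p1 p2 (p3 _) le_rfl
  obtain ⟨Tr, hT1, hT2, hT3⟩ := h8 F d l hF hd hdim hl
  set k := MP l (K * l.length) with hk
  have hk' : K * l.length + 2 * aP l * tP l (K * l.length) = k := rfl
  rw [hk'] at hQ1 hQ3
  have hx0 : greedy (indQ l) (kP l) = x0P l := rfl
  rw [hx0] at hQ1 hQ2 hQ3
  set B : List Bool → List (List Bool) := fun w =>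
    blockOut (indQ l) (aP l) (tP l (K * l.length)) (K * l.length) (x0P l)
      (2 ^ (kP l + 2 * aP l)) w with hBdef
  set bas : List Bool → Prop := IsBas (indQ l) (kP l) (cntT (x0P l)) with hbas
  have hB2 : ∀ w, B w = [] ∨ ∃ x, bas x ∧ B w = [x] := hQ2
  have hblk : ∀ w, blkF K (l, w) = (B w).map (fun x => outF l x) := fun w => rfl
  have hfin : {T | IsSpanningTree F d T}.Finite :=
    (Finset.finite_toSet F.powerset).subset (fun T hT => by
      simpa using (hT : IsSpanningTree F d T).1)
  set tr : (Fin k → Bool) → Finset (Finset ℕ) := fun v => Tr ((B (List.ofFn v)).headD []) with htr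
  have htr1 : ∀ v x, B (List.ofFn v) = [x] → tr v = Tr x := by
    intro v x h
    simp only [htr, h, List.headD_cons]
  have hcount := z_count (fun v : Fin k → Bool => B (List.ofFn v)) bas Tr hfin.toFinset Q hT2
    (fun x hx => by simpa using (hT1 x hx).1) (fun U hU => hT3 U (by simpa using hU))
    (fun x hx => by
      have := hQ1 x hx
      unfold cntW at this
      convert this) (fun v => hB2 _) tr htr1
  obtain ⟨hc1, hc2⟩ := hcount
  set ok : (Fin k → Bool) → Prop := fun v => B (List.ofFn v) ≠ [] with hok
  have hhalf : 2 ^ k ≤ 2 * (Finset.univ.filter (fun v => ok v)).card := by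
    unfold cntW at hQ3
    convert hQ3
  obtain ⟨hP1, hP2, hP3⟩ := h5 k ok (by convert hhalf)
  -- the tree
  set tree : (ℕ → Bool) → Finset (Finset ℕ) := fun ω =>
    if h : ∃ i, ok (blkω k ω i) then tr (blkω k ω (Nat.find h)) else ∅ with htree
  set time : (ℕ → Bool) → ℕ := fun ω =>
    if h : ∃ t y, M.Halts (encFaces l) ω t y then h.choose else 0 with htime
  have htree1 : ∀ ω, (∃ i, ok (blkω k ω i)) → ∀ T, tree ω = T ↔
      ∃ i, (∀ j < i, ¬ ok (blkω k ω j)) ∧ (ok (blkω k ω i) ∧ tr (blkω k ω i) = T) := by
    intro ω h T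
    have e : tree ω = tr (blkω k ω (Nat.find h)) := by
      simp only [htree]
      rw [dif_pos h]
    rw [e]
    constructor
    · intro h2
      exact ⟨Nat.find h, fun j hj => Nat.find_min h hj, Nat.find_spec h, h2⟩
    · rintro ⟨i, h2, h3, h4⟩
      have : Nat.find h = i := (Nat.find_eq_iff h).2 ⟨h3, h2⟩
      rw [this, h4]
  have hmain : ∀ (ω : ℕ → Bool) (hω : ∃ i, ok (blkω k ω i)), ∃ x, bas x ∧
      B (List.ofFn (blkω k ω (Nat.find hω))) = [x] ∧
      M.Halts (encFaces l) ω (time ω) (encFaces (outF l x)) ∧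
      time ω ≤ 1 + ∑ j ∈ Finset.range (Nat.find hω + 1),
        (100 * T (l, List.ofFn (blkω k ω j)) + q.eval (dsize l)) := by
    intro ω hω
    obtain ⟨x, hx, hBx⟩ : ∃ x, bas x ∧ B (List.ofFn (blkω k ω (Nat.find hω))) = [x] :=
      (hB2 _).resolve_left (Nat.find_spec hω)
    set i := Nat.find hω with hi
    have hev : ∀ L ≥ (i + 1) * k, ∃ ρ, Ev c ⟨(denc l).enc, [], [], (List.range L).map ω⟩
        ⟨(denc (outF l x)).enc, [], [], ρ⟩
        (∑ j ∈ Finset.range (i + 1), (100 * T (l, List.ofFn (blkω k ω j)) + q.eval (dsize l))) := by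
      intro L hL
      obtain ⟨s3, hs3⟩ := z_range k ω i L hL
      refine ⟨s3, ?_⟩
      rw [hs3]
      have h := hloop l ((List.range i).map (fun j => List.ofFn (blkω k ω j)))
        (List.ofFn (blkω k ω i)) (outF l x) s3 (by
          intro v hv
          obtain ⟨j, hj, rfl⟩ := List.mem_map.1 hv
          refine ⟨by simp [hk], ?_⟩
          rw [hblk]
          have h13 : ¬ ok (blkω k ω j) := Nat.find_min hω (List.mem_range.1 hj)
          have h14 : B (List.ofFn (blkω k ω j)) = [] := by
            by_contra h15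
            exact h13 h15
          rw [h14, List.map_nil]) (by simp [hk]) (by rw [hblk, hBx]; rfl)
      convert h using 1
      rw [List.map_append, List.sum_append, List.map_map, Finset.sum_range_succ, List.map_singleton,
        List.sum_singleton, z_sum]
      rfl
    obtain ⟨t', ht', hH⟩ := hM _ _ ω _ _ hev
    rw [h10, h10] at hH
    have hex : ∃ t y, M.Halts (encFaces l) ω t y := ⟨_, _, hH⟩
    have e1 : time ω = hex.choose := by
      simp only [htime]
      rw [dif_pos hex]
    obtain ⟨y, hy⟩ := hex.choose_spec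
    have e2 : time ω = t' := by
      rw [e1]
      exact ((h4 M (encFaces l)).2 ω _ _ _ _ hy hH).1
    refine ⟨x, hx, hBx, ?_, ?_⟩
    · rw [e2]
      exact hH
    · rw [e2, add_comm]
      exact ht'
  refine ⟨time, tree, ?_, ?_, ?_, ?_, ?_⟩
  · -- measurability of time
    apply measurable_to_countable'
    intro n
    have e : time ⁻¹' {n} = (⋃ y : List Bool, {ω | M.Halts (encFaces l) ω n y}) ∪
        (if n = 0 then (⋃ t : ℕ, ⋃ y : List Bool, {ω | M.Halts (encFaces l) ω t y})ᶜ else ∅) := by
      ext ω
      simp only [Set.mem_preimage, Set.mem_singleton_iff, Set.mem_union, Set.mem_iUnion]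
      by_cases h : ∃ t y, M.Halts (encFaces l) ω t y
      · have e1 : time ω = h.choose := by
          simp only [htime]
          rw [dif_pos h]
        obtain ⟨y, hy⟩ := h.choose_spec
        rw [e1]
        constructor
        · intro h2
          left
          exact ⟨y, by rw [← h2]; exact hy⟩
        · rintro (⟨y', hy'⟩ | h2)
          · exact ((h4 M (encFaces l)).2 ω _ _ _ _ hy hy').1
          · split_ifs at h2 with hn
            · exfalso
              apply h2
              simp only [Set.mem_iUnion]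
              exact h
            · exact h2.elim
      · have e1 : time ω = 0 := by
          simp only [htime]
          rw [dif_neg h]
        rw [e1]
        constructor
        · intro h2
          right
          rw [if_pos h2.symm]
          intro h3
          simp only [Set.mem_iUnion] at h3
          exact h h3
        · rintro (⟨y', hy'⟩ | h2)
          · exact (h ⟨_, _, hy'⟩).elim
          · split_ifs at h2 with hn
            · exact hn.symm
            · exact h2.elim
    rw [e]
    apply MeasurableSet.union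
    · exact MeasurableSet.iUnion fun y => (h4 M (encFaces l)).1 n y
    · split_ifs
      · exact (MeasurableSet.iUnion fun t => MeasurableSet.iUnion fun y =>
          (h4 M (encFaces l)).1 t y).compl
      · exact MeasurableSet.empty
  · -- measurability of tree
    intro T
    have e : {ω | tree ω = T} = (⋃ i : ℕ, ((⋂ j : ℕ, ⋂ _ : j < i, {ω | ¬ ok (blkω k ω j)}) ∩
          {ω | ok (blkω k ω i) ∧ tr (blkω k ω i) = T})) ∪
        (if T = ∅ then (⋂ i : ℕ, {ω | ¬ ok (blkω k ω i)}) else ∅) := by
      ext ω
      simp only [Set.mem_union, Set.mem_iUnion, Set.mem_inter_iff, Set.mem_iInter]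
      by_cases h : ∃ i, ok (blkω k ω i)
      · rw [Set.mem_ofPred_eq, htree1 ω h T]
        constructor
        · rintro ⟨i, h2, h3⟩
          exact Or.inl ⟨i, h2, h3⟩
        · rintro (⟨i, h2, h3⟩ | h2)
          · exact ⟨i, h2, h3⟩
          · split_ifs at h2 with hn
            · obtain ⟨i, hi⟩ := h
              simp only [Set.mem_iInter] at h2
              exact (h2 i hi).elim
            · exact h2.elim
      · have e1 : tree ω = ∅ := by
          simp only [htree]
          rw [dif_neg h]
        rw [Set.mem_ofPred_eq, e1]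
        constructor
        · intro h2
          right
          rw [if_pos h2.symm]
          simp only [Set.mem_iInter]
          intro i hi
          exact h ⟨i, hi⟩
        · rintro (⟨i, h2, h3⟩ | h2)
          · exact (h ⟨i, h3.1⟩).elim
          · split_ifs at h2 with hn
            · exact hn.symm
            · exact h2.elim
    rw [e]
    apply MeasurableSet.union
    · refine MeasurableSet.iUnion fun i => MeasurableSet.inter ?_ ?_
      · exact MeasurableSet.iInter fun j => MeasurableSet.iInter fun _ =>
          z_meas_blk k j (fun v => ¬ ok v)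
      · exact z_meas_blk k i (fun v => ok v ∧ tr v = T)
    · split_ifs
      · exact MeasurableSet.iInter fun i => z_meas_blk k i (fun v => ¬ ok v)
      · exact MeasurableSet.empty
  · -- almost surely the machine writes the tree
    filter_upwards [hP1] with ω hω
    obtain ⟨x, hx, hBx, hH⟩ := hmain ω hω
    have et : tree ω = Tr x := by
      rw [htree1 ω hω]
      exact ⟨Nat.find hω, fun j hj => Nat.find_min hω hj, Nat.find_spec hω, htr1 _ _ hBx⟩
    rw [et]
    refine ⟨(hT1 x hx).1, ?_⟩
    rw [← (hT1 x hx).2]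
    exact hH.1
  · -- the distribution
    intro T hT
    have hTm : T ∈ hfin.toFinset := by simpa using hT
    have e1 : coinMeasure {ω | tree ω = T} =
        coinMeasure {ω | ∃ i, (∀ j < i, ¬ ok (blkω k ω j)) ∧
          (ok (blkω k ω i) ∧ tr (blkω k ω i) = T)} := by
      apply measure_congr
      filter_upwards [hP1] with ω hω
      exact propext (htree1 ω hω T)
    have hQ := hP2 (fun v => ok v ∧ tr v = T) (fun v hv => hv.1)
    rw [e1]
    refine hQ.trans ?_
    have e2 : (Finset.univ.filter (fun v => ok v ∧ tr v = T)).card = Q := by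
      convert hc1 T hTm
    have e3 : (Finset.univ.filter (fun v => ok v)).card =
        Set.ncard {T | IsSpanningTree F d T} * Q := by
      rw [Set.ncard_eq_toFinset_card _ hfin]
      convert hc2
    have e4 : ((Finset.univ.filter (fun v => ok v ∧ tr v = T)).card : ℝ≥0∞) /
        ((Finset.univ.filter (fun v => ok v)).card : ℝ≥0∞) =
        1 / (Set.ncard {T | IsSpanningTree F d T} : ℝ≥0∞) := by
      rw [e2, e3]
      push_cast
      rw [← ENNReal.mul_div_mul_right 1 _ (c := (Q : ℝ≥0∞)) (by exact_mod_cast hQ0.ne')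
        (ENNReal.natCast_ne_top _), one_mul]
    convert e4
  · -- the expected time
    set cost : (Fin k → Bool) → ℕ := fun v => 100 * T (l, List.ofFn v) + q.eval (dsize l) with hcost
    set G : (ℕ → Bool) → ℝ≥0∞ := fun ω =>
      ∑' i, if (∀ j < i, ¬ ok (blkω k ω j)) then (cost (blkω k ω i) : ℝ≥0∞) else 0 with hG
    have hb : ∀ᵐ ω ∂coinMeasure, (time ω : ℝ≥0∞) ≤ 1 + G ω := by
      filter_upwards [hP1] with ω hω
      obtain ⟨x, hx, hBx, hH⟩ := hmain ω hω
      have h12 : (time ω : ℝ≥0∞) ≤ ((1 + ∑ j ∈ Finset.range (Nat.find hω + 1),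
          cost (blkω k ω j) : ℕ) : ℝ≥0∞) := by exact_mod_cast hH.2
      refine h12.trans ?_
      push_cast
      gcongr
      refine le_trans (le_of_eq ?_) (ENNReal.sum_le_tsum (Finset.range (Nat.find hω + 1)))
      apply Finset.sum_congr rfl
      intro j hj
      rw [if_pos]
      intro j' hj'
      exact Nat.find_min hω (by
        have := Finset.mem_range.1 hj
        omega)
    refine (lintegral_mono_ae hb).trans ?_
    rw [lintegral_add_left measurable_const, lintegral_const, measure_univ, mul_one]
    have hb2 : ∫⁻ ω, G ω ∂coinMeasure ≤ 2 * (∑ v, (cost v : ℝ≥0∞)) / 2 ^ k := by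
      convert hP3 cost
    have hsum : 2 * (∑ v, cost v) ≤ (2 * (100 * P.eval l.length + q.eval (dsize l))) * 2 ^ k := by
      have e5 : ∑ v, cost v = 100 * ∑ v : Fin k → Bool, T (l, List.ofFn v) + 2 ^ k * q.eval (dsize l) := by
        simp only [hcost, Finset.sum_add_distrib, Finset.mul_sum, Finset.sum_const, Finset.card_univ]
        simp
      rw [e5]
      have := hAvg l hface
      nlinarith
    have hb3 : 2 * (∑ v, (cost v : ℝ≥0∞)) / 2 ^ k ≤
        ((2 * (100 * P.eval l.length + q.eval (dsize l)) : ℕ) : ℝ≥0∞) := by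
      apply ENNReal.div_le_of_le_mul
      exact_mod_cast hsum
    have hb4 : (1 : ℝ≥0∞) + ((2 * (100 * P.eval l.length + q.eval (dsize l)) : ℕ) : ℝ≥0∞) ≤
        (((1 + 2 * (100 * P + q.comp (Polynomial.X * (Polynomial.X * (2 * Polynomial.X + 2) + 2) + 1))).eval F.card : ℕ) : ℝ≥0∞) := by
      rw [← hcard]
      simp only [Polynomial.eval_add, Polynomial.eval_mul, Polynomial.eval_one, Polynomial.eval_comp,
        Polynomial.eval_X, Polynomial.eval_ofNat]
      have := eval_mono q (z_dsize hface)
      exact_mod_cast (by omega : 1 + 2 * (100 * P.eval l.length + q.eval (dsize l)) ≤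
        1 + 2 * (100 * P.eval l.length +
          q.eval (l.length * (l.length * (2 * l.length + 2) + 2) + 1)))
    exact (add_le_add le_rfl (hb2.trans hb3)).trans hb4
end Pool.Agent.H330ST.JZ
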