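import Pool.Agent.H330ST.JP1
import Pool.Agent.H330ST.JP1b
import Pool.Agent.H330ST.JP2
import Pool.Agent.H330ST.JP3
import Pool.Agent.H330ST.JP4
import Pool.Agent.H330ST.JP5
import Pool.Agent.H330ST.JP6
import Pool.Agent.H330ST.JP7
import Pool.Agent.H330ST.JP8
import Pool.Agent.H330ST.JP9
import Pool.Agent.H330ST.JP10
import Pool.Agent.H330ST.JP11
import Pool.Agent.H330ST.JM1
import Pool.Agent.H330ST.JM2
import Pool.Agent.H330ST.JM3
import Pool.Agent.H330ST.JM4
import Pool.Agent.H330ST.JM5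
import Pool.Agent.H330ST.JM6
import Pool.Agent.H330ST.JV1
import Pool.Agent.H330ST.JV2
import Pool.Agent.H330ST.JV3
import Pool.Agent.H330ST.JV4
import Pool.Agent.H330ST.JV6
import Pool.Agent.H330ST.JV8
import Pool.Agent.H330ST.JW1
import Pool.Agent.H330ST.JW2
import Pool.Agent.H330ST.JW3
import Pool.Agent.H330ST.JW4
import Pool.Agent.H330ST.JW5
import Pool.Agent.H330ST.JW6
import Pool.Agent.H330ST.JL1
import Pool.Agent.H330ST.JL2
import Pool.Agent.H330ST.JL3
import Pool.Agent.H330ST.JL4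
import Pool.Agent.H330ST.JL5
import Pool.Agent.H330ST.JL6
import Pool.Agent.H330ST.JZ

/-!
Assembly of the exact sampler for simplicial spanning trees.
-/

set_option autoImplicit false

noncomputable section

namespace Pool.Agent.H330ST.Main

open Pool.Agent.H330ST

theorem stp : SStp := JP1.pStp JP1.pCap
theorem run : SRun := JP1b.pRun stp
theorem dp : SDp := JP4.pDp stp JP2.pArith JP3.pLookup
theorem sel : SSel := JP5.pSel JP2.pArith JP3.pLookup
theorem slow : SSlow := JP6.pSlow JP3.pMasks dp sel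
theorem fast : SFast := JP6.pFast run
theorem selC : SSelC := JP7.pSelC JP7.pFaces
theorem indQ : SIndQ := JP10.pIndQ JP7.pFaces selC (JP8.pColP JP7.pMd) (JP9.pElimPF JP7.pMd)
theorem progs : SProgs := JP11.pProgs indQ JP1b.pGreedy slow fast JP7.pFaces selC
theorem avg : SAvg := JM6.avgT (JM1.tfPad JM1.tfOps) JM1.tfOps progs JL6.sParam
theorem rec : VRec := JV2.vRec JV2.vSplit
theorem vdp : VDp := JV3.vDp JV1.vArith JV2.vMasks JV2.vSplit rec
theorem vsel : VSel := JV4.vSel JV1.vArith JV1.vBij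
theorem vmax : VMax := JV4.vMax JV1.vArith
theorem rev : VRev := JV8.vRev JV6.vStep rec
theorem mix : VMix := JW5.vMix JV6.vStep rec JW1.sExch JW2.sQQ JW3.sGap JW4.sMix
theorem block : SBlock := JW6.sBlock mix rev vdp vsel vmax JV2.vSplit JV2.vMasks JW1.sGr JV6.vStep
  JV1.vArith
theorem ind : SInd := JL4.sInd JL1.sElim (JL3.sRat JL2.sPrime) JL2.sPrB
theorem tree : STree := JL5.sTree ind JW1.sGr

theorem main : SMain := JZ.main avg JM2.loopT JM3.machineT JM4.measT JM5.probT block ind tree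
  JL6.sParam JL6.sEnc progs

end Pool.Agent.H330ST.Main
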